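import Pool.Agent.NH7.AC.Stms

/-!
# Project AC: derivations of field extensions in characteristic zero
-/

set_option autoImplicit false

namespace Pool.Agent.NH7.AC

open scoped TensorProduct

namespace AlgP

/-- A derivation of a subring extends to a formally étale extension. -/
lemma exists_ext {E S Ω : Type} [Field E] [CommRing S] [Field Ω] [Algebra E S] [Algebra E Ω]
    [Algebra S Ω] [IsScalarTower E S Ω] [Algebra.FormallyEtale S Ω] (D : Derivation E S Ω) :
    ∃ δ : Derivation E Ω Ω, ∀ s : S, δ (algebraMap S Ω s) = D s := by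
  let L : Ω ⊗[S] (Ω[S⁄E]) →ₗ[Ω] Ω := TensorProduct.AlgebraTensorModule.lift
    ((LinearMap.lsmul Ω (Ω[S⁄E] →ₗ[S] Ω)).flip D.liftKaehlerDifferential)
  refine ⟨(L ∘ₗ (KaehlerDifferential.tensorKaehlerEquivOfFormallyEtale E S Ω).symm.toLinearMap).compDer
    (KaehlerDifferential.D E Ω), fun s => ?_⟩
  show L ((KaehlerDifferential.tensorKaehlerEquivOfFormallyEtale E S Ω).symm
    (KaehlerDifferential.D E Ω (algebraMap S Ω s))) = D s
  rw [KaehlerDifferential.tensorKaehlerEquivOfFormallyEtale_symm_D_algebraMap]
  simp [L]

end AlgP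

theorem s_alg : S_alg := by
  intro E Ω _ _ _ _
  refine ⟨?_, ?_⟩
  · intro δ x hx
    have hint := hx.isIntegral
    have hsep : (minpoly E x).Separable := (minpoly.irreducible hint).separable
    have h1 : Polynomial.aeval x (Polynomial.derivative (minpoly E x)) • δ x = 0 := by
      rw [← Derivation.map_aeval, minpoly.aeval, map_zero]
    have h2 := hsep.aeval_derivative_ne_zero (minpoly.aeval E x)
    exact (smul_eq_zero.1 h1).resolve_left h2
  · intro x hx
    have hai : AlgebraicIndepOn E id ({x} : Set Ω) := by
      have h1 : AlgebraicIndependent E (fun y : ({x} : Set Ω) => (y : Ω)) := by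
        rw [algebraicIndependent_unique_type_iff]
        exact hx
      exact h1
    obtain ⟨s, hxs, hs⟩ := exists_isTranscendenceBasis_superset hai
    have hxs' : x ∈ s := hxs rfl
    -- the polynomial ring
    let S := MvPolynomial s E
    let φ : S →ₐ[E] Ω := MvPolynomial.aeval ((↑) : s → Ω)
    let _ : Algebra S Ω := φ.toRingHom.toAlgebra
    have hst : IsScalarTower E S Ω := IsScalarTower.of_algebraMap_eq' φ.comp_algebraMap.symm
    have hinj : Function.Injective (algebraMap S Ω) := hs.1
    have hfs : FaithfulSMul S Ω := (faithfulSMul_iff_algebraMap_injective S Ω).2 hinj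
    let _ : Algebra (FractionRing S) Ω := FractionRing.liftAlgebra S Ω
    have hst2 : IsScalarTower S (FractionRing S) Ω := FractionRing.isScalarTower_liftAlgebra S Ω
    have halg : Algebra.IsAlgebraic S Ω := by
      have h1 := hs.isAlgebraic
      refine ⟨fun z => ?_⟩
      obtain ⟨p, hp0, hp⟩ := h1.isAlgebraic z
      let e := hs.1.aevalEquiv
      have he : ∀ y, algebraMap S Ω (e.symm y) = algebraMap _ Ω y := by
        intro y
        obtain ⟨w, rfl⟩ := e.surjective y
        rw [AlgEquiv.symm_apply_apply]
        exact (hs.1.algebraMap_aevalEquiv w).symm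
      refine ⟨p.map (e.symm : _ →+* S), ?_, ?_⟩
      · rw [Ne, Polynomial.map_eq_zero_iff]
        · exact hp0
        · exact e.symm.injective
      · rw [Polynomial.aeval_def, Polynomial.eval₂_map]
        rw [Polynomial.aeval_def] at hp
        rw [← hp]
        congr 1
        ext y
        exact he y
    have halg2 : Algebra.IsAlgebraic (FractionRing S) Ω :=
      IsFractionRing.comap_isAlgebraic_iff.1 halg
    have hch : CharZero (FractionRing S) :=
      charZero_of_injective_algebraMap (IsFractionRing.injective S (FractionRing S))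
    have : Algebra.FormallyEtale (FractionRing S) Ω := Algebra.FormallyEtale.of_isSeparable _ _
    have : Algebra.FormallyEtale S (FractionRing S) :=
      Algebra.FormallyEtale.of_isLocalization (nonZeroDivisors S)
    have : Algebra.FormallyEtale S Ω := Algebra.FormallyEtale.comp S (FractionRing S) Ω
    classical
    obtain ⟨δ, hδ⟩ := AlgP.exists_ext
      (MvPolynomial.mkDerivation E (A := Ω) (Pi.single (⟨x, hxs'⟩ : s) (1 : Ω)))
    refine ⟨δ, ?_⟩
    have h2 := hδ (MvPolynomial.X ⟨x, hxs'⟩)
    have h3 : algebraMap S Ω (MvPolynomial.X ⟨x, hxs'⟩) = x := MvPolynomial.aeval_X _ _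
    rw [h3, MvPolynomial.mkDerivation_X, Pi.single_eq_same] at h2
    rw [h2]
    exact one_ne_zero

end Pool.Agent.NH7.AC
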