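import Pool.Agent.NH7.AC.Defs
import Pool.Agent.R939.HI.Base

/-!
# Project AC: the transfer statement
-/

set_option autoImplicit false

namespace Pool.Agent.NH7.AC

open Pool.Agent.W275.UB

/-- `S_tr` (H1) -/
def S_tr : Prop := ∀ (ι τ : Type) [Fintype ι] [Fintype τ]
  (Q : ∀ (R : Type) [CommRing R], (ι → R) → (τ → R) → Prop), Natl ι τ Q →
  (∀ (E Ω : Type) [Field E] [CharZero E] [Field Ω] [IsAlgClosed Ω] [Algebra E Ω] (v : ι → Ω)
    (y : τ → Ω), (∀ i, IsAlgebraic E (v i)) → (∀ c : MvPolynomial ι ℤ, c ≠ 0 → avv v c ≠ 0) →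
    Q Ω v y → ∀ j, IsAlgebraic E (y j)) →
  ∀ (ℓ M : ℕ) (a : ℕ → ι → ℤ),
  (∀ p' : ℕ, p'.Prime → p' ≠ ℓ → ∀ (K' : Type) [Field K'] (A : Type) [CommRing A] [IsDomain A]
    [IsDiscreteValuationRing A] [Algebra A K'] [IsFractionRing A K'] (π : A), Irreducible π →
    π ∣ (p' : A) → ¬ π ^ 2 ∣ (p' : A) → ∀ b : ι → A, (∀ i, (p' : A) ^ M ∣ b i - (a p' i : A)) →
    (∀ c : MvPolynomial ι ℤ, c ≠ 0 → avv (fun i => algebraMap A K' (b i)) c ≠ 0) →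
    ∀ y : τ → K', ¬ Q K' (fun i => algebraMap A K' (b i)) y) →
  ∀ (O J : Type) [CommRing O] [IsDomain O] [Fintype J] (ω : Module.Basis J ℤ O),
  D0 {x : ι × J → ℤ | ∃ (K : Type) (_ : Field K) (_ : NumberField K) (σ : O →+* K) (y : τ → K),
    Module.finrank ℚ K ≤ Fintype.card J ∧ Q K (cv (fun j => σ (ω j)) fun q => (x q : K)) y}

end Pool.Agent.NH7.AC
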