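import Pool.Agent.NH7.AC.Stms
import Pool.Agent.NH7.AC.StmTr

/-!
# Project AC: assembly
-/

set_option autoImplicit false

namespace Pool.Agent.NH7.AC

open Polynomial Module Pool.Agent.W275.UB NumberField

/-- the local point: `x ^ N - t ^ n + p` -/
def aP (N n : ℕ) (p : ℕ) (q : Ix N n) : ℤ :=
  if (q.1.1 : ℕ) = 0 ∧ (q.1.2 : ℕ) = 0 then (p : ℤ) else
    if (q.1.1 : ℕ) = 0 ∧ (q.1.2 : ℕ) = n then -1 else 0

theorem cusp_of {N n : ℕ} (hn : 0 < n) {p : ℕ} {A : Type} [CommRing A] [IsDomain A]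
    [IsDiscreteValuationRing A] {π : A} (hπ : Irreducible π) (h1 : π ∣ (p : A))
    (h2 : ¬ π ^ 2 ∣ (p : A)) {b : Ix N n → A} (hb : ∀ i, (p : A) ^ 2 ∣ b i - (aP N n p i : A)) :
    Cusp π b := by
  have hpp : π ∣ (p : A) ^ 2 := h1.trans (dvd_pow_self _ two_ne_zero)
  have hmem : ∀ a : A, ¬ IsUnit a → π ∣ a := by
    intro a ha
    have h := (IsDiscreteValuationRing.irreducible_iff_uniformizer π).1 hπ
    rw [← Ideal.mem_span_singleton, ← h, IsLocalRing.mem_maximalIdeal]
    exact ha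
  refine ⟨?_, ?_, ?_⟩
  · intro q e1 e2
    have h3 := hb q
    have h4 : (aP N n p q : A) = -1 := by
      unfold aP
      rw [if_neg (by omega), if_pos ⟨e1, e2⟩]
      simp
    rw [h4, sub_neg_eq_add] at h3
    exact hpp.trans h3
  · intro q e1 e2
    have h3 := hb q
    have h4 : (aP N n p q : A) = (p : A) := by
      unfold aP
      rw [if_pos ⟨e1, e2⟩]
      simp
    rw [h4] at h3
    obtain ⟨c, hc⟩ := h3
    obtain ⟨w, hw⟩ := h1
    have hwu : IsUnit w := by
      by_contra hwn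
      obtain ⟨w', hw'⟩ := hmem w hwn
      exact h2 ⟨w', by rw [hw, hw']; ring⟩
    have hu : IsUnit (1 + (p : A) * c) := by
      by_contra hnu
      have h5 := hmem _ hnu
      have h6 : π ∣ (1 : A) := by
        have h7 : π ∣ (p : A) * c := Dvd.dvd.mul_right (by rw [hw]; exact dvd_mul_right _ _) _
        exact (dvd_add_left h7).1 h5
      exact hπ.not_isUnit (isUnit_of_dvd_one h6)
    refine ⟨w * (1 + (p : A) * c), hwu.mul hu, ?_⟩
    have h8 : b q = (p : A) + (p : A) ^ 2 * c := by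
      rw [← hc]
      ring
    rw [h8, pow_two, mul_assoc]
    nth_rewrite 1 [← mul_one (p : A)]
    rw [← mul_add, hw]
    ring
  · intro q hq
    have h3 := hb q
    by_cases h0 : (q.1.1 : ℕ) = 0 ∧ (q.1.2 : ℕ) = 0
    · have h4 : (aP N n p q : A) = (p : A) := by
        unfold aP
        rw [if_pos h0]
        simp
      rw [h4] at h3
      have h5 := dvd_add (hpp.trans h3) h1
      rwa [sub_add_cancel] at h5
    · have h4 : (aP N n p q : A) = 0 := by
        unfold aP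
        rw [if_neg h0, if_neg hq]
        simp
      rw [h4, sub_zero] at h3
      exact hpp.trans h3

/-- everything about smooth members of the family -/
theorem ded_of (hwt : S_wt) (hdom : S_dom) (hded : S_ded) {N n : ℕ} (hN : 0 < N) (hn : 0 < n)
    (hc : N.Coprime n) {K : Type} [Field K] {v : Ix N n → K} (hT : TopUnit v)
    (hs : SmoothF (ff v)) : IsDedekindDomain (BB v) := by
  obtain ⟨W, hW⟩ := hwt N n hN hn hc K v hT
  exact hded K (ff v) (ff_monic v) (hdom _ K _ W).1 hs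

/-- the conditions on a good curve -/
structure Good {k : Type} [Field k] (p : ℕ) (f : k[X][X]) : Prop where
  irreducible : ∀ (k' : Type) [Field k'] [Algebra k k'],
    Irreducible (f.map (mapRingHom (algebraMap k k')))
  smooth : SmoothF f
  dedekind : IsDedekindDomain (AdjoinRoot f)
  ideals : ∀ I : Ideal (AdjoinRoot f), (I ^ p).IsPrincipal → I.IsPrincipal
  units : ∀ u : (AdjoinRoot f)ˣ, ∃ c : k, (u : AdjoinRoot f) = algebraMap k (AdjoinRoot f) c

theorem irr_of (hwt : S_wt) (hdom : S_dom) {N n : ℕ} (hN : 0 < N) (hn : 0 < n)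
    (hc : N.Coprime n) {K : Type} [Field K] {v : Ix N n → K} (hT : TopUnit v) :
    Irreducible (ff v) := by
  obtain ⟨W, hW⟩ := hwt N n hN hn hc K v hT
  have h1 := (hdom _ K _ W).1
  have h2 : (Ideal.span {ff v}).IsPrime := Ideal.Quotient.isDomain_iff_prime _ |>.1 h1
  rw [Ideal.span_singleton_prime (ff_monic v).ne_zero] at h2
  exact h2.irreducible

section transfer

variable (hgap : S_gap) (hwt : S_wt) (hdom : S_dom)
  (hsmo : S_smo) (hded : S_ded) (hmin : S_min) (hmp : S_mp) (hnat : S_nat)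
  (hstd : S_std) (hsol : S_sol) (hout : S_out) (hcst : S_cst) (halg : S_alg) (hloc : S_loc)
  (htr : S_tr)

include hgap hwt hdom hsmo hded hmp hnat hout hcst halg hloc htr in
/-- the solutions of one system have density zero -/
theorem sys_D0 {N n p r D : ℕ} (hN : 0 < N) (hn : 0 < n) (hc : N.Coprime n) (hp : p.Prime)
    (hr : 1 ≤ r) {Γ : Fin ((p - 1) * r) → Bx N D} {o : Fin ((p - 1) * r)} (hΓ : Adm n p r Γ o)
    (O J : Type) [CommRing O] [IsDomain O] [Fintype J] (ω : Module.Basis J ℤ O) :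
    D0 {x : Ix N n × J → ℤ | ∃ (K : Type) (_ : Field K) (_ : NumberField K) (σ : O →+* K)
      (y : Tau N p ((p - 1) * r) D → K), Module.finrank ℚ K ≤ Fintype.card J ∧
      Sys n p r Γ o (cv (fun j => σ (ω j)) fun q => (x q : K)) y} := by
  obtain ⟨Δ, hΔ, hΔ'⟩ := hsmo N n hN hn hc
  refine htr (Ix N n) (Tau N p ((p - 1) * r) D) _ (hnat N n p r D _ Γ o) ?_ p 2 (aP N n) ?_ O J ω
  · intro E Ω _ _ _ _ _ v y hv hgen hsys j
    by_contra hj
    obtain ⟨δ, hδ⟩ := (halg E Ω).2 _ hj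
    haveI : CharZero Ω := charZero_of_injective_algebraMap (algebraMap E Ω).injective
    obtain ⟨hT, hs⟩ := hΔ' Ω v (hgen Δ hΔ)
    exact hδ (hcst N n p r D hN hn hc hp hr Γ o hΓ Ω v (ded_of hwt hdom hded hN hn hc hT hs) hT y
      hsys (δ.restrictScalars ℤ) (fun q => (halg E Ω).1 δ _ (hv q)) j)
  · intro p' hp' hpp K' _ A _ _ _ _ _ π hπ h1 h2 b hb hgen y hsys
    have hcu := cusp_of hn hπ h1 h2 hb
    obtain ⟨hT, hs⟩ := hΔ' K' _ (hgen Δ hΔ)
    have hpu : IsUnit (p : A) := by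
      by_contra hnu
      have h3 : π ∣ (p : A) := by
        have h := (IsDiscreteValuationRing.irreducible_iff_uniformizer π).1 hπ
        rw [← Ideal.mem_span_singleton, ← h, IsLocalRing.mem_maximalIdeal]
        exact hnu
      have hco : IsCoprime (p : ℤ) (p' : ℤ) := by
        rw [Nat.isCoprime_iff_coprime]
        exact (Nat.coprime_primes hp hp').2 (Ne.symm hpp)
      obtain ⟨u, w, huw⟩ := hco
      have h4 : (u : A) * (p : A) + (w : A) * (p' : A) = 1 := by
        exact_mod_cast congrArg (Int.cast : ℤ → A) huw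
      have h5 : π ∣ (1 : A) := by
        rw [← h4]
        exact dvd_add (h3.mul_left _) (h1.mul_left _)
      exact hπ.not_isUnit (isUnit_of_dvd_one h5)
    have hdd := ded_of hwt hdom hded hN hn hc hT hs
    obtain ⟨W, hW⟩ := hwt N n hN hn hc K' _ hT
    obtain ⟨𝔡, hM, -, -⟩ := hout N n p r D hN hn hc hp hr Γ o hΓ K' _ hdd W hW y hsys
    have hpr : 𝔡.IsPrincipal := hloc N n hN hn hc p hp.pos A π hπ hpu b hcu K' hdd 𝔡
      (by rw [hM.pow]; exact ⟨⟨_, rfl⟩⟩)
    exact hmp (Sg N n) (N * n) (hgap N n hN hn hc).1 K' _ W p r hp hr 𝔡 _ hM hpr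

include hgap hwt hdom hsmo hded hmin hmp hnat hstd hsol hout hcst halg hloc htr in
/-- **100% of the curves are good.** -/
theorem good_D0 {N n p : ℕ} (hN : 0 < N) (hn : 0 < n) (hc : N.Coprime n) (hp : p.Prime)
    {k J : Type} [Field k] [NumberField k] [Fintype J] (ω : Module.Basis J ℤ (𝓞 k)) :
    D0 {x : Ix N n × J → ℤ | ¬ Good p
      (ff (cv (fun j => algebraMap (𝓞 k) k (ω j)) fun q => (x q : k)))} := by
  classical
  obtain ⟨Δ, hΔ, hΔ'⟩ := hsmo N n hN hn hc
  obtain ⟨cn, hcn, hdvd⟩ := R939.HI.norm (𝓞 k) J (Ix N n) ω Δ hΔ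
  set D : ℕ := p * (p * (N * n) + N * n + N + n) with hD
  let Id := Σ r : Fin (N * n + 1), (Fin ((p - 1) * r) → Bx N D) × Fin ((p - 1) * r)
  let f : Id → Set (Ix N n × J → ℤ) := fun i => {x | (1 ≤ (i.1 : ℕ) ∧ Adm n p i.1 i.2.1 i.2.2) ∧
    ∃ (K : Type) (_ : Field K) (_ : NumberField K) (σ : 𝓞 k →+* K)
      (y : Tau N p ((p - 1) * i.1) D → K), Module.finrank ℚ K ≤ Fintype.card J ∧
      Sys n p i.1 i.2.1 i.2.2 (cv (fun j => σ (ω j)) fun q => (x q : K)) y}
  have hf : ∀ i ∈ (Finset.univ : Finset Id), D0 (f i) := by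
    intro i _
    by_cases hi : 1 ≤ (i.1 : ℕ) ∧ Adm n p i.1 i.2.1 i.2.2
    · have h := sys_D0 hgap hwt hdom hsmo hded hmp hnat hout hcst halg hloc htr hN hn hc hp hi.1
        hi.2 (𝓞 k) J ω
      intro ε hε
      exact (h ε hε).mono fun x hx => hx.2
    · intro ε hε
      exact (D0.empty ε hε).mono fun x hx => (hi hx.1).elim
  have hU := (R939.HI.zero cn hcn).union (D0.biUnion Finset.univ f hf)
  intro ε hε
  refine (hU ε hε).mono ?_
  intro x hx
  by_contra hx'
  rw [Set.mem_union, not_or] at hx'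
  obtain ⟨hx1, hx2⟩ := hx'
  apply hx
  set v : Ix N n → k := cv (fun j => algebraMap (𝓞 k) k (ω j)) fun q => (x q : k) with hv
  have hΔv : avv v Δ ≠ 0 := by
    intro h0
    apply hx1
    have h1 := hdvd k (algebraMap (𝓞 k) k) fun q => (x q : k)
    have h2 : MvPolynomial.aeval v Δ = 0 := by
      rw [← h0]
      rfl
    rw [← hv, h2, zero_dvd_iff] at h1
    have h3 : ((MvPolynomial.eval x cn : ℤ) : k) = MvPolynomial.aeval (fun q => (x q : k)) cn := by
      rw [MvPolynomial.aeval_def, ← MvPolynomial.eval₂_id, ← eq_intCast (Int.castRingHom k),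
        MvPolynomial.hom_eval₂]
      rfl
    rw [h1] at h3
    show MvPolynomial.eval x cn = 0
    exact_mod_cast h3
  obtain ⟨hT, hs⟩ := hΔ' k v hΔv
  haveI hdd := ded_of hwt hdom hded hN hn hc hT hs
  obtain ⟨W, hW⟩ := hwt N n hN hn hc k _ hT
  have hdW := hdom _ k _ W
  refine ⟨?_, hs, hdd, ?_, hdW.2.2.2⟩
  · intro k' _ _
    rw [ff_map]
    exact irr_of hwt hdom hN hn hc fun q h1 h2 => (hT q h1 h2).map _
  · intro I hI
    by_contra hnI
    have hF := (hgap N n hN hn hc).1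
    obtain ⟨r, 𝔡, α, hr1, hr2, hM, -⟩ := hmin (Sg N n) (N * n) hF k _ W p hp I hI hnI
    have hle1 : p * r ≤ p * (N * n) := Nat.mul_le_mul_left _ hr2
    have hle2 : p * (p * r + N * n + N + n) ≤ D := by
      rw [hD]
      exact Nat.mul_le_mul_left _ (by omega)
    have hle3 : p * r + N * n ≤ D := by
      refine le_trans ?_ hle2
      refine le_trans ?_ (Nat.le_mul_of_pos_left _ hp.pos)
      omega
    obtain ⟨Γ, o, hAdm, hw, hbas⟩ := hstd N n p r D hN hn hc hp hr1 hle3 k v hT W hW 𝔡 α hM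
    obtain ⟨y, hy⟩ := hsol N n p r D hN hn hc hp hr1 hle2 k v hT W hW 𝔡 α hM Γ o hAdm hw hbas
    apply hx2
    rw [Set.mem_iUnion₂]
    refine ⟨⟨⟨r, by omega⟩, Γ, o⟩, Finset.mem_univ _, ⟨hr1, hAdm⟩, k, inferInstance, inferInstance,
      algebraMap (𝓞 k) k, y, ?_, hy⟩
    rw [← NumberField.RingOfIntegers.rank, Module.finrank_eq_card_basis ω]

end transfer

end Pool.Agent.NH7.AC
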