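import Pool.Agent.NH7.AC.Stms

/-!
# AC-A2 (helper15): base change
-/

set_option autoImplicit false

namespace Pool.Agent.NH7.AC

open Polynomial Module

namespace BcP

variable {N n : ℕ} {R R' : Type} [CommRing R] [CommRing R']

theorem cu_CC (a : R) : cu N n R (C (C a)) = C a := by
  unfold cu
  rw [coe_eval₂RingHom, eval₂_C]
  exact expand_C N a

theorem cu_CX : cu N n R (C X) = X ^ N := by
  unfold cu
  rw [coe_eval₂RingHom, eval₂_C]
  exact expand_X N

theorem cu_X : cu N n R X = X ^ n := by
  unfold cu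
  rw [coe_eval₂RingHom, eval₂_X]

theorem cu_map (φ : R →+* R') (P : R[X][X]) :
    cu N n R' (P.map (mapRingHom φ)) = (cu N n R P).map φ := by
  have h : (cu N n R').comp (mapRingHom (mapRingHom φ)) = (mapRingHom φ).comp (cu N n R) := by
    refine Polynomial.ringHom_ext' ?_ ?_
    · refine Polynomial.ringHom_ext' ?_ ?_
      · refine RingHom.ext fun a => ?_
        simp only [RingHom.comp_apply, coe_mapRingHom, map_C, cu_CC]
      · simp only [RingHom.comp_apply, coe_mapRingHom, map_C, map_X, cu_CX, Polynomial.map_pow]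
    · simp only [RingHom.comp_apply, coe_mapRingHom, map_X, cu_X, Polynomial.map_pow]
  exact RingHom.congr_fun h P

end BcP

theorem s_bc : S_bc := by
  intro N n R R' _ _ φ v
  have h1 : ∀ P : R[X][X], bc φ v (AdjoinRoot.mk (ff v) P) =
      AdjoinRoot.mk (ff fun q => φ (v q)) (P.map (mapRingHom φ)) := by
    intro P
    have h : (bc φ v).comp (AdjoinRoot.mk (ff v)) =
        (AdjoinRoot.mk (ff fun q => φ (v q))).comp (mapRingHom (mapRingHom φ)) := by
      refine Polynomial.ringHom_ext (fun a => ?_) ?_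
      · rw [RingHom.comp_apply, RingHom.comp_apply, coe_mapRingHom, map_C]
        exact AdjoinRoot.map_of _ _ _ _ a
      · rw [RingHom.comp_apply, RingHom.comp_apply, coe_mapRingHom, map_X]
        unfold bc AdjoinRoot.map
        rw [AdjoinRoot.lift_mk, eval₂_X]
        rfl
    exact RingHom.congr_fun h P
  refine ⟨h1, fun a => ?_⟩
  obtain ⟨P, rfl⟩ := AdjoinRoot.mk_surjective a
  rw [h1]
  unfold cfp rp
  rw [AdjoinRoot.modByMonicHom_mk, AdjoinRoot.modByMonicHom_mk, ← BcP.cu_map,
    Polynomial.map_modByMonic _ (ff_monic v), ff_map]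

end Pool.Agent.NH7.AC
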