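import Pool.Agent.NH7.AC.Stms

/-!
# AC-A4 (helper15): the cusp
-/

set_option autoImplicit false

namespace Pool.Agent.NH7.AC

open Polynomial Module

namespace CmP

variable {N n : ℕ} {R : Type} [CommRing R]

theorem cu_C (a : R[X]) : cu N n R (C a) = expand R N a := by
  unfold cu
  rw [coe_eval₂RingHom, eval₂_C]
  rfl

theorem cu_X : cu N n R X = X ^ n := by
  unfold cu
  rw [coe_eval₂RingHom, eval₂_X]

end CmP

theorem s_cm (hgap : S_gap) : S_cm := by
  classical
  intro N n hN hn hc R _ v h1 h0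
  have hff : cu N n R (ff v) = 0 := by
    unfold ff
    have hmem : n * ((⟨0, hN⟩ : Fin N) : ℕ) + N * ((⟨n, Nat.lt_succ_self n⟩ : Fin (n + 1)) : ℕ) ≤
        N * n := by simp
    set q0 : Ix N n := ⟨(⟨0, hN⟩, ⟨n, Nat.lt_succ_self n⟩), hmem⟩ with hq0
    rw [map_add, map_pow, CmP.cu_X, map_sum, Finset.sum_eq_single q0]
    · rw [map_mul, map_pow, CmP.cu_X, CmP.cu_C, map_mul, map_pow, expand_C, expand_X,
        h1 q0 rfl rfl]
      have e1 : ((q0.1.1 : Fin N) : ℕ) = 0 := rfl
      have e2 : ((q0.1.2 : Fin (n + 1)) : ℕ) = n := rfl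
      rw [e1, e2, pow_zero, mul_one, ← pow_mul, ← pow_mul, mul_comm n N, C_neg, C_1]
      ring
    · intro b _ hb
      rw [h0 b, C_0, zero_mul, C_0, zero_mul, map_zero]
      rintro ⟨h2, h3⟩
      exact hb (Subtype.ext (Prod.ext (Fin.ext h2) (Fin.ext h3)))
    · intro h2
      exact absurd (Finset.mem_univ q0) h2
  have hcf : ∀ P : R[X][X], cfp v (AdjoinRoot.mk (ff v) P) = cu N n R P := by
    intro P
    unfold cfp rp
    rw [AdjoinRoot.modByMonicHom_mk]
    have h2 := congrArg (cu N n R) (modByMonic_add_div P (ff v))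
    rw [map_add, map_mul, hff, zero_mul, add_zero] at h2
    exact h2
  constructor
  · intro a b
    obtain ⟨P, rfl⟩ := AdjoinRoot.mk_surjective a
    obtain ⟨Q, rfl⟩ := AdjoinRoot.mk_surjective b
    rw [← map_mul, hcf, hcf, hcf, map_mul]
  · rw [hcf, CmP.cu_C, expand_X]

end Pool.Agent.NH7.AC
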