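import Pool.Agent.NH7.AC.Stms

/-!
# Project AC, E3: the solutions are constant under derivations
-/

set_option autoImplicit false

namespace Pool.Agent.NH7.AC.CstP

open Polynomial Module

section rel

variable {N D : ℕ} {K : Type} [CommRing K] (δ : Derivation ℤ K K)

/-- `Q` is the coefficientwise derivative of `P` -/
def Rel (P Q : K[X][X]) : Prop := ∀ i j, (Q.coeff i).coeff j = δ ((P.coeff i).coeff j)

theorem Rel.sub {P Q P' Q' : K[X][X]} (h : Rel δ P Q) (h' : Rel δ P' Q') :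
    Rel δ (P - P') (Q - Q') := by
  intro i j
  rw [coeff_sub, coeff_sub, coeff_sub, coeff_sub, map_sub, h, h']

theorem Rel.sum {ι : Type} (s : Finset ι) (P Q : ι → K[X][X]) (h : ∀ i ∈ s, Rel δ (P i) (Q i)) :
    Rel δ (∑ i ∈ s, P i) (∑ i ∈ s, Q i) := by
  intro a b
  rw [finsetSum_coeff, finsetSum_coeff, finsetSum_coeff, finsetSum_coeff, map_sum]
  exact Finset.sum_congr rfl fun i hi => h i hi a b

theorem rel_mo (c : K) (q : Bx N D) : Rel δ (C (C c) * mo K q) (C (C (δ c)) * mo K q) := by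
  intro i j
  unfold mo
  simp only [coeff_C_mul, coeff_X_pow, mul_ite, mul_one, mul_zero]
  split_ifs with h
  · simp only [coeff_C_mul, coeff_X_pow, mul_ite, mul_one, mul_zero]
    split_ifs
    · rfl
    · rw [map_zero]
  · rw [coeff_zero, map_zero]

theorem rel_t (q : Bx N D) : Rel δ (C X * mo K q) 0 := by
  intro i j
  have h1 : (C X * mo K q : K[X][X]) = C (X ^ ((q.2 : ℕ) + 1)) * X ^ (q.1 : ℕ) := by
    unfold mo
    rw [pow_succ, C_mul]
    ring
  rw [h1, coeff_zero, coeff_zero, coeff_C_mul, coeff_X_pow, mul_ite, mul_one, mul_zero]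
  split_ifs
  · rw [coeff_X_pow]
    split_ifs
    · exact (δ.map_one_eq_zero).symm
    · exact (map_zero δ).symm
  · rw [coeff_zero, map_zero]

theorem rel_x (q : Bx N D) : Rel δ (X * mo K q) 0 := by
  intro i j
  have h1 : (X * mo K q : K[X][X]) = C (X ^ (q.2 : ℕ)) * X ^ ((q.1 : ℕ) + 1) := by
    unfold mo
    rw [pow_succ]
    ring
  rw [h1, coeff_zero, coeff_zero, coeff_C_mul, coeff_X_pow, mul_ite, mul_one, mul_zero]
  split_ifs
  · rw [coeff_X_pow]
    split_ifs
    · exact (δ.map_one_eq_zero).symm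
    · exact (map_zero δ).symm
  · rw [coeff_zero, map_zero]

end rel

theorem wt_inj (hgap : S_gap) {N n D : ℕ} (hN : 0 < N) (hn : 0 < n) (hc : N.Coprime n)
    {q q' : Bx N D} (h : wt N n q = wt N n q') : q = q' := by
  obtain ⟨h1, h2⟩ := (hgap N n hN hn hc).2 _ _ _ _ q.1.2 q'.1.2 h
  exact Prod.ext (Fin.ext h1) (Fin.ext h2)

theorem coef_zero (hgap : S_gap) {N n D : ℕ} (hN : 0 < N) (hn : 0 < n) (hc : N.Coprime n)
    {K : Type} [CommRing K] (c : Bx N D → K) (h : ∑ q, C (c q) * X ^ wt N n q = (0 : K[X]))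
    (q : Bx N D) : c q = 0 := by
  have h1 := congrArg (fun P => P.coeff (wt N n q)) h
  beta_reduce at h1
  rw [finsetSum_coeff, Finset.sum_eq_single q, coeff_C_mul_X_pow, if_pos rfl, coeff_zero] at h1
  · exact h1
  · intro q' _ hne
    rw [coeff_C_mul_X_pow, if_neg fun h => hne (wt_inj hgap hN hn hc h.symm)]
  · intro h
    exact absurd (Finset.mem_univ _) h

theorem der_prod {R B M ι : Type} [CommSemiring R] [CommRing B] [Algebra R B] [AddCommMonoid M]
    [IsCancelAdd M] [Module B M] [Module R M] (Δ : Derivation R B M) (s : Finset ι) (z : ι → B)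
    (h : ∀ i ∈ s, Δ (z i) = 0) : Δ (∏ i ∈ s, z i) = 0 := by
  classical
  induction s using Finset.induction_on with
  | empty => exact Δ.map_one_eq_zero
  | insert a s ha ih =>
    rw [Finset.prod_insert ha, Δ.leibniz, h a (Finset.mem_insert_self _ _),
      ih fun i hi => h i (Finset.mem_insert_of_mem hi), smul_zero, smul_zero, add_zero]

end Pool.Agent.NH7.AC.CstP

namespace Pool.Agent.NH7.AC

open Polynomial Module CstP

/-- **E3.** -/
theorem s_cst (hgap : S_gap) (hwt : S_wt) (hpol : S_pol) (hdom : S_dom) (hdim : S_dim)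
    (hout : S_out) (hder : S_der) (hrig : S_rig) : S_cst := by
  intro N n p r D hN hn hc hp hr Γ o hA K _ _ v hD htop y hy δ hδ
  obtain ⟨W, hW⟩ := hwt N n hN hn hc K v htop
  obtain ⟨𝔡, hMin, hind, hgg⟩ := hout N n p r D hN hn hc hp hr Γ o hA K v hD W hW y hy
  obtain ⟨Δ, hΔ⟩ := hder N n K v δ hδ
  obtain ⟨hdom1, -, -, -⟩ := hdom _ K _ W
  obtain ⟨hpol1, -⟩ := hpol N n D hN hn hc K v
  have hα0 : AdjoinRoot.mk (ff v) (pol (aa y)) ≠ 0 := by
    intro h
    have h1 := hMin.monic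
    rw [h, map_zero] at h1
    exact h1.ne_zero rfl
  have h𝔡 : 𝔡 ≠ ⊥ := by
    rintro rfl
    have h1 := hMin.pow
    rw [← Ideal.zero_eq_bot, zero_pow hp.ne_zero] at h1
    have h2 : AdjoinRoot.mk (ff v) (pol (aa y)) ∈ (0 : Ideal (BB v)) := by
      rw [h1]
      exact Ideal.mem_span_singleton_self _
    exact hα0 h2
  have hpu : IsUnit (p : BB v) := by
    have h1 : IsUnit (p : K) := by
      rw [isUnit_iff_ne_zero]
      exact_mod_cast hp.ne_zero
    have h2 := h1.map (algebraMap K (BB v))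
    rwa [map_natCast] at h2
  obtain ⟨hr1, hr2⟩ := hrig (BB v) p hp.pos hpu 𝔡 _ h𝔡 hMin.pow Δ
  have hp1 : p - 1 + 1 = p := Nat.succ_pred_eq_of_pos hp.pos
  -- the derivative of a polynomial
  have hpolD : ∀ c : Bx N D → K, Δ (AdjoinRoot.mk (ff v) (pol c)) =
      AdjoinRoot.mk (ff v) (pol fun q => δ (c q)) := fun c =>
    hΔ _ _ (Rel.sum δ _ _ _ fun q _ => rel_mo δ (c q) q)
  have hzero : ∀ c : Bx N D → K, AdjoinRoot.mk (ff v) (pol c) = 0 → ∀ q, c q = 0 := by
    intro c h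
    have h1 := hpol1 c
    rw [← hW, h, map_zero] at h1
    exact coef_zero hgap hN hn hc c h1.symm
  -- the polynomial `α`
  have hΔα : Δ (AdjoinRoot.mk (ff v) (pol (aa y))) = 0 := by
    by_contra hne
    have h1 : Δ (AdjoinRoot.mk (ff v) (pol (aa y))) ∈ 𝔡 ^ (p - 1) := by
      apply hr1 (p - 1)
      rw [hp1, hMin.pow]
      exact Ideal.mem_span_singleton_self _
    have h2 := hMin.min _ h1 hne
    rw [hpolD, hW, hpol1] at h2
    have h3 : (∑ q : Bx N D, C (δ (aa y q)) * X ^ wt N n q : K[X]).natDegree ≤ p * r - 1 := by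
      refine natDegree_sum_le_of_forall_le _ _ fun q _ => ?_
      rcases lt_trichotomy (wt N n q) (p * r) with h | h | h
      · exact (natDegree_C_mul_X_pow_le _ _).trans (by omega)
      · rw [hy.top q h, δ.map_one_eq_zero, C_0, zero_mul, natDegree_zero]
        exact Nat.zero_le _
      · rw [hy.high q h, map_zero, C_0, zero_mul, natDegree_zero]
        exact Nat.zero_le _
    have h4 : 0 < p * r := Nat.mul_pos hp.pos hr
    omega
  have hα : ∀ q, δ (aa y q) = 0 := by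
    intro q
    have h1 := hΔα
    rw [hpolD] at h1
    exact hzero _ h1 q
  have hpres := hr2 hΔα (p - 1)
  -- the matrices
  have hlin : ∀ c : Fin ((p - 1) * r) → K,
      AdjoinRoot.mk (ff v) (0 - ∑ m, C (C (c m)) * mo K (Γ m)) ∈ 𝔡 ^ (p - 1) → c = 0 := by
    intro c h
    apply hind
    have h1 := (𝔡 ^ (p - 1)).neg_mem h
    rwa [zero_sub, map_neg, neg_neg] at h1
  have hT : ∀ m m', δ (tt y m' m) = 0 := by
    intro m m'
    have h1 : Δ (AdjoinRoot.mk (ff v) (gg (tt y) (uu y) Γ (Sum.inl m))) =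
        AdjoinRoot.mk (ff v) (0 - ∑ m', C (C (δ (tt y m' m))) * mo K (Γ m')) :=
      hΔ _ _ (Rel.sub δ (rel_t δ (Γ m)) (Rel.sum δ _ _ _ fun m' _ => rel_mo δ _ _))
    have h2 := hpres _ (hgg (Sum.inl m))
    refine congrFun (hlin (fun m' => δ (tt y m' m)) ?_) m'
    rw [← h1]
    exact h2
  have hU : ∀ m m', δ (uu y m' m) = 0 := by
    intro m m'
    have h1 : Δ (AdjoinRoot.mk (ff v) (gg (tt y) (uu y) Γ (Sum.inr m))) =
        AdjoinRoot.mk (ff v) (0 - ∑ m', C (C (δ (uu y m' m))) * mo K (Γ m')) :=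
      hΔ _ _ (Rel.sub δ (rel_x δ (Γ m)) (Rel.sum δ _ _ _ fun m' _ => rel_mo δ _ _))
    have h2 := hpres _ (hgg (Sum.inr m))
    refine congrFun (hlin (fun m' => δ (uu y m' m)) ?_) m'
    rw [← h1]
    exact h2
  have hgg0 : ∀ g, Δ (AdjoinRoot.mk (ff v) (gg (tt y) (uu y) Γ g)) = 0 := by
    rintro (m | m)
    · have h1 : Δ (AdjoinRoot.mk (ff v) (gg (tt y) (uu y) Γ (Sum.inl m))) =
          AdjoinRoot.mk (ff v) (0 - ∑ m', C (C (δ (tt y m' m))) * mo K (Γ m')) :=
        hΔ _ _ (Rel.sub δ (rel_t δ (Γ m)) (Rel.sum δ _ _ _ fun m' _ => rel_mo δ _ _))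
      rw [h1]
      simp only [hT, zero_mul, Finset.sum_const_zero, sub_zero, map_zero]
    · have h1 : Δ (AdjoinRoot.mk (ff v) (gg (tt y) (uu y) Γ (Sum.inr m))) =
          AdjoinRoot.mk (ff v) (0 - ∑ m', C (C (δ (uu y m' m))) * mo K (Γ m')) :=
        hΔ _ _ (Rel.sub δ (rel_x δ (Γ m)) (Rel.sum δ _ _ _ fun m' _ => rel_mo δ _ _))
      rw [h1]
      simp only [hU, zero_mul, Finset.sum_const_zero, sub_zero, map_zero]
  -- the cofactors
  have hS : ∀ (I : Fin p → Fin ((p - 1) * r) ⊕ Fin ((p - 1) * r)) (q : Bx N D),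
      δ (ss y I q) = 0 := by
    intro I q
    have h1 := AdjoinRoot.mk_eq_zero.2 (hy.dvd I)
    rw [map_sub, map_mul, map_pow, map_prod, sub_eq_zero] at h1
    have h2 := congrArg Δ h1
    rw [der_prod Δ _ _ fun k _ => hgg0 (I k), Δ.leibniz, Δ.leibniz_pow, hΔα, smul_zero, smul_zero,
      smul_zero, add_zero, smul_eq_mul, hpolD] at h2
    have h3 := (mul_eq_zero.1 h2.symm).resolve_left (pow_ne_zero _ hα0)
    exact hzero _ h3 q
  rintro (⟨m, m'⟩ | ⟨m, m'⟩ | q | ⟨I, q⟩)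
  · exact hT m' m
  · exact hU m' m
  · exact hα q
  · exact hS I q

end Pool.Agent.NH7.AC
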