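import Pool.Agent.NH7.AC.Defs

/-!
# Project AC: statements
-/

set_option autoImplicit false

namespace Pool.Agent.NH7.AC

open Polynomial Module

/-! ### Part A: the weighted algebra of the curve -/

/-- `S_gap` (A0) -/
def S_gap : Prop := ∀ N n : ℕ, 0 < N → 0 < n → N.Coprime n →
  (∀ s, N * n ≤ s → s ∈ Sg N n) ∧
  ∀ i j i' j' : ℕ, i < N → i' < N → n * i + N * j = n * i' + N * j' → i = i' ∧ j = j'

/-- `S_wt` (A1) -/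
def S_wt : Prop := ∀ N n : ℕ, 0 < N → 0 < n → N.Coprime n → ∀ (R : Type) [CommRing R]
  (v : Ix N n → R), TopUnit v → ∃ W : Wt (Sg N n) R (BB v), ∀ a, W.cf a = cfp v a

/-- `S_bc` (A2) -/
def S_bc : Prop := ∀ (N n : ℕ) (R R' : Type) [CommRing R] [CommRing R'] (φ : R →+* R')
  (v : Ix N n → R),
  (∀ P : R[X][X], bc φ v (AdjoinRoot.mk (ff v) P) =
    AdjoinRoot.mk (ff fun q => φ (v q)) (P.map (mapRingHom φ))) ∧
  (∀ a, cfp (fun q => φ (v q)) (bc φ v a) = (cfp v a).map φ)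

/-- `S_pol` (A3) -/
def S_pol : Prop := ∀ N n D : ℕ, 0 < N → 0 < n → N.Coprime n → ∀ (R : Type) [CommRing R]
  (v : Ix N n → R),
  (∀ c : Bx N D → R, cfp v (AdjoinRoot.mk (ff v) (pol c)) = ∑ q, C (c q) * X ^ wt N n q) ∧
  (∀ a : BB v, (cfp v a).natDegree ≤ D → ∃ c : Bx N D → R, a = AdjoinRoot.mk (ff v) (pol c))

/-- `S_cm` (A4): at the cusp `x ^ N = t ^ n` the coefficients are multiplicative -/
def S_cm : Prop := ∀ N n : ℕ, 0 < N → 0 < n → N.Coprime n → ∀ (R : Type) [CommRing R]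
  (v : Ix N n → R), (∀ q : Ix N n, (q.1.1 : ℕ) = 0 → (q.1.2 : ℕ) = n → v q = -1) →
  (∀ q : Ix N n, ¬ ((q.1.1 : ℕ) = 0 ∧ (q.1.2 : ℕ) = n) → v q = 0) →
  (∀ a b : BB v, cfp v (a * b) = cfp v a * cfp v b) ∧
  cfp v (AdjoinRoot.mk (ff v) (C X)) = X ^ N

/-- `S_dom` (A5) -/
def S_dom : Prop := ∀ (S : AddSubmonoid ℕ) (K B : Type) [Field K] [CommRing B] [Algebra K B]
  (W : Wt S K B), IsDomain B ∧
  (∀ a b : B, a ≠ 0 → b ≠ 0 →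
    (W.cf (a * b)).natDegree = (W.cf a).natDegree + (W.cf b).natDegree) ∧
  (∀ a : B, (W.cf a).natDegree = 0 → ∃ c : K, a = algebraMap K B c) ∧
  ∀ u : Bˣ, ∃ c : K, (u : B) = algebraMap K B c

/-- `S_dim` (A6) -/
def S_dim : Prop := ∀ (S : AddSubmonoid ℕ) (F : ℕ), (∀ s, F ≤ s → s ∈ S) →
  ∀ (K B : Type) [Field K] [CommRing B] [Algebra K B] (W : Wt S K B),
  (∀ y, Module.Finite K (W.Fl y) ∧ finrank K (W.Fl y) = ct S y) ∧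
  (∀ y, F ≤ y → ct S (y + 1) = ct S y + 1) ∧ (∀ y, y + 1 ≤ ct S y + F) ∧
  (∀ a : B, a ≠ 0 → Module.Finite K (B ⧸ Ideal.span {a}) ∧
    finrank K (B ⧸ Ideal.span {a}) = (W.cf a).natDegree) ∧
  ∀ I : Ideal B, I ≠ ⊥ → Module.Finite K (B ⧸ I) ∧
    ∃ Y, ∀ y, Y ≤ y → finrank K (W.Fl y ⊓ I.restrictScalars K : Submodule K B) +
      finrank K (B ⧸ I) = ct S y

/-- `S_mul` (A7) -/
def S_mul : Prop := ∀ (K B : Type) [Field K] [CommRing B] [IsDedekindDomain B] [Algebra K B],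
  (∀ I : Ideal B, I ≠ ⊥ → Module.Finite K (B ⧸ I)) → ∀ I J : Ideal B, I ≠ ⊥ → J ≠ ⊥ →
  finrank K (B ⧸ (I * J)) = finrank K (B ⧸ I) + finrank K (B ⧸ J)

/-! ### Part B: smoothness -/

/-- The affine curve `f = 0` is smooth. -/
def SmoothF {K : Type} [CommRing K] (f : K[X][X]) : Prop :=
  Ideal.span {f, derivative f, f.sum fun i a => C (derivative a) * X ^ i} = ⊤

/-- `S_fin` (B1): over a field `k` where `N n v_(0, n) ≠ 0` the common zeros of `f_x` and `f_t` in an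
extension are algebraic over `k` -/
def S_fin : Prop := ∀ N n : ℕ, 0 < N → 0 < n → N.Coprime n → ∀ (k L : Type) [Field k] [CharZero k]
  [Field L] [Algebra k L] (v : Ix N n → L),
  (∀ q : Ix N n, ¬ ((q.1.1 : ℕ) = 0 ∧ (q.1.2 : ℕ) = 0) → IsAlgebraic k (v q)) → TopUnit v →
  ∀ x t : L, ((derivative (ff v)).eval (C x)).eval t = 0 →
  (((ff v).eval (C x)).derivative).eval t = 0 → IsAlgebraic k x ∧ IsAlgebraic k t

/-- `S_smo` (B2) -/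
def S_smo : Prop := ∀ N n : ℕ, 0 < N → 0 < n → N.Coprime n →
  ∃ Δ : MvPolynomial (Ix N n) ℤ, Δ ≠ 0 ∧ ∀ (K : Type) [Field K] (v : Ix N n → K),
    avv v Δ ≠ 0 → TopUnit v ∧ SmoothF (ff v)

/-- `S_ded` (B3) -/
def S_ded : Prop := ∀ (K : Type) [Field K] (f : K[X][X]), f.Monic → IsDomain (AdjoinRoot f) →
  SmoothF f → IsDedekindDomain (AdjoinRoot f)

/-! ### Part C: minimal ideals -/

/-- `S_min` (C1) -/
def S_min : Prop := ∀ (S : AddSubmonoid ℕ) (F : ℕ), (∀ s, F ≤ s → s ∈ S) →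
  ∀ (K B : Type) [Field K] [CommRing B] [IsDedekindDomain B] [Algebra K B] (W : Wt S K B) (p : ℕ),
  p.Prime → ∀ I : Ideal B, (I ^ p).IsPrincipal → ¬ I.IsPrincipal →
  ∃ (r : ℕ) (𝔡 : Ideal B) (α : B), 1 ≤ r ∧ r ≤ F ∧ Min W p r 𝔡 α ∧ ¬ 𝔡.IsPrincipal

/-- `S_mp` (C2): the ideal in `Min` is not principal -/
def S_mp : Prop := ∀ (S : AddSubmonoid ℕ) (F : ℕ), (∀ s, F ≤ s → s ∈ S) →
  ∀ (K B : Type) [Field K] [CommRing B] [Algebra K B] (W : Wt S K B) (p r : ℕ),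
  p.Prime → 1 ≤ r → ∀ (𝔡 : Ideal B) (α : B), Min W p r 𝔡 α → ¬ 𝔡.IsPrincipal

/-! ### Part D: the system of equations -/

/-- `S_nat` (D1) -/
def S_nat : Prop := ∀ (N n p r D M : ℕ) (Γ : Fin M → Bx N D) (o : Fin M),
  Natl (Ix N n) (Tau N p M D) fun R _ v y => Sys n p r Γ o v y

/-- `S_std` (D2): the standard monomials -/
def S_std : Prop := ∀ (N n p r D : ℕ), 0 < N → 0 < n → N.Coprime n → p.Prime → 1 ≤ r →
  p * r + N * n ≤ D → ∀ (K : Type) [Field K] (v : Ix N n → K), TopUnit v →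
  ∀ W : Wt (Sg N n) K (BB v), (∀ a, W.cf a = cfp v a) → ∀ (𝔡 : Ideal (BB v)) (α : BB v),
  Min W p r 𝔡 α → ∃ (Γ : Fin ((p - 1) * r) → Bx N D) (o : Fin ((p - 1) * r)), Adm n p r Γ o ∧
    (∀ m, wt N n (Γ m) ≤ p * r + N * n) ∧
    ∀ b : BB v, ∃! c : Fin ((p - 1) * r) → K,
      b - AdjoinRoot.mk (ff v) (∑ m, C (C (c m)) * mo K (Γ m)) ∈ 𝔡 ^ (p - 1)

/-- `S_sol` (D3): a bad curve gives a solution -/
def S_sol : Prop := ∀ (N n p r D : ℕ), 0 < N → 0 < n → N.Coprime n → p.Prime → 1 ≤ r →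
  p * (p * r + N * n + N + n) ≤ D → ∀ (K : Type) [Field K] (v : Ix N n → K), TopUnit v →
  ∀ W : Wt (Sg N n) K (BB v), (∀ a, W.cf a = cfp v a) → ∀ (𝔡 : Ideal (BB v)) (α : BB v),
  Min W p r 𝔡 α → ∀ (Γ : Fin ((p - 1) * r) → Bx N D) (o : Fin ((p - 1) * r)), Adm n p r Γ o →
    (∀ m, wt N n (Γ m) ≤ p * r + N * n) →
    (∀ b : BB v, ∃! c : Fin ((p - 1) * r) → K,
      b - AdjoinRoot.mk (ff v) (∑ m, C (C (c m)) * mo K (Γ m)) ∈ 𝔡 ^ (p - 1)) →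
    ∃ y, Sys n p r Γ o v y

/-- `S_ker` (D4): the ideal of a solution -/
def S_ker : Prop := ∀ (N n p r D M : ℕ), 0 < N → ∀ (Γ : Fin M → Bx N D) (o : Fin M),
  ((Γ o).1 : ℕ) = 0 ∧ ((Γ o).2 : ℕ) = 0 → ∀ (K : Type) [Field K] (v : Ix N n → K)
  (y : Tau N p M D → K), Sys n p r Γ o v y → ∃ 𝔞 : Ideal (BB v), Module.Finite K (BB v ⧸ 𝔞) ∧
    finrank K (BB v ⧸ 𝔞) = M ∧
    (∀ c : Fin M → K, AdjoinRoot.mk (ff v) (∑ m, C (C (c m)) * mo K (Γ m)) ∈ 𝔞 → c = 0) ∧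
    (∀ g, AdjoinRoot.mk (ff v) (gg (tt y) (uu y) Γ g) ∈ 𝔞) ∧
    AdjoinRoot.mk (ff v) (pol (aa y)) ∈ 𝔞 ∧
    𝔞 ^ p ≤ Ideal.span {AdjoinRoot.mk (ff v) (pol (aa y)) ^ (p - 1)}

/-- `S_rec` (D5): an ideal `𝔞` with `𝔞 ^ p = (α ^ (p - 1))` is a power -/
def S_rec : Prop := ∀ (S : AddSubmonoid ℕ) (F : ℕ), (∀ s, F ≤ s → s ∈ S) →
  ∀ (K B : Type) [Field K] [CommRing B] [IsDedekindDomain B] [Algebra K B] (W : Wt S K B)
  (p r : ℕ), p.Prime → ∀ (𝔞 : Ideal B) (α : B), finrank K (B ⧸ 𝔞) = (p - 1) * r → α ∈ 𝔞 →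
  𝔞 ^ p ≤ Ideal.span {α ^ (p - 1)} → (W.cf α).Monic → (W.cf α).natDegree = p * r →
  (∀ β ∈ 𝔞, β ≠ 0 → p * r ≤ (W.cf β).natDegree) → ∃ 𝔡 : Ideal B, Min W p r 𝔡 α ∧ 𝔞 = 𝔡 ^ (p - 1)

/-- `S_min'` (D6): the ideal of a solution is a minimal ideal -/
def S_out : Prop := ∀ (N n p r D : ℕ), 0 < N → 0 < n → N.Coprime n → p.Prime → 1 ≤ r →
  ∀ (Γ : Fin ((p - 1) * r) → Bx N D) (o : Fin ((p - 1) * r)), Adm n p r Γ o →
  ∀ (K : Type) [Field K] (v : Ix N n → K), IsDedekindDomain (BB v) →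
  ∀ W : Wt (Sg N n) K (BB v), (∀ a, W.cf a = cfp v a) →
  ∀ y : Tau N p ((p - 1) * r) D → K, Sys n p r Γ o v y → ∃ 𝔡 : Ideal (BB v),
    Min W p r 𝔡 (AdjoinRoot.mk (ff v) (pol (aa y))) ∧
    (∀ c : Fin ((p - 1) * r) → K, AdjoinRoot.mk (ff v) (∑ m, C (C (c m)) * mo K (Γ m)) ∈
      𝔡 ^ (p - 1) → c = 0) ∧
    ∀ g, AdjoinRoot.mk (ff v) (gg (tt y) (uu y) Γ g) ∈ 𝔡 ^ (p - 1)

/-! ### Part E: rigidity -/

/-- `S_der` (E1) -/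
def S_der : Prop := ∀ (N n : ℕ) (R : Type) [CommRing R] (v : Ix N n → R) (δ : Derivation ℤ R R),
  (∀ q, δ (v q) = 0) → ∃ Δ : Derivation ℤ (BB v) (BB v), ∀ P Q : R[X][X],
    (∀ i j, (Q.coeff i).coeff j = δ ((P.coeff i).coeff j)) →
    Δ (AdjoinRoot.mk (ff v) P) = AdjoinRoot.mk (ff v) Q

/-- `S_rig` (E2) -/
def S_rig : Prop := ∀ (B : Type) [CommRing B] [IsDedekindDomain B] (p : ℕ), 0 < p →
  IsUnit (p : B) → ∀ (𝔡 : Ideal B) (α : B), 𝔡 ≠ ⊥ → 𝔡 ^ p = Ideal.span {α} →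
  ∀ Δ : Derivation ℤ B B, (∀ m, ∀ z ∈ 𝔡 ^ (m + 1), Δ z ∈ 𝔡 ^ m) ∧
    (Δ α = 0 → ∀ m, ∀ z ∈ 𝔡 ^ m, Δ z ∈ 𝔡 ^ m)

/-- `S_cst` (E3): the solutions are constant under derivations -/
def S_cst : Prop := ∀ (N n p r D : ℕ), 0 < N → 0 < n → N.Coprime n → p.Prime → 1 ≤ r →
  ∀ (Γ : Fin ((p - 1) * r) → Bx N D) (o : Fin ((p - 1) * r)), Adm n p r Γ o →
  ∀ (K : Type) [Field K] [CharZero K] (v : Ix N n → K), IsDedekindDomain (BB v) → TopUnit v →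
  ∀ y : Tau N p ((p - 1) * r) D → K, Sys n p r Γ o v y →
  ∀ δ : Derivation ℤ K K, (∀ q, δ (v q) = 0) → ∀ i, δ (y i) = 0

/-- `S_alg` (E4) -/
def S_alg : Prop := ∀ (E Ω : Type) [Field E] [CharZero E] [Field Ω] [Algebra E Ω],
  (∀ (δ : Derivation E Ω Ω) (x : Ω), IsAlgebraic E x → δ x = 0) ∧
  ∀ x : Ω, ¬ IsAlgebraic E x → ∃ δ : Derivation E Ω Ω, δ x ≠ 0

/-! ### Part F: reduction -/

/-- `S_tri` (F1): basic facts -/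
def S_tri : Prop := ∀ (S : AddSubmonoid ℕ) (V k κ O B Bb : Type) [CommRing V] [IsDomain V]
  [IsDiscreteValuationRing V] [Field k] [Field κ] [Algebra V k] [IsFractionRing V k] [CommRing O]
  [CommRing B] [CommRing Bb] [Algebra V O] [Algebra k B] [Algebra κ Bb]
  (T : Tri S V k κ O B Bb),
  IsDomain O ∧ Function.Injective T.ι ∧ Function.Surjective T.ρ ∧
  (∀ c : V, T.ι (algebraMap V O c) = algebraMap k B (algebraMap V k c)) ∧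
  (∀ c : V, T.ρ (algebraMap V O c) = algebraMap κ Bb (T.r c)) ∧
  (∀ a : O, (T.Wk.cf (T.ι a)).natDegree = (T.W.cf a).natDegree) ∧
  (∀ a : O, (T.Wb.cf (T.ρ a)).natDegree ≤ (T.W.cf a).natDegree) ∧
  (∀ (ϖ : V) (a : O), Irreducible ϖ → T.ρ a = 0 → ∃ b, a = algebraMap V O ϖ * b) ∧
  (∀ a : B, a ≠ 0 → ∃ (c : k) (α : O), c ≠ 0 ∧ a = algebraMap k B c * T.ι α ∧ T.ρ α ≠ 0) ∧
  ∀ (α w : O) (x : B), T.ρ α ≠ 0 → T.ι α * x = T.ι w → ∃ x' : O, x = T.ι x'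

/-- `S_DT` (F2): the degrees of the elements of an ideal and of its reduction -/
def S_DT : Prop := ∀ (S : AddSubmonoid ℕ) (F : ℕ), (∀ s, F ≤ s → s ∈ S) →
  ∀ (V k κ O B Bb : Type) [CommRing V] [IsDomain V]
  [IsDiscreteValuationRing V] [Field k] [Field κ] [Algebra V k] [IsFractionRing V k] [CommRing O]
  [CommRing B] [IsDedekindDomain B] [CommRing Bb] [Algebra V O] [Algebra k B] [Algebra κ Bb]
  (T : Tri S V k κ O B Bb) (p : ℕ), 0 < p → ∀ (𝔠 : Ideal B) (α : O) (δ : ℕ), 𝔠 ≠ ⊥ →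
  𝔠 ^ p = Ideal.span {T.ι α} → T.ρ α ≠ 0 →
  (∃ Y, ∀ y, Y ≤ y → finrank κ (T.Wb.Fl y ⊓ ((𝔠.comap T.ι).map T.ρ).restrictScalars κ :
    Submodule κ Bb) + δ ≤ ct S y) →
  (T.Wb.cf (T.ρ α)).natDegree ≤ p * δ →
  (T.Wb.cf (T.ρ α)).natDegree = p * δ ∧ ∃ h q : O, T.ι h ∈ 𝔠 ∧ T.ρ h ≠ 0 ∧ h ^ p = α * q ∧
    (T.Wb.cf (T.ρ q)).natDegree = (T.W.cf q).natDegree ∧
    (T.W.cf q).natDegree + p * finrank k (B ⧸ 𝔠) = p * (T.W.cf h).natDegree ∧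
    (T.Wb.cf (T.ρ h)).natDegree + finrank k (B ⧸ 𝔠) = (T.W.cf h).natDegree + δ

/-- `S_nw` (F3): the sequence of Newton's method, with the control of the degrees -/
def S_nw : Prop := ∀ (S : AddSubmonoid ℕ)
  (V k κ O B Bb : Type) [CommRing V] [IsDomain V]
  [IsDiscreteValuationRing V] [Field k] [Field κ] [Algebra V k] [IsFractionRing V k] [CommRing O]
  [CommRing B] [CommRing Bb] [Algebra V O] [Algebra k B] [Algebra κ Bb]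
  (T : Tri S V k κ O B Bb) (p : ℕ), 0 < p → IsUnit (p : V) → ∀ (ϖ c : V) (w q y : O) (r : ℕ),
  Irreducible ϖ → IsUnit c → w ^ p = q * (algebraMap V O c + algebraMap V O ϖ * y) →
  T.ρ w ≠ 0 → (T.Wb.cf (T.ρ w)).natDegree = r → (T.W.cf q).natDegree = p * r →
  ∀ m : ℕ, ∃ e g h : O, w * e = g + algebraMap V O ϖ ^ m * h ∧ (T.W.cf g).natDegree ≤ r ∧
    T.ρ (w * e) ≠ 0

/-- `S_sm` (F4): approximation of elements of small degree in an ideal -/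
def S_sm : Prop := ∀ (S : AddSubmonoid ℕ) (F : ℕ), (∀ s, F ≤ s → s ∈ S) →
  ∀ (V k κ O B Bb : Type) [CommRing V] [IsDomain V]
  [IsDiscreteValuationRing V] [Field k] [Field κ] [Algebra V k] [IsFractionRing V k] [CommRing O]
  [CommRing B] [CommRing Bb] [Algebra V O] [Algebra k B] [Algebra κ Bb]
  (T : Tri S V k κ O B Bb) (ϖ : V), Irreducible ϖ → ∀ (𝔠 : Ideal B) (q : O) (r : ℕ), T.ι q ∈ 𝔠 →
  T.ρ q ≠ 0 → (T.Wb.cf (T.ρ q)).natDegree = (T.W.cf q).natDegree →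
  (∀ m : ℕ, ∃ g h : O, T.ι (g + algebraMap V O ϖ ^ m * h) ∈ 𝔠 ∧ (T.W.cf g).natDegree ≤ r ∧
    T.ρ (g + algebraMap V O ϖ ^ m * h) ≠ 0) →
  ∃ w ∈ 𝔠, w ≠ 0 ∧ (T.Wk.cf w).natDegree ≤ r

/-- `S_LL` (F5): an ideal whose reduction is principal is principal -/
def S_LL : Prop := ∀ (S : AddSubmonoid ℕ) (F : ℕ), (∀ s, F ≤ s → s ∈ S) →
  ∀ (V k κ O B Bb : Type) [CommRing V] [IsDomain V]
  [IsDiscreteValuationRing V] [Field k] [Field κ] [Algebra V k] [IsFractionRing V k] [CommRing O]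
  [CommRing B] [IsDedekindDomain B] [CommRing Bb] [Algebra V O] [Algebra k B] [Algebra κ Bb]
  (T : Tri S V k κ O B Bb) (p : ℕ), 0 < p → IsUnit (p : V) → ∀ 𝔠 : Ideal B, 𝔠 ≠ ⊥ →
  (𝔠 ^ p).IsPrincipal → ((𝔠.comap T.ι).map T.ρ).IsPrincipal → 𝔠.IsPrincipal

/-! ### Part G: the cusp -/

/-- `S_stA` (G1): step A -/
def S_stA : Prop := ∀ (O B : Type) [CommRing O] [IsDomain O] [IsNoetherianRing O] [CommRing B]
  [IsDedekindDomain B] (ι : O →+* B), Function.Injective ι →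
  (∀ I : Ideal B, ((I.comap ι).map ι) = I) → ∀ t : O,
  (∀ I : Ideal O, ∃ g ∈ I, I ≤ Ideal.span {g} ⊔ Ideal.span {t}) →
  (Ideal.span {ι t}).IsMaximal → ∀ p : ℕ, 0 < p → ∀ 𝔡 : Ideal B, 𝔡 ≠ ⊥ → (𝔡 ^ p).IsPrincipal →
  ∃ 𝔠 : Ideal B, 𝔠 ≠ ⊥ ∧ (𝔠 ^ p).IsPrincipal ∧ (𝔠.IsPrincipal → 𝔡.IsPrincipal) ∧
    ∃ w : O, ι (1 + t * w) ∈ 𝔠

/-- `S_cu1` (G2): ideals of `κ[S]` which are trivial at the cusp -/
def S_cu1 : Prop := ∀ (S : AddSubmonoid ℕ) (F : ℕ), (∀ s, F ≤ s → s ∈ S) →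
  ∀ (κ B : Type) [Field κ] [CommRing B] [Algebra κ B] (W : Wt S κ B),
  (∀ a b : B, W.cf (a * b) = W.cf a * W.cf b) → ∀ (J : Ideal B) (δ : B), δ ∈ J →
  (W.cf δ).coeff 0 = 1 → ∃ b : κ[X], b.coeff 0 = 1 ∧ (∀ a, a ∈ J ↔ b ∣ W.cf a) ∧
    (∃ Y, ∀ y, Y ≤ y → finrank κ (W.Fl y ⊓ J.restrictScalars κ : Submodule κ B) + b.natDegree =
      ct S y) ∧
    ∀ (α : B) (m : ℕ), J ^ m ≤ Ideal.span {α} → W.cf α ∣ b ^ m

/-- `S_cu2` (G3): roots and quotients of polynomials with exponents in `S` -/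
def S_cu2 : Prop := ∀ (S : AddSubmonoid ℕ) (κ : Type) [Field κ] (p : ℕ), 0 < p → (p : κ) ≠ 0 →
  ∀ b : κ[X], b.coeff 0 = 1 → ((∀ s, (b ^ p).coeff s ≠ 0 → s ∈ S) → ∀ s, b.coeff s ≠ 0 → s ∈ S) ∧
    ∀ u : κ[X], (∀ s, b.coeff s ≠ 0 → s ∈ S) → (∀ s, (b * u).coeff s ≠ 0 → s ∈ S) →
      ∀ s, u.coeff s ≠ 0 → s ∈ S

/-- `S_stB` (G4): step B -/
def S_stB : Prop := ∀ (S : AddSubmonoid ℕ) (F : ℕ), (∀ s, F ≤ s → s ∈ S) →
  ∀ (V k κ O B Bb : Type) [CommRing V] [IsDomain V]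
  [IsDiscreteValuationRing V] [Field k] [Field κ] [Algebra V k] [IsFractionRing V k] [CommRing O]
  [CommRing B] [IsDedekindDomain B] [CommRing Bb] [Algebra V O] [Algebra k B] [Algebra κ Bb]
  (T : Tri S V k κ O B Bb) (p : ℕ), 0 < p → IsUnit (p : V) →
  (∀ a b : Bb, T.Wb.cf (a * b) = T.Wb.cf a * T.Wb.cf b) → ∀ 𝔠 : Ideal B, 𝔠 ≠ ⊥ →
  (𝔠 ^ p).IsPrincipal → ∀ δ : O, T.ι δ ∈ 𝔠 → (T.Wb.cf (T.ρ δ)).coeff 0 = 1 →
  ((𝔠.comap T.ι).map T.ρ).IsPrincipal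

/-- The conditions at the place. -/
structure Cusp {N n : ℕ} {V : Type} [CommRing V] (ϖ : V) (v : Ix N n → V) : Prop where
  top : ∀ q : Ix N n, (q.1.1 : ℕ) = 0 → (q.1.2 : ℕ) = n → ϖ ∣ v q + 1
  zero : ∀ q : Ix N n, (q.1.1 : ℕ) = 0 → (q.1.2 : ℕ) = 0 → ∃ u : V, IsUnit u ∧ v q = ϖ * u
  other : ∀ q : Ix N n, ¬ ((q.1.1 : ℕ) = 0 ∧ (q.1.2 : ℕ) = n) → ϖ ∣ v q

/-- `S_eis` (G5): the curve modulo `t` -/
def S_eis : Prop := ∀ N n : ℕ, 0 < N → 0 < n → N.Coprime n → ∀ (V : Type) [CommRing V] [IsDomain V]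
  [IsDiscreteValuationRing V] (ϖ : V), Irreducible ϖ → ∀ v : Ix N n → V, Cusp ϖ v →
  IsNoetherianRing (BB v) ∧
  (∀ I : Ideal (BB v), ∃ g ∈ I, I ≤ Ideal.span {g} ⊔ Ideal.span {AdjoinRoot.mk (ff v) (C X)}) ∧
  ∀ (k : Type) [Field k] [Algebra V k] [IsFractionRing V k],
    (Ideal.span {AdjoinRoot.mk (ff fun q => algebraMap V k (v q)) (C X)}).IsMaximal

/-- `S_loc` (G6): no classes of order `p` near the cusp -/
def S_loc : Prop := ∀ N n : ℕ, 0 < N → 0 < n → N.Coprime n → ∀ p : ℕ, 0 < p → ∀ (V : Type)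
  [CommRing V] [IsDomain V] [IsDiscreteValuationRing V] (ϖ : V), Irreducible ϖ → IsUnit (p : V) →
  ∀ v : Ix N n → V, Cusp ϖ v → ∀ (k : Type) [Field k] [Algebra V k] [IsFractionRing V k],
  IsDedekindDomain (BB fun q => algebraMap V k (v q)) →
  ∀ 𝔡 : Ideal (BB fun q => algebraMap V k (v q)), (𝔡 ^ p).IsPrincipal → 𝔡.IsPrincipal

end Pool.Agent.NH7.AC
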