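import Mathlib
import Pool.Agent.NH7.AC.Stms

/-!
# AC-F3: Newton iteration with control of the degrees
-/

set_option autoImplicit false
set_option linter.unusedSectionVars false

namespace Pool.Agent.NH7.AC

open Polynomial Module

namespace NwP

section wt

variable {S : AddSubmonoid ℕ} {R B : Type} [CommRing R] [CommRing B] [Algebra R B] (W : Wt S R B)

theorem exists_cf (P : R[X]) (hP : ∀ s, P.coeff s ≠ 0 → s ∈ S) : ∃ a, W.cf a = P := by
  classical
  have h1 : ∀ s, ∃ b : B, W.cf b = C (P.coeff s) * X ^ s := by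
    intro s
    by_cases h : P.coeff s = 0
    · exact ⟨0, by rw [map_zero, h, C_0, zero_mul]⟩
    · obtain ⟨b, hb⟩ := W.surj s (hP s h)
      exact ⟨P.coeff s • b, by rw [map_smul, hb, smul_eq_C_mul]⟩
  choose b hb using h1
  refine ⟨∑ s ∈ P.support, b s, ?_⟩
  rw [map_sum]
  conv_rhs => rw [P.as_sum_support_C_mul_X_pow]
  exact Finset.sum_congr rfl fun s _ => hb s

/-- Truncation. -/
theorem trunc (x : B) (r : ℕ) : ∃ g h : B, x = g + h ∧ (W.cf g).natDegree ≤ r ∧
    (∀ s, s ≤ r → (W.cf h).coeff s = 0) ∧ ∀ s, r < s → (W.cf h).coeff s = (W.cf x).coeff s := by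
  classical
  obtain ⟨P, hP⟩ : ∃ P : R[X], P = ∑ s ∈ Finset.range (r + 1), C ((W.cf x).coeff s) * X ^ s :=
    ⟨_, rfl⟩
  have hc : ∀ s, P.coeff s = if s ≤ r then (W.cf x).coeff s else 0 := by
    intro s
    rw [hP, finsetSum_coeff]
    simp only [coeff_C_mul_X_pow]
    by_cases h : s ≤ r
    · rw [if_pos h, Finset.sum_ite_eq, if_pos (Finset.mem_range.2 (by omega))]
    · rw [if_neg h]
      refine Finset.sum_eq_zero fun i hi => ?_
      rw [Finset.mem_range] at hi
      rw [if_neg (by omega)]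
  obtain ⟨g, hg⟩ := exists_cf W P (fun s hs => by
    rw [hc] at hs
    by_cases h : s ≤ r
    · rw [if_pos h] at hs
      exact W.supp x s hs
    · rw [if_neg h] at hs
      exact absurd rfl hs)
  refine ⟨g, x - g, by ring, ?_, ?_, ?_⟩
  · rw [hg, natDegree_le_iff_coeff_eq_zero]
    intro s hs
    rw [hc, if_neg (by omega)]
  · intro s hs
    rw [map_sub, coeff_sub, hg, hc, if_pos hs, sub_self]
  · intro s hs
    rw [map_sub, coeff_sub, hg, hc, if_neg (by omega), sub_zero]

theorem pow_le (a : B) (r : ℕ) (h : (W.cf a).natDegree ≤ r) (n : ℕ) :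
    (W.cf (a ^ n)).natDegree ≤ n * r := by
  induction n with
  | zero => rw [pow_zero, W.one, natDegree_one]; exact Nat.zero_le _
  | succ n ih =>
    rw [pow_succ]
    refine (W.mul_le _ _ _ _ ih h).trans ?_
    rw [Nat.succ_mul]

theorem smul_eq (c : R) (a : B) : W.cf (algebraMap R B c * a) = C c * W.cf a := by
  rw [← Algebra.smul_def, map_smul, smul_eq_C_mul]

theorem cf_pow_mul (c : R) (n : ℕ) (a : B) : W.cf (algebraMap R B c ^ n * a) = C (c ^ n) * W.cf a := by
  rw [← map_pow, smul_eq]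

end wt

section main

variable {S : AddSubmonoid ℕ} {V k κ O B Bb : Type} [CommRing V] [IsDomain V]
  [IsDiscreteValuationRing V] [Field k] [Field κ] [Algebra V k] [IsFractionRing V k] [CommRing O]
  [CommRing B] [CommRing Bb] [Algebra V O] [Algebra k B] [Algebra κ Bb]
  (T : Tri S V k κ O B Bb)

theorem r_varpi {ϖ : V} (hϖ : Irreducible ϖ) : T.r ϖ = 0 := (T.rker ϖ).2 hϖ.not_isUnit

/-- Newton's method. -/
theorem newton (hρa : ∀ c : V, T.ρ (algebraMap V O c) = algebraMap κ Bb (T.r c)) {p : ℕ}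
    (hp : IsUnit (p : V)) {ϖ c : V} {w q y : O} (hϖ : Irreducible ϖ) (hc : IsUnit c)
    (hw : w ^ p = q * (algebraMap V O c + algebraMap V O ϖ * y)) (m : ℕ) :
    ∃ e y' : O, T.ρ e = 1 ∧
      (w * e) ^ p = q * (algebraMap V O c + algebraMap V O ϖ ^ (m + 1) * y') := by
  induction m with
  | zero => exact ⟨1, y, map_one _, by rw [mul_one, hw, zero_add, pow_one]⟩
  | succ m ih =>
    obtain ⟨e, y', h1, h2⟩ := ih
    obtain ⟨P, hP⟩ := hp
    obtain ⟨c', hc'⟩ := hc
    obtain ⟨u, hu⟩ : ∃ u : O, u = algebraMap V O (↑(c'⁻¹) : V) := ⟨_, rfl⟩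
    obtain ⟨b, hb⟩ : ∃ b : O, b = algebraMap V O (↑(P⁻¹) : V) * u := ⟨_, rfl⟩
    have k1 : (p : O) * b = u := by
      rw [hb, ← mul_assoc, ← map_natCast (algebraMap V O) p, ← hP, ← map_mul, Units.mul_inv,
        map_one, one_mul]
    have k2 : algebraMap V O c * u = 1 := by
      rw [hu, ← hc', ← map_mul, Units.mul_inv, map_one]
    obtain ⟨A, hA⟩ : ∃ A, A = algebraMap V O c := ⟨_, rfl⟩
    obtain ⟨t, ht⟩ : ∃ t, t = algebraMap V O ϖ := ⟨_, rfl⟩
    rw [← hA] at k2 h2 ⊢
    rw [← ht] at h2 ⊢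
    obtain ⟨K, hK⟩ := Polynomial.powAddExpansion (1 : O) (-(t ^ (m + 1) * y' * b)) p
    refine ⟨e * (1 + -(t ^ (m + 1) * y' * b)),
      t ^ m * (A * y' ^ 2 * b ^ 2 * K - y' ^ 2 * u + t ^ (m + 1) * y' ^ 3 * b ^ 2 * K), ?_, ?_⟩
    · rw [map_mul, h1, one_mul, map_add, map_one, map_neg, map_mul, map_mul, map_pow, ht, hρa,
        r_varpi T hϖ, map_zero, zero_pow (Nat.succ_ne_zero _), zero_mul, zero_mul, neg_zero,
        add_zero]
    · rw [← mul_assoc, mul_pow (w * e), h2, hK, one_pow, one_pow, mul_one]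
      have k3 : (p : O) * -(t ^ (m + 1) * y' * b) = -(t ^ (m + 1) * y' * u) := by
        rw [← k1]; ring
      rw [k3, mul_assoc]
      congr 1
      have k4 : t ^ (m + 1 + 1) * t ^ m = t ^ (m + 1) * t ^ (m + 1) := by
        rw [← pow_add, ← pow_add]
        congr 1
        omega
      linear_combination (-(t ^ (m + 1) * y')) * k2 -
        (A * y' ^ 2 * b ^ 2 * K - y' ^ 2 * u + t ^ (m + 1) * y' ^ 3 * b ^ 2 * K) * k4

/-- Approximation by elements of small degree. -/
theorem approx (hdom : S_dom) [IsDomain O]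
    (hρa : ∀ c : V, T.ρ (algebraMap V O c) = algebraMap κ Bb (T.r c))
    {ϖ c : V} (hϖ : Irreducible ϖ)
    (hker : ∀ a : O, T.ρ a = 0 → ∃ b, a = algebraMap V O ϖ * b) {p : ℕ} (hp0 : 0 < p)
    (hp : IsUnit (p : V)) {w q y : O} {r m : ℕ}
    (hw : w ^ p = q * (algebraMap V O c + algebraMap V O ϖ ^ (m + 1) * y))
    (hw0 : T.ρ w ≠ 0) (hr : (T.Wb.cf (T.ρ w)).natDegree = r)
    (hq : (T.W.cf q).natDegree ≤ p * r) (j : ℕ) (hj : j ≤ m) :
    ∃ g h : O, w = g + algebraMap V O ϖ ^ (j + 1) * h ∧ (T.W.cf g).natDegree ≤ r := by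
  obtain ⟨hD, hdeg, -, -⟩ := hdom S κ Bb T.Wb
  induction j with
  | zero =>
    obtain ⟨g, h, h1, h2, h3, h4⟩ := trunc T.W w r
    have h5 : T.ρ h = 0 := by
      apply T.Wb.inj
      rw [map_zero, T.hρ]
      ext s
      rw [coeff_map, coeff_zero]
      by_cases hs : s ≤ r
      · rw [h3 s hs, map_zero]
      · rw [h4 s (by omega), ← coeff_map, ← T.hρ]
        exact coeff_eq_zero_of_natDegree_lt (by omega)
    obtain ⟨b, hb⟩ := hker h h5
    exact ⟨g, b, by rw [zero_add, pow_one, ← hb, h1], h2⟩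
  | succ j ih =>
    obtain ⟨G, H, h1, h2⟩ := ih (by omega)
    obtain ⟨H1, H2, h3, h4, h5, h6⟩ := trunc T.W H r
    obtain ⟨G', hG'⟩ : ∃ G', G' = G + algebraMap V O ϖ ^ (j + 1) * H1 := ⟨_, rfl⟩
    have h7 : w = G' + algebraMap V O ϖ ^ (j + 1) * H2 := by
      rw [hG', h1, h3]
      ring
    have h8 : (T.W.cf G').natDegree ≤ r := by
      rw [hG', map_add, cf_pow_mul]
      refine (natDegree_add_le _ _).trans (max_le h2 ?_)
      exact (natDegree_C_mul_le _ _).trans h4
    have h9 : T.ρ H2 = 0 := by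
      by_contra hne
      obtain ⟨K, hK⟩ := Polynomial.powAddExpansion G' (algebraMap V O ϖ ^ (j + 1) * H2) p
      obtain ⟨t, ht⟩ : ∃ t, t = algebraMap V O ϖ := ⟨_, rfl⟩
      obtain ⟨z, hz⟩ : ∃ z, z = t ^ (m - (j + 1)) * q * y - K * t ^ j * H2 ^ 2 := ⟨_, rfl⟩
      have k1 : t ^ (j + 1) * ((p : O) * G' ^ (p - 1) * H2) =
          (q * algebraMap V O c - G' ^ p) + t ^ (j + 2) * z := by
        have e1 : w ^ p = G' ^ p + (p : O) * G' ^ (p - 1) * (t ^ (j + 1) * H2) +
            K * (t ^ (j + 1) * H2) ^ 2 := by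
          rw [ht, ← hK, ← h7]
        have e2 : t ^ (m + 1) = t ^ (j + 2) * t ^ (m - (j + 1)) := by
          rw [← pow_add]
          congr 1
          omega
        have e3 : t ^ (j + 1) * t ^ (j + 1) = t ^ (j + 2) * t ^ j := by
          rw [← pow_add, ← pow_add]
          congr 1
          omega
        rw [← ht] at hw
        rw [hz]
        linear_combination hw - e1 + (q * y) * e2 - (K * H2 ^ 2) * e3
      have k2 : ∀ s, p * r < s → T.r ((T.W.cf ((p : O) * G' ^ (p - 1) * H2)).coeff s) = 0 := by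
        intro s hs
        have e1 : (T.W.cf (t ^ (j + 1) * ((p : O) * G' ^ (p - 1) * H2))).coeff s =
            (T.W.cf ((q * algebraMap V O c - G' ^ p) + t ^ (j + 2) * z)).coeff s := by rw [k1]
        rw [ht, cf_pow_mul, map_add, map_sub, cf_pow_mul, coeff_C_mul, coeff_add, coeff_sub,
          coeff_C_mul] at e1
        have e2 : (T.W.cf (q * algebraMap V O c)).coeff s = 0 := by
          rw [mul_comm, smul_eq, coeff_C_mul, coeff_eq_zero_of_natDegree_lt (by omega), mul_zero]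
        have e3 : (T.W.cf (G' ^ p)).coeff s = 0 :=
          coeff_eq_zero_of_natDegree_lt (lt_of_le_of_lt (pow_le T.W G' r h8 p) hs)
        rw [e2, e3, sub_zero, zero_add, show ϖ ^ (j + 2) = ϖ ^ (j + 1) * ϖ from pow_succ _ _,
          mul_assoc (ϖ ^ (j + 1)) ϖ] at e1
        have e4 := mul_left_cancel₀ (pow_ne_zero _ hϖ.ne_zero) e1
        rw [e4, map_mul, r_varpi T hϖ, zero_mul]
      have k3 : T.r (p : V) ≠ 0 := by
        intro h
        exact (T.rker _).1 h hp
      have k4 : T.ρ G' = T.ρ w := by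
        rw [h7, map_add, map_mul, map_pow, hρa, r_varpi T hϖ, map_zero,
          zero_pow (Nat.succ_ne_zero _), zero_mul, add_zero]
      have k5 : (T.Wb.cf (T.ρ G' ^ (p - 1) * T.ρ H2)).natDegree ≤ p * r := by
        rw [natDegree_le_iff_coeff_eq_zero]
        intro s hs
        have e1 := k2 s hs
        rw [← coeff_map, ← T.hρ, map_mul T.ρ, map_mul T.ρ, map_natCast, map_pow, mul_assoc] at e1
        have e2 : (p : Bb) = algebraMap κ Bb (T.r (p : V)) := by
          rw [map_natCast, map_natCast]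
        rw [e2, smul_eq, coeff_C_mul] at e1
        exact (mul_eq_zero.1 e1).resolve_left k3
      have k6 : r < (T.Wb.cf (T.ρ H2)).natDegree := by
        by_contra hcon
        apply hne
        apply T.Wb.inj
        rw [map_zero]
        ext s
        rw [coeff_zero]
        by_cases hs : s ≤ r
        · rw [T.hρ, coeff_map, h5 s hs, map_zero]
        · exact coeff_eq_zero_of_natDegree_lt (by omega)
      have k7 : ∀ n, (T.Wb.cf (T.ρ w ^ n)).natDegree = n * r := by
        intro n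
        induction n with
        | zero => rw [pow_zero, T.Wb.one, natDegree_one, zero_mul]
        | succ n ih =>
          rw [pow_succ, hdeg _ _ (pow_ne_zero _ hw0) hw0, ih, hr]
          ring
      rw [k4, hdeg _ _ (pow_ne_zero _ hw0) hne, k7] at k5
      have k8 : p * r = (p - 1) * r + r := by
        obtain ⟨p', rfl⟩ : ∃ p', p = p' + 1 := ⟨p - 1, by omega⟩
        rw [Nat.add_sub_cancel]
        ring
      omega
    obtain ⟨b, hb⟩ := hker H2 h9
    refine ⟨G', b, ?_, h8⟩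
    rw [h7, hb]
    ring

end main

end NwP

theorem s_nw (hdom : S_dom) (htri : S_tri) : S_nw := by
  intro S V k κ O B Bb _ _ _ _ _ _ _ _ _ _ _ _ _ T p hp0 hp ϖ c w q y r hϖ hc hw hw0 hr hq m
  obtain ⟨hO, -, -, -, hρa, -, -, hker, -, -⟩ := htri S V k κ O B Bb T
  rcases m with _ | m
  · refine ⟨1, 0, w, by rw [pow_zero]; ring, ?_, by rwa [mul_one]⟩
    rw [map_zero, natDegree_zero]
    exact Nat.zero_le _
  obtain ⟨e, y', h1, h2⟩ := NwP.newton T hρa hp hϖ hc hw m
  have h3 : T.ρ (w * e) = T.ρ w := by rw [map_mul, h1, mul_one]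
  obtain ⟨g, h, h4, h5⟩ := NwP.approx T hdom hρa hϖ (fun a ha => hker ϖ a hϖ ha) hp0 hp h2
    (by rwa [h3]) (by rw [h3]; exact hr) hq.le m le_rfl
  exact ⟨e, g, h, h4, h5, by rwa [h3]⟩

end Pool.Agent.NH7.AC
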