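import Mathlib
import Pool.Agent.NH7.AC.Stms
import Pool.Agent.NH7.AC.NwP

/-!
# AC-G2: ideals of the semigroup ring prime to the cusp
-/

set_option autoImplicit false
set_option linter.unusedSectionVars false

namespace Pool.Agent.NH7.AC

open Polynomial Module

namespace Cu1P

variable {S : AddSubmonoid ℕ} {κ B : Type} [Field κ] [CommRing B] [Algebra κ B] (W : Wt S κ B)

/-- The coefficients as a ring homomorphism. -/
noncomputable def Ph (hm : ∀ a b : B, W.cf (a * b) = W.cf a * W.cf b) : B →+* κ[X] where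
  toFun := W.cf
  map_one' := W.one
  map_mul' := hm
  map_zero' := map_zero _
  map_add' := map_add _

theorem Ph_apply (hm : ∀ a b : B, W.cf (a * b) = W.cf a * W.cf b) (a : B) :
    Ph W hm a = W.cf a := rfl

theorem shift {F : ℕ} (hF : ∀ s, F ≤ s → s ∈ S) (u : κ[X]) : ∃ z : B, W.cf z = X ^ F * u :=
  NwP.exists_cf W _ fun s hs => hF s (by
    by_contra h
    apply hs
    rw [coeff_X_pow_mul', if_neg h])

theorem lift_mem {F : ℕ} (hF : ∀ s, F ≤ s → s ∈ S)
    (hm : ∀ a b : B, W.cf (a * b) = W.cf a * W.cf b) {J : Ideal B} {u : κ[X]}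
    (hu : u ∈ J.map (Ph W hm)) : ∀ w : κ[X], ∃ x ∈ J, W.cf x = X ^ F * (w * u) := by
  unfold Ideal.map Ideal.span at hu
  induction hu using Submodule.span_induction with
  | mem u h =>
    obtain ⟨a, ha, rfl⟩ := h
    intro w
    obtain ⟨z, hz⟩ := shift W hF w
    refine ⟨z * a, J.mul_mem_left _ ha, ?_⟩
    rw [hm, hz, Ph_apply]
    ring
  | zero => exact fun w => ⟨0, J.zero_mem, by rw [map_zero]; ring⟩
  | add u v _ _ h1 h2 =>
    intro w
    obtain ⟨x, hx, hx'⟩ := h1 w
    obtain ⟨y, hy, hy'⟩ := h2 w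
    exact ⟨x + y, J.add_mem hx hy, by rw [map_add, hx', hy']; ring⟩
  | smul c u _ h =>
    intro w
    obtain ⟨x, hx, hx'⟩ := h (w * c)
    exact ⟨x, hx, by rw [hx', smul_eq_mul, mul_assoc]⟩

end Cu1P

open Cu1P

theorem s_cu1 (hdom : S_dom) (hdim : S_dim) : S_cu1 := by
  intro S F hF κ B _ _ _ W hm J δ hδ hδ1
  obtain ⟨b₀, hb₀⟩ := (IsPrincipalIdealRing.principal (J.map (Ph W hm))).principal
  rw [← Ideal.span] at hb₀
  have hδ2 : b₀ ∣ W.cf δ := by
    rw [← Ideal.mem_span_singleton, ← hb₀]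
    exact Ideal.mem_map_of_mem (Ph W hm) hδ
  have hc : b₀.coeff 0 ≠ 0 := by
    intro h
    obtain ⟨u, hu⟩ := hδ2
    rw [hu, mul_coeff_zero, h, zero_mul] at hδ1
    exact zero_ne_one hδ1
  obtain ⟨b, hb⟩ : ∃ b, b = C (b₀.coeff 0)⁻¹ * b₀ := ⟨_, rfl⟩
  have hbI : J.map (Ph W hm) = Ideal.span {b} := by
    rw [hb₀, hb, mul_comm]
    symm
    apply Ideal.span_singleton_mul_right_unit
    exact isUnit_C.2 (inv_ne_zero hc).isUnit
  have hb1 : b.coeff 0 = 1 := by
    rw [hb, coeff_C_mul, inv_mul_cancel₀ hc]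
  have hb0 : b ≠ 0 := by
    rintro rfl
    rw [coeff_zero] at hb1
    exact zero_ne_one hb1
  have hJ : ∀ a, a ∈ J ↔ b ∣ W.cf a := by
    intro a
    constructor
    · intro ha
      rw [← Ideal.mem_span_singleton, ← hbI]
      exact Ideal.mem_map_of_mem (Ph W hm) ha
    · intro ha
      rw [← Ideal.mem_span_singleton, ← hbI] at ha
      have h1 : X ∣ 1 - W.cf δ := by
        rw [X_dvd_iff, coeff_sub, hδ1, coeff_one_zero, sub_self]
      obtain ⟨e, he⟩ := h1
      obtain ⟨x, hx, hx'⟩ := lift_mem W hF hm ha (e ^ F)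
      have h2 : W.cf (a * (1 - δ) ^ F) = W.cf x := by
        have h3 : W.cf ((1 - δ) ^ F) = (1 - W.cf δ) ^ F := by
          change Ph W hm ((1 - δ) ^ F) = (1 - W.cf δ) ^ F
          rw [map_pow, map_sub, map_one]
          rfl
        rw [hm, h3, he, hx', mul_pow]
        ring
      have h3 : a * (1 - δ) ^ F = x := W.inj h2
      have h4 : δ ∣ 1 - (1 - δ) ^ F := by
        have h5 := sub_dvd_pow_sub_pow (1 : B) (1 - δ) F
        rw [one_pow] at h5
        convert h5 using 1
        ring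
      obtain ⟨d, hd⟩ := h4
      have h5 : a = δ * (a * d) + x := by
        rw [← h3]
        linear_combination (a : B) * hd
      rw [h5]
      exact J.add_mem (J.mul_mem_right _ hδ) hx
  refine ⟨b, hb1, hJ, ⟨F + b.natDegree, fun y hy => ?_⟩, fun α m hα => ?_⟩
  · obtain ⟨hfin, -, -, -, -⟩ := hdim S F hF κ B W
    obtain ⟨h1, h2⟩ := hfin y
    let π : κ[X] →ₗ[κ] (κ[X] ⧸ Ideal.span {b}) := (Ideal.Quotient.mkₐ κ (Ideal.span {b})).toLinearMap
    let Ψ : W.Fl y →ₗ[κ] (κ[X] ⧸ Ideal.span {b}) := π ∘ₗ W.cf ∘ₗ (W.Fl y).subtype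
    have hπ : ∀ u, π u = Ideal.Quotient.mk (Ideal.span {b}) u := fun u => rfl
    have hsurj : LinearMap.range Ψ = ⊤ := by
      rw [LinearMap.range_eq_top]
      intro v
      obtain ⟨v, rfl⟩ := Ideal.Quotient.mk_surjective v
      have hcop : IsCoprime (X ^ F : κ[X]) b := by
        apply IsCoprime.pow_left
        refine (Irreducible.coprime_iff_not_dvd irreducible_X).2 ?_
        rw [X_dvd_iff, hb1]
        exact one_ne_zero
      obtain ⟨s, t, hst⟩ := hcop
      obtain ⟨z, hz⟩ := shift W hF ((v * s) % b)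
      have hdeg : (W.cf z).natDegree ≤ y := by
        rw [hz]
        by_cases h0 : (v * s) % b = 0
        · rw [h0, mul_zero, natDegree_zero]
          exact Nat.zero_le _
        · rw [natDegree_mul (pow_ne_zero _ X_ne_zero) h0, natDegree_X_pow]
          have h3 := natDegree_lt_natDegree h0 (EuclideanDomain.mod_lt (v * s) hb0)
          omega
      have hzF : z ∈ W.Fl y := by
        change W.cf z ∈ degreeLE κ (y : WithBot ℕ)
        rw [mem_degreeLE]
        exact degree_le_of_natDegree_le hdeg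
      refine ⟨⟨z, hzF⟩, ?_⟩
      change Ideal.Quotient.mk (Ideal.span {b}) (W.cf z) = _
      rw [Ideal.Quotient.eq, Ideal.mem_span_singleton, hz]
      have h3 := EuclideanDomain.div_add_mod (v * s) b
      refine ⟨-(X ^ F * (v * s / b)) - v * t, ?_⟩
      linear_combination (X ^ F) * h3 + v * hst
    have hker : finrank κ (LinearMap.ker Ψ) =
        finrank κ (W.Fl y ⊓ J.restrictScalars κ : Submodule κ B) := by
      have h3 : (LinearMap.ker Ψ).map (W.Fl y).subtype = W.Fl y ⊓ J.restrictScalars κ := by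
        ext x
        constructor
        · rintro ⟨x', hx', rfl⟩
          refine ⟨x'.2, ?_⟩
          have h4 : Ideal.Quotient.mk (Ideal.span {b}) (W.cf (x' : B)) = 0 := hx'
          rw [Ideal.Quotient.eq_zero_iff_mem, Ideal.mem_span_singleton] at h4
          exact (hJ _).2 h4
        · rintro ⟨hx1, hx2⟩
          refine ⟨⟨x, hx1⟩, ?_, rfl⟩
          change Ideal.Quotient.mk (Ideal.span {b}) (W.cf x) = 0
          rw [Ideal.Quotient.eq_zero_iff_mem, Ideal.mem_span_singleton]
          exact (hJ _).1 hx2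
      rw [← h3]
      exact (LinearEquiv.finrank_eq (Submodule.equivMapOfInjective _
        (Submodule.subtype_injective _) _))
    have h3 := LinearMap.finrank_range_add_finrank_ker Ψ
    rw [hsurj, finrank_top, finrank_quotient_span_eq_natDegree, hker, h2] at h3
    rw [add_comm]
    exact h3
  · have h1 : b ^ m ∈ (J ^ m).map (Ph W hm) := by
      rw [Ideal.map_pow, hbI]
      exact Ideal.pow_mem_pow (Ideal.mem_span_singleton_self b) m
    have h2 := Ideal.map_mono (f := Ph W hm) hα h1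
    rw [Ideal.map_span, Set.image_singleton, Ideal.mem_span_singleton] at h2
    exact h2

end Pool.Agent.NH7.AC
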