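import Pool.Agent.NH7.AC.Stms

/-!
# Roots and quotients of polynomials with exponents in a semigroup
-/

set_option autoImplicit false

namespace Pool.Agent.NH7.AC

open Polynomial

namespace Cu2P

variable {κ : Type} [Field κ]

/-- the exponents are in `S` -/
def Su (S : AddSubmonoid ℕ) (f : κ[X]) : Prop := ∀ s, f.coeff s ≠ 0 → s ∈ S

lemma su_mul {S : AddSubmonoid ℕ} {f g : κ[X]} (hf : Su S f) (hg : Su S g) : Su S (f * g) := by
  intro s hs
  rw [coeff_mul] at hs
  obtain ⟨x, hx, hx0⟩ := Finset.exists_ne_zero_of_sum_ne_zero hs
  rw [Finset.HasAntidiagonal.mem_antidiagonal] at hx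
  have h1 := hf x.1 (left_ne_zero_of_mul hx0)
  have h2 := hg x.2 (right_ne_zero_of_mul hx0)
  rw [← hx]
  exact S.add_mem h1 h2

lemma su_one (S : AddSubmonoid ℕ) : Su S (1 : κ[X]) := by
  intro s hs
  rw [coeff_one] at hs
  by_cases h : s = 0
  · rw [h]
    exact S.zero_mem
  · rw [if_neg h] at hs
    exact absurd rfl hs

lemma su_pow {S : AddSubmonoid ℕ} {f : κ[X]} (hf : Su S f) (n : ℕ) : Su S (f ^ n) := by
  induction n with
  | zero =>
    rw [pow_zero]
    exact su_one S
  | succ n ih =>
    rw [pow_succ]
    exact su_mul ih hf

/-- the part of degree less than `s` -/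
noncomputable def low (b : κ[X]) (s : ℕ) : κ[X] := ∑ j ∈ Finset.range s, monomial j (b.coeff j)

lemma coeff_low (b : κ[X]) (s d : ℕ) : (low b s).coeff d = if d < s then b.coeff d else 0 := by
  unfold low
  rw [finsetSum_coeff]
  simp only [coeff_monomial]
  rw [Finset.sum_ite_eq']
  simp only [Finset.mem_range]

end Cu2P

open Cu2P in
/-- `S_cu2` (G3): roots and quotients of polynomials with exponents in `S` -/
theorem s_cu2 : S_cu2 := by
  intro S κ _ p hp hpκ b hb
  constructor
  · intro hS s
    induction s using Nat.strong_induction_on with
    | _ s ih =>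
      intro hbs
      by_contra hs
      have hs0 : 0 < s := by
        rcases Nat.eq_zero_or_pos s with h | h
        · exact absurd (h ▸ S.zero_mem) hs
        · exact h
      have hu : Su S (low b s) := by
        intro d hd
        rw [coeff_low] at hd
        by_cases h : d < s
        · rw [if_pos h] at hd
          exact ih d h hd
        · rw [if_neg h] at hd
          exact absurd rfl hd
      obtain ⟨e, he⟩ : X ^ s ∣ b - low b s := by
        rw [X_pow_dvd_iff]
        intro d hd
        rw [coeff_sub, coeff_low, if_pos hd, sub_self]
      have he0 : e.coeff 0 = b.coeff s := by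
        have h1 := congrArg (fun f : κ[X] => f.coeff s) he
        simp only [coeff_sub, coeff_low, lt_irrefl, if_false, sub_zero] at h1
        have h2 := coeff_X_pow_mul e s 0
        rw [zero_add] at h2
        rw [← h2, ← h1]
      have hbe : b = low b s + X ^ s * e := by rw [← he]; ring
      obtain ⟨k, hk⟩ := Polynomial.powAddExpansion (low b s) (X ^ s * e) p
      rw [← hbe] at hk
      have hc : (b ^ p).coeff s = (p : κ) * b.coeff s := by
        rw [hk, coeff_add, coeff_add]
        have h1 : ((low b s) ^ p).coeff s = 0 := by
          by_contra h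
          exact hs (su_pow hu p s h)
        have h2 : (k * (X ^ s * e) ^ 2).coeff s = 0 := by
          have h3 : k * (X ^ s * e) ^ 2 = X ^ (s + 1) * (X ^ (s - 1) * (k * e ^ 2)) := by
            have h4 : (X : κ[X]) ^ (s + 1) * X ^ (s - 1) = X ^ s * X ^ s := by
              rw [← pow_add, ← pow_add]
              congr 1
              omega
            calc k * (X ^ s * e) ^ 2 = (X ^ s * X ^ s) * (k * e ^ 2) := by ring
              _ = _ := by rw [← h4]; ring
          rw [h3, coeff_X_pow_mul', if_neg (by omega)]
        have h3 : ((p : κ[X]) * low b s ^ (p - 1) * (X ^ s * e)).coeff s = (p : κ) * b.coeff s := by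
          have h4 : (p : κ[X]) * low b s ^ (p - 1) * (X ^ s * e) =
              X ^ s * ((p : κ[X]) * low b s ^ (p - 1) * e) := by ring
          have h5 := coeff_X_pow_mul ((p : κ[X]) * low b s ^ (p - 1) * e) s 0
          rw [zero_add] at h5
          rw [h4, h5, mul_coeff_zero, mul_coeff_zero, he0, coeff_zero_eq_eval_zero (low b s ^ (p - 1)),
            eval_pow, ← coeff_zero_eq_eval_zero, coeff_low, if_pos hs0, hb, one_pow, mul_one,
            coeff_natCast_ite, if_pos rfl]
        rw [h1, h2, h3, zero_add, add_zero]
      exact hs (hS s (by rw [hc]; exact mul_ne_zero hpκ hbs))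
  · intro u hbS hbu s
    induction s using Nat.strong_induction_on with
    | _ s ih =>
      intro hus
      by_contra hs
      have h1 : (b * u).coeff s = u.coeff s := by
        rw [coeff_mul, Finset.sum_eq_single (0, s)]
        · rw [hb, one_mul]
        · rintro ⟨i, j⟩ hij hne
          rw [Finset.HasAntidiagonal.mem_antidiagonal] at hij
          simp only at hij ⊢
          by_contra h0
          have hi := hbS i (left_ne_zero_of_mul h0)
          have hj0 : u.coeff j ≠ 0 := right_ne_zero_of_mul h0
          have hjs : j < s := by
            rcases Nat.eq_zero_or_pos i with h | h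
            · exfalso
              apply hne
              rw [h, zero_add] at hij
              rw [h, hij]
            · omega
          have hj := ih j hjs hj0
          exact hs (hij ▸ S.add_mem hi hj)
        · intro h
          exact absurd (Finset.HasAntidiagonal.mem_antidiagonal.2 (zero_add s)) h
      exact hs (hbu s (by rw [h1]; exact hus))

end Pool.Agent.NH7.AC
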