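import Pool.Agent.NH7.AC.Stms

/-!
# Project AC: degrees in the reduction of an ideal
-/

set_option autoImplicit false

namespace Pool.Agent.NH7.AC.DTP

open Polynomial Module

theorem mem_Fl {S : AddSubmonoid ℕ} {R B : Type} [CommRing R] [CommRing B] [Algebra R B]
    (W : Wt S R B) (y : ℕ) (a : B) : a ∈ W.Fl y ↔ (W.cf a).natDegree ≤ y := by
  unfold Wt.Fl
  rw [Submodule.mem_comap, mem_degreeLE, natDegree_le_iff_degree_le]

section tri

variable {S : AddSubmonoid ℕ} {V k κ O B Bb : Type} [CommRing V] [IsDomain V]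
  [IsDiscreteValuationRing V] [Field k] [Field κ] [Algebra V k] [IsFractionRing V k] [CommRing O]
  [CommRing B] [CommRing Bb] [Algebra V O] [Algebra k B] [Algebra κ Bb]
  (T : Tri S V k κ O B Bb)

/-- the elements of degree at most `y` of the contraction -/
noncomputable def Iy (𝔠 : Ideal B) (y : ℕ) : Submodule V O :=
  (𝔠.comap T.ι).restrictScalars V ⊓ T.W.Fl y

theorem mem_Iy {𝔠 : Ideal B} {y : ℕ} {h : O} :
    h ∈ Iy T 𝔠 y ↔ T.ι h ∈ 𝔠 ∧ (T.W.cf h).natDegree ≤ y := by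
  unfold Iy
  rw [Submodule.mem_inf, mem_Fl]
  rfl

/-- the reductions -/
def Ry (hs : ∀ c : V, T.ρ (algebraMap V O c) = algebraMap κ Bb (T.r c)) (𝔠 : Ideal B) (y : ℕ) :
    Submodule κ Bb where
  carrier := {b | ∃ h, h ∈ Iy T 𝔠 y ∧ T.ρ h = b}
  zero_mem' := ⟨0, zero_mem _, map_zero _⟩
  add_mem' := by
    rintro _ _ ⟨h, h1, rfl⟩ ⟨h', h2, rfl⟩
    exact ⟨h + h', add_mem h1 h2, map_add _ _ _⟩
  smul_mem' := by
    rintro c _ ⟨h, h1, rfl⟩
    obtain ⟨c', rfl⟩ := T.rsurj c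
    refine ⟨c' • h, Submodule.smul_mem _ _ h1, ?_⟩
    rw [Algebra.smul_def, Algebra.smul_def, map_mul, hs]

theorem mem_Ry {hs : ∀ c : V, T.ρ (algebraMap V O c) = algebraMap κ Bb (T.r c)} {𝔠 : Ideal B}
    {y : ℕ} {b : Bb} : b ∈ Ry T hs 𝔠 y ↔ ∃ h, h ∈ Iy T 𝔠 y ∧ T.ρ h = b := Iff.rfl

theorem Iy_fg (𝔠 : Ideal B) (y : ℕ) : (Iy T 𝔠 y).FG := by
  let f : O →ₗ[V] (Fin (y + 1) → V) := LinearMap.pi fun i => (lcoeff V i).comp T.W.cf
  have hf : Function.Injective (f.comp (Iy T 𝔠 y).subtype) := by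
    rw [← LinearMap.ker_eq_bot, LinearMap.ker_eq_bot']
    intro h hh
    apply Subtype.ext
    apply T.W.inj
    show T.W.cf (h : O) = T.W.cf 0
    rw [map_zero]
    ext i
    rw [coeff_zero]
    by_cases hi : i < y + 1
    · exact congrFun hh ⟨i, hi⟩
    · refine coeff_eq_zero_of_natDegree_lt ?_
      have := ((mem_Iy T).1 h.2).2
      omega
  have : IsNoetherian V (Iy T 𝔠 y) := isNoetherian_of_injective _ hf
  exact (Submodule.fg_top _).1 (IsNoetherian.noetherian _)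

variable (h4 : ∀ c : V, T.ι (algebraMap V O c) = algebraMap k B (algebraMap V k c))
  (h5 : ∀ c : V, T.ρ (algebraMap V O c) = algebraMap κ Bb (T.r c))
  (h6 : ∀ a : O, (T.Wk.cf (T.ι a)).natDegree = (T.W.cf a).natDegree)
  (h8 : ∀ (ϖ : V) (a : O), Irreducible ϖ → T.ρ a = 0 → ∃ b, a = algebraMap V O ϖ * b)
  (h9 : ∀ a : B, a ≠ 0 → ∃ (c : k) (α : O), c ≠ 0 ∧ a = algebraMap k B c * T.ι α ∧ T.ρ α ≠ 0)

include h4 h6 h8 h9 in
theorem finrank_le {𝔠 : Ideal B} {y : ℕ} [Module.Finite κ (Ry T h5 𝔠 y)]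
    [Module.Finite k (T.Wk.Fl y ⊓ 𝔠.restrictScalars k : Submodule k B)] :
    finrank k (T.Wk.Fl y ⊓ 𝔠.restrictScalars k : Submodule k B) ≤ finrank κ (Ry T h5 𝔠 y) := by
  classical
  obtain ⟨ϖ, hϖ⟩ := IsDiscreteValuationRing.exists_irreducible V
  have hscal : ∀ (c : k) (a : B), (T.Wk.cf (algebraMap k B c * a)) = C c * T.Wk.cf a := by
    intro c a
    rw [← Algebra.smul_def, map_smul, smul_eq_C_mul]
  let b := finBasis κ (Ry T h5 𝔠 y)
  have hb : ∀ i, ∃ h, h ∈ Iy T 𝔠 y ∧ T.ρ h = b i := fun i => (b i).2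
  choose h hh hρ using hb
  set N : Submodule V O := Submodule.span V (Set.range h) with hN
  have hsub : Iy T 𝔠 y ≤ N := by
    refine Submodule.le_of_le_smul_of_le_jacobson_bot (I := Ideal.span {ϖ}) (Iy_fg T 𝔠 y) ?_ ?_
    · rw [IsLocalRing.jacobson_eq_maximalIdeal ⊥ bot_ne_top, Ideal.span_le,
        Set.singleton_subset_iff]
      exact (IsLocalRing.mem_maximalIdeal _).2 hϖ.not_isUnit
    · intro g hg
      have hg' : T.ρ g ∈ Ry T h5 𝔠 y := ⟨g, hg, rfl⟩
      have e1 := congrArg Subtype.val (b.sum_repr ⟨T.ρ g, hg'⟩)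
      choose c hc using fun i => T.rsurj (b.repr ⟨T.ρ g, hg'⟩ i)
      set g' : O := ∑ i, c i • h i with hg'd
      have hg'N : g' ∈ N := Submodule.sum_mem _ fun i _ =>
        Submodule.smul_mem _ _ (Submodule.subset_span ⟨i, rfl⟩)
      have hg'I : g' ∈ Iy T 𝔠 y := Submodule.sum_mem _ fun i _ =>
        Submodule.smul_mem _ _ (hh i)
      have e2 : T.ρ (g - g') = 0 := by
        rw [map_sub, hg'd, map_sum, sub_eq_zero]
        have e3 : T.ρ g = ∑ i, (b.repr ⟨T.ρ g, hg'⟩ i) • (b i : Bb) := by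
          have := e1.symm
          rw [Submodule.coe_sum] at this
          exact this
        rw [e3]
        refine Finset.sum_congr rfl fun i _ => ?_
        rw [Algebra.smul_def, Algebra.smul_def, map_mul, h5, hc, hρ]
      obtain ⟨w, hw⟩ := h8 ϖ _ hϖ e2
      have hgg : g - g' ∈ Iy T 𝔠 y := sub_mem hg hg'I
      have hwI : w ∈ Iy T 𝔠 y := by
        rw [mem_Iy] at hgg ⊢
        rw [hw] at hgg
        have hϖk : algebraMap V k ϖ ≠ 0 := by
          intro h0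
          exact hϖ.ne_zero ((IsFractionRing.injective V k) (by rw [h0, map_zero]))
        refine ⟨?_, ?_⟩
        · have e4 : T.ι w = algebraMap k B (algebraMap V k ϖ)⁻¹ * T.ι (algebraMap V O ϖ * w) := by
            rw [map_mul, h4, ← mul_assoc, ← map_mul, inv_mul_cancel₀ hϖk, map_one, one_mul]
          rw [e4]
          exact 𝔠.mul_mem_left _ hgg.1
        · have e5 : T.W.cf (algebraMap V O ϖ * w) = C ϖ * T.W.cf w := by
            rw [← Algebra.smul_def, map_smul, smul_eq_C_mul]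
          rw [e5, natDegree_C_mul hϖ.ne_zero] at hgg
          exact hgg.2
      refine Submodule.mem_sup.2 ⟨g', hg'N, g - g', ?_, by ring⟩
      rw [hw, ← Algebra.smul_def]
      exact Submodule.smul_mem_smul (Ideal.mem_span_singleton_self ϖ) hwI
  have hspan : ∀ w ∈ (T.Wk.Fl y ⊓ 𝔠.restrictScalars k : Submodule k B),
      w ∈ Submodule.span k (Set.range fun i => T.ι (h i)) := by
    intro w hw
    by_cases hw0 : w = 0
    · rw [hw0]
      exact zero_mem _
    obtain ⟨c, g, hc0, hcg, -⟩ := h9 w hw0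
    have e1 : T.ι g = algebraMap k B c⁻¹ * w := by
      rw [hcg, ← mul_assoc, ← map_mul, inv_mul_cancel₀ hc0, map_one, one_mul]
    rw [Submodule.mem_inf, mem_Fl] at hw
    have hgI : g ∈ Iy T 𝔠 y := by
      rw [mem_Iy]
      refine ⟨by rw [e1]; exact 𝔠.mul_mem_left _ hw.2, ?_⟩
      rw [← h6, e1, hscal]
      exact (natDegree_C_mul_le _ _).trans hw.1
    have hgN := hsub hgI
    rw [hcg, ← Algebra.smul_def]
    refine Submodule.smul_mem _ _ ?_
    rw [hN] at hgN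
    refine Submodule.span_induction ?_ ?_ ?_ ?_ hgN
    · rintro _ ⟨i, rfl⟩
      exact Submodule.subset_span ⟨i, rfl⟩
    · rw [map_zero]
      exact zero_mem _
    · intro a a' _ _ ha ha'
      rw [map_add]
      exact add_mem ha ha'
    · intro c a _ ha
      rw [Algebra.smul_def, map_mul, h4, ← Algebra.smul_def]
      exact Submodule.smul_mem _ _ ha
  calc finrank k (T.Wk.Fl y ⊓ 𝔠.restrictScalars k : Submodule k B)
      ≤ finrank k (Submodule.span k (Set.range fun i => T.ι (h i))) := by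
        haveI : Module.Finite k (Submodule.span k (Set.range fun i => T.ι (h i))) :=
          FiniteDimensional.span_of_finite k (Set.finite_range _)
        exact Submodule.finrank_mono hspan
    _ ≤ Fintype.card (Fin (finrank κ (Ry T h5 𝔠 y))) := finrank_range_le_card _
    _ = finrank κ (Ry T h5 𝔠 y) := Fintype.card_fin _

end tri

theorem deg_pow {S : AddSubmonoid ℕ} {K B : Type} [Field K] [CommRing B] [Algebra K B]
    (hdom : S_dom) (W : Wt S K B) {a : B} (ha : a ≠ 0) (m : ℕ) :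
    (W.cf (a ^ m)).natDegree = m * (W.cf a).natDegree := by
  haveI := (hdom S K B W).1
  induction m with
  | zero => rw [pow_zero, W.one, natDegree_one, zero_mul]
  | succ m ih =>
    rw [pow_succ, (hdom S K B W).2.1 _ _ (pow_ne_zero m ha) ha, ih]
    ring

theorem rk_pow {K B : Type} [Field K] [CommRing B] [IsDedekindDomain B] [Algebra K B]
    (hmul : S_mul) (hfin : ∀ I : Ideal B, I ≠ ⊥ → Module.Finite K (B ⧸ I)) {𝔠 : Ideal B}
    (h0 : 𝔠 ≠ ⊥) (m : ℕ) : finrank K (B ⧸ 𝔠 ^ m) = m * finrank K (B ⧸ 𝔠) := by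
  induction m with
  | zero =>
    rw [pow_zero, zero_mul, Ideal.one_eq_top]
    haveI : Subsingleton (B ⧸ (⊤ : Ideal B)) := Ideal.Quotient.subsingleton_iff.2 rfl
    exact finrank_zero_of_subsingleton
  | succ m ih =>
    rw [pow_succ, hmul K B hfin _ _ (pow_ne_zero m h0) h0, ih]
    ring

theorem ct_add {S : AddSubmonoid ℕ} {F : ℕ} (h : ∀ y, F ≤ y → ct S (y + 1) = ct S y + 1) (m : ℕ) :
    ct S (F + m) = ct S F + m := by
  induction m with
  | zero => rfl
  | succ m ih => rw [← add_assoc, h _ (Nat.le_add_right _ _), ih, add_assoc]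

end Pool.Agent.NH7.AC.DTP

namespace Pool.Agent.NH7.AC

open Polynomial Module DTP

theorem s_dt (hdom : S_dom) (hdim : S_dim) (hmul : S_mul) (htri : S_tri) : S_DT := by
  intro S F hF V k κ O B Bb _ _ _ _ _ _ _ _ _ _ _ _ _ _ T p hp 𝔠 α δ hc0 hcα hα hdimY hdeg
  obtain ⟨hO, hinj, hsurj, h4, h5, h6, h7, h8, h9, h10⟩ := htri S V k κ O B Bb T
  have hdk := hdom S k B T.Wk
  have hdκ := hdom S κ Bb T.Wb
  haveI := hdκ.1
  obtain ⟨-, -, -, hspan, hfin⟩ := hdim S F hF k B T.Wk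
  obtain ⟨hFl, hct, -, -, -⟩ := hdim S F hF κ Bb T.Wb
  obtain ⟨hfc, Y1, hY1⟩ := hfin 𝔠 hc0
  obtain ⟨Y2, hY2⟩ := hdimY
  set r := finrank k (B ⧸ 𝔠) with hr
  have hα0 : T.ι α ≠ 0 := by
    intro h0
    apply hα
    rw [hinj (h0.trans (map_zero _).symm), map_zero]
  have hdα : (T.W.cf α).natDegree = p * r := by
    rw [← h6, ← (hspan _ hα0).2, ← hcα, rk_pow hmul (fun I hI => (hfin I hI).1) hc0]
  have key : ∀ h : O, T.ι h ∈ 𝔠 → T.ρ h ≠ 0 → ∃ q : O, h ^ p = α * q ∧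
      (T.W.cf q).natDegree + p * r = p * (T.W.cf h).natDegree ∧
      p * (T.Wb.cf (T.ρ h)).natDegree =
        (T.Wb.cf (T.ρ α)).natDegree + (T.Wb.cf (T.ρ q)).natDegree := by
    intro h hh hρ
    have e1 : T.ι h ^ p ∈ 𝔠 ^ p := Ideal.pow_mem_pow hh p
    rw [hcα, Ideal.mem_span_singleton] at e1
    obtain ⟨x, hx⟩ := e1
    obtain ⟨q, rfl⟩ := h10 α (h ^ p) x hα (by rw [map_pow, hx])
    have e2 : h ^ p = α * q := hinj (by rw [map_pow, hx, map_mul])
    have hh0 : T.ι h ≠ 0 := by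
      intro h0
      apply hρ
      rw [hinj (h0.trans (map_zero _).symm), map_zero]
    have hq0 : T.ρ q ≠ 0 := by
      intro h0
      have e3 := congrArg T.ρ e2
      rw [map_pow, map_mul, h0, mul_zero] at e3
      exact hρ (pow_eq_zero_iff hp.ne' |>.1 e3)
    have hq0' : T.ι q ≠ 0 := by
      intro h0
      apply hq0
      rw [hinj (h0.trans (map_zero _).symm), map_zero]
    refine ⟨q, e2, ?_, ?_⟩
    · rw [← h6 h, ← deg_pow hdom T.Wk hh0, hx, hdk.2.1 _ _ hα0 hq0', h6, h6, hdα]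
      ring
    · rw [← deg_pow hdom T.Wb hρ, ← map_pow, e2, map_mul, hdκ.2.1 _ _ hα hq0]
  set y := Y1 + Y2 + F + r + 1 with hy
  set z := Y1 + Y2 + F + δ + 1 with hz
  have hcty : ct S y = ct S F + (Y1 + Y2 + r + 1) := by
    rw [← ct_add hct, hy]
    congr 1
    ring
  have hctz : ct S (Y1 + Y2 + F + δ) = ct S F + (Y1 + Y2 + δ) := by
    rw [← ct_add hct]
    congr 1
    ring
  have hRle : Ry T h5 𝔠 y ≤ T.Wb.Fl y := by
    rintro b ⟨h, hh, rfl⟩
    rw [mem_Fl]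
    exact (h7 h).trans ((mem_Iy T).1 hh).2
  haveI : Module.Finite κ (T.Wb.Fl y) := (hFl y).1
  haveI : Module.Finite κ (Ry T h5 𝔠 y) := Submodule.finiteDimensional_of_le hRle
  haveI : Module.Finite k (T.Wk.Fl y) := ((hdim S F hF k B T.Wk).1 y).1
  haveI : Module.Finite k (T.Wk.Fl y ⊓ 𝔠.restrictScalars k : Submodule k B) :=
    Submodule.finiteDimensional_of_le inf_le_left
  have hA := finrank_le T h4 h5 h6 h8 h9 (𝔠 := 𝔠) (y := y)
  have hA' := hY1 y (by omega)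
  have hex : ∃ h ∈ Iy T 𝔠 y, z ≤ (T.Wb.cf (T.ρ h)).natDegree := by
    by_contra hno
    push Not at hno
    have hle : Ry T h5 𝔠 y ≤ (T.Wb.Fl (Y1 + Y2 + F + δ) ⊓
        ((𝔠.comap T.ι).map T.ρ).restrictScalars κ : Submodule κ Bb) := by
      rintro b ⟨h, hh, rfl⟩
      refine Submodule.mem_inf.2 ⟨?_, ?_⟩
      · rw [mem_Fl]
        have := hno h hh
        omega
      · exact Ideal.mem_map_of_mem _ ((mem_Iy T).1 hh).1
    haveI : Module.Finite κ (T.Wb.Fl (Y1 + Y2 + F + δ)) := (hFl _).1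
    haveI : Module.Finite κ (T.Wb.Fl (Y1 + Y2 + F + δ) ⊓
        ((𝔠.comap T.ι).map T.ρ).restrictScalars κ : Submodule κ Bb) :=
      Submodule.finiteDimensional_of_le inf_le_left
    have h11 := Submodule.finrank_mono hle
    have h12 := hY2 (Y1 + Y2 + F + δ) (by omega)
    omega
  obtain ⟨h, hhI, hzh⟩ := hex
  obtain ⟨hhc, hhy⟩ := (mem_Iy T).1 hhI
  have hρh : T.ρ h ≠ 0 := by
    intro h0
    rw [h0, map_zero, natDegree_zero] at hzh
    omega
  obtain ⟨q, hq1, hq2, hq3⟩ := key h hhc hρh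
  have hq4 := h7 q
  have hm1 : p * z ≤ p * (T.Wb.cf (T.ρ h)).natDegree := Nat.mul_le_mul_left _ hzh
  have hm2 : p * (T.W.cf h).natDegree ≤ p * y := Nat.mul_le_mul_left _ hhy
  have hm3 : p * z + p * r = p * y + p * δ := by
    rw [← mul_add, ← mul_add, hy, hz]
    congr 1
    ring
  have e1 : p * (T.Wb.cf (T.ρ h)).natDegree = p * z := by omega
  have e2 : p * (T.W.cf h).natDegree = p * y := by omega
  have e3 := Nat.eq_of_mul_eq_mul_left hp e1
  have e4 := Nat.eq_of_mul_eq_mul_left hp e2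
  refine ⟨by omega, h, q, hhc, hρh, hq1, by omega, by omega, by omega⟩

end Pool.Agent.NH7.AC
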