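import Pool.Agent.NH7.AC.Stms

/-! `S_ded`: the coordinate ring of a smooth plane curve is a Dedekind domain. -/

set_option autoImplicit false

namespace Pool.Agent.NH7.AC.DedP

open Polynomial

variable {K : Type} [Field K]

/-- the derivative with respect to the inner variable -/
noncomputable def dl (f : K[X][X]) : K[X][X] := f.sum fun i a => C (derivative a) * X ^ i

lemma coeff_dl (f : K[X][X]) (n : ℕ) : (dl f).coeff n = derivative (f.coeff n) := by
  unfold dl
  rw [Polynomial.sum, finsetSum_coeff]
  simp only [coeff_C_mul_X_pow]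
  rw [Finset.sum_ite_eq]
  split_ifs with h
  · rfl
  · rw [notMem_support_iff.mp h, map_zero]

lemma dl_add (f g : K[X][X]) : dl (f + g) = dl f + dl g := by
  ext1 n
  rw [coeff_dl, coeff_add, coeff_add, coeff_dl, coeff_dl, map_add]

lemma dl_mul (f g : K[X][X]) : dl (f * g) = dl f * g + f * dl g := by
  ext1 n
  rw [coeff_dl, coeff_mul, coeff_add, coeff_mul, coeff_mul, map_sum, ← Finset.sum_add_distrib]
  refine Finset.sum_congr rfl fun x _ => ?_
  rw [derivative_mul, coeff_dl, coeff_dl]

/-- the smoothness at a maximal ideal: `f = a π + b g` with not both `a` and `b` in `M` -/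
lemma not_both {f a b p g : K[X][X]} {M : Ideal K[X][X]} (hM : M ≠ ⊤)
    (hf : SmoothF f) (hp : p ∈ M) (hg : g ∈ M) (h : f = a * p + b * g) :
    a ∉ M ∨ b ∉ M := by
  by_contra hc
  push Not at hc
  obtain ⟨ha, hb⟩ := hc
  apply hM
  rw [eq_top_iff, ← hf, Ideal.span_le]
  intro z hz
  simp only [Set.mem_insert_iff, Set.mem_singleton_iff] at hz
  have hmul : ∀ u v w : K[X][X], v ∈ M → w ∈ M → u * v + w * u ∈ M := fun u v w hv hw =>
    M.add_mem (M.mul_mem_left _ hv) (M.mul_mem_right _ hw)
  rcases hz with rfl | rfl | rfl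
  · rw [h]
    exact M.add_mem (M.mul_mem_left _ hp) (M.mul_mem_left _ hg)
  · rw [h, derivative_add, derivative_mul, derivative_mul]
    refine M.add_mem (M.add_mem ?_ ?_) (M.add_mem ?_ ?_)
    · exact M.mul_mem_left _ hp
    · exact M.mul_mem_right _ ha
    · exact M.mul_mem_left _ hg
    · exact M.mul_mem_right _ hb
  · change dl f ∈ M
    rw [h, dl_add, dl_mul, dl_mul]
    refine M.add_mem (M.add_mem ?_ ?_) (M.add_mem ?_ ?_)
    · exact M.mul_mem_left _ hp
    · exact M.mul_mem_right _ ha
    · exact M.mul_mem_left _ hg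
    · exact M.mul_mem_right _ hb

/-- an ideal of `K[t][x]` which meets `K[t]` in a maximal ideal is generated by two elements -/
lemma two_gens (M : Ideal K[X][X]) (hM : (M.comap (C : K[X] →+* K[X][X])).IsMaximal) :
    ∃ p g : K[X][X], p ∈ M ∧ g ∈ M ∧ M = Ideal.span {p, g} := by
  obtain ⟨π, hπ⟩ := (IsPrincipalIdealRing.principal (M.comap (C : K[X] →+* K[X][X]))).principal
  have hπ' : M.comap (C : K[X] →+* K[X][X]) = Ideal.span {π} := hπ
  have hpm : (C π : K[X][X]) ∈ M := by
    have : π ∈ M.comap (C : K[X] →+* K[X][X]) := by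
      rw [hπ']; exact Ideal.mem_span_singleton_self π
    exact this
  set I := M.comap (C : K[X] →+* K[X][X]) with hI
  letI : Field (K[X] ⧸ I) := Ideal.Quotient.field I
  set q : K[X][X] →+* (K[X] ⧸ I)[X] := mapRingHom (Ideal.Quotient.mk I) with hq
  have hqs : Function.Surjective q := by
    rw [hq]
    exact map_surjective _ Ideal.Quotient.mk_surjective
  obtain ⟨g₀, hg₀⟩ := (IsPrincipalIdealRing.principal (M.map q)).principal
  have hg₀' : M.map q = Ideal.span {g₀} := hg₀
  have hg₀m : g₀ ∈ M.map q := by rw [hg₀']; exact Ideal.mem_span_singleton_self g₀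
  obtain ⟨g, hgM, hgq⟩ := (Ideal.mem_map_iff_of_surjective q hqs).mp hg₀m
  refine ⟨C π, g, hpm, hgM, le_antisymm ?_ ?_⟩
  · intro h hh
    have h1 : q h ∈ Ideal.span {g₀} := by rw [← hg₀']; exact Ideal.mem_map_of_mem q hh
    obtain ⟨u, hu⟩ := Ideal.mem_span_singleton'.mp h1
    obtain ⟨u', rfl⟩ := hqs u
    have h2 : q (h - u' * g) = 0 := by
      rw [map_sub, map_mul, hgq, hu, sub_self]
    have h3 : h - u' * g ∈ RingHom.ker q := h2
    rw [hq, Polynomial.ker_mapRingHom, Ideal.mk_ker, hπ', Ideal.map_span, Set.image_singleton]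
      at h3
    obtain ⟨w, hw⟩ := Ideal.mem_span_singleton'.mp h3
    rw [Ideal.mem_span_pair]
    exact ⟨w, u', by rw [hw]; ring⟩
  · rw [Ideal.span_le]
    rintro z (rfl | rfl)
    · exact hpm
    · exact hgM

/-- a local ring whose maximal ideal is generated by `p` and `g` with `a p + b g = 0` and `a` or `b`
a unit -/
lemma principal_of {R : Type} [CommRing R] [IsLocalRing R] {a b p g : R}
    (h : IsLocalRing.maximalIdeal R = Ideal.span {p, g}) (h0 : a * p + b * g = 0)
    (hu : IsUnit a ∨ IsUnit b) : (IsLocalRing.maximalIdeal R).IsPrincipal := by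
  rcases hu with hu | hu
  · obtain ⟨a', ha'⟩ := hu.exists_left_inv
    refine ⟨g, ?_⟩
    rw [h]
    apply le_antisymm
    · rw [Ideal.span_le]
      rintro z (rfl | rfl)
      · change z ∈ Ideal.span {g}
        rw [Ideal.mem_span_singleton']
        refine ⟨-(a' * b), ?_⟩
        linear_combination (-a') * h0 + z * ha'
      · exact Ideal.mem_span_singleton_self _
    · exact Ideal.span_mono (by simp)
  · obtain ⟨b', hb'⟩ := hu.exists_left_inv
    refine ⟨p, ?_⟩
    rw [h]
    apply le_antisymm
    · rw [Ideal.span_le]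
      rintro z (rfl | rfl)
      · exact Ideal.mem_span_singleton_self _
      · change z ∈ Ideal.span {p}
        rw [Ideal.mem_span_singleton']
        refine ⟨-(b' * a), ?_⟩
        linear_combination (-b') * h0 + z * hb'
    · exact Ideal.span_mono (by simp)

end Pool.Agent.NH7.AC.DedP

namespace Pool.Agent.NH7.AC

open Polynomial DedP

theorem s_ded : S_ded := by
  intro K _ f hf hdom hsm
  haveI := hdom
  haveI hfin : Module.Finite K[X] (AdjoinRoot f) := hf.finite_adjoinRoot
  haveI : IsNoetherianRing (AdjoinRoot f) :=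
    inferInstanceAs (IsNoetherianRing (K[X][X] ⧸ Ideal.span {f}))
  haveI : Algebra.IsIntegral K[X] (AdjoinRoot f) := Algebra.IsIntegral.of_finite _ _
  haveI : IsDedekindDomainDvr (AdjoinRoot f) := by
    refine { (inferInstance : IsNoetherian (AdjoinRoot f) (AdjoinRoot f)) with
      is_dvr_at_nonzero_prime := ?_ }
    intro P hP0 hP
    set mk := AdjoinRoot.mk f with hmk
    have hms : Function.Surjective mk := AdjoinRoot.mk_surjective
    set M : Ideal K[X][X] := P.comap mk with hM
    have hcomap : M.comap (C : K[X] →+* K[X][X]) = P.comap (algebraMap K[X] (AdjoinRoot f)) := by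
      rw [hM, Ideal.comap_comap]
      rfl
    have hne : P.comap (algebraMap K[X] (AdjoinRoot f)) ≠ ⊥ := Ideal.IsIntegral.comap_ne_bot _ hP0
    have hmax : (M.comap (C : K[X] →+* K[X][X])).IsMaximal := by
      rw [hcomap]
      haveI : (P.comap (algebraMap K[X] (AdjoinRoot f))).IsPrime := Ideal.IsPrime.comap _
      exact Ring.DimensionLEOne.maximalOfPrime hne inferInstance
    obtain ⟨p, g, hp, hg, hpg⟩ := two_gens M hmax
    have hfM : f ∈ M := by
      rw [hM, Ideal.mem_comap, hmk, AdjoinRoot.mk_self]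
      exact P.zero_mem
    rw [hpg, Ideal.mem_span_pair] at hfM
    obtain ⟨a, b, hab⟩ := hfM
    have hMt : M ≠ ⊤ := by
      rw [hM]
      exact (Ideal.IsPrime.comap mk).ne_top
    have hnb := not_both hMt hsm hp hg hab.symm
    have hPs : P = Ideal.span {mk p, mk g} := by
      rw [← Ideal.map_comap_of_surjective mk hms P, ← hM, hpg, Ideal.map_span, Set.image_pair]
    set L := Localization.AtPrime P
    have hmaxI : IsLocalRing.maximalIdeal L =
        Ideal.span {algebraMap (AdjoinRoot f) L (mk p), algebraMap (AdjoinRoot f) L (mk g)} := by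
      rw [← Localization.AtPrime.map_eq_maximalIdeal, ← Set.image_pair, ← Ideal.map_span, ← hPs]
    have h0 : algebraMap (AdjoinRoot f) L (mk a) * algebraMap (AdjoinRoot f) L (mk p) +
        algebraMap (AdjoinRoot f) L (mk b) * algebraMap (AdjoinRoot f) L (mk g) = 0 := by
      simp only [← map_mul, ← map_add]
      rw [hab, hmk, AdjoinRoot.mk_self, map_zero]
    have hun : ∀ c : K[X][X], c ∉ M → IsUnit (algebraMap (AdjoinRoot f) L (mk c)) := fun c hc =>
      IsLocalization.map_units L (⟨mk c, hc⟩ : P.primeCompl)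
    have hpr := principal_of hmaxI h0 (hnb.imp (hun a) (hun b))
    haveI : IsDomain L := inferInstance
    have hnf : ¬ IsField L := by
      rw [IsLocalRing.isField_iff_maximalIdeal_eq, ← Localization.AtPrime.map_eq_maximalIdeal]
      intro hb
      apply hP0
      rw [eq_bot_iff]
      intro x hx
      have h1 : algebraMap (AdjoinRoot f) L x ∈ P.map (algebraMap (AdjoinRoot f) L) :=
        Ideal.mem_map_of_mem _ hx
      rw [hb] at h1
      have h2 : algebraMap (AdjoinRoot f) L x = 0 := h1
      have h3 := IsLocalization.injective L P.primeCompl_le_nonZeroDivisors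
      exact (injective_iff_map_eq_zero _).mp h3 x h2
    exact ((IsDiscreteValuationRing.TFAE L hnf).out 0 4).mpr hpr
  exact IsDedekindDomainDvr.isDedekindDomain _

end Pool.Agent.NH7.AC
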