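import Mathlib

/-!
# Project AC: the class group of the coordinate ring of the generic curve
# `x ^ N + ∑ v_ij x ^ i t ^ j = 0`, `n i + N j ≤ N n`, has no `p`-torsion

Definitions.
-/

set_option autoImplicit false

namespace Pool.Agent.NH7.AC

open Polynomial

/-! ### The family of curves -/

/-- The exponents `(i, j)` with `i < N` and `n i + N j ≤ N n`. -/
abbrev Ix (N n : ℕ) : Type :=
  {q : Fin N × Fin (n + 1) // n * (q.1 : ℕ) + N * (q.2 : ℕ) ≤ N * n}

/-- The numerical semigroup generated by `n` and `N`. -/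
def Sg (N n : ℕ) : AddSubmonoid ℕ where
  carrier := {s | ∃ i j : ℕ, s = n * i + N * j}
  zero_mem' := ⟨0, 0, by simp⟩
  add_mem' := by
    rintro _ _ ⟨i, j, rfl⟩ ⟨i', j', rfl⟩
    exact ⟨i + i', j + j', by ring⟩

section family

variable {N n : ℕ} {R R' : Type} [CommRing R] [CommRing R']

/-- The polynomial `x ^ N + ∑ v_ij x ^ i t ^ j`; the outer variable is `x`, the inner one is `t`. -/
noncomputable def ff (v : Ix N n → R) : R[X][X] :=
  X ^ N + ∑ q : Ix N n, C (C (v q) * X ^ (q.1.2 : ℕ)) * X ^ (q.1.1 : ℕ)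

theorem ff_tail_degree (v : Ix N n → R) :
    (∑ q : Ix N n, C (C (v q) * X ^ (q.1.2 : ℕ)) * X ^ (q.1.1 : ℕ) : R[X][X]).degree < (N : ℕ) := by
  rw [← mem_degreeLT]
  refine Submodule.sum_mem _ fun q _ => ?_
  rw [mem_degreeLT]
  refine (degree_C_mul_X_pow_le _ _).trans_lt ?_
  exact_mod_cast q.1.1.2

theorem ff_monic (v : Ix N n → R) : (ff v).Monic :=
  monic_X_pow_add (ff_tail_degree v)

theorem ff_natDegree [Nontrivial R] (v : Ix N n → R) : (ff v).natDegree = N := by
  have h : (ff v).degree = N := by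
    unfold ff
    rw [degree_add_eq_left_of_degree_lt, degree_X_pow]
    rw [degree_X_pow]
    exact ff_tail_degree v
  exact natDegree_eq_of_degree_eq_some h

theorem ff_map (φ : R →+* R') (v : Ix N n → R) :
    (ff v).map (mapRingHom φ) = ff fun q => φ (v q) := by
  unfold ff
  simp [Polynomial.map_sum, Polynomial.map_mul, Polynomial.map_pow]

/-- The coordinate ring `R[t, x] / (f)`. -/
abbrev BB (v : Ix N n → R) : Type := AdjoinRoot (ff v)

/-- The coefficient of `t ^ n` is a unit. -/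
def TopUnit (v : Ix N n → R) : Prop :=
  ∀ q : Ix N n, (q.1.1 : ℕ) = 0 → (q.1.2 : ℕ) = n → IsUnit (v q)

/-- The polynomial of degree less than `N` in `x` which represents an element of `BB v`. -/
noncomputable def rp (v : Ix N n → R) : BB v →ₗ[R[X]] R[X][X] :=
  AdjoinRoot.modByMonicHom (ff_monic v)

/-- The substitution `x = τ ^ n`, `t = τ ^ N`. -/
noncomputable def cu (N n : ℕ) (R : Type) [CommRing R] : R[X][X] →+* R[X] :=
  eval₂RingHom (expand R N).toRingHom (X ^ n)

/-- The coefficients of an element of `BB v` with respect to the monomials `x ^ i t ^ j`, `i < N`: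
the coefficient of `τ ^ (n i + N j)` is the coefficient of `x ^ i t ^ j`. -/
noncomputable def cfp (v : Ix N n → R) (a : BB v) : R[X] := cu N n R (rp v a)

/-- Base change. -/
noncomputable def bc (φ : R →+* R') (v : Ix N n → R) : BB v →+* BB fun q => φ (v q) :=
  AdjoinRoot.map (mapRingHom φ) (ff v) (ff fun q => φ (v q)) (by rw [ff_map])

end family

/-! ### Weighted algebras -/

/-- An `R`-algebra `B` with an `R`-basis `b_s`, `s ∈ S`, with `b_0 = 1`, such that `b_s b_t` is a unit
times `b_(s + t)` plus a combination of the `b_u`, `u < s + t`. The coefficients of an element with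
respect to the basis are recorded as a polynomial. -/
structure Wt (S : AddSubmonoid ℕ) (R B : Type) [CommRing R] [CommRing B] [Algebra R B] where
  cf : B →ₗ[R] R[X]
  inj : Function.Injective cf
  supp : ∀ (a : B) (s : ℕ), (cf a).coeff s ≠ 0 → s ∈ S
  surj : ∀ s ∈ S, ∃ a : B, cf a = X ^ s
  one : cf 1 = 1
  mul_le : ∀ (a b : B) (s t : ℕ), (cf a).natDegree ≤ s → (cf b).natDegree ≤ t →
    (cf (a * b)).natDegree ≤ s + t
  lead : ∀ s ∈ S, ∀ t ∈ S, ∃ ε : R, IsUnit ε ∧ ∀ a b : B, (cf a).natDegree ≤ s →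
    (cf b).natDegree ≤ t → (cf (a * b)).coeff (s + t) = ε * ((cf a).coeff s * (cf b).coeff t)

/-- The elements of degree at most `y`. -/
noncomputable def Wt.Fl {S : AddSubmonoid ℕ} {R B : Type} [CommRing R] [CommRing B] [Algebra R B]
    (W : Wt S R B) (y : ℕ) : Submodule R B :=
  (Polynomial.degreeLE R (y : WithBot ℕ)).comap W.cf

open Classical in
/-- The number of the elements of `S` which are at most `y`. -/
noncomputable def ct (S : AddSubmonoid ℕ) (y : ℕ) : ℕ :=
  ((Finset.range (y + 1)).filter (· ∈ S)).card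

/-- A weighted algebra `O` over a discrete valuation ring `V` with its generic fibre `B` and its
special fibre `Bb`. -/
structure Tri (S : AddSubmonoid ℕ) (V k κ O B Bb : Type) [CommRing V] [Field k] [Field κ]
    [Algebra V k] [CommRing O] [CommRing B] [CommRing Bb] [Algebra V O] [Algebra k B]
    [Algebra κ Bb] where
  W : Wt S V O
  Wk : Wt S k B
  Wb : Wt S κ Bb
  r : V →+* κ
  ι : O →+* B
  ρ : O →+* Bb
  hι : ∀ a, Wk.cf (ι a) = (W.cf a).map (algebraMap V k)
  hρ : ∀ a, Wb.cf (ρ a) = (W.cf a).map r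
  rsurj : Function.Surjective r
  rker : ∀ a : V, r a = 0 ↔ ¬ IsUnit a

/-! ### Minimal ideals -/

/-- `𝔡` is an ideal of codimension `r` with `𝔡 ^ p = (α)` and minimal codimension in its class. -/
structure Min {S : AddSubmonoid ℕ} {K B : Type} [Field K] [CommRing B] [Algebra K B] (W : Wt S K B)
    (p r : ℕ) (𝔡 : Ideal B) (α : B) : Prop where
  pow : 𝔡 ^ p = Ideal.span {α}
  monic : (W.cf α).Monic
  deg : (W.cf α).natDegree = p * r
  rk : Module.finrank K (B ⧸ 𝔡) = r
  fin : Module.Finite K (B ⧸ 𝔡 ^ (p - 1))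
  rk' : Module.finrank K (B ⧸ 𝔡 ^ (p - 1)) = (p - 1) * r
  min : ∀ β ∈ 𝔡 ^ (p - 1), β ≠ 0 → p * r ≤ (W.cf β).natDegree

/-! ### The system of equations -/

/-- Exponents of monomials in a box. -/
abbrev Bx (N D : ℕ) : Type := Fin N × Fin (D + 1)

/-- The weight `n i + N j` of the monomial `x ^ i t ^ j`. -/
def wt (N n : ℕ) {D : ℕ} (q : Bx N D) : ℕ := n * (q.1 : ℕ) + N * (q.2 : ℕ)

section system

variable {N n D M p r : ℕ} {R : Type} [CommRing R]

/-- The monomial `x ^ i t ^ j`. -/
noncomputable def mo (R : Type) [CommRing R] (q : Bx N D) : R[X][X] :=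
  C (X ^ (q.2 : ℕ)) * X ^ (q.1 : ℕ)

/-- The polynomial with the coefficients `c`. -/
noncomputable def pol (c : Bx N D → R) : R[X][X] := ∑ q, C (C (c q)) * mo R q

/-- The polynomials `t γ_m - ∑ T_{m' m} γ_m'` and `x γ_m - ∑ U_{m' m} γ_m'`. -/
noncomputable def gg (T U : Matrix (Fin M) (Fin M) R) (Γ : Fin M → Bx N D) :
    Fin M ⊕ Fin M → R[X][X]
  | Sum.inl m => C X * mo R (Γ m) - ∑ m', C (C (T m' m)) * mo R (Γ m')
  | Sum.inr m => X * mo R (Γ m) - ∑ m', C (C (U m' m)) * mo R (Γ m')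

/-- The indices of the unknowns: two matrices, the coefficients of `α` and of the cofactors. -/
abbrev Tau (N p M D : ℕ) : Type :=
  (Fin M × Fin M) ⊕ (Fin M × Fin M) ⊕ Bx N D ⊕ ((Fin p → Fin M ⊕ Fin M) × Bx N D)

/-- The matrix of the multiplication by `t`. -/
def tt (y : Tau N p M D → R) : Matrix (Fin M) (Fin M) R :=
  Matrix.of fun m m' => y (Sum.inl (m, m'))

/-- The matrix of the multiplication by `x`. -/
def uu (y : Tau N p M D → R) : Matrix (Fin M) (Fin M) R :=
  Matrix.of fun m m' => y (Sum.inr (Sum.inl (m, m')))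

/-- The coefficients of `α`. -/
def aa (y : Tau N p M D → R) (q : Bx N D) : R := y (Sum.inr (Sum.inr (Sum.inl q)))

/-- The coefficients of the cofactors. -/
def ss (y : Tau N p M D → R) (I : Fin p → Fin M ⊕ Fin M) (q : Bx N D) : R :=
  y (Sum.inr (Sum.inr (Sum.inr (I, q))))

/-- The conditions on the monomials `Γ`, which are the standard monomials of an ideal. -/
structure Adm (n p r : ℕ) (Γ : Fin M → Bx N D) (o : Fin M) : Prop where
  one : ((Γ o).1 : ℕ) = 0 ∧ ((Γ o).2 : ℕ) = 0
  low : ∀ q : Bx N D, wt N n q < p * r → ∃ m, Γ m = q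
  ex : ∃ q : Bx N D, wt N n q = p * r
  le : p * r ≤ D

/-- The system of equations: `T` and `U` are the matrices of the multiplications by `t` and `x` on
`B / 𝔞` with respect to the monomials `Γ`, `α ∈ 𝔞` is monic of degree `p r`, and
`𝔞 ^ p ≤ (α ^ (p - 1))`. -/
structure Sys (n p r : ℕ) (Γ : Fin M → Bx N D) (o : Fin M) (v : Ix N n → R)
    (y : Tau N p M D → R) : Prop where
  comm : tt y * uu y = uu y * tt y
  eq : uu y ^ N + ∑ q : Ix N n, v q • (uu y ^ (q.1.1 : ℕ) * tt y ^ (q.1.2 : ℕ)) = 0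
  act : ∀ m, (uu y ^ ((Γ m).1 : ℕ) * tt y ^ ((Γ m).2 : ℕ)).mulVec (Pi.single o 1) =
    Pi.single m 1
  high : ∀ q : Bx N D, p * r < wt N n q → aa y q = 0
  top : ∀ q : Bx N D, wt N n q = p * r → aa y q = 1
  ann : (∑ q : Bx N D, aa y q • (uu y ^ (q.1 : ℕ) * tt y ^ (q.2 : ℕ))).mulVec (Pi.single o 1) = 0
  dvd : ∀ I : Fin p → Fin M ⊕ Fin M,
    ff v ∣ ∏ k, gg (tt y) (uu y) Γ (I k) - pol (aa y) ^ (p - 1) * pol (ss y I)

end system

/-! ### Natural systems of equations -/

/-- The condition `Q` on the parameters `v` and the unknowns `y` is given by polynomial equations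
with integral coefficients. -/
def Natl (ι τ : Type) (Q : ∀ (R : Type) [CommRing R], (ι → R) → (τ → R) → Prop) : Prop :=
  ∃ (T : Type) (z : ∀ (R : Type) [CommRing R], (ι → R) → (τ → R) → T → R),
    (∀ (R R' : Type) [CommRing R] [CommRing R'] (φ : R →+* R') (v : ι → R) (y : τ → R) (t : T),
      φ (z R v y t) = z R' (fun i => φ (v i)) (fun i => φ (y i)) t) ∧
    ∀ (R : Type) [CommRing R] (v : ι → R) (y : τ → R), Q R v y ↔ ∀ t, z R v y t = 0

/-- The evaluation of an integral polynomial. -/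
noncomputable def avv {ι R : Type} [CommRing R] (v : ι → R) : MvPolynomial ι ℤ →+* R :=
  MvPolynomial.eval₂Hom (Int.castRingHom R) v

end Pool.Agent.NH7.AC
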