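import Pool.Agent.NH7.AC.Asm

/-!
# Project AC: densities
-/

set_option autoImplicit false

namespace Pool.Agent.NH7.AC

open Polynomial Module Pool.Agent.W275.UB NumberField

theorem box_finite {ι : Type} [Fintype ι] (H : ℕ) :
    {v : ι → ℤ | ∀ i, |v i| ≤ (H : ℤ)}.Finite := by
  have h : {v : ι → ℤ | ∀ i, |v i| ≤ (H : ℤ)} = Set.pi Set.univ fun _ => Set.Icc (-(H : ℤ)) H := by
    ext v
    simp only [Set.mem_ofPred_eq, Set.mem_pi, Set.mem_univ, true_implies, Set.mem_Icc, abs_le]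
  rw [h]
  exact Set.Finite.pi fun _ => Set.finite_Icc _ _

/-- densities for tuples of integers of a number field -/
theorem dens {ι I O : Type} [Fintype ι] [Fintype I] [CommRing O] (B : Module.Basis I ℤ O)
    {S : Set (ι × I → ℤ)} (hS : D0 S) {η : ℝ} (hη : 0 < η) {P : (ι → O) → Prop}
    (h : ∀ c, ¬ P c → (fun q : ι × I => B.repr (c q.1) q.2) ∈ S) :
    ∃ H₀ : ℕ, ∀ H : ℕ, H₀ ≤ H →
      ({c : ι → O | (∀ q j, |B.repr (c q) j| ≤ (H : ℤ)) ∧ ¬ P c}.ncard : ℝ) ≤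
        η * ((2 * (H : ℝ) + 1) ^ Fintype.card ι) ^ Fintype.card I := by
  obtain ⟨H₀, h₀⟩ := hS η hη
  refine ⟨H₀, fun H hH => ?_⟩
  have h1 := h₀ H hH
  rw [Fintype.card_prod, pow_mul] at h1
  refine le_trans ?_ h1
  have hfin : {v : ι × I → ℤ | v ∈ S ∧ ∀ i, |v i| ≤ (H : ℤ)}.Finite :=
    (box_finite H).subset fun v hv => hv.2
  have hmaps : ∀ c ∈ {c : ι → O | (∀ q j, |B.repr (c q) j| ≤ (H : ℤ)) ∧ ¬ P c},
      (fun (q : ι × I) => B.repr (c q.1) q.2) ∈ {v : ι × I → ℤ | v ∈ S ∧ ∀ i, |v i| ≤ (H : ℤ)} :=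
    fun c hc => ⟨h c hc.2, fun i => hc.1 i.1 i.2⟩
  have hinj : Set.InjOn (fun (c : ι → O) (q : ι × I) => B.repr (c q.1) q.2)
      {c : ι → O | (∀ q j, |B.repr (c q) j| ≤ (H : ℤ)) ∧ ¬ P c} :=
    fun c _ c' _ hcc => funext fun q => B.repr.injective (Finsupp.ext fun j =>
      congrFun hcc (q, j))
  exact_mod_cast Set.ncard_le_ncard_of_injOn _ hmaps hinj hfin

theorem cv_repr {ι I k : Type} [Fintype I] [Field k] [NumberField k] (B : Module.Basis I ℤ (𝓞 k))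
    (c : ι → 𝓞 k) : (cv (fun j => algebraMap (𝓞 k) k (B j))
      fun q : ι × I => ((B.repr (c q.1) q.2 : ℤ) : k)) = fun q => algebraMap (𝓞 k) k (c q) := by
  funext q
  unfold cv
  conv_rhs => rw [← B.sum_repr (c q), map_sum]
  refine Finset.sum_congr rfl fun j _ => ?_
  rw [zsmul_eq_mul, map_mul, map_intCast, mul_comm]

end Pool.Agent.NH7.AC
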