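import Pool.Agent.NH7.AC.Stms

/-!
# Project AC: `S_der` (E1)
-/

set_option autoImplicit false

namespace Pool.Agent.NH7.AC

open Polynomial Module

namespace DerP

/-- The derivation of the polynomial ring acting on the coefficients. -/
noncomputable def D1 {R : Type} [CommRing R]
    (δ : @Derivation ℤ R R _ _ _ (Ring.toIntAlgebra R) _ _) :
    @Derivation ℤ R[X] R[X] _ _ _ (Ring.toIntAlgebra R[X]) _ _ :=
  letI : Differential R := ⟨δ⟩
  Differential.mapCoeffs

section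

variable {R : Type} [CommRing R] (δ : @Derivation ℤ R R _ _ _ (Ring.toIntAlgebra R) _ _)

theorem D1_coeff (p : R[X]) (i : ℕ) :
    (D1 δ p).coeff i = δ (p.coeff i) := rfl

theorem D1_C (a : R) : D1 δ (C a) = C (δ a) := by
  ext i
  rw [D1_coeff, coeff_C, coeff_C]
  split_ifs <;> simp

theorem D1_X : D1 δ (X : R[X]) = 0 := by
  ext i
  rw [D1_coeff, coeff_X]
  split_ifs <;> simp

theorem D1_X_pow (m : ℕ) : D1 δ ((X : R[X]) ^ m) = 0 := by
  rw [Derivation.leibniz_pow, D1_X]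
  simp

theorem D1_C_mul_X_pow (a : R) (m : ℕ) :
    D1 δ (C a * (X : R[X]) ^ m) = C (δ a) * X ^ m := by
  rw [Derivation.leibniz, D1_C, D1_X_pow, smul_zero, zero_add, smul_eq_mul, mul_comm]

end

theorem D2_ff {N n : ℕ} {R : Type} [CommRing R] (v : Ix N n → R)
    (δ : @Derivation ℤ R R _ _ _ (Ring.toIntAlgebra R) _ _)
    (h : ∀ q, δ (v q) = 0) : D1 (D1 δ) (ff v) = 0 := by
  unfold ff
  rw [map_add, D1_X_pow, map_sum, zero_add]
  refine Finset.sum_eq_zero fun q _ => ?_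
  rw [D1_C_mul_X_pow, D1_C_mul_X_pow, h q]
  simp

end DerP

open DerP in
theorem s_der : S_der := by
  intro N n R _ v δ hδ
  let f : R[X][X] →ₐ[ℤ] BB v := (AdjoinRoot.mk (ff v)).toIntAlgHom
  have hf : Function.Surjective f := AdjoinRoot.mk_surjective
  have hd : ∀ P : R[X][X], f P = 0 → f (D1 (D1 δ) P) = 0 := by
    intro P hP
    obtain ⟨Q, rfl⟩ := AdjoinRoot.mk_eq_zero.mp (hP : AdjoinRoot.mk (ff v) P = 0)
    rw [Derivation.leibniz, D2_ff v δ hδ]
    change AdjoinRoot.mk (ff v) _ = 0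
    rw [smul_zero, add_zero, smul_eq_mul, map_mul, AdjoinRoot.mk_self, zero_mul]
  refine ⟨Derivation.liftOfSurjective hf hd, fun P Q hPQ => ?_⟩
  have h1 := Derivation.liftOfSurjective_apply hf hd P
  have h2 : D1 (D1 δ) P = Q := by
    ext i j
    rw [D1_coeff, D1_coeff, hPQ]
  rw [h2] at h1
  exact h1

end Pool.Agent.NH7.AC
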