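import Pool.Agent.NH7.AC.Stms

/-!
# Project AC, A6: dimensions
-/

set_option autoImplicit false

namespace Pool.Agent.NH7.AC.DimP

open Polynomial Module

variable {S : AddSubmonoid ℕ} {K B : Type} [Field K] [CommRing B] [Algebra K B] (W : Wt S K B)

theorem mem_Fl {y : ℕ} {a : B} : a ∈ W.Fl y ↔ (W.cf a).natDegree ≤ y := by
  rw [Wt.Fl, Submodule.mem_comap, mem_degreeLE, natDegree_le_iff_degree_le]

theorem Fl_mono {y y' : ℕ} (h : y ≤ y') : W.Fl y ≤ W.Fl y' := fun a ha => by
  rw [mem_Fl] at ha ⊢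
  exact ha.trans h

open Classical in
/-- the index set -/
noncomputable def TT (S : AddSubmonoid ℕ) (y : ℕ) : Finset ℕ :=
  (Finset.range (y + 1)).filter (· ∈ S)

theorem mem_TT {y s : ℕ} : s ∈ TT S y ↔ s ≤ y ∧ s ∈ S := by
  classical
  unfold TT
  rw [Finset.mem_filter, Finset.mem_range, Nat.lt_succ_iff]

theorem ct_eq (y : ℕ) : ct S y = (TT S y).card := rfl

/-- the coefficients -/
noncomputable def co (y : ℕ) : W.Fl y →ₗ[K] (TT S y → K) :=
  LinearMap.pi fun s => (lcoeff K s.1).comp (W.cf.comp (W.Fl y).subtype)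

theorem co_apply (y : ℕ) (a : W.Fl y) (s : TT S y) : co W y a s = (W.cf a.1).coeff s.1 := rfl

theorem co_inj (y : ℕ) : Function.Injective (co W y) := by
  rw [← LinearMap.ker_eq_bot, LinearMap.ker_eq_bot']
  intro a ha
  apply Subtype.ext
  apply W.inj
  rw [ZeroMemClass.coe_zero, map_zero]
  ext s
  rw [coeff_zero]
  by_contra hne
  have h1 := W.supp _ _ hne
  have h2 : s ≤ y := (le_natDegree_of_ne_zero hne).trans ((mem_Fl W).1 a.2)
  have h3 := congrFun ha ⟨s, mem_TT.2 ⟨h2, h1⟩⟩
  rw [co_apply] at h3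
  exact hne h3

theorem co_surj (y : ℕ) : Function.Surjective (co W y) := by
  classical
  intro c
  choose b hb using fun s : TT S y => W.surj s.1 (mem_TT.1 s.2).2
  have hcf : W.cf (∑ s, c s • b s) = ∑ s, C (c s) * X ^ s.1 := by
    rw [map_sum]
    refine Finset.sum_congr rfl fun s _ => ?_
    rw [map_smul, hb, smul_eq_C_mul]
  have hmem : ∑ s, c s • b s ∈ W.Fl y := by
    rw [mem_Fl, hcf]
    refine natDegree_sum_le_of_forall_le _ _ fun s _ => ?_
    exact (natDegree_C_mul_X_pow_le _ _).trans (mem_TT.1 s.2).1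
  refine ⟨⟨_, hmem⟩, ?_⟩
  funext s
  rw [co_apply, hcf, finsetSum_coeff, Finset.sum_eq_single s]
  · rw [coeff_C_mul_X_pow, if_pos rfl]
  · intro s' _ hne
    rw [coeff_C_mul_X_pow, if_neg fun h => hne (Subtype.ext h.symm)]
  · intro h
    exact absurd (Finset.mem_univ _) h

/-- the coordinates -/
noncomputable def coE (y : ℕ) : W.Fl y ≃ₗ[K] (TT S y → K) :=
  LinearEquiv.ofBijective (co W y) ⟨co_inj W y, co_surj W y⟩

theorem Fl_finite (y : ℕ) : Module.Finite K (W.Fl y) := Module.Finite.equiv (coE W y).symm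

theorem Fl_finrank (y : ℕ) : finrank K (W.Fl y) = ct S y := by
  rw [(coE W y).finrank_eq, Module.finrank_fintype_fun_eq_card, ct_eq, Fintype.card_coe]

variable {F : ℕ} (hF : ∀ s, F ≤ s → s ∈ S)

include hF in
theorem ct_succ {y : ℕ} (hy : F ≤ y) : ct S (y + 1) = ct S y + 1 := by
  classical
  rw [ct_eq, ct_eq]
  have h1 : TT S (y + 1) = insert (y + 1) (TT S y) := by
    ext s
    rw [Finset.mem_insert, mem_TT, mem_TT]
    constructor
    · rintro ⟨h1, h2⟩
      rcases Nat.lt_or_ge y s with h | h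
      · left; omega
      · right; exact ⟨h, h2⟩
    · rintro (rfl | ⟨h1, h2⟩)
      · exact ⟨le_rfl, hF _ (by omega)⟩
      · exact ⟨by omega, h2⟩
  rw [h1, Finset.card_insert_of_notMem]
  rw [mem_TT]
  omega

include hF in
theorem ct_add {y : ℕ} (hy : F ≤ y) (d : ℕ) : ct S (y + d) = ct S y + d := by
  induction d with
  | zero => rfl
  | succ d ih =>
    rw [← add_assoc, ct_succ hF (by omega), ih]
    ring

include hF in
theorem le_ct (y : ℕ) : y + 1 ≤ ct S y + F := by
  classical
  have h1 : (Finset.range (y + 1)).card = ct S y +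
      ((Finset.range (y + 1)).filter fun s => ¬ s ∈ S).card := by
    rw [ct]
    exact (Finset.card_filter_add_card_filter_not _).symm
  have h2 : ((Finset.range (y + 1)).filter fun s => ¬ s ∈ S).card ≤ (Finset.range F).card := by
    refine Finset.card_le_card fun s hs => ?_
    rw [Finset.mem_filter] at hs
    rw [Finset.mem_range]
    by_contra h
    exact hs.2 (hF s (not_lt.1 h))
  rw [Finset.card_range] at h1 h2
  omega

/-- the projection -/
noncomputable def pj (I : Ideal B) : B →ₗ[K] B ⧸ I := (Ideal.Quotient.mkₐ K I).toLinearMap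

theorem pj_surj (I : Ideal B) : Function.Surjective (pj (K := K) I) := Ideal.Quotient.mk_surjective

theorem pj_ker (I : Ideal B) : LinearMap.ker (pj (K := K) I) = I.restrictScalars K := by
  ext a
  rw [LinearMap.mem_ker, Submodule.restrictScalars_mem]
  exact Ideal.Quotient.eq_zero_iff_mem

theorem rank_null (I : Ideal B) (y : ℕ) :
    finrank K ((W.Fl y).map (pj I)) +
      finrank K (W.Fl y ⊓ I.restrictScalars K : Submodule K B) = ct S y := by
  have := Fl_finite W y
  have h1 := LinearMap.finrank_range_add_finrank_ker ((pj (K := K) I).domRestrict (W.Fl y))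
  rw [Fl_finrank] at h1
  rw [← h1, LinearMap.range_domRestrict]
  congr 1
  have h2 : W.Fl y ⊓ I.restrictScalars K =
      (LinearMap.ker ((pj (K := K) I).domRestrict (W.Fl y))).map (W.Fl y).subtype := by
    rw [LinearMap.ker_domRestrict, pj_ker, Submodule.map_comap_eq, Submodule.range_subtype]
  rw [h2]
  exact (Submodule.equivMapOfInjective _ (Submodule.injective_subtype _) _).finrank_eq.symm

theorem stab (I : Ideal B) (D y₀ : ℕ) (h : ∀ y, y₀ ≤ y → finrank K ((W.Fl y).map (pj I)) ≤ D) :
    Module.Finite K (B ⧸ I) ∧ ∃ Y, ∀ y, Y ≤ y → (W.Fl y).map (pj (K := K) I) = ⊤ := by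
  classical
  have hfin : ∀ y, Module.Finite K ((W.Fl y).map (pj (K := K) I)) := fun y => by
    have := Fl_finite W y
    infer_instance
  have hbd : ∀ y, finrank K ((W.Fl y).map (pj (K := K) I)) ≤ D := by
    intro y
    have := hfin (max y y₀)
    refine le_trans ?_ (h (max y y₀) (le_max_right _ _))
    exact Submodule.finrank_mono (Submodule.map_mono (Fl_mono W (le_max_left _ _)))
  obtain ⟨Y, hY⟩ : ∃ Y, ∀ y, finrank K ((W.Fl y).map (pj (K := K) I)) ≤
      finrank K ((W.Fl Y).map (pj (K := K) I)) := by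
    have hne : ((fun y => finrank K ((W.Fl y).map (pj (K := K) I))) '' Set.univ).Nonempty :=
      ⟨_, 0, trivial, rfl⟩
    have hb : BddAbove (Set.range fun y => finrank K ((W.Fl y).map (pj (K := K) I))) :=
      ⟨D, by rintro _ ⟨y, rfl⟩; exact hbd y⟩
    obtain ⟨Y, hY⟩ := Nat.sSup_mem (Set.range_nonempty
      fun y => finrank K ((W.Fl y).map (pj (K := K) I))) hb
    refine ⟨Y, fun y => ?_⟩
    have h1 := le_csSup hb ⟨y, rfl⟩
    rw [← hY] at h1
    exact h1
  have heq : ∀ y, Y ≤ y → (W.Fl Y).map (pj (K := K) I) = (W.Fl y).map (pj (K := K) I) := by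
    intro y hy
    have := hfin y
    refine Submodule.eq_of_le_of_finrank_le (Submodule.map_mono (Fl_mono W hy)) (hY y)
  have htop : (W.Fl Y).map (pj (K := K) I) = ⊤ := by
    rw [eq_top_iff]
    intro z _
    obtain ⟨b, rfl⟩ := pj_surj (K := K) I z
    rw [heq (max Y (W.cf b).natDegree) (le_max_left _ _)]
    exact Submodule.mem_map_of_mem ((mem_Fl W).2 (le_max_right _ _))
  refine ⟨?_, Y, fun y hy => ?_⟩
  · have h1 := hfin Y
    rw [htop] at h1
    exact Module.Finite.equiv (Submodule.topEquiv (R := K) (M := B ⧸ I))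
  · rw [← heq y hy, htop]

include hF in
theorem princ (hdom : S_dom) (a : B) (ha : a ≠ 0) : Module.Finite K (B ⧸ Ideal.span {a}) ∧
    finrank K (B ⧸ Ideal.span {a}) = (W.cf a).natDegree := by
  obtain ⟨hd, hdeg, -, -⟩ := hdom S K B W
  set d := (W.cf a).natDegree with hd'
  have key : ∀ y, F + d ≤ y → finrank K ((W.Fl y).map (pj (K := K) (Ideal.span {a}))) = d := by
    intro y hy
    have h1 := rank_null W (Ideal.span {a}) y
    have h2 : W.Fl y ⊓ (Ideal.span {a}).restrictScalars K =
        (W.Fl (y - d)).map (LinearMap.mulLeft K a) := by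
      ext b
      rw [Submodule.mem_inf, Submodule.restrictScalars_mem, Ideal.mem_span_singleton',
        Submodule.mem_map]
      constructor
      · rintro ⟨h3, c, rfl⟩
        refine ⟨c, ?_, mul_comm _ _⟩
        rw [mem_Fl] at h3 ⊢
        by_cases hc : c = 0
        · rw [hc, map_zero, natDegree_zero]
          exact Nat.zero_le _
        · rw [hdeg c a hc ha] at h3
          omega
      · rintro ⟨c, hc, rfl⟩
        refine ⟨?_, c, mul_comm _ _⟩
        rw [mem_Fl] at hc ⊢
        have h3 := W.mul_le a c d (y - d) le_rfl hc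
        have h4 : d + (y - d) = y := by omega
        rw [h4] at h3
        exact h3
    have h3 : finrank K ((W.Fl (y - d)).map (LinearMap.mulLeft K a)) = ct S (y - d) := by
      rw [← Fl_finrank W (y - d)]
      have hinj : Function.Injective (LinearMap.mulLeft K a) := by
        intro b c hbc
        exact mul_left_cancel₀ ha hbc
      exact (Submodule.equivMapOfInjective _ hinj _).finrank_eq.symm
    rw [h2, h3] at h1
    have h4 := ct_add hF (y := y - d) (by omega) d
    have h5 : y - d + d = y := by omega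
    rw [h5] at h4
    omega
  obtain ⟨hfin, Y, hY⟩ := stab W (Ideal.span {a}) d (F + d) fun y hy => (key y hy).le
  refine ⟨hfin, ?_⟩
  have h1 := key (max (F + d) Y) (le_max_left _ _)
  rw [hY _ (le_max_right _ _), finrank_top] at h1
  exact h1

end Pool.Agent.NH7.AC.DimP

namespace Pool.Agent.NH7.AC

open Polynomial Module DimP

/-- **A6.** -/
theorem s_dim (hdom : S_dom) : S_dim := by
  intro S F hF K B _ _ _ W
  refine ⟨fun y => ⟨Fl_finite W y, Fl_finrank W y⟩, fun y hy => ct_succ hF hy, le_ct hF,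
    fun a ha => princ W hF hdom a ha, fun I hI => ?_⟩
  obtain ⟨a, haI, ha⟩ := Submodule.exists_mem_ne_zero_of_ne_bot hI
  obtain ⟨h1, h2⟩ := princ W hF hdom a ha
  have hle : Ideal.span {a} ≤ I := by
    rw [Ideal.span_singleton_le_iff_mem]
    exact haI
  have hfin : Module.Finite K (B ⧸ I) := by
    refine Module.Finite.of_surjective (Ideal.Quotient.factorₐ K hle).toLinearMap ?_
    exact Ideal.Quotient.factor_surjective hle
  obtain ⟨-, Y, hY⟩ := stab W I (finrank K (B ⧸ I)) 0 fun y _ => Submodule.finrank_le _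
  refine ⟨hfin, Y, fun y hy => ?_⟩
  have h3 := rank_null W I y
  rw [hY y hy, finrank_top] at h3
  rw [← h3, add_comm]

end Pool.Agent.NH7.AC
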