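import Pool.Agent.NH7.AC.Stms

set_option autoImplicit false

namespace Pool.Agent.NH7.AC

open Polynomial Module

theorem s_dom : S_dom := by
  intro S K B _ _ _ W
  have key : ∀ a b : B, a ≠ 0 → b ≠ 0 → a * b ≠ 0 ∧
      (W.cf (a * b)).natDegree = (W.cf a).natDegree + (W.cf b).natDegree := by
    intro a b ha hb
    have ha' : W.cf a ≠ 0 := fun h => ha (W.inj (h.trans (map_zero _).symm))
    have hb' : W.cf b ≠ 0 := fun h => hb (W.inj (h.trans (map_zero _).symm))
    have hla : (W.cf a).coeff (W.cf a).natDegree ≠ 0 := leadingCoeff_ne_zero.2 ha'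
    have hlb : (W.cf b).coeff (W.cf b).natDegree ≠ 0 := leadingCoeff_ne_zero.2 hb'
    obtain ⟨ε, hε, h⟩ := W.lead _ (W.supp a _ hla) _ (W.supp b _ hlb)
    have h1 := h a b le_rfl le_rfl
    have h2 : (W.cf (a * b)).coeff ((W.cf a).natDegree + (W.cf b).natDegree) ≠ 0 := by
      rw [h1]
      exact mul_ne_zero hε.ne_zero (mul_ne_zero hla hlb)
    refine ⟨?_, le_antisymm (W.mul_le a b _ _ le_rfl le_rfl) (le_natDegree_of_ne_zero h2)⟩
    intro h0
    rw [h0, map_zero, coeff_zero] at h2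
    exact h2 rfl
  have hnt : Nontrivial B := by
    refine ⟨⟨1, 0, fun h => ?_⟩⟩
    have h1 := congrArg W.cf h
    rw [W.one, map_zero] at h1
    exact one_ne_zero h1
  have hnz : NoZeroDivisors B := ⟨fun {a b} h => by
    by_contra hcon
    push Not at hcon
    exact (key a b hcon.1 hcon.2).1 h⟩
  have hdom : IsDomain B := NoZeroDivisors.to_isDomain B
  have hcst : ∀ a : B, (W.cf a).natDegree = 0 → ∃ c : K, a = algebraMap K B c := by
    intro a ha
    refine ⟨(W.cf a).coeff 0, W.inj ?_⟩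
    rw [Algebra.algebraMap_eq_smul_one, map_smul, W.one, smul_eq_C_mul, mul_one]
    exact eq_C_of_natDegree_eq_zero ha
  refine ⟨hdom, fun a b ha hb => (key a b ha hb).2, hcst, fun u => hcst _ ?_⟩
  have h1 := (key (u : B) (↑u⁻¹ : B) u.ne_zero u⁻¹.ne_zero).2
  rw [Units.mul_inv, W.one, natDegree_one] at h1
  omega

end Pool.Agent.NH7.AC
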