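import Pool.Agent.NH7.AC.Stms

/-! Project AC, G5: the curve modulo `t` (helper70). -/

set_option autoImplicit false
set_option linter.unusedSectionVars false
set_option linter.unusedVariables false

namespace Pool.Agent.NH7.AC.EisP

open Polynomial

/-! ### the curve modulo `t` -/

section
variable {N n : ℕ} {R : Type} [CommRing R]

/-- `f(x, 0)` -/
noncomputable def g0 (v : Ix N n → R) : R[X] := (ff v).map (evalRingHom 0)

theorem g0_monic (v : Ix N n → R) : (g0 v).Monic := (ff_monic v).map _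

/-- the projection -/
noncomputable def th (v : Ix N n → R) : BB v →+* AdjoinRoot (g0 v) :=
  AdjoinRoot.map (evalRingHom 0) (ff v) (g0 v) (by unfold g0; exact dvd_rfl)

theorem th_mk (v : Ix N n → R) (P : R[X][X]) :
    th v (AdjoinRoot.mk (ff v) P) = AdjoinRoot.mk (g0 v) (P.map (evalRingHom 0)) := by
  unfold th AdjoinRoot.map
  rw [AdjoinRoot.lift_mk, ← Polynomial.eval₂_map, ← AdjoinRoot.algebraMap_eq,
    ← Polynomial.aeval_def, AdjoinRoot.aeval_eq]

theorem ev_C (Q : R[X]) : (Q.map (C : R →+* R[X])).map (evalRingHom (0 : R)) = Q := by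
  rw [Polynomial.map_map]
  have h : (evalRingHom (0 : R)).comp (C : R →+* R[X]) = RingHom.id R := by
    ext c
    simp
  rw [h, Polynomial.map_id]

theorem th_surj (v : Ix N n → R) : Function.Surjective (th v) := by
  intro w
  obtain ⟨Q, rfl⟩ := AdjoinRoot.mk_surjective w
  refine ⟨AdjoinRoot.mk (ff v) (Q.map (C : R →+* R[X])), ?_⟩
  rw [th_mk, ev_C]

theorem th_ker (v : Ix N n → R) :
    RingHom.ker (th v) = Ideal.span {AdjoinRoot.mk (ff v) (C X)} := by
  apply le_antisymm
  · intro z hz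
    obtain ⟨P, rfl⟩ := AdjoinRoot.mk_surjective z
    rw [RingHom.mem_ker, th_mk, AdjoinRoot.mk_eq_zero] at hz
    obtain ⟨Q, hQ⟩ := hz
    have h1 : (P - ff v * Q.map (C : R →+* R[X])).map (evalRingHom (0 : R)) = 0 := by
      rw [Polynomial.map_sub, Polynomial.map_mul, ev_C, hQ]
      unfold g0
      exact sub_self _
    have h2 : (C X : R[X][X]) ∣ P - ff v * Q.map (C : R →+* R[X]) := by
      rw [C_dvd_iff_dvd_coeff]
      intro i
      rw [X_dvd_iff]
      have h3 := congrArg (fun F : R[X] => F.coeff i) h1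
      simp only [Polynomial.coeff_map, Polynomial.coeff_zero] at h3
      rw [coe_evalRingHom, ← coeff_zero_eq_eval_zero] at h3
      exact h3
    obtain ⟨S, hS⟩ := h2
    rw [Ideal.mem_span_singleton]
    refine ⟨AdjoinRoot.mk (ff v) S, ?_⟩
    rw [← map_mul, ← hS, map_sub, map_mul, AdjoinRoot.mk_self, zero_mul, sub_zero]
  · rw [Ideal.span_singleton_le_iff_mem, RingHom.mem_ker, th_mk]
    simp

theorem g0_coeff (v : Ix N n → R) (i : ℕ) (hi : i < N) :
    (g0 v).coeff i = ∑ q : Ix N n, if i = (q.1.1 : ℕ) ∧ (q.1.2 : ℕ) = 0 then v q else 0 := by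
  unfold g0 ff
  rw [Polynomial.coeff_map, coe_evalRingHom, ← coeff_zero_eq_eval_zero, coeff_add, coeff_X_pow,
    if_neg hi.ne, zero_add, finsetSum_coeff, finsetSum_coeff]
  refine Finset.sum_congr rfl fun q _ => ?_
  rw [coeff_C_mul, coeff_X_pow]
  by_cases h1 : i = (q.1.1 : ℕ)
  · rw [if_pos h1, mul_one, coeff_C_mul, coeff_X_pow]
    by_cases h2 : (q.1.2 : ℕ) = 0
    · rw [if_pos h2.symm, mul_one, if_pos ⟨h1, h2⟩]
    · rw [if_neg (Ne.symm h2), mul_zero, if_neg (fun h => h2 h.2)]
  · rw [if_neg h1, mul_zero, coeff_zero, if_neg (fun h => h1 h.1)]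

end

/-! ### Eisenstein polynomials over a discrete valuation ring -/

section
variable {V : Type} [CommRing V] [IsDomain V] [IsDiscreteValuationRing V]

open IsLocalRing

theorem root_mem (g : V[X]) (hg : g.Monic) (N : ℕ) (hN : g.natDegree = N)
    (h : ∀ i < N, g.coeff i ∈ maximalIdeal V) (M : Ideal (AdjoinRoot g)) (hM : M.IsMaximal) :
    AdjoinRoot.root g ∈ M := by
  have : Module.Finite V (AdjoinRoot g) := hg.finite_adjoinRoot
  have : Algebra.IsIntegral V (AdjoinRoot g) := Algebra.IsIntegral.of_finite V _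
  have h1 := Ideal.isMaximal_comap_of_isIntegral_of_isMaximal (R := V) M
  have h2 := eq_maximalIdeal h1
  have hm : ∀ c ∈ maximalIdeal V, algebraMap V (AdjoinRoot g) c ∈ M := by
    intro c hc
    rw [← h2] at hc
    exact hc
  have h3 : (AdjoinRoot.root g) ^ N ∈ M := by
    have h5 := hg.as_sum
    rw [hN] at h5
    have h4 : AdjoinRoot.mk g (X ^ N + ∑ i ∈ Finset.range N, C (g.coeff i) * X ^ i) = 0 := by
      rw [← h5]
      exact AdjoinRoot.mk_self
    rw [map_add, map_pow, AdjoinRoot.mk_X, map_sum] at h4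
    have h6 : (AdjoinRoot.root g) ^ N =
        -∑ i ∈ Finset.range N, AdjoinRoot.mk g (C (g.coeff i) * X ^ i) := eq_neg_of_add_eq_zero_left h4
    rw [h6]
    refine M.neg_mem (M.sum_mem fun i hi => ?_)
    rw [map_mul, AdjoinRoot.mk_C, ← AdjoinRoot.algebraMap_eq]
    exact M.mul_mem_right _ (hm _ (h i (Finset.mem_range.1 hi)))
  exact hM.isPrime.mem_of_pow_mem N h3

theorem span_root_max (g : V[X]) (ϖ u : V) (hϖ : Irreducible ϖ) (hu : IsUnit u)
    (h0 : g.coeff 0 = ϖ * u) : (Ideal.span {AdjoinRoot.root g}).IsMaximal := by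
  have hmax : maximalIdeal V = Ideal.span {ϖ} := hϖ.maximalIdeal_eq
  have hc0 : residue V (g.coeff 0) = 0 := by
    rw [residue_eq_zero_iff, hmax, h0]
    exact Ideal.mul_mem_right _ _ (Ideal.mem_span_singleton_self ϖ)
  have he : g.eval₂ (residue V) 0 = 0 := by
    rw [eval₂_at_zero, hc0]
  set ψ : AdjoinRoot g →+* ResidueField V := AdjoinRoot.lift (residue V) 0 he with hψ
  have hψmk : ∀ P : V[X], ψ (AdjoinRoot.mk g P) = residue V (P.coeff 0) := by
    intro P
    rw [hψ, AdjoinRoot.lift_mk, eval₂_at_zero]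
  have hsurj : Function.Surjective ψ := by
    intro y
    obtain ⟨c, rfl⟩ := residue_surjective y
    refine ⟨AdjoinRoot.mk g (C c), ?_⟩
    rw [hψmk, coeff_C_zero]
  have hϖx : AdjoinRoot.mk g (C ϖ) ∈ Ideal.span {AdjoinRoot.root g} := by
    obtain ⟨u', hu'⟩ := hu.exists_right_inv
    rw [Ideal.mem_span_singleton]
    refine ⟨-AdjoinRoot.mk g (g.divX * C u'), ?_⟩
    have h1 : (C ϖ : V[X]) = g * C u' - X * (g.divX * C u') := by
      have h2 := X_mul_divX_add g
      rw [h0] at h2
      have h3 : (C ϖ : V[X]) = C (ϖ * u) * C u' := by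
        rw [← C_mul, mul_assoc, hu', mul_one]
      linear_combination h3 + C u' * h2
    rw [h1, map_sub, map_mul, AdjoinRoot.mk_self, zero_mul, zero_sub, map_mul, AdjoinRoot.mk_X]
    ring
  have hker : RingHom.ker ψ = Ideal.span {AdjoinRoot.root g} := by
    apply le_antisymm
    · intro z hz
      obtain ⟨P, rfl⟩ := AdjoinRoot.mk_surjective z
      rw [RingHom.mem_ker, hψmk, residue_eq_zero_iff, hmax, Ideal.mem_span_singleton] at hz
      obtain ⟨c, hc⟩ := hz
      have h1 : P = X * P.divX + C ϖ * C c := by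
        rw [← C_mul, ← hc]
        exact (X_mul_divX_add P).symm
      rw [h1, map_add, map_mul, map_mul, AdjoinRoot.mk_X]
      exact Ideal.add_mem _ (Ideal.mul_mem_right _ _ (Ideal.mem_span_singleton_self _))
        (Ideal.mul_mem_right _ _ hϖx)
    · rw [Ideal.span_singleton_le_iff_mem, RingHom.mem_ker, ← AdjoinRoot.mk_X, hψmk, coeff_X_zero,
        map_zero]
  rw [← hker]
  exact RingHom.ker_isMaximal_of_surjective ψ hsurj

theorem pir (g : V[X]) (hg : g.Monic) (N : ℕ) (hN : g.natDegree = N)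
    (h : ∀ i < N, g.coeff i ∈ maximalIdeal V) (ϖ u : V) (hϖ : Irreducible ϖ) (hu : IsUnit u)
    (h0 : g.coeff 0 = ϖ * u) : IsPrincipalIdealRing (AdjoinRoot g) := by
  have hnoeth : IsNoetherianRing (AdjoinRoot g) :=
    isNoetherianRing_of_surjective V[X] (AdjoinRoot g) (AdjoinRoot.mk g)
      AdjoinRoot.mk_surjective
  have hmax := span_root_max g ϖ u hϖ hu h0
  set m : Ideal (AdjoinRoot g) := Ideal.span {AdjoinRoot.root g} with hm
  refine IsPrincipalIdealRing.of_prime fun Q hQ => ?_
  by_cases hx : AdjoinRoot.root g ∈ Q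
  · have h1 : m ≤ Q := by
      rw [hm, Ideal.span_singleton_le_iff_mem]
      exact hx
    have h2 : m = Q := hmax.eq_of_le hQ.ne_top h1
    exact ⟨⟨AdjoinRoot.root g, h2.symm⟩⟩
  · have hle : Q ≤ m := by
      obtain ⟨M, hM, hQM⟩ := Ideal.exists_le_maximal Q hQ.ne_top
      have h1 : m ≤ M := by
        rw [hm, Ideal.span_singleton_le_iff_mem]
        exact root_mem g hg N hN h M hM
      have h2 : m = M := hmax.eq_of_le hM.ne_top h1
      rw [h2]
      exact hQM
    have hQx : Q ≤ m • Q := by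
      intro z hz
      obtain ⟨y, hy⟩ := Ideal.mem_span_singleton'.1 (hle hz)
      have h1 : y ∈ Q := by
        have h2 : y * AdjoinRoot.root g ∈ Q := by
          rw [hy]
          exact hz
        exact (hQ.mem_or_mem h2).resolve_right hx
      rw [← hy, mul_comm]
      exact Submodule.smul_mem_smul (Ideal.mem_span_singleton_self _) h1
    have hjac : m ≤ Ideal.jacobson ⊥ := by
      rw [hm, Ideal.span_singleton_le_iff_mem, Ideal.mem_jacobson_bot]
      intro y
      by_contra hnu
      obtain ⟨M, hM, hyM⟩ := exists_max_ideal_of_mem_nonunits hnu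
      have h1 := root_mem g hg N hN h M hM
      apply hM.ne_top
      rw [Ideal.eq_top_iff_one]
      have h2 : (1 : AdjoinRoot g) =
          (AdjoinRoot.root g * y + 1) - AdjoinRoot.root g * y := by ring
      rw [h2]
      exact M.sub_mem hyM (M.mul_mem_right _ h1)
    have h3 := Submodule.eq_bot_of_le_smul_of_le_jacobson_bot m Q
      (IsNoetherian.noetherian Q) hQx hjac
    rw [h3]
    exact bot_isPrincipal

end

end Pool.Agent.NH7.AC.EisP

namespace Pool.Agent.NH7.AC

open EisP Polynomial IsLocalRing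

theorem s_eis (hgap : S_gap) : S_eis := by
  intro N n hN hn _ V _ _ _ ϖ hϖ v hv
  have hmax : maximalIdeal V = Ideal.span {ϖ} := hϖ.maximalIdeal_eq
  have hdeg : (g0 v).natDegree = N := by
    unfold g0
    rw [(ff_monic v).natDegree_map, ff_natDegree]
  have hco : ∀ i < N, (g0 v).coeff i ∈ maximalIdeal V := by
    intro i hi
    rw [g0_coeff v i hi]
    refine Ideal.sum_mem _ fun q _ => ?_
    by_cases h1 : i = (q.1.1 : ℕ) ∧ (q.1.2 : ℕ) = 0
    · rw [if_pos h1, hmax, Ideal.mem_span_singleton]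
      exact hv.other q (fun h => by omega)
    · rw [if_neg h1]
      exact Ideal.zero_mem _
  have hc0 : ∃ u : V, IsUnit u ∧ (g0 v).coeff 0 = ϖ * u := by
    have hq : n * ((⟨0, hN⟩ : Fin N) : ℕ) + N * ((⟨0, Nat.succ_pos n⟩ : Fin (n + 1)) : ℕ) ≤
        N * n := by simp
    set q0 : Ix N n := ⟨(⟨0, hN⟩, ⟨0, Nat.succ_pos n⟩), hq⟩ with hq0
    obtain ⟨u, hu, hvu⟩ := hv.zero q0 rfl rfl
    refine ⟨u, hu, ?_⟩
    rw [g0_coeff v 0 hN, Finset.sum_eq_single q0]
    · rw [if_pos ⟨rfl, rfl⟩, hvu]
    · intro q _ hq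
      rw [if_neg]
      rintro ⟨h1, h2⟩
      apply hq
      apply Subtype.ext
      apply Prod.ext
      · exact Fin.ext h1.symm
      · exact Fin.ext h2
    · intro h
      exact absurd (Finset.mem_univ _) h
  obtain ⟨u, hu, hc0⟩ := hc0
  refine ⟨?_, ?_, ?_⟩
  · exact isNoetherianRing_of_surjective V[X][X] (BB v) (AdjoinRoot.mk (ff v))
      AdjoinRoot.mk_surjective
  · intro I
    have hpir := pir (g0 v) (g0_monic v) N hdeg hco ϖ u hϖ hu hc0
    obtain ⟨⟨w, hw⟩⟩ := hpir.principal (I.map (th v))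
    have hw1 : w ∈ I.map (th v) := by
      rw [hw]
      exact Submodule.mem_span_singleton_self w
    obtain ⟨g, hg, hgw⟩ := (Ideal.mem_map_iff_of_surjective (th v) (th_surj v)).1 hw1
    refine ⟨g, hg, fun a ha => ?_⟩
    have h1 : th v a ∈ I.map (th v) := Ideal.mem_map_of_mem _ ha
    rw [hw] at h1
    obtain ⟨c, hc⟩ := Submodule.mem_span_singleton.1 h1
    obtain ⟨c', hc'⟩ := th_surj v c
    have h2 : a - c' * g ∈ RingHom.ker (th v) := by
      rw [RingHom.mem_ker, map_sub, map_mul, hc', hgw, ← hc, smul_eq_mul, sub_self]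
    rw [th_ker] at h2
    have h3 : a = c' * g + (a - c' * g) := by ring
    rw [h3]
    exact Submodule.add_mem_sup (Ideal.mul_mem_left _ _ (Ideal.mem_span_singleton_self g)) h2
  · intro k _ _ _
    rw [← th_ker]
    have hirr : Irreducible (g0 v) := by
      have hE : (g0 v).IsEisensteinAt (maximalIdeal V) := by
        refine ⟨?_, ?_, ?_⟩
        · rw [(g0_monic v).leadingCoeff]
          exact fun h => (maximalIdeal.isMaximal V).ne_top ((Ideal.eq_top_iff_one _).2 h)
        · intro i hi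
          rw [hdeg] at hi
          exact hco i hi
        · rw [hc0, hmax, Ideal.span_singleton_pow, Ideal.mem_span_singleton, sq]
          intro h
          rw [mul_dvd_mul_iff_left hϖ.ne_zero] at h
          exact hϖ.not_isUnit (isUnit_of_dvd_unit h hu)
      exact hE.irreducible (maximalIdeal.isMaximal V).isPrime (g0_monic v).isPrimitive
        (by rw [hdeg]; exact hN)
    have hk : g0 (fun q => algebraMap V k (v q)) = (g0 v).map (algebraMap V k) := by
      unfold g0
      rw [← ff_map, Polynomial.map_map, Polynomial.map_map]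
      congr 1
      ext x
      · simp
      · simp
    have hirk : Irreducible (g0 (fun q => algebraMap V k (v q))) := by
      rw [hk]
      exact ((g0_monic v).irreducible_iff_irreducible_map_fraction_map).1 hirr
    have : Fact (Irreducible (g0 (fun q => algebraMap V k (v q)))) := ⟨hirk⟩
    exact RingHom.ker_isMaximal_of_surjective (th _) (th_surj _)

end Pool.Agent.NH7.AC
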