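import Pool.Agent.NH7.AC.Stms

/-!
# Project AC: `S_fin` (B1)
-/

set_option autoImplicit false

namespace Pool.Agent.NH7.AC

open Polynomial Module

namespace FinP

variable {N n : ℕ} {L : Type} [Field L]

theorem dx_eq (v : Ix N n → L) (x t : L) :
    ((derivative (ff v)).eval (C x)).eval t =
      (N : L) * x ^ (N - 1) +
        ∑ q : Ix N n, v q * t ^ (q.1.2 : ℕ) * ((q.1.1 : ℕ) * x ^ ((q.1.1 : ℕ) - 1)) := by
  unfold ff
  simp only [derivative_add, derivative_X_pow, derivative_sum, derivative_mul, derivative_C,
    zero_mul, zero_add, eval_add, eval_mul, eval_pow, eval_C, eval_X, eval_finsetSum,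
    eval_natCast]

theorem dt_eq (v : Ix N n → L) (x t : L) :
    (((ff v).eval (C x)).derivative).eval t =
      ∑ q : Ix N n, v q * ((q.1.2 : ℕ) * t ^ ((q.1.2 : ℕ) - 1)) * x ^ (q.1.1 : ℕ) := by
  unfold ff
  simp only [eval_add, eval_mul, eval_pow, eval_C, eval_X, eval_finsetSum]
  rw [← C_pow]
  simp only [← C_pow, derivative_add, derivative_C, zero_add, derivative_sum, derivative_mul,
    derivative_X_pow, zero_mul, mul_zero, add_zero, eval_finsetSum, eval_mul, eval_C, eval_pow,
    eval_X]

end FinP

open FinP in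
theorem s_fin (hgap : S_gap) : S_fin := by
  intro N n hN hn hNn k L _ _ _ _ v halg htop x t hx ht
  obtain ⟨-, hg⟩ := hgap N n hN hn hNn
  have hkL : CharZero L := charZero_of_injective_algebraMap (algebraMap k L).injective
  have hvA : ∀ q : Ix N n, ¬ ((q.1.1 : ℕ) = 0 ∧ (q.1.2 : ℕ) = 0) → v q ∈ algebraicClosure k L :=
    fun q hq => mem_algebraicClosure_iff.mpr (halg q hq)
  have hlt : ∀ q : Ix N n, ¬ ((q.1.1 : ℕ) = 0 ∧ (q.1.2 : ℕ) = n) →
      n * (q.1.1 : ℕ) + N * (q.1.2 : ℕ) < N * n := by
    intro q hq
    refine lt_of_le_of_ne q.2 fun h => hq ?_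
    exact hg q.1.1 q.1.2 0 n q.1.1.2 hN (by rw [h]; ring)
  rw [dx_eq] at hx
  rw [dt_eq] at ht
  have hNL : (N : L) ≠ 0 := by exact_mod_cast hN.ne'
  have hnL : (n : L) ≠ 0 := by exact_mod_cast hn.ne'
  set q0 : Ix N n := ⟨(⟨0, hN⟩, ⟨n, Nat.lt_succ_self n⟩), by simp⟩ with hq0
  have hv0 : v q0 ≠ 0 := (htop q0 rfl rfl).ne_zero
  let W : Submodule (algebraicClosure k L) L := Submodule.span _
    (Set.range fun p : Fin (N - 1) × Fin (n - 1) => x ^ (p.1 : ℕ) * t ^ (p.2 : ℕ))
  have hsm : ∀ c y : L, c ∈ algebraicClosure k L → y ∈ W → c * y ∈ W :=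
    fun c y hc hy => W.smul_mem (⟨c, hc⟩ : algebraicClosure k L) hy
  have key : ∀ w a b : ℕ, n * a + N * b = w → x ^ a * t ^ b ∈ W := by
    intro w
    induction w using Nat.strong_induction_on with
    | _ w ih =>
      intro a b hw
      by_cases ha : N - 1 ≤ a
      · obtain ⟨a', rfl⟩ := Nat.exists_eq_add_of_le ha
        have h1 : (N : L) * (x ^ (N - 1 + a') * t ^ b) =
            - ∑ q : Ix N n, ((q.1.1 : ℕ) * v q) *
              (x ^ (((q.1.1 : ℕ) - 1) + a') * t ^ (b + (q.1.2 : ℕ))) := by
          have h2 : (N : L) * x ^ (N - 1) = - ∑ q : Ix N n, v q * t ^ (q.1.2 : ℕ) *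
              ((q.1.1 : ℕ) * x ^ ((q.1.1 : ℕ) - 1)) := eq_neg_of_add_eq_zero_left hx
          calc (N : L) * (x ^ (N - 1 + a') * t ^ b) = ((N : L) * x ^ (N - 1)) * (x ^ a' * t ^ b) := by
                ring
            _ = _ := by
                rw [h2, neg_mul, Finset.sum_mul]
                congr 1
                refine Finset.sum_congr rfl fun q _ => ?_
                ring
        have h3 : (N : L) * (x ^ (N - 1 + a') * t ^ b) ∈ W := by
          rw [h1]
          refine W.neg_mem (W.sum_mem fun q _ => ?_)
          rcases Nat.eq_zero_or_pos (q.1.1 : ℕ) with h0 | hpos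
          · rw [h0]; simp
          · refine hsm _ _ ((algebraicClosure k L).mul_mem (natCast_mem _ _)
              (hvA q fun h => by omega)) ?_
            refine ih _ ?_ _ _ rfl
            have h4 := hlt q fun h => by omega
            rw [← hw]
            obtain ⟨i, hi⟩ := Nat.exists_eq_add_of_le hpos
            obtain ⟨N', hN'⟩ := Nat.exists_eq_add_of_le hN
            rw [hi] at h4 ⊢
            have e1 : (1 + i - 1) = i := by omega
            have e2 : N - 1 = N' := by omega
            rw [e1, e2]
            have e3 : N = 1 + N' := hN'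
            subst e3
            nlinarith
        have h5 := hsm (N : L)⁻¹ _ ((algebraicClosure k L).inv_mem (natCast_mem _ _)) h3
        rwa [inv_mul_cancel_left₀ hNL] at h5
      · by_cases hb : n - 1 ≤ b
        · obtain ⟨b', rfl⟩ := Nat.exists_eq_add_of_le hb
          have h1 : (n * v q0) * (x ^ a * t ^ (n - 1 + b')) =
              - ∑ q ∈ Finset.univ.erase q0, ((q.1.2 : ℕ) * v q) *
                (x ^ (a + (q.1.1 : ℕ)) * t ^ (((q.1.2 : ℕ) - 1) + b')) := by
            have h2 : v q0 * ((n : ℕ) * t ^ (n - 1)) =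
                - ∑ q ∈ Finset.univ.erase q0, v q * ((q.1.2 : ℕ) * t ^ ((q.1.2 : ℕ) - 1)) *
                  x ^ (q.1.1 : ℕ) := by
              rw [← Finset.add_sum_erase _ _ (Finset.mem_univ q0)] at ht
              have h3 := eq_neg_of_add_eq_zero_left ht
              rw [← h3]
              simp [hq0]
            calc (n * v q0) * (x ^ a * t ^ (n - 1 + b')) =
                (v q0 * ((n : ℕ) * t ^ (n - 1))) * (x ^ a * t ^ b') := by ring
              _ = _ := by
                rw [h2, neg_mul, Finset.sum_mul]
                congr 1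
                refine Finset.sum_congr rfl fun q _ => ?_
                ring
          have h3 : (n * v q0) * (x ^ a * t ^ (n - 1 + b')) ∈ W := by
            rw [h1]
            refine W.neg_mem (W.sum_mem fun q hq => ?_)
            have hqne : q ≠ q0 := (Finset.mem_erase.mp hq).1
            rcases Nat.eq_zero_or_pos (q.1.2 : ℕ) with h0 | hpos
            · rw [h0]; simp
            · refine hsm _ _ ((algebraicClosure k L).mul_mem (natCast_mem _ _)
                (hvA q fun h => by omega)) ?_
              refine ih _ ?_ _ _ rfl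
              have h4 := hlt q fun h => hqne (by
                apply Subtype.ext
                apply Prod.ext
                · exact Fin.ext h.1
                · exact Fin.ext h.2)
              rw [← hw]
              obtain ⟨j, hj⟩ := Nat.exists_eq_add_of_le hpos
              obtain ⟨n', hn'⟩ := Nat.exists_eq_add_of_le hn
              rw [hj] at h4 ⊢
              have e1 : (1 + j - 1) = j := by omega
              have e2 : n - 1 = n' := by omega
              rw [e1, e2]
              have e3 : n = 1 + n' := hn'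
              nlinarith
          have hqz : ¬ ((q0.1.1 : ℕ) = 0 ∧ (q0.1.2 : ℕ) = 0) := by
            rintro ⟨-, h⟩
            exact hn.ne' h
          have h5 := hsm (n * v q0)⁻¹ _ ((algebraicClosure k L).inv_mem
            ((algebraicClosure k L).mul_mem (natCast_mem _ _) (hvA q0 hqz))) h3
          rwa [inv_mul_cancel_left₀ (mul_ne_zero hnL hv0)] at h5
        · exact Submodule.subset_span ⟨(⟨a, by omega⟩, ⟨b, by omega⟩), rfl⟩
  have hW1 : (1 : L) ∈ W := by simpa using key _ 0 0 rfl
  have hWbot : W ≠ ⊥ := by
    intro h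
    rw [h, Submodule.mem_bot] at hW1
    exact one_ne_zero hW1
  have hfg : W.FG := Submodule.fg_span (Set.finite_range _)
  have hmx : ∀ y ∈ W, x * y ∈ W := by
    intro y hy
    refine Submodule.span_induction ?_ ?_ ?_ ?_ hy
    · rintro _ ⟨p, rfl⟩
      have := key _ ((p.1 : ℕ) + 1) p.2 rfl
      rw [pow_succ] at this
      convert this using 1
      ring
    · simp
    · intro a b _ _ ha hb
      rw [mul_add]
      exact W.add_mem ha hb
    · intro c a _ ha
      rw [mul_smul_comm]
      exact W.smul_mem c ha
  have hmt : ∀ y ∈ W, t * y ∈ W := by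
    intro y hy
    refine Submodule.span_induction ?_ ?_ ?_ ?_ hy
    · rintro _ ⟨p, rfl⟩
      have := key _ (p.1 : ℕ) ((p.2 : ℕ) + 1) rfl
      rw [pow_succ] at this
      convert this using 1
      ring
    · simp
    · intro a b _ _ ha hb
      rw [mul_add]
      exact W.add_mem ha hb
    · intro c a _ ha
      rw [mul_smul_comm]
      exact W.smul_mem c ha
  have hix : IsIntegral (algebraicClosure k L) x :=
    isIntegral_of_smul_mem_submodule (M := L) W hWbot hfg x hmx
  have hit : IsIntegral (algebraicClosure k L) t :=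
    isIntegral_of_smul_mem_submodule (M := L) W hWbot hfg t hmt
  have halgA : Algebra.IsAlgebraic k (algebraicClosure k L) := inferInstance
  exact ⟨IsAlgebraic.restrictScalars k hix.isAlgebraic,
    IsAlgebraic.restrictScalars k hit.isAlgebraic⟩

end Pool.Agent.NH7.AC
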