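import Pool.Agent.NH7.AC.Stms

set_option autoImplicit false

namespace Pool.Agent.NH7.AC

open Polynomial Module

theorem s_gap : S_gap := by
  intro N n hN hn hc
  refine ⟨?_, ?_⟩
  · intro s hs
    obtain ⟨i, hi, he⟩ := Nat.exists_mul_mod_eq_of_coprime (n := n) (k := N) s hc.symm hN.ne'
    have h1 : n * i ≤ s := by
      calc n * i ≤ n * N := Nat.mul_le_mul_left _ hi.le
        _ = N * n := mul_comm _ _
        _ ≤ s := hs
    have h2 : N ∣ s - n * i := (Nat.modEq_iff_dvd' h1).1 he
    obtain ⟨j, hj⟩ := h2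
    exact ⟨i, j, by omega⟩
  · intro i j i' j' hi hi' h
    have h1 : n * i ≡ n * i' [MOD N] := by
      have h2 : n * i + N * j ≡ n * i' + N * j' [MOD N] := by rw [h]
      have h3 : n * i + N * j ≡ n * i [MOD N] := by simp [Nat.ModEq]
      have h4 : n * i' + N * j' ≡ n * i' [MOD N] := by simp [Nat.ModEq]
      exact h3.symm.trans (h2.trans h4)
    have h2 : i ≡ i' [MOD N] := Nat.ModEq.cancel_left_of_coprime hc h1
    have h3 : i = i' := by
      have := Nat.mod_eq_of_lt hi
      have := Nat.mod_eq_of_lt hi'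
      unfold Nat.ModEq at h2
      omega
    subst h3
    refine ⟨rfl, ?_⟩
    have h4 : N * j = N * j' := by omega
    exact Nat.eq_of_mul_eq_mul_left hN h4

end Pool.Agent.NH7.AC
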