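import Pool.Agent.NH7.AC.Stms

/-!
# Project AC: the ideal of a solution
-/

set_option autoImplicit false


namespace Pool.Agent.NH7.AC

open Polynomial Module

namespace KerP

variable {N n M : ℕ} {K : Type} [Field K]

/-- evaluation of polynomials in `x`, `t` at commuting matrices -/
noncomputable def Ev (T U : Matrix (Fin M) (Fin M) K) (h : T * U = U * T) :
    K[X][X] →+* Matrix (Fin M) (Fin M) K :=
  eval₂RingHom' ((aeval T : K[X] →ₐ[K] Matrix (Fin M) (Fin M) K) : K[X] →+* Matrix (Fin M) (Fin M) K)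
    U (by
      intro a
      have h1 : Commute (T : Matrix (Fin M) (Fin M) K) U := h
      show Commute (aeval T a) U
      induction a using Polynomial.induction_on' with
      | add p q hp hq => rw [map_add]; exact hp.add_left hq
      | monomial n c =>
        rw [aeval_monomial]
        exact (Algebra.commute_algebraMap_left c U).mul_left (h1.pow_left n))

theorem Ev_C (T U : Matrix (Fin M) (Fin M) K) (h : T * U = U * T) (a : K[X]) :
    Ev T U h (C a) = aeval T a := by
  unfold Ev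
  simp [eval₂RingHom']

theorem Ev_X (T U : Matrix (Fin M) (Fin M) K) (h : T * U = U * T) :
    Ev T U h X = U := by
  unfold Ev
  simp [eval₂RingHom']

theorem Ev_CC (T U : Matrix (Fin M) (Fin M) K) (h : T * U = U * T) (a : K) :
    Ev T U h (C (C a)) = algebraMap K _ a := by
  rw [Ev_C, aeval_C]

theorem Ev_ff (T U : Matrix (Fin M) (Fin M) K) (h : T * U = U * T) (v : Ix N n → K) :
    Ev T U h (ff v) = U ^ N + ∑ q : Ix N n, v q • (U ^ (q.1.1 : ℕ) * T ^ (q.1.2 : ℕ)) := by
  unfold ff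
  rw [map_add, map_pow, Ev_X, map_sum]
  congr 1
  refine Finset.sum_congr rfl fun q _ => ?_
  rw [map_mul, map_pow, Ev_X, Ev_C, map_mul, map_pow, aeval_X, aeval_C]
  have h1 : Commute (T ^ (q.1.2 : ℕ)) (U ^ (q.1.1 : ℕ)) := Commute.pow_pow h _ _
  rw [mul_assoc, h1.eq, Algebra.smul_def]

theorem Ev_mo {D : ℕ} (T U : Matrix (Fin M) (Fin M) K) (h : T * U = U * T) (q : Bx N D) :
    Ev T U h (mo K q) = U ^ (q.1 : ℕ) * T ^ (q.2 : ℕ) := by
  unfold mo
  rw [map_mul, Ev_C, map_pow, map_pow, Ev_X, aeval_X]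
  have h1 : Commute (T ^ (q.2 : ℕ)) (U ^ (q.1 : ℕ)) := Commute.pow_pow h _ _
  exact h1.eq

/-- the induced map on the quotient -/
noncomputable def EvB (T U : Matrix (Fin M) (Fin M) K) (h : T * U = U * T) (v : Ix N n → K)
    (hv : Ev T U h (ff v) = 0) : BB v →+* Matrix (Fin M) (Fin M) K :=
  Ideal.Quotient.lift (Ideal.span {ff v}) (Ev T U h) (by
    intro a ha
    obtain ⟨b, rfl⟩ := Ideal.mem_span_singleton'.1 ha
    rw [map_mul, hv, mul_zero])

theorem EvB_mk (T U : Matrix (Fin M) (Fin M) K) (h : T * U = U * T) (v : Ix N n → K)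
    (hv : Ev T U h (ff v) = 0) (P : K[X][X]) :
    EvB T U h v hv (AdjoinRoot.mk (ff v) P) = Ev T U h P := by
  unfold EvB AdjoinRoot.mk
  exact Ideal.Quotient.lift_mk _ _ _

theorem algMap_mk (v : Ix N n → K) (c : K) :
    algebraMap K (BB v) c = AdjoinRoot.mk (ff v) (C (C c)) := rfl

open scoped Pointwise in
theorem span_pow_le {B G : Type} [CommRing B] (γ : G → B) (p : ℕ) (J : Ideal B)
    (h : ∀ I : Fin p → G, ∏ k, γ (I k) ∈ J) : Ideal.span (Set.range γ) ^ p ≤ J := by
  have h1 : Ideal.span (Set.range γ) ^ p = Ideal.span (Set.range γ ^ p) :=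
    Submodule.span_pow _ _
  rw [h1, Ideal.span_le]
  intro x hx
  obtain ⟨f, rfl⟩ := Set.mem_pow.1 hx
  choose I hI using fun k => (f k).2
  have := h I
  rw [List.prod_ofFn]
  simp only [hI] at this
  exact this


/-- the kernel is generated by the relations -/
theorem gens {K B : Type} [Field K] [CommRing B] [Algebra K B] {M : ℕ} (ψ : B →ₗ[K] (Fin M → K))
    (γ : Fin M → B) (o : Fin M) (hγ1 : γ o = 1) (hψγ : ∀ m, ψ (γ m) = Pi.single m 1) (t x : B)
    (T U : Matrix (Fin M) (Fin M) K) (ht : ∀ b, ψ (t * b) = T.mulVec (ψ b))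
    (hx : ∀ b, ψ (x * b) = U.mulVec (ψ b))
    (hgen : ∀ R : Submodule K B, (1 : B) ∈ R → (∀ b ∈ R, t * b ∈ R) → (∀ b ∈ R, x * b ∈ R) →
      ∀ b, b ∈ R) (𝔟 : Ideal B)
    (h1 : ∀ m, t * γ m - ∑ m', algebraMap K B (T m' m) * γ m' ∈ 𝔟)
    (h2 : ∀ m, x * γ m - ∑ m', algebraMap K B (U m' m) * γ m' ∈ 𝔟) (b : B) (hb : ψ b = 0) :
    b ∈ 𝔟 := by
  classical
  let σ : (Fin M → K) →ₗ[K] B := Fintype.linearCombination K γ
  have hσ : ∀ c, σ c = ∑ m, algebraMap K B (c m) * γ m := by
    intro c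
    simp [σ, Fintype.linearCombination_apply, Algebra.smul_def]
  have hσ1 : ∀ m, σ (Pi.single m 1) = γ m := by
    intro m
    rw [hσ, Finset.sum_eq_single m]
    · simp
    · intro m' _ hm
      simp [hm]
    · intro h; exact absurd (Finset.mem_univ _) h
  have hstab : ∀ (A : Matrix (Fin M) (Fin M) K) (z : B),
      (∀ m, z * γ m - ∑ m', algebraMap K B (A m' m) * γ m' ∈ 𝔟) →
      ∀ c : Fin M → K, z * σ c - σ (A.mulVec c) ∈ 𝔟 := by
    intro A z hz c
    have hAc : σ (A.mulVec c) = ∑ m, algebraMap K B (c m) * ∑ m', algebraMap K B (A m' m) * γ m' := by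
      rw [hσ]
      simp only [Finset.mul_sum]
      rw [Finset.sum_comm]
      refine Finset.sum_congr rfl fun m _ => ?_
      simp only [Matrix.mulVec, dotProduct]
      rw [map_sum, Finset.sum_mul]
      refine Finset.sum_congr rfl fun m' _ => ?_
      rw [map_mul]
      ring
    rw [hAc, hσ, Finset.mul_sum, ← Finset.sum_sub_distrib]
    refine Ideal.sum_mem _ fun m _ => ?_
    have h3 : z * (algebraMap K B (c m) * γ m) -
        algebraMap K B (c m) * ∑ m', algebraMap K B (A m' m) * γ m' =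
        algebraMap K B (c m) * (z * γ m - ∑ m', algebraMap K B (A m' m) * γ m') := by ring
    rw [h3]
    exact Ideal.mul_mem_left _ _ (hz m)
  let R : Submodule K B :=
    { carrier := {b | b - σ (ψ b) ∈ 𝔟}
      add_mem' := fun {a b} ha hb => by
        show a + b - σ (ψ (a + b)) ∈ 𝔟
        rw [map_add, map_add, add_sub_add_comm]
        exact 𝔟.add_mem ha hb
      zero_mem' := by
        show (0 : B) - σ (ψ 0) ∈ 𝔟
        rw [map_zero, map_zero, sub_zero]
        exact 𝔟.zero_mem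
      smul_mem' := fun c b hb => by
        show c • b - σ (ψ (c • b)) ∈ 𝔟
        rw [map_smul, map_smul, ← smul_sub, Algebra.smul_def]
        exact Ideal.mul_mem_left _ _ hb }
  have hR : ∀ b, b ∈ R ↔ b - σ (ψ b) ∈ 𝔟 := fun b => Iff.rfl
  have hmulR : ∀ (A : Matrix (Fin M) (Fin M) K) (z : B), (∀ b, ψ (z * b) = A.mulVec (ψ b)) →
      (∀ c : Fin M → K, z * σ c - σ (A.mulVec c) ∈ 𝔟) → ∀ b ∈ R, z * b ∈ R := by
    intro A z h1 h2 b hb
    rw [hR, h1]
    have h3 : z * b - σ (A.mulVec (ψ b)) =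
        z * (b - σ (ψ b)) + (z * σ (ψ b) - σ (A.mulVec (ψ b))) := by ring
    rw [h3]
    exact 𝔟.add_mem (Ideal.mul_mem_left _ _ hb) (h2 _)
  have hR1 : (1 : B) ∈ R := by
    rw [hR, ← hγ1, hψγ, hσ1, sub_self]
    exact 𝔟.zero_mem
  have h3 := (hR _).1 (hgen R hR1 (hmulR T t ht (hstab T t h1)) (hmulR U x hx (hstab U x h2)) b)
  rw [hb, map_zero, sub_zero] at h3
  exact h3

/-- a `K`-submodule stable under `t` and `x` which contains `1` is everything -/
theorem gen_all (v : Ix N n → K) (R : Submodule K (BB v)) (h1 : (1 : BB v) ∈ R)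
    (ht : ∀ b ∈ R, AdjoinRoot.mk (ff v) (C X) * b ∈ R)
    (hx : ∀ b ∈ R, AdjoinRoot.mk (ff v) X * b ∈ R) (b : BB v) : b ∈ R := by
  have hRtj : ∀ j : ℕ, AdjoinRoot.mk (ff v) (C (X ^ j)) ∈ R := by
    intro j
    induction j with
    | zero =>
      rw [pow_zero, map_one, map_one]
      exact h1
    | succ j ih =>
      have := ht _ ih
      rwa [← map_mul, ← map_mul, ← pow_succ'] at this
  have hRC : ∀ a : K[X], AdjoinRoot.mk (ff v) (C a) ∈ R := by
    intro a
    induction a using Polynomial.induction_on' with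
    | add p q hp hq => rw [map_add, map_add]; exact R.add_mem hp hq
    | monomial j c =>
      rw [← C_mul_X_pow_eq_monomial, map_mul, map_mul, ← algMap_mk, ← Algebra.smul_def]
      exact R.smul_mem _ (hRtj j)
  obtain ⟨P, rfl⟩ := AdjoinRoot.mk_surjective b
  induction P using Polynomial.induction_on' with
  | add p q hp hq => rw [map_add]; exact R.add_mem hp hq
  | monomial i a =>
    induction i with
    | zero =>
      rw [monomial_zero_left]
      exact hRC a
    | succ i ih =>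
      have := hx _ ih
      rwa [← map_mul, X_mul_monomial] at this

end KerP

open KerP in
theorem s_ker : S_ker := by
  intro N n p r D M hN Γ o ho K _ v y hy
  classical
  set T := tt y with hT
  set U := uu y with hU
  have hcomm : T * U = U * T := hy.comm
  have hv : Ev T U hcomm (ff v) = 0 := by rw [Ev_ff]; exact hy.eq
  set Φ := EvB T U hcomm v hv with hΦ
  set e : Fin M → K := Pi.single o 1 with he
  let ψ : BB v →ₗ[K] (Fin M → K) :=
    { toFun := fun b => (Φ b).mulVec e
      map_add' := fun a b => by rw [map_add, Matrix.add_mulVec]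
      map_smul' := fun c b => by
        rw [Algebra.smul_def, map_mul, algMap_mk, EvB_mk, Ev_CC, ← Algebra.smul_def,
          Matrix.smul_mulVec, RingHom.id_apply] }
  have hψ : ∀ b, ψ b = (Φ b).mulVec e := fun b => rfl
  have hψmul : ∀ a b, ψ (a * b) = (Φ a).mulVec (ψ b) := by
    intro a b
    rw [hψ, hψ, map_mul, Matrix.mulVec_mulVec]
  let 𝔞 : Ideal (BB v) :=
    { carrier := {b | ψ b = 0}
      add_mem' := fun {a b} ha hb => by
        show ψ (a + b) = 0
        rw [map_add, show ψ a = 0 from ha, show ψ b = 0 from hb, add_zero]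
      zero_mem' := map_zero ψ
      smul_mem' := fun c b hb => by
        show ψ (c * b) = 0
        rw [hψmul, show ψ b = 0 from hb, Matrix.mulVec_zero] }
  have h𝔞 : ∀ b, b ∈ 𝔞 ↔ ψ b = 0 := fun b => Iff.rfl
  have hψmo : ∀ m, ψ (AdjoinRoot.mk (ff v) (mo K (Γ m))) = Pi.single m 1 := by
    intro m
    rw [hψ, EvB_mk, Ev_mo]
    exact hy.act m
  have hψC : ∀ (c : K) (P : K[X][X]), ψ (AdjoinRoot.mk (ff v) (C (C c) * P)) =
      c • ψ (AdjoinRoot.mk (ff v) P) := by
    intro c P
    rw [map_mul, ← algMap_mk, ← Algebra.smul_def, map_smul]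
  have hψsum : ∀ c : Fin M → K, ψ (AdjoinRoot.mk (ff v) (∑ m, C (C (c m)) * mo K (Γ m))) = c := by
    intro c
    rw [map_sum, map_sum]
    simp only [hψC, hψmo]
    funext m
    simp [Finset.sum_apply, Pi.single_apply]
  have hsurj : Function.Surjective ψ := fun c => ⟨_, hψsum c⟩
  have hker : LinearMap.ker ψ = 𝔞.restrictScalars K := by
    ext b
    simp [h𝔞]
  have hquot : (BB v ⧸ 𝔞) ≃ₗ[K] (Fin M → K) :=
    ((Submodule.Quotient.restrictScalarsEquiv K 𝔞).symm.trans
      (Submodule.quotEquivOfEq _ _ hker.symm)).trans (ψ.quotKerEquivOfSurjective hsurj)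
  clear_value ψ 𝔞
  -- multiplication by `t` and `x`
  have hψt' : ∀ b : BB v, ψ (AdjoinRoot.mk (ff v) (C X) * b) = T.mulVec (ψ b) := by
    intro b
    rw [hψmul, EvB_mk, Ev_C, aeval_X]
  have hψx' : ∀ b : BB v, ψ (AdjoinRoot.mk (ff v) X * b) = U.mulVec (ψ b) := by
    intro b
    rw [hψmul, EvB_mk, Ev_X]
  have hgg : ∀ g, AdjoinRoot.mk (ff v) (gg (tt y) (uu y) Γ g) ∈ 𝔞 := by
    have key : ∀ (m : Fin M) (A : Matrix (Fin M) (Fin M) K),
        A.mulVec (Pi.single m 1) - (fun m' => A m' m) = 0 := by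
      intro m A
      funext m'
      simp [Matrix.mulVec_single]
    intro g
    rw [h𝔞]
    rcases g with m | m
    · show ψ (AdjoinRoot.mk (ff v)
        (C X * mo K (Γ m) - ∑ m', C (C (tt y m' m)) * mo K (Γ m'))) = 0
      rw [map_sub, map_sub, map_mul, hψt', hψmo, hψsum fun m' => tt y m' m]
      exact key m _
    · show ψ (AdjoinRoot.mk (ff v)
        (X * mo K (Γ m) - ∑ m', C (C (uu y m' m)) * mo K (Γ m'))) = 0
      rw [map_sub, map_sub, map_mul, hψx', hψmo, hψsum fun m' => uu y m' m]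
      exact key m _
  refine ⟨𝔞, Module.Finite.equiv hquot.symm, ?_, ?_, hgg, ?_, ?_⟩
  · rw [hquot.finrank_eq]
    simp
  · intro c hc
    rw [h𝔞, hψsum] at hc
    exact hc
  · rw [h𝔞, hψ, EvB_mk]
    have h1 : Ev T U hcomm (pol (aa y)) =
        ∑ q : Bx N D, aa y q • (uu y ^ (q.1 : ℕ) * tt y ^ (q.2 : ℕ)) := by
      unfold pol
      rw [map_sum]
      refine Finset.sum_congr rfl fun q _ => ?_
      rw [map_mul, Ev_mo, Ev_CC, Algebra.smul_def]
    rw [h1]
    exact hy.ann
  · -- generators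
    have hle : 𝔞 ≤
        Ideal.span (Set.range fun g => AdjoinRoot.mk (ff v) (gg (tt y) (uu y) Γ g)) := by
      intro b hb
      refine gens ψ (fun m => AdjoinRoot.mk (ff v) (mo K (Γ m))) o ?_ hψmo
        (AdjoinRoot.mk (ff v) (C X)) (AdjoinRoot.mk (ff v) X) T U hψt' hψx' (gen_all v) _ ?_ ?_ b
        ((h𝔞 b).1 hb)
      · unfold mo
        rw [ho.1, ho.2]
        simp
      · intro m
        have h4 : AdjoinRoot.mk (ff v) (C X) * AdjoinRoot.mk (ff v) (mo K (Γ m)) -
            ∑ m', algebraMap K (BB v) (T m' m) * AdjoinRoot.mk (ff v) (mo K (Γ m')) =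
            AdjoinRoot.mk (ff v) (gg (tt y) (uu y) Γ (Sum.inl m)) := by
          show _ = AdjoinRoot.mk (ff v)
            (C X * mo K (Γ m) - ∑ m', C (C (tt y m' m)) * mo K (Γ m'))
          rw [map_sub, map_mul, map_sum]
          congr 1
        rw [h4]
        exact Ideal.subset_span ⟨Sum.inl m, rfl⟩
      · intro m
        have h4 : AdjoinRoot.mk (ff v) X * AdjoinRoot.mk (ff v) (mo K (Γ m)) -
            ∑ m', algebraMap K (BB v) (U m' m) * AdjoinRoot.mk (ff v) (mo K (Γ m')) =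
            AdjoinRoot.mk (ff v) (gg (tt y) (uu y) Γ (Sum.inr m)) := by
          show _ = AdjoinRoot.mk (ff v)
            (X * mo K (Γ m) - ∑ m', C (C (uu y m' m)) * mo K (Γ m'))
          rw [map_sub, map_mul, map_sum]
          congr 1
        rw [h4]
        exact Ideal.subset_span ⟨Sum.inr m, rfl⟩
    refine (Ideal.pow_right_mono hle p).trans ?_
    refine span_pow_le _ p _ fun I => ?_
    rw [← map_prod]
    obtain ⟨w, hw⟩ := hy.dvd I
    have h2 : AdjoinRoot.mk (ff v) (∏ k, gg (tt y) (uu y) Γ (I k)) =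
        AdjoinRoot.mk (ff v) (pol (ss y I)) * AdjoinRoot.mk (ff v) (pol (aa y)) ^ (p - 1) := by
      have h3 := congrArg (AdjoinRoot.mk (ff v)) hw
      rw [map_sub, map_mul, map_mul, AdjoinRoot.mk_self, zero_mul, map_pow] at h3
      rw [sub_eq_zero.1 h3, mul_comm]
    rw [h2]
    exact Ideal.mul_mem_left _ _ (Ideal.mem_span_singleton_self _)

end Pool.Agent.NH7.AC
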