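import Pool.Agent.NH7.AC.Stms

/-!
# Project AC, job F5: ideals with principal reduction are principal (helper90)
-/

set_option autoImplicit false

namespace Pool.Agent.NH7.AC.LLP

open Polynomial Module

section wt

variable {S : AddSubmonoid ℕ} {K B : Type} [Field K] [CommRing B] [Algebra K B] (W : Wt S K B)

theorem deg_one : (W.cf 1).natDegree = 0 := by rw [W.one, natDegree_one]

theorem deg_pow (hdom : S_dom) {a : B} (ha : a ≠ 0) (m : ℕ) :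
    (W.cf (a ^ m)).natDegree = m * (W.cf a).natDegree := by
  obtain ⟨h1, h2, -, -⟩ := hdom S K B W
  induction m with
  | zero => rw [pow_zero, deg_one, zero_mul]
  | succ m ih => rw [pow_succ, h2 _ _ (pow_ne_zero _ ha) ha, ih]; ring

/-- an ideal which contains an element of degree at most its codimension is principal -/
theorem principal_of_deg [IsDedekindDomain B] (hdim : S_dim) (hmul : S_mul) (F : ℕ)
    (hF : ∀ s, F ≤ s → s ∈ S) (I : Ideal B) {u : B} (hu : u ∈ I) (hu0 : u ≠ 0)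
    (hd : (W.cf u).natDegree ≤ finrank K (B ⧸ I)) : I = Ideal.span {u} := by
  obtain ⟨-, -, -, h4, h5⟩ := hdim S F hF K B W
  have hle : Ideal.span {u} ≤ I := (Ideal.span_singleton_le_iff_mem I).2 hu
  obtain ⟨J, hJ⟩ := Ideal.dvd_iff_le.2 hle
  have hs0 : Ideal.span {u} ≠ ⊥ := by
    rw [Ne, Ideal.span_singleton_eq_bot]
    exact hu0
  have hI0 : I ≠ ⊥ := by
    rintro rfl
    exact hs0 (le_bot_iff.1 hle)
  have hJ0 : J ≠ ⊥ := by
    rintro rfl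
    rw [Ideal.mul_bot] at hJ
    exact hs0 hJ
  have h6 := hmul K B (fun I hI => (h5 I hI).1) I J hI0 hJ0
  rw [← hJ, (h4 u hu0).2] at h6
  have h7 : finrank K (B ⧸ J) = 0 := by omega
  have hfin : Module.Finite K (B ⧸ J) := (h5 J hJ0).1
  have h8 : Subsingleton (B ⧸ J) := finrank_zero_iff.1 h7
  have h9 : J = ⊤ := Ideal.Quotient.subsingleton_iff.1 h8
  rw [hJ, h9, Ideal.mul_top]

end wt

theorem fin_step {B : Type} [CommRing B] [IsDedekindDomain B] {𝔠 : Ideal B} {x u : B}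
    (h : Ideal.span {x} = 𝔠 * Ideal.span {u}) (hu0 : u ≠ 0) : 𝔠.IsPrincipal := by
  have h1 : x ∈ Ideal.span {u} := by
    have : x ∈ 𝔠 * Ideal.span {u} := by
      rw [← h]
      exact Ideal.mem_span_singleton_self _
    exact Ideal.mul_le_right this
  obtain ⟨b, hb⟩ := Ideal.mem_span_singleton.1 h1
  have hs : Ideal.span {u} ≠ ⊥ := by
    rw [Ne, Ideal.span_singleton_eq_bot]
    exact hu0
  have h2 : 𝔠 * Ideal.span {u} = Ideal.span {b} * Ideal.span {u} := by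
    rw [← h, Ideal.span_singleton_mul_span_singleton, hb, mul_comm]
  exact ⟨b, mul_right_cancel₀ hs h2⟩

end Pool.Agent.NH7.AC.LLP

namespace Pool.Agent.NH7.AC

open Polynomial Module

theorem s_LL (hdom : S_dom) (hdim : S_dim) (hmul : S_mul) (htri : S_tri) (hDT : S_DT)
    (hnw : S_nw) (hsm : S_sm) : S_LL := by
  intro S F hF V k κ O B Bb _ _ _ _ _ _ _ _ _ _ _ _ _ _ T p hp hpu 𝔠 h𝔠 hpr hred
  obtain ⟨hO, hinj, hsurj, hci, hcr, hdi, hdr, hdiv, hfac, hgauss⟩ := htri S V k κ O B Bb T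
  obtain ⟨hBb, hdmulb, hconstb, -⟩ := hdom S κ Bb T.Wb
  obtain ⟨-, hdmul, -, -⟩ := hdom S k B T.Wk
  obtain ⟨-, -, -, hspanb, hidb⟩ := hdim S F hF κ Bb T.Wb
  obtain ⟨-, -, -, hspan, hid⟩ := hdim S F hF k B T.Wk
  -- the generator of `𝔠 ^ p`
  obtain ⟨a, ha⟩ := hpr.principal
  have ha : 𝔠 ^ p = Ideal.span {a} := ha
  have hp0 : p ≠ 0 := hp.ne'
  have h𝔠p : 𝔠 ^ p ≠ ⊥ := pow_ne_zero p h𝔠
  have ha0 : a ≠ 0 := by
    rintro rfl
    exact h𝔠p (by rw [ha, Ideal.span_singleton_eq_bot])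
  obtain ⟨c, α, hc0, hac, hα⟩ := hfac a ha0
  have haα : 𝔠 ^ p = Ideal.span {T.ι α} := by
    rw [ha, hac]
    exact Ideal.span_singleton_mul_left_unit ((isUnit_iff_ne_zero.2 hc0).map (algebraMap k B)) _
  have hmemp : ∀ x : B, x ∈ 𝔠 ^ p → ∃ y, x = T.ι α * y := by
    intro x hx
    rw [haα, Ideal.mem_span_singleton] at hx
    exact hx
  have hα𝔠 : T.ι α ∈ 𝔠 := Ideal.pow_le_self hp0 (by
    rw [haα]; exact Ideal.mem_span_singleton_self _)
  have hα0 : α ≠ 0 := by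
    rintro rfl
    exact hα (map_zero _)
  -- the generator of the reduction
  obtain ⟨gb, hgb⟩ := hred.principal
  have hgb : (𝔠.comap T.ι).map T.ρ = Ideal.span {gb} := hgb
  obtain ⟨g, hg, hgρ⟩ := (Ideal.mem_map_iff_of_surjective T.ρ hsurj).1
    (show gb ∈ (𝔠.comap T.ι).map T.ρ by rw [hgb]; exact Ideal.mem_span_singleton_self _)
  have hg : T.ι g ∈ 𝔠 := hg
  have hmemb : ∀ h : O, T.ι h ∈ 𝔠 → ∃ z, T.ρ h = gb * z := by
    intro h hh
    have h1 : T.ρ h ∈ (𝔠.comap T.ι).map T.ρ := Ideal.mem_map_of_mem _ hh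
    rw [hgb, Ideal.mem_span_singleton] at h1
    exact h1
  have hgb0 : gb ≠ 0 := by
    rintro rfl
    obtain ⟨z, hz⟩ := hmemb α hα𝔠
    exact hα (by rw [hz, zero_mul])
  set δ := (T.Wb.cf gb).natDegree with hδ
  have hbot : Ideal.span {gb} ≠ ⊥ := by
    rw [Ne, Ideal.span_singleton_eq_bot]
    exact hgb0
  have hfi : ∃ Y, ∀ y, Y ≤ y → finrank κ (T.Wb.Fl y ⊓
      ((𝔠.comap T.ι).map T.ρ).restrictScalars κ : Submodule κ Bb) + δ ≤ ct S y := by
    obtain ⟨Y, hY⟩ := (hidb (Ideal.span {gb}) hbot).2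
    refine ⟨Y, fun y hy => ?_⟩
    have h1 := hY y hy
    rw [(hspanb gb hgb0).2] at h1
    rw [hgb]
    exact h1.le
  -- the power of `g`
  have hgp : T.ι (g ^ p) ∈ 𝔠 ^ p := by
    rw [map_pow]
    exact Ideal.pow_mem_pow hg p
  obtain ⟨x1, hx1⟩ := hmemp _ hgp
  obtain ⟨qg, hqg⟩ := hgauss α (g ^ p) x1 hα hx1.symm
  have hgqg : g ^ p = α * qg := hinj (by rw [hx1, hqg, map_mul])
  have hgbp : gb ^ p = T.ρ α * T.ρ qg := by rw [← hgρ, ← map_pow, hgqg, map_mul]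
  have hqg0 : T.ρ qg ≠ 0 := by
    intro h
    rw [h, mul_zero] at hgbp
    exact pow_ne_zero p hgb0 hgbp
  have hdeg1 : p * δ = (T.Wb.cf (T.ρ α)).natDegree + (T.Wb.cf (T.ρ qg)).natDegree := by
    rw [← hdmulb _ _ hα hqg0, ← hgbp, LLP.deg_pow T.Wb hdom hgb0]
  obtain ⟨hdα, h, q, hh𝔠, hρh, hhp, hdq, hdq2, hdh⟩ := hDT S F hF V k κ O B Bb T p hp 𝔠 α δ h𝔠
    haα hα hfi (by omega)
  obtain ⟨c', hc'⟩ := hconstb (T.ρ qg) (by omega)
  set r := finrank k (B ⧸ 𝔠) with hr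
  obtain ⟨z, hz⟩ := hmemb h hh𝔠
  have hz0 : z ≠ 0 := by
    rintro rfl
    exact hρh (by rw [hz, mul_zero])
  -- the element `w`
  have hw𝔠 : T.ι (h * g ^ (p - 1)) ∈ 𝔠 ^ p := by
    have h1 : 𝔠 ^ p = 𝔠 * 𝔠 ^ (p - 1) := by
      rw [← pow_succ', Nat.sub_add_cancel hp]
    rw [h1, map_mul, map_pow]
    exact Ideal.mul_mem_mul hh𝔠 (Ideal.pow_mem_pow hg _)
  obtain ⟨x2, hx2⟩ := hmemp _ hw𝔠
  obtain ⟨w, hw⟩ := hgauss α (h * g ^ (p - 1)) x2 hα hx2.symm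
  have hαw : h * g ^ (p - 1) = α * w := hinj (by rw [hx2, hw, map_mul])
  have hρw : T.ρ w = z * T.ρ qg := by
    apply mul_left_cancel₀ hα
    rw [← map_mul, ← hαw, map_mul, map_pow, hgρ, hz]
    have h1 : gb * z * gb ^ (p - 1) = z * gb ^ p := by
      rw [← Nat.sub_add_cancel hp, pow_succ, Nat.add_sub_cancel]
      ring
    rw [h1, hgbp]
    ring
  have hρw0 : T.ρ w ≠ 0 := by
    rw [hρw]
    exact mul_ne_zero hz0 hqg0
  have hdw : (T.Wb.cf (T.ρ w)).natDegree + r = (T.W.cf h).natDegree := by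
    have h1 : (T.Wb.cf (T.ρ w)).natDegree = (T.Wb.cf z).natDegree := by
      rw [hρw, hdmulb _ _ hz0 hqg0]
      omega
    have h2 : (T.Wb.cf (T.ρ h)).natDegree = δ + (T.Wb.cf z).natDegree := by
      rw [hz, hdmulb _ _ hgb0 hz0]
    omega
  have hwp : w ^ p = q * qg ^ (p - 1) := by
    apply mul_left_cancel₀ (pow_ne_zero p hα0)
    rw [← mul_pow, ← hαw, mul_pow, hhp, ← pow_mul, mul_comm (p - 1) p, pow_mul, hgqg, mul_pow]
    have h1 : α ^ p = α * α ^ (p - 1) := by rw [← pow_succ', Nat.sub_add_cancel hp]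
    rw [h1]
    ring
  -- the unit
  have hc'0 : c' ≠ 0 := by
    rintro rfl
    exact hqg0 (by rw [hc', map_zero])
  obtain ⟨c0, hc0'⟩ := T.rsurj (c' ^ (p - 1))
  have hc0u : IsUnit c0 := by
    by_contra hcon
    exact pow_ne_zero (p - 1) hc'0 (by rw [← hc0', (T.rker c0).2 hcon])
  obtain ⟨ϖ, hϖ⟩ := IsDiscreteValuationRing.exists_irreducible V
  obtain ⟨y, hy⟩ := hdiv ϖ (qg ^ (p - 1) - algebraMap V O c0) hϖ (by
    rw [map_sub, map_pow, hc', hcr, hc0', map_pow, sub_self])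
  have hqgy : qg ^ (p - 1) = algebraMap V O c0 + algebraMap V O ϖ * y := by
    rw [← hy]; ring
  set r' := (T.Wb.cf (T.ρ w)).natDegree with hr'
  have hdq' : (T.W.cf q).natDegree = p * r' := by
    rw [← hdw] at hdq2
    have : (T.W.cf q).natDegree + p * r = p * r' + p * r := by rw [hdq2]; ring
    omega
  have hN := hnw S V k κ O B Bb T p hp hpu ϖ c0 w q y r' hϖ hc0u (by rw [hwp, hqgy]) hρw0 rfl hdq'
  -- the complementary ideal
  have hh0 : h ≠ 0 := by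
    rintro rfl
    exact hρh (map_zero _)
  have hιh0 : T.ι h ≠ 0 := by
    rw [Ne, map_eq_zero_iff T.ι hinj]
    exact hh0
  obtain ⟨𝔠', h𝔠'⟩ := Ideal.dvd_iff_le.2 ((Ideal.span_singleton_le_iff_mem 𝔠).2 hh𝔠)
  have hsp0 : Ideal.span {T.ι h} ≠ ⊥ := by
    rw [Ne, Ideal.span_singleton_eq_bot]
    exact hιh0
  have h𝔠'0 : 𝔠' ≠ ⊥ := by
    rintro rfl
    rw [Ideal.mul_bot] at h𝔠'
    exact hsp0 h𝔠'
  have h𝔠'p : 𝔠' ^ p = Ideal.span {T.ι q} := by
    apply mul_left_cancel₀ h𝔠p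
    rw [← mul_pow, ← h𝔠', Ideal.span_singleton_pow, ← map_pow, hhp, map_mul, haα,
      Ideal.span_singleton_mul_span_singleton]
  have hdim' : finrank k (B ⧸ 𝔠') = r' := by
    have h1 := hmul k B (fun I hI => (hid I hI).1) 𝔠 𝔠' h𝔠 h𝔠'0
    rw [← h𝔠', (hspan _ hιh0).2, hdi] at h1
    omega
  have hw𝔠' : T.ι w ∈ 𝔠' := by
    rw [← Ideal.span_singleton_le_iff_mem, ← Ideal.dvd_iff_le,
      ← UniqueFactorizationMonoid.pow_dvd_pow_iff_dvd hp0, Ideal.dvd_iff_le,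
      Ideal.span_singleton_pow, h𝔠'p, ← map_pow, hwp, map_mul]
    rw [Ideal.span_singleton_le_iff_mem]
    exact Ideal.mul_mem_right _ _ (Ideal.mem_span_singleton_self _)
  have hq𝔠' : T.ι q ∈ 𝔠' := Ideal.pow_le_self hp0 (by
    rw [h𝔠'p]; exact Ideal.mem_span_singleton_self _)
  have hρq : T.ρ q ≠ 0 := by
    intro h0
    have h1 : T.ρ w ^ p = 0 := by rw [← map_pow, hwp, map_mul, h0, zero_mul]
    exact pow_ne_zero p hρw0 h1
  obtain ⟨u, hu, hu0, hud⟩ := hsm S F hF V k κ O B Bb T ϖ hϖ 𝔠' q r' hq𝔠' hρq hdq (fun m => by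
    obtain ⟨e, g1, h1, he, hd, hne⟩ := hN m
    refine ⟨g1, h1, ?_, hd, ?_⟩
    · rw [← he, map_mul]
      exact Ideal.mul_mem_right _ _ hw𝔠'
    · rw [← he]
      exact hne)
  have hu' : 𝔠' = Ideal.span {u} :=
    LLP.principal_of_deg T.Wk hdim hmul F hF 𝔠' hu hu0 (by rw [hdim']; exact hud)
  -- the end
  rw [hu'] at h𝔠'
  exact LLP.fin_step h𝔠' hu0

end Pool.Agent.NH7.AC
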