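import Pool.Agent.NH7.AC.Stms

/-!
# Project AC: no classes of order `p` near the cusp
-/

set_option autoImplicit false

namespace Pool.Agent.NH7.AC

open Polynomial Module

theorem s_loc (hgap : S_gap) (hwt : S_wt) (hbc : S_bc) (hcm : S_cm) (htri : S_tri) (hstA : S_stA)
    (hstB : S_stB) (hLL : S_LL) (heis : S_eis) : S_loc := by
  intro N n hN hn hc p hp V _ _ _ ϖ hϖ hpV v hv k _ _ _ hded 𝔡 h𝔡
  classical
  by_cases h0 : 𝔡 = ⊥
  · rw [h0]
    infer_instance
  set κ := IsLocalRing.ResidueField V with hκ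
  set r : V →+* κ := IsLocalRing.residue V with hr
  have hrk : ∀ a : V, r a = 0 ↔ ¬ IsUnit a := by
    intro a
    rw [hr, IsLocalRing.residue_eq_zero_iff, IsLocalRing.mem_maximalIdeal, mem_nonunits_iff]
  have hdvd : ∀ a : V, ϖ ∣ a → r a = 0 := by
    intro a ha
    rw [hrk]
    intro hu
    exact hϖ.not_isUnit (isUnit_of_dvd_unit ha hu)
  have htop : ∀ q : Ix N n, (q.1.1 : ℕ) = 0 → (q.1.2 : ℕ) = n → r (v q) = -1 := by
    intro q h1 h2
    have h3 := hdvd _ (hv.top q h1 h2)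
    rw [map_add, map_one] at h3
    exact eq_neg_of_add_eq_zero_left h3
  have hoth : ∀ q : Ix N n, ¬ ((q.1.1 : ℕ) = 0 ∧ (q.1.2 : ℕ) = n) → r (v q) = 0 :=
    fun q h => hdvd _ (hv.other q h)
  have hTv : TopUnit v := by
    intro q h1 h2
    by_contra hu
    have h3 := (hrk _).2 hu
    rw [htop q h1 h2] at h3
    exact one_ne_zero (neg_eq_zero.1 h3)
  have hTk : TopUnit fun q => algebraMap V k (v q) := fun q h1 h2 => (hTv q h1 h2).map _
  have hTb : TopUnit fun q => r (v q) := fun q h1 h2 => (hTv q h1 h2).map _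
  obtain ⟨W, hW⟩ := hwt N n hN hn hc V v hTv
  obtain ⟨Wk, hWk⟩ := hwt N n hN hn hc k _ hTk
  obtain ⟨Wb, hWb⟩ := hwt N n hN hn hc κ _ hTb
  let T : Tri (Sg N n) V k κ (BB v) (BB fun q => algebraMap V k (v q)) (BB fun q => r (v q)) :=
    { W := W
      Wk := Wk
      Wb := Wb
      r := r
      ι := bc (algebraMap V k) v
      ρ := bc r v
      hι := fun a => by rw [hWk, hW, (hbc N n V k (algebraMap V k) v).2]
      hρ := fun a => by rw [hWb, hW, (hbc N n V κ r v).2]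
      rsurj := IsLocalRing.residue_surjective
      rker := hrk }
  obtain ⟨hO, hinj, hsurj, hs1, hs2, -, -, -, hprim, -⟩ := htri _ V k κ _ _ _ T
  obtain ⟨hnoe, hpir, hmax⟩ := heis N n hN hn hc V ϖ hϖ v hv
  have hmap : ∀ I : Ideal (BB fun q => algebraMap V k (v q)), (I.comap T.ι).map T.ι = I := by
    intro I
    refine le_antisymm Ideal.map_comap_le ?_
    intro a ha
    by_cases ha0 : a = 0
    · rw [ha0]
      exact zero_mem _
    obtain ⟨c, α, hc0, hα, -⟩ := hprim a ha0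
    have h1 : T.ι α = algebraMap k _ c⁻¹ * a := by
      rw [hα, ← mul_assoc, ← map_mul, inv_mul_cancel₀ hc0, map_one, one_mul]
    have h2 : α ∈ I.comap T.ι := by
      rw [Ideal.mem_comap, h1]
      exact I.mul_mem_left _ ha
    rw [hα]
    exact Ideal.mul_mem_left _ _ (Ideal.mem_map_of_mem _ h2)
  have hιt : T.ι (AdjoinRoot.mk (ff v) (C X)) =
      AdjoinRoot.mk (ff fun q => algebraMap V k (v q)) (C X) := by
    show bc (algebraMap V k) v _ = _
    rw [(hbc N n V k (algebraMap V k) v).1]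
    congr 1
    simp
  have hρt : T.ρ (AdjoinRoot.mk (ff v) (C X)) = AdjoinRoot.mk (ff fun q => r (v q)) (C X) := by
    show bc r v _ = _
    rw [(hbc N n V κ r v).1]
    congr 1
    simp
  obtain ⟨𝔠, hc0, hcp, himp, w, hw⟩ := hstA (BB v) (BB fun q => algebraMap V k (v q)) T.ι hinj hmap
    (AdjoinRoot.mk (ff v) (C X)) hpir (by rw [hιt]; exact hmax k) p hp 𝔡 h0 h𝔡
  apply himp
  obtain ⟨hmul, hX⟩ := hcm N n hN hn hc κ (fun q => r (v q)) htop hoth
  have hmulT : ∀ a b, T.Wb.cf (a * b) = T.Wb.cf a * T.Wb.cf b := by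
    intro a b
    show Wb.cf _ = Wb.cf _ * Wb.cf _
    rw [hWb, hWb, hWb, hmul]
  have hF := (hgap N n hN hn hc).1
  refine hLL (Sg N n) (N * n) hF V k κ _ _ _ T p hp hpV 𝔠 hc0 hcp ?_
  refine hstB (Sg N n) (N * n) hF V k κ _ _ _ T p hp hpV hmulT 𝔠 hc0 hcp _ hw ?_
  rw [map_add, map_one, map_mul, hρt, map_add, T.Wb.one, hmulT]
  have h5 : T.Wb.cf (AdjoinRoot.mk (ff fun q => r (v q)) (C X)) = X ^ N := by
    show Wb.cf _ = _
    rw [hWb, hX]
  rw [h5, coeff_add, coeff_one_zero, coeff_X_pow_mul', if_neg (by omega), add_zero]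

end Pool.Agent.NH7.AC
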