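import Pool.Agent.NH7.AC.Stms

/-!
AC-C1 (helper51): minimal ideals.
-/

set_option autoImplicit false

namespace Pool.Agent.NH7.AC

open Polynomial Module

namespace MinP

section

variable {B : Type} [CommRing B] [IsDedekindDomain B]

theorem prin {x y : B} {J : Ideal B} (hx : x ≠ 0) (h : Ideal.span {x} * J = Ideal.span {y}) :
    ∃ u, J = Ideal.span {u} ∧ y = x * u := by
  have h0 : Ideal.span {x} * J ≤ Ideal.span {x} := Ideal.mul_le_left
  have h1 : y ∈ Ideal.span {x} := by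
    refine h0 ?_
    rw [h]
    exact Ideal.mem_span_singleton_self y
  obtain ⟨u, hu⟩ := Ideal.mem_span_singleton'.mp h1
  refine ⟨u, ?_, by rw [← hu, mul_comm]⟩
  have h2 : Ideal.span {x} ≠ ⊥ := by simpa using hx
  refine mul_left_cancel₀ h2 ?_
  rw [h, Ideal.span_singleton_mul_span_singleton, ← hu, mul_comm]

end

section

variable {S : AddSubmonoid ℕ} {K B : Type} [Field K] [CommRing B] [IsDedekindDomain B]
  [Algebra K B]

theorem pw (hm : ∀ I J : Ideal B, I ≠ ⊥ → J ≠ ⊥ →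
    finrank K (B ⧸ (I * J)) = finrank K (B ⧸ I) + finrank K (B ⧸ J)) (I : Ideal B) (hI : I ≠ ⊥)
    (m : ℕ) : finrank K (B ⧸ I ^ m) = m * finrank K (B ⧸ I) := by
  induction m with
  | zero =>
    rw [pow_zero, Ideal.one_eq_top, zero_mul]
    have : Subsingleton (B ⧸ (⊤ : Ideal B)) := Ideal.Quotient.subsingleton_iff.mpr rfl
    exact Module.finrank_zero_of_subsingleton
  | succ m ih =>
    rw [pow_succ, hm _ _ (pow_ne_zero m hI) hI, ih, add_mul, one_mul]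

theorem cf_ne (W : Wt S K B) {a : B} (ha : a ≠ 0) : W.cf a ≠ 0 := fun h =>
  ha (W.inj (by rw [h, map_zero]))

theorem low (W : Wt S K B) (F : ℕ)
    (h1 : ∀ y, Module.Finite K (W.Fl y) ∧ finrank K (W.Fl y) = ct S y)
    (h3 : ∀ y, y + 1 ≤ ct S y + F) (J : Ideal B) (hf : Module.Finite K (B ⧸ J)) :
    ∃ a ∈ J, a ≠ 0 ∧ (W.cf a).natDegree ≤ finrank K (B ⧸ J) + F := by
  set y := finrank K (B ⧸ J) + F with hy
  let f : W.Fl y →ₗ[K] B ⧸ J := (Ideal.Quotient.mkₐ K J).toLinearMap ∘ₗ (W.Fl y).subtype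
  have h4 : finrank K (B ⧸ J) < finrank K (W.Fl y) := by
    rw [(h1 y).2]
    have := h3 y
    omega
  have := (h1 y).1
  have h5 : LinearMap.ker f ≠ ⊥ := LinearMap.ker_ne_bot_of_finrank_lt h4
  obtain ⟨x, hx, hx0⟩ := Submodule.exists_mem_ne_zero_of_ne_bot h5
  refine ⟨x, ?_, ?_, ?_⟩
  · have : Ideal.Quotient.mk J (x : B) = 0 := hx
    exact Ideal.Quotient.eq_zero_iff_mem.mp this
  · simpa using hx0
  · have h6 : (x : B) ∈ W.Fl y := x.2
    have h7 : (W.cf x).degree ≤ (y : WithBot ℕ) := Polynomial.mem_degreeLE.mp h6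
    exact Polynomial.natDegree_le_of_degree_le h7

end

end MinP

open MinP in
theorem s_min (_hdom : S_dom) (hdim : S_dim) (hmul : S_mul) : S_min := by
  intro S F hF K B _ _ _ _ W p hp I hIp hI
  obtain ⟨d1, -, d3, d4, d5⟩ := hdim S F hF K B W
  have hm := hmul K B fun I hI => (d5 I hI).1
  have I0 : I ≠ ⊥ := fun h => hI (h ▸ inferInstance)
  obtain ⟨c, hc⟩ := hIp.principal
  change I ^ p = Ideal.span {c} at hc
  have c0 : c ≠ 0 := by
    rintro rfl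
    have : I ^ p = ⊥ := by rw [hc]; simp
    exact pow_ne_zero p I0 this
  have hp1 : p - 1 + 1 = p := Nat.sub_add_cancel hp.one_le
  let P : ℕ → Prop := fun r => ∃ J : Ideal B, J ≠ ⊥ ∧ (∃ a b : B, a ≠ 0 ∧ b ≠ 0 ∧
    Ideal.span {a} * J = Ideal.span {b} * I) ∧ finrank K (B ⧸ J) = r
  have hP : ∃ r, P r := ⟨_, I, I0, ⟨1, 1, one_ne_zero, one_ne_zero, rfl⟩, rfl⟩
  classical
  set r := Nat.find hP with hr
  obtain ⟨𝔡, 𝔡0, ⟨a, b, a0, b0, hab⟩, hrk⟩ := Nat.find_spec hP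
  rw [← hr] at hrk
  have hle : ∀ J : Ideal B, J ≠ ⊥ → (∃ a b : B, a ≠ 0 ∧ b ≠ 0 ∧
      Ideal.span {a} * J = Ideal.span {b} * I) → r ≤ finrank K (B ⧸ J) := fun J hJ hJ' =>
    Nat.find_le ⟨J, hJ, hJ', rfl⟩
  -- not principal
  have hnp : ¬ 𝔡.IsPrincipal := by
    intro h
    obtain ⟨g, hg⟩ := h.principal
    change 𝔡 = Ideal.span {g} at hg
    rw [hg, Ideal.span_singleton_mul_span_singleton] at hab
    obtain ⟨u, hu, -⟩ := prin b0 hab.symm
    exact hI ⟨⟨u, hu⟩⟩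
  have hfin : ∀ J : Ideal B, J ≠ ⊥ → Module.Finite K (B ⧸ J) := fun J hJ => (d5 J hJ).1
  -- one le
  have hr1 : 1 ≤ r := by
    rw [Nat.one_le_iff_ne_zero]
    intro h0
    have := hfin 𝔡 𝔡0
    rw [h0] at hrk
    have hs : Subsingleton (B ⧸ 𝔡) := Module.finrank_zero_iff.mp hrk
    have : 𝔡 = ⊤ := Ideal.Quotient.subsingleton_iff.mp hs
    exact hnp (this ▸ ⟨⟨1, by simp⟩⟩)
  -- le F
  have hrF : r ≤ F := by
    have q0 : I ^ (p - 1) ≠ ⊥ := pow_ne_zero _ I0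
    obtain ⟨x, hx, x0, hxd⟩ := low W F d1 d3 (I ^ (p - 1)) (hfin _ q0)
    have hdv : I ^ (p - 1) ∣ Ideal.span {x} := by
      rw [Ideal.dvd_span_singleton]
      exact hx
    obtain ⟨I', hI'⟩ := hdv
    have sx0 : Ideal.span {x} ≠ ⊥ := by simpa using x0
    have I'0 : I' ≠ ⊥ := by
      rintro rfl
      rw [Ideal.mul_bot] at hI'
      exact sx0 hI'
    have e1 : Ideal.span {c} * I' = Ideal.span {x} * I := by
      rw [hI', ← hc]
      have : I ^ p = I ^ (p - 1) * I := by rw [← pow_succ, hp1]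
      rw [this]
      ring
    have e2 := hle I' I'0 ⟨c, x, c0, x0, e1⟩
    have e3 := hm (I ^ (p - 1)) I' q0 I'0
    rw [← hI', (d4 x x0).2] at e3
    omega
  -- power
  have hpow : ∃ u, 𝔡 ^ p = Ideal.span {u} := by
    have e1 : Ideal.span {a ^ p} * 𝔡 ^ p = Ideal.span {b ^ p * c} := by
      rw [← Ideal.span_singleton_pow, ← mul_pow, hab, mul_pow, hc, Ideal.span_singleton_pow,
        Ideal.span_singleton_mul_span_singleton]
    obtain ⟨u, hu, -⟩ := prin (pow_ne_zero p a0) e1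
    exact ⟨u, hu⟩
  obtain ⟨α0, hα0⟩ := hpow
  have α00 : α0 ≠ 0 := by
    rintro rfl
    have : 𝔡 ^ p = ⊥ := by rw [hα0]; simp
    exact pow_ne_zero p 𝔡0 this
  have hcf := cf_ne W α00
  have hl : (W.cf α0).leadingCoeff ≠ 0 := leadingCoeff_ne_zero.mpr hcf
  set l := (W.cf α0).leadingCoeff⁻¹ with hld
  have hl0 : l ≠ 0 := inv_ne_zero hl
  have hα : 𝔡 ^ p = Ideal.span {l • α0} := by
    rw [hα0, Algebra.smul_def, Ideal.span_singleton_mul_left_unit]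
    exact (IsUnit.mk0 l hl0).map (algebraMap K B)
  have lα0 : l • α0 ≠ 0 := smul_ne_zero hl0 α00
  have hmon : (W.cf (l • α0)).Monic := by
    rw [map_smul, Polynomial.smul_eq_C_mul]
    exact Polynomial.monic_C_mul_of_mul_leadingCoeff_eq_one (inv_mul_cancel₀ hl)
  have hdg : ∀ m, finrank K (B ⧸ 𝔡 ^ m) = m * r := fun m => by rw [pw hm 𝔡 𝔡0 m, hrk]
  refine ⟨r, 𝔡, l • α0, hr1, hrF, ⟨hα, hmon, ?_, hrk, hfin _ (pow_ne_zero _ 𝔡0), hdg _, ?_⟩, hnp⟩
  · rw [← (d4 _ lα0).2, ← hα, hdg]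
  · intro β hβ β0
    obtain ⟨𝔢, h𝔢⟩ : 𝔡 ^ (p - 1) ∣ Ideal.span {β} := by
      rw [Ideal.dvd_span_singleton]
      exact hβ
    have sβ0 : Ideal.span {β} ≠ ⊥ := by simpa using β0
    have 𝔢0 : 𝔢 ≠ ⊥ := by
      rintro rfl
      rw [Ideal.mul_bot] at h𝔢
      exact sβ0 h𝔢
    have e1 : Ideal.span {β} * 𝔡 = Ideal.span {l • α0} * 𝔢 := by
      rw [h𝔢, ← hα]
      have : 𝔡 ^ p = 𝔡 ^ (p - 1) * 𝔡 := by rw [← pow_succ, hp1]
      rw [this]
      ring
    have e2 : Ideal.span {a * (l • α0)} * 𝔢 = Ideal.span {β * b} * I := by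
      rw [← Ideal.span_singleton_mul_span_singleton, mul_assoc, ← e1,
        ← Ideal.span_singleton_mul_span_singleton, mul_assoc, ← hab]
      ring
    have e3 := hle 𝔢 𝔢0 ⟨_, _, mul_ne_zero a0 lα0, mul_ne_zero β0 b0, e2⟩
    have e4 := hm (𝔡 ^ (p - 1)) 𝔢 (pow_ne_zero _ 𝔡0) 𝔢0
    rw [← h𝔢, (d4 β β0).2, hdg] at e4
    have e5 : p * r = (p - 1) * r + r := by
      nth_rw 1 [← hp1]
      rw [add_mul, one_mul]
    omega

end Pool.Agent.NH7.AC
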