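import Pool.Agent.NH7.AC.DTP

set_option autoImplicit false

namespace Pool.Agent.NH7.AC

open Polynomial Module DTP

theorem s_mp (hdom : S_dom) (hdim : S_dim) : S_mp := by
  intro S F hF K B _ _ _ W p r hp hr 𝔡 α hM hpr
  haveI := (hdom S K B W).1
  obtain ⟨g, hg⟩ := hpr
  have hg' : 𝔡 = Ideal.span {g} := hg
  have hα : α ≠ 0 := by
    rintro rfl
    have h1 := hM.monic
    rw [map_zero] at h1
    exact h1.ne_zero rfl
  have hg0 : g ≠ 0 := by
    rintro rfl
    have h1 := hM.pow
    rw [hg', Ideal.span_singleton_pow, zero_pow hp.ne_zero] at h1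
    have h2 : α ∈ Ideal.span {(0 : B)} := by
      rw [h1]
      exact Ideal.mem_span_singleton_self α
    rw [Ideal.mem_span_singleton, zero_dvd_iff] at h2
    exact hα h2
  obtain ⟨-, -, -, hspan, -⟩ := hdim S F hF K B W
  have h1 : (W.cf g).natDegree = r := by
    rw [← (hspan g hg0).2, ← hg', hM.rk]
  have h2 : g ^ (p - 1) ∈ 𝔡 ^ (p - 1) := by
    refine Ideal.pow_mem_pow ?_ _
    rw [hg']
    exact Ideal.mem_span_singleton_self g
  have h3 := hM.min _ h2 (pow_ne_zero _ hg0)
  rw [deg_pow hdom W hg0, h1] at h3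
  have h4 := hp.one_lt
  have h5 : (p - 1) * r < p * r := Nat.mul_lt_mul_of_pos_right (by omega) (by omega)
  omega

end Pool.Agent.NH7.AC
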