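import Pool.Agent.NH7.AC.Stms

/-!
# Project AC: codimension of a product of ideals
-/

set_option autoImplicit false

namespace Pool.Agent.NH7.AC

open Module

theorem s_mul : S_mul := by
  intro K B _ _ _ _ hfin I J hI hJ
  have hIJ : I * J ≠ ⊥ := mul_ne_zero hI hJ
  obtain ⟨a, ha⟩ := IsDedekindDomain.exists_sup_span_eq (I := I * J) (J := I)
    Ideal.mul_le_left hIJ
  have haI : a ∈ I := by
    rw [← ha]
    exact Ideal.mem_sup_right (Ideal.mem_span_singleton_self a)
  have := hfin (I * J) hIJ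
  set mJ : B →ₗ[K] B ⧸ J := (Ideal.Quotient.mkₐ K J).toLinearMap with hmJ
  set mIJ : B →ₗ[K] B ⧸ (I * J) := (Ideal.Quotient.mkₐ K (I * J)).toLinearMap with hmIJ
  set f : B →ₗ[K] B ⧸ (I * J) := mIJ ∘ₗ LinearMap.mulLeft K a with hf
  set g : (B ⧸ (I * J)) →ₗ[K] B ⧸ I :=
    (Ideal.Quotient.factorₐ K (Ideal.mul_le_left : I * J ≤ I)).toLinearMap with hg
  have hfap : ∀ b, f b = Ideal.Quotient.mk (I * J) (a * b) := fun b => rfl
  have hgap : ∀ b, g (Ideal.Quotient.mk (I * J) b) = Ideal.Quotient.mk I b := fun b => rfl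
  have hker : LinearMap.ker f = LinearMap.ker mJ := by
    ext b
    rw [LinearMap.mem_ker, LinearMap.mem_ker, hfap, Ideal.Quotient.eq_zero_iff_mem]
    have h1 : mJ b = Ideal.Quotient.mk J b := rfl
    rw [h1, Ideal.Quotient.eq_zero_iff_mem]
    constructor
    · intro hb
      have h2 : I * Ideal.span {b} ≤ I * J := by
        rw [Ideal.mul_le]
        intro x hx y hy
        obtain ⟨c, rfl⟩ := Ideal.mem_span_singleton'.1 hy
        rw [← ha] at hx
        obtain ⟨u, hu, w, hw, rfl⟩ := Submodule.mem_sup.1 hx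
        obtain ⟨d, rfl⟩ := Ideal.mem_span_singleton'.1 hw
        have h3 : (u + d * a) * (c * b) = (c * b) * u + (d * c) * (a * b) := by ring
        rw [h3]
        exact Ideal.add_mem _ (Ideal.mul_mem_left _ _ hu) (Ideal.mul_mem_left _ _ hb)
      have h4 : J ∣ Ideal.span {b} := by
        rw [← mul_dvd_mul_iff_left (a := I) hI]
        exact Ideal.dvd_iff_le.2 h2
      exact (Ideal.dvd_iff_le.1 h4) (Ideal.mem_span_singleton_self b)
    · intro hb
      exact Ideal.mul_mem_mul haI hb
  have hrange : LinearMap.ker g = LinearMap.range f := by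
    ext x
    obtain ⟨b, rfl⟩ := Ideal.Quotient.mk_surjective x
    rw [LinearMap.mem_ker, hgap, Ideal.Quotient.eq_zero_iff_mem, LinearMap.mem_range]
    constructor
    · intro hb
      rw [← ha] at hb
      obtain ⟨u, hu, w, hw, rfl⟩ := Submodule.mem_sup.1 hb
      obtain ⟨d, rfl⟩ := Ideal.mem_span_singleton'.1 hw
      refine ⟨d, ?_⟩
      rw [hfap, Ideal.Quotient.eq]
      have h3 : a * d - (u + d * a) = -u := by ring
      rw [h3]
      exact neg_mem hu
    · rintro ⟨d, hd⟩
      rw [hfap, Ideal.Quotient.eq] at hd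
      have h4 : a * d - b ∈ I := Ideal.mul_le_left hd
      have h5 : b = a * d - (a * d - b) := by ring
      rw [h5]
      exact sub_mem (Ideal.mul_mem_right _ _ haI) h4
  have hsg : Function.Surjective g := by
    intro x
    obtain ⟨b, rfl⟩ := Ideal.Quotient.mk_surjective x
    exact ⟨Ideal.Quotient.mk (I * J) b, hgap b⟩
  have hsJ : Function.Surjective mJ := Ideal.Quotient.mk_surjective
  have e1 := (LinearMap.quotKerEquivOfSurjective mJ hsJ).finrank_eq
  have e2 := f.quotKerEquivRange.finrank_eq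
  rw [hker] at e2
  have e3 := g.finrank_range_add_finrank_ker
  rw [LinearMap.range_eq_top.2 hsg, finrank_top, hrange] at e3
  rw [← e3, ← e2, e1]

end Pool.Agent.NH7.AC
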