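import Pool.Agent.NH7.AC.Stms

/-!
# Project AC: `S_nat` (D1)
-/

set_option autoImplicit false

namespace Pool.Agent.NH7.AC

open Polynomial Module

namespace NatP

section comb

variable {ι τ : Type}

theorem natl_congr {Q Q' : ∀ (R : Type) [CommRing R], (ι → R) → (τ → R) → Prop}
    (h : Natl ι τ Q) (hQ : ∀ (R : Type) [CommRing R] (v : ι → R) (y : τ → R),
      Q' R v y ↔ Q R v y) : Natl ι τ Q' := by
  obtain ⟨T, z, h1, h2⟩ := h
  exact ⟨T, z, h1, fun R _ v y => (hQ R v y).trans (h2 R v y)⟩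

theorem natl_and {Q Q' : ∀ (R : Type) [CommRing R], (ι → R) → (τ → R) → Prop}
    (h : Natl ι τ Q) (h' : Natl ι τ Q') : Natl ι τ fun R _ v y => Q R v y ∧ Q' R v y := by
  obtain ⟨T, z, h1, h2⟩ := h
  obtain ⟨T', z', h1', h2'⟩ := h'
  refine ⟨T ⊕ T', fun R _ v y => Sum.elim (z R v y) (z' R v y), ?_, ?_⟩
  · rintro R R' _ _ φ v y (t | t)
    · exact h1 R R' φ v y t
    · exact h1' R R' φ v y t
  · intro R _ v y
    refine (and_congr (h2 R v y) (h2' R v y)).trans ?_
    constructor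
    · rintro ⟨a, b⟩ (t | t)
      · exact a t
      · exact b t
    · exact fun a => ⟨fun t => a (Sum.inl t), fun t => a (Sum.inr t)⟩

theorem natl_all {I : Type} {Q : I → ∀ (R : Type) [CommRing R], (ι → R) → (τ → R) → Prop}
    (h : ∀ i, Natl ι τ (Q i)) : Natl ι τ fun R _ v y => ∀ i, Q i R v y := by
  choose T z h1 h2 using h
  refine ⟨Σ i, T i, fun R _ v y t => z t.1 R v y t.2, ?_, ?_⟩
  · rintro R R' _ _ φ v y ⟨i, t⟩
    exact h1 i R R' φ v y t
  · intro R _ v y
    constructor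
    · rintro a ⟨i, t⟩
      exact (h2 i R v y).mp (a i) t
    · exact fun a i => (h2 i R v y).mpr fun t => a ⟨i, t⟩

theorem natl_zero (z : ∀ (R : Type) [CommRing R], (ι → R) → (τ → R) → R)
    (hz : ∀ (R R' : Type) [CommRing R] [CommRing R'] (φ : R →+* R') (v : ι → R) (y : τ → R),
      φ (z R v y) = z R' (fun i => φ (v i)) (fun i => φ (y i))) :
    Natl ι τ fun R _ v y => z R v y = 0 :=
  ⟨Unit, fun R _ v y _ => z R v y, fun R R' _ _ φ v y _ => hz R R' φ v y,
    fun _ _ _ _ => ⟨fun h _ => h, fun h => h ()⟩⟩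

end comb

section nat

variable {N n D M p r : ℕ} {R R' : Type} [CommRing R] [CommRing R'] (φ : R →+* R')

theorem tt_map (y : Tau N p M D → R) :
    tt (fun i => φ (y i)) = φ.mapMatrix (tt y) := rfl

theorem uu_map (y : Tau N p M D → R) :
    uu (fun i => φ (y i)) = φ.mapMatrix (uu y) := rfl

theorem aa_map (y : Tau N p M D → R) (q : Bx N D) :
    aa (fun i => φ (y i)) q = φ (aa y q) := rfl

theorem ss_map (y : Tau N p M D → R) (I : Fin p → Fin M ⊕ Fin M) (q : Bx N D) :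
    ss (fun i => φ (y i)) I q = φ (ss y I q) := rfl

theorem mapMatrix_smul (c : R) (A : Matrix (Fin M) (Fin M) R) :
    φ.mapMatrix (c • A) = φ c • φ.mapMatrix A := by
  ext i j
  simp

theorem mulVec_map (A : Matrix (Fin M) (Fin M) R) (o m : Fin M) :
    φ (A.mulVec (Pi.single o 1) m) = (φ.mapMatrix A).mulVec (Pi.single o 1) m := by
  simp

theorem mo_map (q : Bx N D) : (mo R q).map (mapRingHom φ) = mo R' q := by
  unfold mo
  simp

theorem pol_map (c : Bx N D → R) :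
    (pol c).map (mapRingHom φ) = pol fun q => φ (c q) := by
  unfold pol
  rw [Polynomial.map_sum]
  refine Finset.sum_congr rfl fun q _ => ?_
  rw [Polynomial.map_mul, mo_map]
  simp

theorem gg_map (T U : Matrix (Fin M) (Fin M) R) (Γ : Fin M → Bx N D) (s : Fin M ⊕ Fin M) :
    (gg T U Γ s).map (mapRingHom φ) = gg (φ.mapMatrix T) (φ.mapMatrix U) Γ s := by
  rcases s with m | m
  · simp only [gg]
    rw [Polynomial.map_sub, Polynomial.map_mul, mo_map, Polynomial.map_sum]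
    simp [mo_map]
  · simp only [gg]
    rw [Polynomial.map_sub, Polynomial.map_mul, mo_map, Polynomial.map_sum]
    simp [mo_map]

end nat

end NatP

open NatP in
theorem s_nat : S_nat := by
  intro N n p r D M Γ o
  let Q1 : ∀ (R : Type) [CommRing R], (Ix N n → R) → (Tau N p M D → R) → Prop := fun R _ _ y =>
    ∀ s : Fin M × Fin M, (tt y * uu y - uu y * tt y) s.1 s.2 = 0
  let Q2 : ∀ (R : Type) [CommRing R], (Ix N n → R) → (Tau N p M D → R) → Prop := fun R _ v y =>
    ∀ s : Fin M × Fin M, (uu y ^ N + ∑ q : Ix N n, v q •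
      (uu y ^ (q.1.1 : ℕ) * tt y ^ (q.1.2 : ℕ))) s.1 s.2 = 0
  let Q3 : ∀ (R : Type) [CommRing R], (Ix N n → R) → (Tau N p M D → R) → Prop := fun R _ _ y =>
    ∀ s : Fin M × Fin M, ((uu y ^ ((Γ s.1).1 : ℕ) * tt y ^ ((Γ s.1).2 : ℕ)).mulVec
      (Pi.single o 1)) s.2 - (if s.2 = s.1 then 1 else 0) = 0
  let Q4 : ∀ (R : Type) [CommRing R], (Ix N n → R) → (Tau N p M D → R) → Prop := fun R _ _ y =>
    ∀ s : {q : Bx N D // p * r < wt N n q}, aa y s.1 = 0
  let Q5 : ∀ (R : Type) [CommRing R], (Ix N n → R) → (Tau N p M D → R) → Prop := fun R _ _ y =>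
    ∀ s : {q : Bx N D // wt N n q = p * r}, aa y s.1 - 1 = 0
  let Q6 : ∀ (R : Type) [CommRing R], (Ix N n → R) → (Tau N p M D → R) → Prop := fun R _ _ y =>
    ∀ m : Fin M, ((∑ q : Bx N D, aa y q • (uu y ^ (q.1 : ℕ) * tt y ^ (q.2 : ℕ))).mulVec
      (Pi.single o 1)) m = 0
  let Q7 : ∀ (R : Type) [CommRing R], (Ix N n → R) → (Tau N p M D → R) → Prop := fun R _ v y =>
    ∀ s : (Fin p → Fin M ⊕ Fin M) × ℕ × ℕ,
      (((∏ k, gg (tt y) (uu y) Γ (s.1 k) - pol (aa y) ^ (p - 1) * pol (ss y s.1)) %ₘ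
        ff v).coeff s.2.1).coeff s.2.2 = 0
  have h1 : Natl (Ix N n) (Tau N p M D) Q1 := natl_all fun s => natl_zero
    (fun R _ _ y => (tt y * uu y - uu y * tt y) s.1 s.2) fun R R' _ _ φ v y => by
      change φ.mapMatrix (tt y * uu y - uu y * tt y) s.1 s.2 = _
      rw [map_sub, map_mul, map_mul, tt_map, uu_map]
  have h2 : Natl (Ix N n) (Tau N p M D) Q2 := natl_all fun s => natl_zero
    (fun R _ v y => (uu y ^ N + ∑ q : Ix N n, v q •
      (uu y ^ (q.1.1 : ℕ) * tt y ^ (q.1.2 : ℕ))) s.1 s.2) fun R R' _ _ φ v y => by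
      change φ.mapMatrix (uu y ^ N + ∑ q : Ix N n, v q •
        (uu y ^ (q.1.1 : ℕ) * tt y ^ (q.1.2 : ℕ))) s.1 s.2 = _
      rw [map_add, map_pow, map_sum, tt_map, uu_map]
      simp only [mapMatrix_smul, map_mul, map_pow]
  have h3 : Natl (Ix N n) (Tau N p M D) Q3 := natl_all fun s => natl_zero
    (fun R _ _ y => ((uu y ^ ((Γ s.1).1 : ℕ) * tt y ^ ((Γ s.1).2 : ℕ)).mulVec
      (Pi.single o 1)) s.2 - (if s.2 = s.1 then 1 else 0)) fun R R' _ _ φ v y => by
      rw [map_sub, mulVec_map, map_mul, map_pow, map_pow, tt_map, uu_map]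
      congr 1
      split_ifs <;> simp
  have h4 : Natl (Ix N n) (Tau N p M D) Q4 := natl_all fun s => natl_zero
    (fun R _ _ y => aa y s.1) fun R R' _ _ φ v y => (aa_map φ y s.1).symm
  have h5 : Natl (Ix N n) (Tau N p M D) Q5 := natl_all fun s => natl_zero
    (fun R _ _ y => aa y s.1 - 1) fun R R' _ _ φ v y => by
      rw [map_sub, map_one, aa_map]
  have h6 : Natl (Ix N n) (Tau N p M D) Q6 := natl_all fun m => natl_zero
    (fun R _ _ y => ((∑ q : Bx N D, aa y q • (uu y ^ (q.1 : ℕ) * tt y ^ (q.2 : ℕ))).mulVec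
      (Pi.single o 1)) m) fun R R' _ _ φ v y => by
      rw [mulVec_map, map_sum, tt_map, uu_map]
      simp only [mapMatrix_smul, map_mul, map_pow, aa_map]
  have h7 : Natl (Ix N n) (Tau N p M D) Q7 := natl_all fun s => natl_zero
    (fun R _ v y => (((∏ k, gg (tt y) (uu y) Γ (s.1 k) - pol (aa y) ^ (p - 1) *
      pol (ss y s.1)) %ₘ ff v).coeff s.2.1).coeff s.2.2) fun R R' _ _ φ v y => by
      rw [← coeff_map φ, ← coe_mapRingHom φ, ← coeff_map (mapRingHom φ),
        Polynomial.map_modByMonic _ (ff_monic v), ff_map, Polynomial.map_sub,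
        Polynomial.map_mul, Polynomial.map_pow, Polynomial.map_prod, pol_map, pol_map, tt_map,
        uu_map]
      simp only [gg_map]
      rfl
  refine natl_congr (natl_and h1 (natl_and h2 (natl_and h3 (natl_and h4 (natl_and h5
    (natl_and h6 h7)))))) fun R _ v y => ?_
  constructor
  · intro h
    refine ⟨fun s => ?_, fun s => ?_, fun s => ?_, fun s => h.high s.1 s.2, fun s => ?_,
      fun m => ?_, fun s => ?_⟩
    · rw [h.comm, sub_self]; rfl
    · rw [h.eq]; rfl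
    · rw [h.act s.1, Pi.single_apply, sub_self]
    · rw [h.top s.1 s.2, sub_self]
    · rw [h.ann]; rfl
    · rw [(modByMonic_eq_zero_iff_dvd (ff_monic v)).mpr (h.dvd s.1)]
      simp
  · rintro ⟨k1, k2, k3, k4, k5, k6, k7⟩
    refine ⟨?_, ?_, fun m => ?_, fun q hq => k4 ⟨q, hq⟩, fun q hq => ?_, ?_, fun I => ?_⟩
    · exact sub_eq_zero.mp (Matrix.ext fun i j => k1 (i, j))
    · exact Matrix.ext fun i j => k2 (i, j)
    · ext m'
      rw [Pi.single_apply]
      exact sub_eq_zero.mp (k3 (m, m'))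
    · exact sub_eq_zero.mp (k5 ⟨q, hq⟩)
    · ext m
      exact k6 m
    · rw [← modByMonic_eq_zero_iff_dvd (ff_monic v)]
      ext i j
      exact k7 (I, i, j)

end Pool.Agent.NH7.AC
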