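import Pool.Agent.NH7.AC.Stms

/-!
# Project AC, job D6: the ideal of a solution is a minimal ideal (helper90)
-/

set_option autoImplicit false

namespace Pool.Agent.NH7.AC.OutP

open Polynomial Module

variable {N n D : ℕ} {K : Type} [Field K]

theorem wt_inj (hgap : S_gap) (hN : 0 < N) (hn : 0 < n) (hc : N.Coprime n) {q q' : Bx N D}
    (h : wt N n q = wt N n q') : q = q' := by
  obtain ⟨h1, h2⟩ := (hgap N n hN hn hc).2 _ _ _ _ q.1.2 q'.1.2 h
  exact Prod.ext (Fin.ext h1) (Fin.ext h2)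

theorem coeff_sum (hgap : S_gap) (hN : 0 < N) (hn : 0 < n) (hc : N.Coprime n) (c : Bx N D → K)
    (q : Bx N D) : (∑ q', C (c q') * X ^ wt N n q' : K[X]).coeff (wt N n q) = c q := by
  rw [finsetSum_coeff, Finset.sum_eq_single q]
  · rw [coeff_C_mul, coeff_X_pow, if_pos rfl, mul_one]
  · intro q' _ hq
    rw [coeff_C_mul, coeff_X_pow, if_neg, mul_zero]
    exact fun h => hq (wt_inj hgap hN hn hc h.symm)
  · intro h
    exact absurd (Finset.mem_univ q) h

end Pool.Agent.NH7.AC.OutP

namespace Pool.Agent.NH7.AC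

open Polynomial Module

theorem s_out (hgap : S_gap) (hpol : S_pol) (_hdom : S_dom) (_hdim : S_dim) (hker : S_ker)
    (hrec : S_rec) : S_out := by
  intro N n p r D hN hn hc hp hr Γ o hadm K _ v hded W hW y hy
  obtain ⟨𝔞, -, hfr, hind, hgg, hα, h𝔞p⟩ := hker N n p r D _ hN Γ o hadm.one K v y hy
  obtain ⟨hpol1, -⟩ := hpol N n D hN hn hc K v
  have hcfα : W.cf (AdjoinRoot.mk (ff v) (pol (aa y))) = ∑ q, C (aa y q) * X ^ wt N n q := by
    rw [hW, hpol1]
  -- `α` is monic of degree `p r`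
  obtain ⟨q0, hq0⟩ := hadm.ex
  have hle : (W.cf (AdjoinRoot.mk (ff v) (pol (aa y)))).natDegree ≤ p * r := by
    rw [hcfα]
    refine natDegree_sum_le_of_forall_le _ _ fun q _ => ?_
    by_cases hq : p * r < wt N n q
    · rw [hy.high q hq, C_0, zero_mul, natDegree_zero]
      exact Nat.zero_le _
    · exact (natDegree_C_mul_X_pow_le _ _).trans (not_lt.1 hq)
  have hco : (W.cf (AdjoinRoot.mk (ff v) (pol (aa y)))).coeff (p * r) = 1 := by
    rw [hcfα, ← hq0, OutP.coeff_sum hgap hN hn hc, hy.top q0 hq0]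
  have hmonic : (W.cf (AdjoinRoot.mk (ff v) (pol (aa y)))).Monic :=
    monic_of_natDegree_le_of_coeff_eq_one _ hle hco
  have hdeg : (W.cf (AdjoinRoot.mk (ff v) (pol (aa y)))).natDegree = p * r :=
    natDegree_eq_of_le_of_coeff_ne_zero hle (by rw [hco]; exact one_ne_zero)
  -- the monomials `Γ` are different
  have hΓ : Function.Injective Γ := by
    intro m m' hmm
    by_contra hne
    have h1 := hind (Pi.single m 1 - Pi.single m' 1) (by
      have h2 : (∑ i, C (C ((Pi.single m 1 - Pi.single m' 1 : Fin ((p - 1) * r) → K) i)) *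
          mo K (Γ i) : K[X][X]) = 0 := by
        have h3 : ∀ m0 : Fin ((p - 1) * r), (∑ i, C (C ((Pi.single m0 1 :
            Fin ((p - 1) * r) → K) i)) * mo K (Γ i) : K[X][X]) = mo K (Γ m0) := by
          intro m0
          rw [Finset.sum_eq_single m0]
          · rw [Pi.single_eq_same, C_1, C_1, one_mul]
          · intro b _ hb
            rw [Pi.single_eq_of_ne hb, C_0, C_0, zero_mul]
          · intro h
            exact absurd (Finset.mem_univ m0) h
        have h4 : (∑ i, C (C ((Pi.single m 1 - Pi.single m' 1 : Fin ((p - 1) * r) → K) i)) *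
            mo K (Γ i) : K[X][X]) = mo K (Γ m) - mo K (Γ m') := by
          rw [← h3 m, ← h3 m', ← Finset.sum_sub_distrib]
          refine Finset.sum_congr rfl fun i _ => ?_
          rw [Pi.sub_apply, C_sub, C_sub, sub_mul]
        rw [h4, hmm, sub_self]
      rw [h2, map_zero]
      exact 𝔞.zero_mem)
    have h5 := congrFun h1 m
    rw [Pi.sub_apply, Pi.single_eq_same, Pi.single_eq_of_ne hne, sub_zero, Pi.zero_apply] at h5
    exact one_ne_zero h5
  -- no elements of small degree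
  have hmin : ∀ β ∈ 𝔞, β ≠ 0 → p * r ≤ (W.cf β).natDegree := by
    intro β hβ hβ0
    by_contra hlt
    rw [not_le] at hlt
    obtain ⟨c, hc'⟩ := (hpol N n D hN hn hc K v).2 β (by
      rw [← hW]
      exact hlt.le.trans hadm.le)
    have hcf : W.cf β = ∑ q, C (c q) * X ^ wt N n q := by rw [hc', hW, hpol1]
    have hc0 : ∀ q, p * r ≤ wt N n q → c q = 0 := by
      intro q hq
      rw [← OutP.coeff_sum hgap hN hn hc c q, ← hcf]
      exact coeff_eq_zero_of_natDegree_lt (hlt.trans_le hq)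
    have hpolc : (pol c : K[X][X]) = ∑ m, C (C (c (Γ m))) * mo K (Γ m) := by
      unfold pol
      symm
      refine Fintype.sum_of_injective Γ hΓ _ _ (fun q hq => ?_) (fun m => rfl)
      by_cases h1 : wt N n q < p * r
      · exact absurd (hadm.low q h1) hq
      · rw [hc0 q (not_lt.1 h1), C_0, C_0, zero_mul]
    have h1 := hind (fun m => c (Γ m)) (by rw [← hpolc, ← hc']; exact hβ)
    apply hβ0
    rw [hc', hpolc]
    have h2 : (∑ m, C (C (c (Γ m))) * mo K (Γ m) : K[X][X]) = 0 := by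
      refine Finset.sum_eq_zero fun m _ => ?_
      have h3 : c (Γ m) = 0 := congrFun h1 m
      rw [h3, C_0, C_0, zero_mul]
    rw [h2, map_zero]
  obtain ⟨𝔡, hM, h𝔡⟩ := hrec (Sg N n) (N * n) (hgap N n hN hn hc).1 K (BB v) W p r hp 𝔞 _ hfr hα
    h𝔞p hmonic hdeg hmin
  refine ⟨𝔡, hM, ?_, ?_⟩
  · intro c hc'
    rw [← h𝔡] at hc'
    exact hind c hc'
  · intro g
    rw [← h𝔡]
    exact hgg g

end Pool.Agent.NH7.AC
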