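import Pool.Agent.NH7.AC.Stms

/-!
# AC-A3 (helper15): polynomials with given coefficients
-/

set_option autoImplicit false

namespace Pool.Agent.NH7.AC

open Polynomial Module

namespace PolP

variable {N n : ℕ} {R : Type} [CommRing R]

theorem cu_term {D : ℕ} (c : R) (q : Bx N D) :
    cu N n R (C (C c) * mo R q) = C c * X ^ wt N n q := by
  unfold cu mo wt
  rw [coe_eval₂RingHom, eval₂_mul, eval₂_mul, eval₂_C, eval₂_C, eval₂_pow, eval₂_X]
  have h1 : (expand R N).toRingHom (C c) = C c := expand_C N c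
  have h2 : (expand R N).toRingHom (X ^ (q.2 : ℕ)) = X ^ (N * (q.2 : ℕ)) := by
    rw [map_pow]
    have : (expand R N).toRingHom X = X ^ N := expand_X N
    rw [this, ← pow_mul]
  rw [h1, h2, ← pow_mul, pow_add]
  ring

theorem coeff_pol {D : ℕ} (c : Bx N D → R) (i j : ℕ) :
    ((pol c).coeff i).coeff j = ∑ q : Bx N D, if (i = q.1 ∧ j = q.2) then c q else 0 := by
  unfold pol
  rw [finsetSum_coeff, finsetSum_coeff]
  refine Finset.sum_congr rfl fun q _ => ?_
  unfold mo
  rw [← mul_assoc, ← C_mul, coeff_C_mul_X_pow]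
  by_cases h : i = q.1
  · rw [if_pos h, coeff_C_mul_X_pow]
    by_cases h' : j = q.2
    · rw [if_pos h', if_pos ⟨h, h'⟩]
    · rw [if_neg h', if_neg fun h3 => h' h3.2]
  · rw [if_neg h, coeff_zero, if_neg fun h3 => h h3.1]

theorem coeff_pol_at {D : ℕ} (c : Bx N D → R) (q : Bx N D) :
    ((pol c).coeff q.1).coeff q.2 = c q := by
  rw [coeff_pol, Finset.sum_eq_single q]
  · rw [if_pos ⟨rfl, rfl⟩]
  · intro b _ hb
    rw [if_neg]
    rintro ⟨h1, h2⟩
    exact hb (Prod.ext (Fin.ext h1.symm) (Fin.ext h2.symm))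
  · intro h
    exact absurd (Finset.mem_univ q) h

theorem coeff_pol_out {D : ℕ} (c : Bx N D → R) (i j : ℕ) (h : N ≤ i ∨ D < j) :
    ((pol c).coeff i).coeff j = 0 := by
  rw [coeff_pol]
  refine Finset.sum_eq_zero fun q _ => ?_
  rw [if_neg]
  rintro ⟨h1, h2⟩
  have h3 := q.1.2
  have h4 := q.2.2
  omega

theorem eq_pol {D : ℕ} (P : R[X][X]) (h1 : ∀ i, N ≤ i → P.coeff i = 0)
    (h2 : ∀ i j, D < j → (P.coeff i).coeff j = 0) :
    P = pol fun q : Bx N D => (P.coeff q.1).coeff q.2 := by
  ext i j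
  by_cases h : i < N ∧ j < D + 1
  · have := coeff_pol_at (fun q : Bx N D => (P.coeff q.1).coeff q.2) (⟨i, h.1⟩, ⟨j, h.2⟩)
    exact this.symm
  · rw [coeff_pol_out _ i j (by omega)]
    by_cases h3 : N ≤ i
    · rw [h1 i h3, coeff_zero]
    · exact h2 i j (by omega)

theorem degree_pol {D : ℕ} (c : Bx N D → R) : (pol c).degree < N := by
  rw [degree_lt_iff_coeff_zero]
  intro m hm
  ext j
  rw [coeff_pol_out c m j (Or.inl hm), coeff_zero]

theorem cfp_pol {D : ℕ} (v : Ix N n → R) (c : Bx N D → R) :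
    cfp v (AdjoinRoot.mk (ff v) (pol c)) = ∑ q, C (c q) * X ^ wt N n q := by
  nontriviality R
  unfold cfp rp
  rw [AdjoinRoot.modByMonicHom_mk, (modByMonic_eq_self_iff (ff_monic v)).2]
  · unfold pol
    rw [map_sum]
    exact Finset.sum_congr rfl fun q _ => cu_term (c q) q
  · rw [degree_eq_natDegree (ff_monic v).ne_zero, ff_natDegree]
    exact degree_pol c

end PolP

theorem s_pol (hgap : S_gap) : S_pol := by
  intro N n D hN hn hc R _ v
  refine ⟨fun c => PolP.cfp_pol v c, fun a ha => ?_⟩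
  rcases subsingleton_or_nontrivial R with hs | hs
  · have : Subsingleton (BB v) := Module.subsingleton R (BB v)
    exact ⟨0, Subsingleton.elim _ _⟩
  set P : R[X][X] := rp v a with hP
  have hmk : AdjoinRoot.mk (ff v) P = a := AdjoinRoot.mk_leftInverse (ff_monic v) a
  have hPN : ∀ i, N ≤ i → P.coeff i = 0 := by
    have h1 : P.degree < N := by
      have h2 : P = P %ₘ ff v := by
        conv_lhs => rw [hP, ← hmk]
        unfold rp
        rw [AdjoinRoot.modByMonicHom_mk]
      rw [h2]
      have h3 := degree_modByMonic_lt P (ff_monic v)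
      rwa [degree_eq_natDegree (ff_monic v).ne_zero, ff_natDegree] at h3
    exact (degree_lt_iff_coeff_zero _ _).1 h1
  set D' : ℕ := D + ∑ i ∈ Finset.range N, (P.coeff i).natDegree with hD'
  have hPD' : ∀ i j, D' < j → (P.coeff i).coeff j = 0 := by
    intro i j hj
    by_cases h : N ≤ i
    · rw [hPN i h, coeff_zero]
    · apply coeff_eq_zero_of_natDegree_lt
      have h1 : (P.coeff i).natDegree ≤ ∑ i ∈ Finset.range N, (P.coeff i).natDegree :=
        Finset.single_le_sum (f := fun i => (P.coeff i).natDegree) (fun _ _ => Nat.zero_le _)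
          (Finset.mem_range.2 (by omega))
      omega
  have hP' := PolP.eq_pol (N := N) (D := D') P hPN hPD'
  have hcf : cfp v a = ∑ q : Bx N D', C ((P.coeff q.1).coeff q.2) * X ^ wt N n q := by
    rw [← PolP.cfp_pol v, ← hP', hmk]
  have hPD : ∀ i j, D < j → (P.coeff i).coeff j = 0 := by
    intro i j hj
    by_cases h : i < N ∧ j < D' + 1
    · set q : Bx N D' := (⟨i, h.1⟩, ⟨j, h.2⟩) with hq
      have h1 : (cfp v a).coeff (wt N n q) = (P.coeff i).coeff j := by
        rw [hcf, finsetSum_coeff, Finset.sum_eq_single q]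
        · rw [coeff_C_mul_X_pow, if_pos rfl]
        · intro b _ hb
          rw [coeff_C_mul_X_pow, if_neg]
          intro h2
          obtain ⟨h3, h4⟩ := (hgap N n hN hn hc).2 q.1 q.2 b.1 b.2 q.1.2 b.1.2 h2
          exact hb (Prod.ext (Fin.ext h3.symm) (Fin.ext h4.symm))
        · intro h2
          exact absurd (Finset.mem_univ q) h2
      rw [← h1]
      apply coeff_eq_zero_of_natDegree_lt
      have h2 : j ≤ wt N n q := by
        have h3 : j ≤ N * j := Nat.le_mul_of_pos_left _ hN
        have h4 : wt N n q = n * i + N * j := rfl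
        omega
      omega
    · by_cases h1 : N ≤ i
      · rw [hPN i h1, coeff_zero]
      · exact hPD' i j (by omega)
  refine ⟨fun q => (P.coeff q.1).coeff q.2, ?_⟩
  rw [← PolP.eq_pol (N := N) (D := D) P hPN hPD, hmk]

end Pool.Agent.NH7.AC
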