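import Pool.Agent.NH7.AC.DTP

set_option autoImplicit false

namespace Pool.Agent.NH7.AC

open Polynomial Module DTP

theorem s_rec (hdom : S_dom) (hdim : S_dim) (hmul : S_mul) : S_rec := by
  intro S F hF K B _ _ _ _ W p r hp 𝔞 α hrk hα hpow hmon hdeg hmin
  obtain ⟨-, -, -, hspan, hfin⟩ := hdim S F hF K B W
  have hfin' : ∀ I : Ideal B, I ≠ ⊥ → Module.Finite K (B ⧸ I) := fun I hI => (hfin I hI).1
  have hα0 : α ≠ 0 := by
    rintro rfl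
    rw [map_zero] at hmon
    exact hmon.ne_zero rfl
  have h𝔞0 : 𝔞 ≠ ⊥ := by
    rintro rfl
    exact hα0 (Submodule.mem_bot B |>.1 hα)
  have hsα : Ideal.span {α} ≠ ⊥ := by
    rw [Ne, Ideal.span_singleton_eq_bot]
    exact hα0
  have hαp : α ^ (p - 1) ≠ 0 := pow_ne_zero _ hα0
  have e1 : finrank K (B ⧸ 𝔞 ^ p) = p * ((p - 1) * r) := by
    rw [rk_pow hmul hfin' h𝔞0, hrk]
  have e2 : finrank K (B ⧸ Ideal.span {α ^ (p - 1)}) = (p - 1) * (p * r) := by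
    rw [(hspan _ hαp).2, deg_pow hdom W hα0, hdeg]
  haveI hf1 : Module.Finite K (B ⧸ 𝔞 ^ p) := hfin' _ (pow_ne_zero p h𝔞0)
  have heq : 𝔞 ^ p = Ideal.span {α ^ (p - 1)} := by
    let g : (B ⧸ 𝔞 ^ p) →ₗ[K] (B ⧸ Ideal.span {α ^ (p - 1)}) :=
      (Ideal.Quotient.factorₐ K hpow).toLinearMap
    haveI hf2 : Module.Finite K (B ⧸ Ideal.span {α ^ (p - 1)}) := (hspan _ hαp).1
    have hgs : Function.Surjective g := Ideal.Quotient.factor_surjective hpow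
    have hgi : Function.Injective g :=
      (LinearMap.injective_iff_surjective_of_finrank_eq_finrank (by rw [e1, e2]; ring)).2 hgs
    refine le_antisymm hpow fun x hx => ?_
    rw [← Ideal.Quotient.eq_zero_iff_mem]
    apply hgi
    rw [map_zero]
    show Ideal.Quotient.factor hpow (Ideal.Quotient.mk _ x) = 0
    rw [Ideal.Quotient.factor_mk, Ideal.Quotient.eq_zero_iff_mem]
    exact hx
  obtain ⟨𝔡, h𝔡⟩ : 𝔞 ∣ Ideal.span {α} := by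
    rw [Ideal.dvd_span_singleton]
    exact hα
  have h𝔡0 : 𝔡 ≠ ⊥ := by
    rintro rfl
    rw [Ideal.mul_bot] at h𝔡
    exact hsα h𝔡
  have hp1 : p - 1 + 1 = p := Nat.sub_add_cancel hp.one_lt.le
  have h𝔡p : 𝔡 ^ p = Ideal.span {α} := by
    have h1 : Ideal.span {α} ^ p = 𝔞 ^ p * 𝔡 ^ p := by rw [h𝔡, mul_pow]
    rw [heq, ← Ideal.span_singleton_pow] at h1
    nth_rewrite 1 [← hp1] at h1
    rw [pow_succ] at h1
    exact (mul_left_cancel₀ (pow_ne_zero _ hsα) h1).symm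
  have h𝔞 : 𝔞 = 𝔡 ^ (p - 1) := by
    have h1 : 𝔞 * 𝔡 = 𝔡 ^ (p - 1) * 𝔡 := by
      rw [← h𝔡, ← h𝔡p, ← pow_succ, hp1]
    exact mul_right_cancel₀ h𝔡0 h1
  refine ⟨𝔡, ⟨h𝔡p, hmon, hdeg, ?_, ?_, ?_, ?_⟩, h𝔞⟩
  · have h1 := rk_pow hmul hfin' h𝔡0 p
    rw [h𝔡p, (hspan _ hα0).2, hdeg] at h1
    exact (Nat.eq_of_mul_eq_mul_left hp.pos h1).symm
  · rw [← h𝔞]
    exact hfin' _ h𝔞0
  · rw [← h𝔞]
    exact hrk
  · rw [← h𝔞]
    exact hmin

end Pool.Agent.NH7.AC
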