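import Pool.Agent.NH7.AC.Stms

/-!
# Project AC: derivations preserve an ideal with a constant power
-/

set_option autoImplicit false

namespace Pool.Agent.NH7.AC

namespace RigP

lemma pow_le {B : Type} [CommRing B] (𝔡 : Ideal B) (z : B) (h : 𝔡 ^ 2 ⊔ Ideal.span {z} = 𝔡)
    (n : ℕ) : 𝔡 ^ n ≤ 𝔡 ^ (n + 1) ⊔ Ideal.span {z} ^ n := by
  have hz : Ideal.span {z} ≤ 𝔡 := le_sup_right.trans h.le
  induction n with
  | zero => simp
  | succ n ih =>
    calc 𝔡 ^ (n + 1) = 𝔡 ^ n * (𝔡 ^ 2 ⊔ Ideal.span {z}) := by rw [h, pow_succ]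
      _ ≤ (𝔡 ^ (n + 1) ⊔ Ideal.span {z} ^ n) * (𝔡 ^ 2 ⊔ Ideal.span {z}) :=
          Ideal.mul_mono_left ih
      _ = (𝔡 ^ (n + 1) * 𝔡 ^ 2 ⊔ 𝔡 ^ (n + 1) * Ideal.span {z}) ⊔
          (Ideal.span {z} ^ n * 𝔡 ^ 2 ⊔ Ideal.span {z} ^ n * Ideal.span {z}) := by
          rw [Ideal.sup_mul, Ideal.mul_sup, Ideal.mul_sup]
      _ ≤ 𝔡 ^ (n + 1 + 1) ⊔ Ideal.span {z} ^ (n + 1) := by
          refine sup_le (sup_le ?_ ?_) (sup_le ?_ ?_)
          · refine le_trans ?_ le_sup_left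
            rw [← pow_add]
            exact Ideal.pow_le_pow_right (by omega)
          · refine le_trans ?_ le_sup_left
            rw [pow_succ 𝔡 (n + 1)]
            exact Ideal.mul_mono_right hz
          · refine le_trans ?_ le_sup_left
            calc Ideal.span {z} ^ n * 𝔡 ^ 2 ≤ 𝔡 ^ n * 𝔡 ^ 2 :=
                  Ideal.mul_mono_left (Ideal.pow_right_mono hz n)
              _ = 𝔡 ^ (n + 1 + 1) := by rw [← pow_add]
          · refine le_trans ?_ le_sup_right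
            rw [pow_succ]

/-- Leibniz rule for powers of ideals. -/
lemma leib {B : Type} [CommRing B] (𝔡 : Ideal B) (Δ : Derivation ℤ B B) (m : ℕ) :
    ∀ z ∈ 𝔡 ^ (m + 1), Δ z ∈ 𝔡 ^ m := by
  induction m with
  | zero => intro z _; simp
  | succ m ih =>
    intro z hz
    rw [pow_succ] at hz
    refine Submodule.mul_induction_on hz ?_ ?_
    · intro a ha b hb
      rw [Derivation.leibniz, smul_eq_mul, smul_eq_mul]
      refine Ideal.add_mem _ (Ideal.mul_mem_right _ _ ha) ?_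
      rw [mul_comm b, pow_succ]
      exact Ideal.mul_mem_mul (ih a ha) hb
    · intro a b ha hb
      rw [map_add]
      exact Ideal.add_mem _ ha hb

end RigP

theorem s_rig : S_rig := by
  intro B _ _ p hp0 hp 𝔡 α h𝔡 hα Δ
  refine ⟨RigP.leib 𝔡 Δ, fun hΔα => ?_⟩
  have h2 : 𝔡 ^ 2 ≠ ⊥ := pow_ne_zero 2 h𝔡
  obtain ⟨z, hz⟩ := IsDedekindDomain.exists_sup_span_eq (I := 𝔡 ^ 2) (J := 𝔡)
    (Ideal.pow_le_self two_ne_zero) h2
  have hz𝔡 : z ∈ 𝔡 := by
    rw [← hz]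
    exact Ideal.mem_sup_right (Ideal.mem_span_singleton_self z)
  -- the derivative of `z`
  have h3 : z ^ (p - 1) * Δ z ∈ 𝔡 ^ p := by
    have h4 : z ^ p ∈ Ideal.span {α} := by
      rw [← hα]
      exact Ideal.pow_mem_pow hz𝔡 p
    obtain ⟨w, hw⟩ := Ideal.mem_span_singleton.1 h4
    have h5 : Δ (z ^ p) = α * Δ w := by
      rw [hw, Derivation.leibniz, hΔα, smul_zero, add_zero, smul_eq_mul]
    rw [Derivation.leibniz_pow] at h5
    have h6 : (p : B) * (z ^ (p - 1) * Δ z) ∈ 𝔡 ^ p := by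
      have h7 : (p : B) * (z ^ (p - 1) * Δ z) = α * Δ w := by
        rw [← h5]
        simp [nsmul_eq_mul, smul_eq_mul]
      rw [h7, hα]
      exact Ideal.mul_mem_right _ _ (Ideal.mem_span_singleton_self α)
    obtain ⟨u, hu⟩ := hp
    have h8 : z ^ (p - 1) * Δ z = (↑u⁻¹ : B) * ((p : B) * (z ^ (p - 1) * Δ z)) := by
      rw [← hu, ← mul_assoc, Units.inv_mul, one_mul]
    rw [h8]
    exact Ideal.mul_mem_left _ _ h6
  have h9 : Δ z ∈ 𝔡 := by
    have h10 : 𝔡 ^ (p - 1) * Ideal.span {Δ z} ≤ 𝔡 ^ (p - 1) * 𝔡 := by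
      rw [← pow_succ, Nat.sub_add_cancel hp0]
      calc 𝔡 ^ (p - 1) * Ideal.span {Δ z}
          ≤ (𝔡 ^ (p - 1 + 1) ⊔ Ideal.span {z} ^ (p - 1)) * Ideal.span {Δ z} :=
            Ideal.mul_mono_left (RigP.pow_le 𝔡 z hz (p - 1))
        _ = 𝔡 ^ p * Ideal.span {Δ z} ⊔ Ideal.span {z} ^ (p - 1) * Ideal.span {Δ z} := by
            rw [Ideal.sup_mul, Nat.sub_add_cancel hp0]
        _ ≤ 𝔡 ^ p := by
            refine sup_le Ideal.mul_le_left ?_
            rw [Ideal.span_singleton_pow, Ideal.span_singleton_mul_span_singleton,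
              Ideal.span_singleton_le_iff_mem]
            exact h3
    have h11 : 𝔡 ∣ Ideal.span {Δ z} := by
      rw [← mul_dvd_mul_iff_left (a := 𝔡 ^ (p - 1)) (pow_ne_zero _ h𝔡)]
      exact Ideal.dvd_iff_le.2 h10
    exact (Ideal.dvd_iff_le.1 h11) (Ideal.mem_span_singleton_self _)
  have h12 : ∀ y ∈ 𝔡, Δ y ∈ 𝔡 := by
    intro y hy
    rw [← hz] at hy
    obtain ⟨u, hu, w, hw, rfl⟩ := Submodule.mem_sup.1 hy
    obtain ⟨d, rfl⟩ := Ideal.mem_span_singleton'.1 hw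
    rw [map_add, Derivation.leibniz, smul_eq_mul, smul_eq_mul]
    have h13 := RigP.leib 𝔡 Δ 1 u hu
    rw [pow_one] at h13
    exact Ideal.add_mem _ h13 (Ideal.add_mem _ (Ideal.mul_mem_left _ _ h9)
      (Ideal.mul_mem_right _ _ hz𝔡))
  intro m
  induction m with
  | zero => intro y _; simp
  | succ m ih =>
    intro y hy
    rw [pow_succ] at hy ⊢
    refine Submodule.mul_induction_on hy ?_ ?_
    · intro a ha b hb
      rw [Derivation.leibniz, smul_eq_mul, smul_eq_mul]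
      refine Ideal.add_mem _ (Ideal.mul_mem_mul ha (h12 b hb)) ?_
      rw [mul_comm b]
      exact Ideal.mul_mem_mul (ih a ha) hb
    · intro a b ha hb
      rw [map_add]
      exact Ideal.add_mem _ ha hb

end Pool.Agent.NH7.AC
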