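import Pool.Agent.NH7.AC.Stms

/-!
# Project AC: approximation of elements of small degree in an ideal (F4)
-/

set_option autoImplicit false

namespace Pool.Agent.NH7.AC.SmP

open Polynomial Module

variable {S : AddSubmonoid ℕ} {V k κ O B Bb : Type} [CommRing V] [IsDomain V]
  [IsDiscreteValuationRing V] [Field k] [Field κ] [Algebra V k] [IsFractionRing V k] [CommRing O]
  [CommRing B] [CommRing Bb] [Algebra V O] [Algebra k B] [Algebra κ Bb]

/-- Division with remainder by an element with invertible leading coefficient. -/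
theorem divmod (W : Wt S V O) (F : ℕ) (hF : ∀ s, F ≤ s → s ∈ S) (q : O) (D : ℕ)
    (hD : (W.cf q).natDegree = D) (hu : IsUnit ((W.cf q).coeff D)) :
    ∀ (d : ℕ) (h : O), (W.cf h).natDegree ≤ d →
      ∃ z g : O, h = q * z + g ∧ (W.cf g).natDegree ≤ D + F := by
  intro d
  induction d with
  | zero =>
    intro h hh
    exact ⟨0, h, by ring, by omega⟩
  | succ d ih =>
    intro h hh
    by_cases hle : (W.cf h).natDegree ≤ D + F
    · exact ⟨0, h, by ring, hle⟩
    · have hDS : D ∈ S := W.supp q D hu.ne_zero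
      have hdS : d + 1 - D ∈ S := hF _ (by omega)
      obtain ⟨ε, hε, hl⟩ := W.lead D hDS (d + 1 - D) hdS
      obtain ⟨b0, hb0⟩ := W.surj (d + 1 - D) hdS
      obtain ⟨e, he⟩ := hε.mul hu
      have hbd : (W.cf ((↑e⁻¹ * (W.cf h).coeff (d + 1)) • b0)).natDegree ≤ d + 1 - D := by
        rw [map_smul, hb0]
        exact (natDegree_smul_le _ _).trans (natDegree_X_pow_le _)
      have hqb : (W.cf (q * ((↑e⁻¹ * (W.cf h).coeff (d + 1)) • b0))).natDegree ≤ d + 1 := by
        have h1 := W.mul_le q ((↑e⁻¹ * (W.cf h).coeff (d + 1)) • b0) D (d + 1 - D) hD.le hbd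
        omega
      have hco : (W.cf (q * ((↑e⁻¹ * (W.cf h).coeff (d + 1)) • b0))).coeff (d + 1) =
          (W.cf h).coeff (d + 1) := by
        have h1 := hl q ((↑e⁻¹ * (W.cf h).coeff (d + 1)) • b0) hD.le hbd
        rw [show D + (d + 1 - D) = d + 1 by omega] at h1
        rw [h1, map_smul, hb0, coeff_smul, coeff_X_pow_self, smul_eq_mul, mul_one]
        calc ε * ((W.cf q).coeff D * (↑e⁻¹ * (W.cf h).coeff (d + 1)))
            = (ε * (W.cf q).coeff D) * ↑e⁻¹ * (W.cf h).coeff (d + 1) := by ring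
          _ = (W.cf h).coeff (d + 1) := by rw [← he, Units.mul_inv, one_mul]
      obtain ⟨z, g, hzg, hg⟩ := ih (h - q * ((↑e⁻¹ * (W.cf h).coeff (d + 1)) • b0)) (by
        rw [map_sub]
        refine natDegree_le_iff_coeff_eq_zero.2 fun N hN => ?_
        rw [coeff_sub]
        rcases Nat.lt_or_ge (d + 1) N with h2 | h2
        · rw [coeff_eq_zero_of_natDegree_lt (lt_of_le_of_lt hh h2),
            coeff_eq_zero_of_natDegree_lt (lt_of_le_of_lt hqb h2), sub_zero]
        · rw [show N = d + 1 by omega, hco, sub_self])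
      refine ⟨(↑e⁻¹ * (W.cf h).coeff (d + 1)) • b0 + z, g, ?_, hg⟩
      rw [mul_add, add_assoc, ← hzg]
      ring

/-- A linear projection onto the elements of small degree, vanishing on the ideal. -/
theorem proj (W : Wt S k B) (𝔠 : Ideal B) (r : ℕ)
    (hno : ∀ w ∈ 𝔠, (W.cf w).natDegree ≤ r → w = 0) :
    ∃ l : B →ₗ[k] B, (∀ b ∈ 𝔠, l b = 0) ∧ ∀ b, (W.cf b).natDegree ≤ r → l b = b := by
  let P : Submodule k B := W.Fl r
  let Q : Submodule k B := 𝔠.restrictScalars k
  let f : P →ₗ[k] B ⧸ Q := Q.mkQ.comp P.subtype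
  have hf : LinearMap.ker f = ⊥ := by
    rw [LinearMap.ker_eq_bot']
    rintro ⟨x, hx⟩ hx0
    have h1 : x ∈ Q := by
      have h2 : Q.mkQ x = 0 := hx0
      rwa [Submodule.mkQ_apply, Submodule.Quotient.mk_eq_zero] at h2
    have h3 : (W.cf x).natDegree ≤ r := by
      have h4 : W.cf x ∈ degreeLE k (r : WithBot ℕ) := hx
      rw [mem_degreeLE] at h4
      exact natDegree_le_of_degree_le h4
    exact Subtype.ext (hno x h1 h3)
  obtain ⟨g, hg⟩ := LinearMap.exists_leftInverse_of_injective f hf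
  refine ⟨P.subtype.comp (g.comp Q.mkQ), ?_, ?_⟩
  · intro b hb
    have h1 : Q.mkQ b = 0 := by
      rw [Submodule.mkQ_apply, Submodule.Quotient.mk_eq_zero]
      exact hb
    rw [LinearMap.comp_apply, LinearMap.comp_apply, h1, map_zero, map_zero]
  · intro b hb
    have hbP : b ∈ P := by
      change W.cf b ∈ degreeLE k (r : WithBot ℕ)
      rw [mem_degreeLE]
      exact degree_le_of_natDegree_le hb
    have h1 : g (f ⟨b, hbP⟩) = ⟨b, hbP⟩ := by
      have := LinearMap.congr_fun hg ⟨b, hbP⟩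
      simpa using this
    have h2 : g (Q.mkQ b) = ⟨b, hbP⟩ := h1
    rw [LinearMap.comp_apply, LinearMap.comp_apply, h2]
    rfl

/-- Denominators of elements of the field of fractions. -/
theorem den (ϖ : V) (hϖ : Irreducible ϖ) (c : k) :
    ∃ (M : ℕ) (a : V), algebraMap V k ϖ ^ M * c = algebraMap V k a := by
  obtain ⟨a, b, hb, rfl⟩ := IsFractionRing.div_surjective (A := V) c
  have hb0 : b ≠ 0 := nonZeroDivisors.ne_zero hb
  obtain ⟨M, hM⟩ := IsDiscreteValuationRing.associated_pow_irreducible hb0 hϖ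
  obtain ⟨u, hu⟩ := hM
  refine ⟨M, u * a, ?_⟩
  have hbk : algebraMap V k b ≠ 0 := by
    intro h0
    exact hb0 ((IsFractionRing.injective V k) (by rw [h0, map_zero]))
  rw [← map_pow, ← hu, map_mul, map_mul]
  field_simp

end Pool.Agent.NH7.AC.SmP

open Polynomial Module Pool.Agent.NH7.AC.SmP in
theorem Pool.Agent.NH7.AC.s_sm (hdom : S_dom) (hdim : S_dim) (htri : S_tri) : S_sm := by
  intro S F hF V k κ O B Bb _ _ _ _ _ _ _ _ _ _ _ _ _ T ϖ hϖ 𝔠 q r hq hρq hdeg happ
  obtain ⟨hOd, hinj, hsur, hcι, hcρ, -, -, -, hrep, -⟩ := htri S V k κ O B Bb T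
  by_contra hcon
  push Not at hcon
  have hno : ∀ w ∈ 𝔠, (T.Wk.cf w).natDegree ≤ r → w = 0 := by
    intro w hw hwr
    by_contra h0
    exact absurd hwr (not_le.2 (hcon w hw h0))
  obtain ⟨l, hl0, hl1⟩ := proj T.Wk 𝔠 r hno
  -- `l` commutes with constants
  have hlc : ∀ (c : V) (b : B), l (T.ι (algebraMap V O c) * b) =
      T.ι (algebraMap V O c) * l b := by
    intro c b
    rw [hcι, ← Algebra.smul_def, map_smul, Algebra.smul_def]
  have hlp : ∀ (m : ℕ) (b : B), l (T.ι (algebraMap V O ϖ) ^ m * b) =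
      T.ι (algebraMap V O ϖ) ^ m * l b := by
    intro m b
    rw [← map_pow, ← map_pow, hlc]
  -- the leading coefficient of `q`
  set D := (T.W.cf q).natDegree with hD
  have hu : IsUnit ((T.W.cf q).coeff D) := by
    by_contra hnu
    have h1 : T.r ((T.W.cf q).coeff D) = 0 := (T.rker _).2 hnu
    have h2 : (T.Wb.cf (T.ρ q)).coeff D = 0 := by
      rw [T.hρ, coeff_map, h1]
    rw [← hdeg] at h2
    have h3 : T.Wb.cf (T.ρ q) = 0 := leadingCoeff_eq_zero.1 h2
    exact hρq (T.Wb.inj (by rw [h3, map_zero]))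
  -- denominators
  have hden : ∀ b : B, ∃ (M : ℕ) (α : O), T.ι (algebraMap V O ϖ) ^ M * b = T.ι α := by
    intro b
    by_cases hb : b = 0
    · exact ⟨0, 0, by rw [hb, mul_zero, map_zero]⟩
    · obtain ⟨c, α, -, hbα, -⟩ := hrep b hb
      obtain ⟨M, a, hMa⟩ := den (k := k) ϖ hϖ c
      refine ⟨M, algebraMap V O a * α, ?_⟩
      rw [map_mul, hcι, hcι, ← hMa, hbα, map_mul, map_pow]
      ring
  have hmono : ∀ (M M' : ℕ) (b : B), M ≤ M' →
      (∃ α : O, T.ι (algebraMap V O ϖ) ^ M * b = T.ι α) →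
      ∃ α : O, T.ι (algebraMap V O ϖ) ^ M' * b = T.ι α := by
    rintro M M' b hMM ⟨α, hα⟩
    obtain ⟨e, rfl⟩ := Nat.exists_eq_add_of_le hMM
    refine ⟨algebraMap V O ϖ ^ e * α, ?_⟩
    rw [map_mul, map_pow, ← hα]
    ring
  -- basis elements
  have hbas : ∀ s : ℕ, ∃ b : O, s ∈ S → T.W.cf b = X ^ s := by
    intro s
    by_cases hs : s ∈ S
    · obtain ⟨b, hb⟩ := T.W.surj s hs
      exact ⟨b, fun _ => hb⟩
    · exact ⟨0, fun h => absurd h hs⟩
  choose bb hbb using hbas
  choose MM hMM using fun s : ℕ => hden (l (T.ι (bb s)))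
  obtain ⟨M, hM⟩ : ∃ M, ∀ s ∈ Finset.range (D + F + 1), MM s ≤ M :=
    ⟨(Finset.range (D + F + 1)).sup MM, fun s hs => Finset.le_sup hs⟩
  have hexp : ∀ g : O, (T.W.cf g).natDegree ≤ D + F →
      g = ∑ s ∈ Finset.range (D + F + 1), algebraMap V O ((T.W.cf g).coeff s) * bb s := by
    intro g hg
    apply T.W.inj
    rw [map_sum]
    conv_lhs => rw [(T.W.cf g).as_sum_range' (D + F + 1) (by omega)]
    refine Finset.sum_congr rfl fun s _ => ?_
    rw [← Algebra.smul_def, map_smul]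
    by_cases hs : (T.W.cf g).coeff s = 0
    · rw [hs, monomial_zero_right, zero_smul]
    · rw [hbb s (T.W.supp g s hs), smul_X_eq_monomial]
  have hint : ∀ h : O, ∃ α : O, T.ι (algebraMap V O ϖ) ^ M * l (T.ι h) = T.ι α := by
    intro h
    obtain ⟨z, g, hzg, hg⟩ := divmod T.W F hF q D rfl hu _ h le_rfl
    have h1 : l (T.ι h) = l (T.ι g) := by
      rw [hzg, map_add, map_add, map_mul, hl0 _ (𝔠.mul_mem_right _ hq), zero_add]
    have h2 : ∀ s ∈ Finset.range (D + F + 1),
        ∃ α : O, T.ι (algebraMap V O ϖ) ^ M * l (T.ι (bb s)) = T.ι α := fun s hs =>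
      hmono (MM s) M _ (hM s hs) (hMM s)
    choose! α hα using h2
    refine ⟨∑ s ∈ Finset.range (D + F + 1), algebraMap V O ((T.W.cf g).coeff s) * α s, ?_⟩
    have h3 : T.ι g = ∑ s ∈ Finset.range (D + F + 1),
        T.ι (algebraMap V O ((T.W.cf g).coeff s)) * T.ι (bb s) := by
      conv_lhs => rw [hexp g hg]
      rw [map_sum]
      exact Finset.sum_congr rfl fun s _ => map_mul _ _ _
    rw [h1, h3, map_sum, map_sum, Finset.mul_sum]
    refine Finset.sum_congr rfl fun s hs => ?_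
    rw [hlc, map_mul, ← hα s hs]
    ring
  obtain ⟨g, h, hgh, hgr, hne⟩ := happ (M + 1)
  obtain ⟨α, hα⟩ := hint h
  have h1 : l (T.ι g) = T.ι g := by
    apply hl1
    rw [T.hι]
    exact natDegree_map_le.trans hgr
  have h2 : T.ι (g + algebraMap V O ϖ * α) = 0 := by
    have h3 := hl0 _ hgh
    rw [map_add, map_mul, map_pow, map_add, hlp, h1, pow_succ'] at h3
    rw [map_add, map_mul, ← hα]
    rw [← h3]
    ring
  have h3 : g + algebraMap V O ϖ * α = 0 := hinj (by rw [h2, map_zero])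
  have h4 : T.ρ (algebraMap V O ϖ) = 0 := by
    rw [hcρ, (T.rker ϖ).2 hϖ.not_isUnit, map_zero]
  apply hne
  have h5 : T.ρ g = 0 := by
    have h6 : g = - (algebraMap V O ϖ * α) := eq_neg_of_add_eq_zero_left h3
    rw [h6, map_neg, map_mul, h4, zero_mul, neg_zero]
  rw [map_add, map_mul, map_pow, h4, h5, pow_succ, mul_zero, zero_mul, add_zero]
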