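import Pool.Agent.NH7.AC.Stms

/-!
# Project AC, task B2 (helper97): generic smoothness
-/

set_option autoImplicit false

namespace Pool.Agent.NH7.AC

open Polynomial

namespace SmoP

section dt

variable {R R' : Type} [CommRing R] [CommRing R']

/-- derivative in t -/
noncomputable def dt (f : R[X][X]) : R[X][X] :=
  f.sum fun i a => C (derivative a) * X ^ i

theorem coeff_dt (f : R[X][X]) (i : ℕ) : (dt f).coeff i = derivative (f.coeff i) := by
  unfold dt
  rw [Polynomial.sum_def, finset_sum_coeff]
  simp only [coeff_C_mul_X_pow]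
  rw [Finset.sum_ite_eq]
  split_ifs with h
  · rfl
  · rw [notMem_support_iff.mp h, derivative_zero]

theorem dt_map (φ : R →+* R') (f : R[X][X]) :
    (dt f).map (mapRingHom φ) = dt (f.map (mapRingHom φ)) := by
  ext1 i
  rw [coeff_map, coeff_dt, coeff_dt, coeff_map, coe_mapRingHom, derivative_map]

theorem dt_add (f g : R[X][X]) : dt (f + g) = dt f + dt g := by
  ext1 i
  rw [coeff_add, coeff_dt, coeff_dt, coeff_dt, coeff_add, derivative_add]

theorem dt_monomial (i : ℕ) (a : R[X]) : dt (monomial i a) = monomial i (derivative a) := by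
  ext1 j
  rw [coeff_dt, coeff_monomial, coeff_monomial]
  split_ifs <;> simp

theorem eval_dt (f : R[X][X]) (x : R) : (dt f).eval (C x) = derivative (f.eval (C x)) := by
  induction f using Polynomial.induction_on' with
  | add p q hp hq => rw [dt_add, eval_add, eval_add, derivative_add, hp, hq]
  | monomial i a =>
    rw [dt_monomial, eval_monomial, eval_monomial, derivative_mul, ← C_pow, derivative_C, mul_zero,
      add_zero]

end dt

/-- evaluation through a homomorphism -/
theorem hom_eq {K L : Type} [CommRing K] [CommRing L] (φ : K[X][X] →+* L) (P : K[X][X]) :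
    φ P = ((P.map (mapRingHom ((φ.comp C).comp C))).eval (C (φ X))).eval (φ (C X)) := by
  have : φ = ((evalRingHom (φ (C X))).comp (evalRingHom (C (φ X)))).comp
      (mapRingHom (mapRingHom ((φ.comp C).comp C))) := by
    ext a
    · simp
    · simp
    · simp
  exact DFunLike.congr_fun this P

theorem clear1 {A E : Type} [CommRing A] [IsDomain A] [Field E] [Algebra A E]
    [IsFractionRing A E] (a : E[X]) :
    ∃ d : A, d ≠ 0 ∧ ∃ a' : A[X], a'.map (algebraMap A E) = C (algebraMap A E d) * a := by
  obtain ⟨b, hb⟩ := IsLocalization.integerNormalization_map_to_map (nonZeroDivisors A) a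
  refine ⟨b, nonZeroDivisors.ne_zero b.2,
    IsLocalization.integerNormalization (nonZeroDivisors A) a, ?_⟩
  rw [hb]
  ext i
  rw [coeff_smul, coeff_C_mul]
  exact Algebra.smul_def _ _

theorem clear2 {A E : Type} [CommRing A] [IsDomain A] [Field E] [Algebra A E]
    [IsFractionRing A E] (a : E[X][X]) :
    ∃ d : A, d ≠ 0 ∧ ∃ a' : A[X][X], a'.map (mapRingHom (algebraMap A E)) =
      C (C (algebraMap A E d)) * a := by
  induction a using Polynomial.induction_on' with
  | add p q hp hq =>
    obtain ⟨d1, h1, p', hp'⟩ := hp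
    obtain ⟨d2, h2, q', hq'⟩ := hq
    refine ⟨d1 * d2, mul_ne_zero h1 h2, C (C d2) * p' + C (C d1) * q', ?_⟩
    rw [Polynomial.map_add, Polynomial.map_mul, Polynomial.map_mul, hp', hq', map_C, map_C,
      coe_mapRingHom, map_C, map_C, map_mul, C_mul, C_mul]
    ring
  | monomial i a =>
    obtain ⟨d, h, a', ha⟩ := clear1 (A := A) a
    refine ⟨d, h, monomial i a', ?_⟩
    rw [map_monomial, coe_mapRingHom, ha, C_mul_monomial]

theorem generic (hfin : S_fin) {N n : ℕ} (hN : 0 < N) (hn : 0 < n) (hco : N.Coprime n)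
    (E : Type) [Field E] [Algebra (MvPolynomial (Ix N n) ℤ) E]
    [IsFractionRing (MvPolynomial (Ix N n) ℤ) E] :
    SmoothF (ff fun q : Ix N n => algebraMap (MvPolynomial (Ix N n) ℤ) E (MvPolynomial.X q)) := by
  set v : Ix N n → E := fun q => algebraMap (MvPolynomial (Ix N n) ℤ) E (MvPolynomial.X q) with hv
  by_contra hne
  obtain ⟨m, hm, hle⟩ := Ideal.exists_le_maximal _ hne
  let L := E[X][X] ⧸ m
  letI : Field L := Ideal.Quotient.field m
  let φ : E[X][X] →+* L := Ideal.Quotient.mk m
  set e : E →+* L := (φ.comp C).comp C with he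
  set x : L := φ X with hx
  set t : L := φ (C X) with ht
  have hz : ∀ P ∈ Ideal.span {ff v, derivative (ff v), (ff v).sum fun i a => C (derivative a) * X ^ i},
      φ P = 0 := fun P hP => Ideal.Quotient.eq_zero_iff_mem.mpr (hle hP)
  have h1 : φ (ff v) = 0 := hz _ (Ideal.subset_span (by simp))
  have h2 : φ (derivative (ff v)) = 0 := hz _ (Ideal.subset_span (by simp))
  have h3 : φ (dt (ff v)) = 0 := hz _ (Ideal.subset_span (by simp [dt]))
  rw [hom_eq] at h1 h2 h3
  set w : Ix N n → L := fun q => e (v q) with hw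
  rw [← derivative_map] at h2
  rw [dt_map, eval_dt] at h3
  rw [ff_map] at h1 h2 h3
  -- indices
  have hq0 : n * 0 + N * 0 ≤ N * n := by simp
  let q0 : Ix N n := ⟨(⟨0, hN⟩, ⟨0, Nat.succ_pos n⟩), hq0⟩
  -- algebraic independence
  have hinj : Function.Injective ((e.comp (algebraMap (MvPolynomial (Ix N n) ℤ) E) : MvPolynomial (Ix N n) ℤ →+* L).toIntAlgHom) :=
    e.injective.comp (IsFractionRing.injective (MvPolynomial (Ix N n) ℤ) E)
  have hind : AlgebraicIndependent ℤ w := by
    have := (MvPolynomial.algebraicIndependent_X (Ix N n) ℤ).map' hinj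
    exact this
  have hind2 : AlgebraicIndepOn ℤ w (insert q0 {q | q ≠ q0}) :=
    hind.comp _ Subtype.val_injective
  have htr := ((AlgebraicIndepOn.insert_iff (by simp)).mp hind2).2
  set S := Algebra.adjoin ℤ (w '' {q | q ≠ q0}) with hS
  letI : Algebra (FractionRing S) L := FractionRing.liftAlgebra S L
  haveI : IsScalarTower S (FractionRing S) L := FractionRing.isScalarTower_liftAlgebra S L
  haveI : CharZero L := by
    haveI : CharZero E :=
      charZero_of_injective_algebraMap (IsFractionRing.injective (MvPolynomial (Ix N n) ℤ) E)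
    exact charZero_of_injective_ringHom e.injective
  haveI : CharZero (FractionRing S) := (algebraMap (FractionRing S) L).charZero
  have halg : ∀ q : Ix N n, q ≠ q0 → IsAlgebraic (FractionRing S) (w q) := by
    intro q hq
    rw [← IsFractionRing.isAlgebraic_iff S (FractionRing S) L]
    exact isAlgebraic_algebraMap (⟨w q, Algebra.subset_adjoin ⟨q, hq, rfl⟩⟩ : S)
  have hwne : ∀ q, w q ≠ 0 := by
    intro q
    have := hind.ne_zero q
    exact this
  have key := hfin N n hN hn hco (FractionRing S) L w (by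
    intro q hq
    apply halg
    rintro rfl
    exact hq ⟨rfl, rfl⟩) (fun q _ _ => (hwne q).isUnit) x t h2 h3
  -- contradiction
  apply htr
  rw [IsFractionRing.isAlgebraic_iff S (FractionRing S) L]
  have hxm : x ∈ algebraicClosure (FractionRing S) L := mem_algebraicClosure_iff.mpr key.1
  have htm : t ∈ algebraicClosure (FractionRing S) L := mem_algebraicClosure_iff.mpr key.2
  have h1' : x ^ N + ∑ q : Ix N n, w q * t ^ (q.1.2 : ℕ) * x ^ (q.1.1 : ℕ) = 0 := by
    rw [← h1]
    show _ = ((ff w).eval (C x)).eval t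
    unfold ff
    simp [eval_finset_sum]
  rw [← Finset.add_sum_erase _ _ (Finset.mem_univ q0)] at h1'
  have h4 : w q0 * t ^ (q0.1.2 : ℕ) * x ^ (q0.1.1 : ℕ) = w q0 := by
    show w q0 * t ^ 0 * x ^ 0 = w q0
    simp
  rw [h4] at h1'
  have h5 : w q0 = -(x ^ N + ∑ q ∈ Finset.univ.erase q0, w q * t ^ (q.1.2 : ℕ) *
      x ^ (q.1.1 : ℕ)) := by
    linear_combination h1'
  rw [← mem_algebraicClosure_iff, h5]
  apply neg_mem
  apply add_mem (pow_mem hxm N)
  apply sum_mem
  intro q hq
  have hq' : q ≠ q0 := (Finset.mem_erase.mp hq).1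
  exact mul_mem (mul_mem (mem_algebraicClosure_iff.mpr (halg q hq')) (pow_mem htm _))
    (pow_mem hxm _)

end SmoP

open SmoP in
theorem SmoP.aux (hfin : S_fin) {N n : ℕ} (hN : 0 < N) (hn : 0 < n) (hco : N.Coprime n)
    (A : Type) [CommRing A] [IsDomain A] (E : Type) [Field E] [Algebra A E]
    [IsFractionRing A E] (v0 : Ix N n → A)
    (hg : SmoothF (ff fun q : Ix N n => algebraMap A E (v0 q))) :
    ∃ d : A, d ≠ 0 ∧ ∃ a b c : A[X][X], C (C d) = a * ff v0 + b * derivative (ff v0) +
      c * dt (ff v0) := by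
  set v : Ix N n → E := fun q => algebraMap A E (v0 q) with hv
  have hf : ff v = (ff v0).map (mapRingHom (algebraMap A E)) := by rw [ff_map]
  have h1 : (1 : E[X][X]) ∈ Ideal.span {ff v, derivative (ff v),
      (ff v).sum fun i a => C (derivative a) * X ^ i} := by
    have : Ideal.span {ff v, derivative (ff v), (ff v).sum fun i a => C (derivative a) * X ^ i} = ⊤ :=
      hg
    rw [this]; trivial
  rw [Ideal.mem_span_insert] at h1
  obtain ⟨a, z, hz, h1⟩ := h1
  rw [Ideal.mem_span_pair] at hz
  obtain ⟨b, c, hz⟩ := hz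
  obtain ⟨da, hda, a', ha⟩ := clear2 (A := A) a
  obtain ⟨db, hdb, b', hb⟩ := clear2 (A := A) b
  obtain ⟨dc, hdc, c', hc⟩ := clear2 (A := A) c
  have hdt : (ff v).sum (fun i a => C (derivative a) * X ^ i) =
      (dt (ff v0)).map (mapRingHom (algebraMap A E)) := by
    rw [dt_map, ← hf]; rfl
  refine ⟨da * db * dc, mul_ne_zero (mul_ne_zero hda hdb) hdc, C (C (db * dc)) * a',
    C (C (da * dc)) * b', C (C (da * db)) * c', ?_⟩
  have hinj : Function.Injective (Polynomial.map (mapRingHom (algebraMap A E))) :=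
    map_injective _ (map_injective _ (IsFractionRing.injective A E))
  apply hinj
  simp only [Polynomial.map_add, Polynomial.map_mul, ha, hb, hc, ← hdt, ← hf, map_C,
    coe_mapRingHom, ← derivative_map]
  simp only [map_mul, C_mul]
  have e1 : (1 : E[X][X]) = a * ff v + (b * derivative (ff v) + c *
    (ff v).sum fun i a => C (derivative a) * X ^ i) := by rw [hz, ← h1]
  linear_combination (C (C (algebraMap A E da)) * C (C (algebraMap A E db)) *
    C (C (algebraMap A E dc))) * e1

open SmoP in
theorem s_smo (hfin : S_fin) : S_smo := by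
  intro N n hN hn hco
  obtain ⟨d, hd, a, b, c, hid⟩ := SmoP.aux hfin hN hn hco (MvPolynomial (Ix N n) ℤ)
    (FractionRing (MvPolynomial (Ix N n) ℤ)) MvPolynomial.X
    (generic hfin hN hn hco (FractionRing (MvPolynomial (Ix N n) ℤ)))
  have hq1 : n * 0 + N * n ≤ N * n := by simp
  let q1 : Ix N n := ⟨(⟨0, hN⟩, ⟨n, Nat.lt_succ_self n⟩), hq1⟩
  refine ⟨d * MvPolynomial.X q1, mul_ne_zero hd (MvPolynomial.X_ne_zero q1), ?_⟩
  intro K _ w hw
  rw [map_mul] at hw
  have hw1 := left_ne_zero_of_mul hw
  have hw2 := right_ne_zero_of_mul hw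
  have hX : ∀ q, avv w (MvPolynomial.X q) = w q := fun q => by simp [avv]
  constructor
  · intro q h1 h2
    have : q = q1 := by
      apply Subtype.ext
      apply Prod.ext
      · exact Fin.ext h1
      · exact Fin.ext h2
    rw [this, ← hX]
    exact hw2.isUnit
  · have hmap : (ff (MvPolynomial.X : Ix N n → MvPolynomial (Ix N n) ℤ)).map
        (mapRingHom (avv w)) = ff w := by
      rw [ff_map]
      congr 1
      funext q
      exact hX q
    have hid2 := congrArg (Polynomial.map (mapRingHom (avv w))) hid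
    simp only [Polynomial.map_add, Polynomial.map_mul, map_C, coe_mapRingHom, ← derivative_map,
      dt_map, hmap] at hid2
    unfold SmoothF
    rw [Ideal.eq_top_iff_one]
    have hmem : C (C (avv w d)) ∈ Ideal.span {ff w, derivative (ff w),
        (ff w).sum fun i a => C (derivative a) * X ^ i} := by
      rw [hid2]
      refine add_mem (add_mem ?_ ?_) ?_
      · exact Ideal.mul_mem_left _ _ (Ideal.subset_span (by simp))
      · exact Ideal.mul_mem_left _ _ (Ideal.subset_span (by simp))
      · exact Ideal.mul_mem_left _ _ (Ideal.subset_span (by simp [dt]))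
    have := Ideal.mul_mem_left _ (C (C (avv w d)⁻¹)) hmem
    rwa [← C_mul, ← C_mul, inv_mul_cancel₀ hw1, C_1, C_1] at this

end Pool.Agent.NH7.AC
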