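import Pool.Agent.NH7.AC.Stms

/-!
# Project AC: a minimal ideal gives a solution of the system (D3)
-/

set_option autoImplicit false

namespace Pool.Agent.NH7.AC.SolP

open Polynomial Module

/-- The coordinates modulo an ideal and the representation by matrices. -/
theorem repr {ι K A : Type} [Fintype ι] [DecidableEq ι] [Field K] [CommRing A] [Algebra K A]
    (𝔞 : Ideal A) (γ : ι → A) (h : ∀ b : A, ∃! c : ι → K, b - ∑ m, c m • γ m ∈ 𝔞) :
    ∃ (co : A →ₗ[K] (ι → K)) (Φ : A →ₐ[K] Matrix ι ι K),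
      (∀ b, b - ∑ m, co b m • γ m ∈ 𝔞) ∧ (∀ b c, b - ∑ m, c m • γ m ∈ 𝔞 → co b = c) ∧
      (∀ a b, (Φ a).mulVec (co b) = co (a * b)) ∧ ∀ a m' m, Φ a m' m = co (a * γ m) m' := by
  choose co₀ hco hun using h
  have hun' : ∀ b c, b - ∑ m, c m • γ m ∈ 𝔞 → co₀ b = c := fun b c hc => (hun b c hc).symm
  let co : A →ₗ[K] (ι → K) :=
    { toFun := co₀
      map_add' := by
        intro b b'
        apply hun'
        have h1 := 𝔞.add_mem (hco b) (hco b')
        have h2 : b + b' - ∑ m, (co₀ b + co₀ b') m • γ m =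
            b - ∑ m, co₀ b m • γ m + (b' - ∑ m, co₀ b' m • γ m) := by
          simp only [Pi.add_apply, add_smul, Finset.sum_add_distrib]
          ring
        rw [h2]
        exact h1
      map_smul' := by
        intro a b
        apply hun'
        have h1 := 𝔞.mul_mem_left (algebraMap K A a) (hco b)
        have h2 : a • b - ∑ m, (a • co₀ b) m • γ m =
            algebraMap K A a * (b - ∑ m, co₀ b m • γ m) := by
          rw [mul_sub, ← Algebra.smul_def, ← Algebra.smul_def, Finset.smul_sum]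
          simp only [Pi.smul_apply, smul_eq_mul, mul_smul]
        rw [RingHom.id_apply, h2]
        exact h1 }
  have hcoa : ∀ b, co b = co₀ b := fun _ => rfl
  have hker : ∀ b ∈ 𝔞, co b = 0 := by
    intro b hb
    rw [hcoa]
    apply hun'
    simpa using hb
  let Φ₀ : A →ₗ[K] Matrix ι ι K :=
    { toFun := fun a => Matrix.of fun m' m => co (a * γ m) m'
      map_add' := by
        intro a a'
        ext m' m
        simp [add_mul]
      map_smul' := by
        intro a a'
        ext m' m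
        simp }
  have hΦ : ∀ a m' m, Φ₀ a m' m = co (a * γ m) m' := fun _ _ _ => rfl
  have hmv : ∀ a b, (Φ₀ a).mulVec (co b) = co (a * b) := by
    intro a b
    have h1 : co (a * (b - ∑ m, co b m • γ m)) = 0 := hker _ (𝔞.mul_mem_left a (hco b))
    rw [mul_sub, map_sub, sub_eq_zero] at h1
    rw [h1, Finset.mul_sum, map_sum]
    ext m'
    rw [Matrix.mulVec, dotProduct, Finset.sum_apply]
    refine Finset.sum_congr rfl fun m _ => ?_
    rw [hΦ, mul_smul_comm, map_smul, Pi.smul_apply, smul_eq_mul, mul_comm]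
  have hγ : ∀ m, co (γ m) = Pi.single m 1 := by
    intro m
    rw [hcoa]
    apply hun'
    have : ∑ k, (Pi.single m (1 : K) : ι → K) k • γ k = γ m := by
      rw [Finset.sum_eq_single m]
      · rw [Pi.single_eq_same, one_smul]
      · intro k _ hk
        rw [Pi.single_eq_of_ne hk, zero_smul]
      · intro hm
        exact absurd (Finset.mem_univ m) hm
    rw [this, sub_self]
    exact 𝔞.zero_mem
  let Φ : A →ₐ[K] Matrix ι ι K := AlgHom.ofLinearMap Φ₀
    (by
      ext m' m
      rw [hΦ, one_mul, hγ, Matrix.one_apply, Pi.single_apply])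
    (by
      intro a b
      ext m' m
      have h1 : (Φ₀ a * Φ₀ b) m' m = ((Φ₀ a).mulVec (co (b * γ m))) m' := rfl
      rw [h1, hmv, hΦ, mul_assoc])
  exact ⟨co, Φ, hco, hun', hmv, hΦ⟩

variable {N n D : ℕ} {K : Type} [Field K]

theorem mk_smul (v : Ix N n → K) (a : K) (P : K[X][X]) :
    AdjoinRoot.mk (ff v) (C (C a) * P) = a • AdjoinRoot.mk (ff v) P := by
  rw [AdjoinRoot.smul_mk]
  congr 1
  rw [Algebra.smul_def]
  rfl

theorem pol_single (q : Bx N D) : pol (Pi.single q (1 : K) : Bx N D → K) = mo K q := by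
  unfold pol
  rw [Finset.sum_eq_single q]
  · rw [Pi.single_eq_same, map_one, map_one, one_mul]
  · intro k _ hk
    rw [Pi.single_eq_of_ne hk, map_zero, map_zero, zero_mul]
  · intro hq
    exact absurd (Finset.mem_univ q) hq

theorem deg_mo (hpol : S_pol) (hN : 0 < N) (hn : 0 < n) (hc : N.Coprime n) (v : Ix N n → K)
    (q : Bx N D) : (cfp v (AdjoinRoot.mk (ff v) (mo K q))).natDegree ≤ wt N n q := by
  rw [← pol_single, (hpol N n D hN hn hc K v).1]
  refine natDegree_sum_le_of_forall_le _ _ fun k _ => ?_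
  by_cases hk : k = q
  · rw [hk]
    exact natDegree_C_mul_X_pow_le _ _
  · rw [Pi.single_eq_of_ne hk, map_zero, zero_mul, natDegree_zero]
    exact Nat.zero_le _

theorem deg_t (hpol : S_pol) (hN : 0 < N) (hn : 0 < n) (hc : N.Coprime n) (v : Ix N n → K) :
    (cfp v (AdjoinRoot.mk (ff v) (C X))).natDegree ≤ N := by
  have h := deg_mo (D := 1) hpol hN hn hc v (⟨0, hN⟩, ⟨1, by omega⟩)
  simpa [mo, wt] using h

theorem deg_x (hpol : S_pol) (hN : 0 < N) (hn : 0 < n) (hc : N.Coprime n) (v : Ix N n → K)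
    (W : Wt (Sg N n) K (BB v)) (hW : ∀ a, W.cf a = cfp v a) :
    (cfp v (AdjoinRoot.mk (ff v) X)).natDegree ≤ n := by
  by_cases h1 : 1 < N
  · have h := deg_mo (D := 1) hpol hN hn hc v (⟨1, h1⟩, ⟨0, by omega⟩)
    simpa [mo, wt] using h
  · have hN1 : N = 1 := by omega
    subst hN1
    have h2 : AdjoinRoot.mk (ff v) X =
        - ∑ q : Ix 1 n, v q • AdjoinRoot.mk (ff v) (mo K (D := n) (q.1.1, q.1.2)) := by
      have h3 : AdjoinRoot.mk (ff v)
          (X ^ 1 + ∑ q : Ix 1 n, C (C (v q) * X ^ (q.1.2 : ℕ)) * X ^ (q.1.1 : ℕ)) = 0 :=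
        AdjoinRoot.mk_self
      rw [map_add, map_sum, pow_one] at h3
      rw [eq_neg_of_add_eq_zero_left h3]
      congr 1
      refine Finset.sum_congr rfl fun q _ => ?_
      rw [← mk_smul, mo, map_mul C, mul_assoc]
    rw [h2, ← hW, map_neg, natDegree_neg, map_sum]
    refine natDegree_sum_le_of_forall_le _ _ fun q _ => ?_
    rw [map_smul]
    refine (natDegree_smul_le _ _).trans ?_
    rw [hW]
    refine (deg_mo hpol hN hn hc v _).trans ?_
    have := q.2
    unfold wt
    simpa using this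

theorem deg_prod (v : Ix N n → K) (W : Wt (Sg N n) K (BB v)) {ι : Type} (s : Finset ι)
    (a : ι → BB v) (E : ℕ) (h : ∀ i, (W.cf (a i)).natDegree ≤ E) :
    (W.cf (∏ i ∈ s, a i)).natDegree ≤ s.card * E := by
  classical
  induction s using Finset.induction_on with
  | empty => simp [W.one]
  | insert i s his ih =>
    rw [Finset.prod_insert his, Finset.card_insert_of_notMem his]
    have := W.mul_le (a i) (∏ i ∈ s, a i) E (s.card * E) (h i) ih
    refine this.trans (le_of_eq ?_)
    ring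

theorem sum_mk (v : Ix N n → K) {ι : Type} (s : Finset ι) (c : ι → K) (P : ι → K[X][X]) :
    AdjoinRoot.mk (ff v) (∑ m ∈ s, C (C (c m)) * P m) =
      ∑ m ∈ s, c m • AdjoinRoot.mk (ff v) (P m) := by
  rw [map_sum]
  exact Finset.sum_congr rfl fun m _ => mk_smul v _ _

theorem mk_mo (v : Ix N n → K) (q : Bx N D) : AdjoinRoot.mk (ff v) (mo K q) =
    AdjoinRoot.mk (ff v) X ^ (q.1 : ℕ) * AdjoinRoot.mk (ff v) (C X) ^ (q.2 : ℕ) := by
  rw [mo, map_mul, map_pow, map_pow, map_pow, mul_comm]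

end Pool.Agent.NH7.AC.SolP

open Polynomial Module Pool.Agent.NH7.AC.SolP in
theorem Pool.Agent.NH7.AC.s_sol (hgap : S_gap) (hdom : S_dom) (hpol : S_pol) : S_sol := by
  intro N n p r D hN hn hc hp hr hD K _ v htop W hW 𝔡 α hmin Γ o hadm hwt hrep
  obtain ⟨hdA, hdeg, -, -⟩ := hdom (Sg N n) K (BB v) W
  have hpp : 0 < p := hp.pos
  -- the basis
  let γ : Fin ((p - 1) * r) → BB v := fun m => AdjoinRoot.mk (ff v) (mo K (Γ m))
  have hrep' : ∀ b : BB v, ∃! c : Fin ((p - 1) * r) → K, b - ∑ m, c m • γ m ∈ 𝔡 ^ (p - 1) := by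
    intro b
    obtain ⟨c, hc1, hc2⟩ := hrep b
    refine ⟨c, ?_, fun c' hc' => hc2 c' ?_⟩
    · simp only at hc1 ⊢
      rwa [sum_mk] at hc1
    · simp only at hc' ⊢
      rwa [sum_mk]
  obtain ⟨co, Φ, hco, hun, hmv, hΦ⟩ := repr (𝔡 ^ (p - 1)) γ hrep'
  have hker : ∀ b ∈ 𝔡 ^ (p - 1), co b = 0 := by
    intro b hb
    apply hun
    simpa using hb
  have hγ : ∀ m, co (γ m) = Pi.single m 1 := by
    intro m
    apply hun
    have : ∑ k, (Pi.single m (1 : K) : Fin ((p - 1) * r) → K) k • γ k = γ m := by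
      rw [Finset.sum_eq_single m]
      · rw [Pi.single_eq_same, one_smul]
      · intro k _ hk
        rw [Pi.single_eq_of_ne hk, zero_smul]
      · intro hm
        exact absurd (Finset.mem_univ m) hm
    rw [this, sub_self]
    exact Ideal.zero_mem _
  set x : BB v := AdjoinRoot.mk (ff v) X with hx
  set t : BB v := AdjoinRoot.mk (ff v) (C X) with ht
  have hone : co 1 = Pi.single o 1 := by
    rw [← hγ o]
    congr 1
    change 1 = AdjoinRoot.mk (ff v) (mo K (Γ o))
    rw [mk_mo, hadm.one.1, hadm.one.2, pow_zero, pow_zero, mul_one]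
  -- the element `α`
  have hpr : p * r ≤ D := hadm.le
  obtain ⟨a, ha⟩ := (hpol N n D hN hn hc K v).2 α (by rw [← hW, hmin.deg]; exact hpr)
  have hcfα : W.cf α = ∑ q, C (a q) * X ^ wt N n q := by
    rw [hW, ha, (hpol N n D hN hn hc K v).1]
  have hinj : ∀ q q' : Bx N D, wt N n q = wt N n q' → q = q' := by
    intro q q' h
    have := (hgap N n hN hn hc).2 q.1 q.2 q'.1 q'.2 q.1.2 q'.1.2 h
    exact Prod.ext (Fin.ext this.1) (Fin.ext this.2)
  have hcoef : ∀ q, (W.cf α).coeff (wt N n q) = a q := by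
    intro q
    rw [hcfα, finsetSum_coeff, Finset.sum_eq_single q]
    · rw [coeff_C_mul, coeff_X_pow_self, mul_one]
    · intro q' _ hq'
      rw [coeff_C_mul, coeff_X_pow, if_neg (fun h => hq' (hinj _ _ h.symm)), mul_zero]
    · intro hq
      exact absurd (Finset.mem_univ q) hq
  have hα0 : α ≠ 0 := by
    intro h
    have := hmin.monic
    rw [h, map_zero] at this
    exact one_ne_zero (monic_zero_iff_subsingleton.1 this |>.elim _ _)
  have hα𝔡 : α ∈ 𝔡 ^ (p - 1) := by
    have h1 : α ∈ 𝔡 ^ p := by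
      rw [hmin.pow]
      exact Ideal.mem_span_singleton_self α
    exact Ideal.pow_le_pow_right (Nat.sub_le p 1) h1
  -- the matrices
  let T : Matrix (Fin ((p - 1) * r)) (Fin ((p - 1) * r)) K := Φ t
  let U : Matrix (Fin ((p - 1) * r)) (Fin ((p - 1) * r)) K := Φ x
  -- the cofactors
  have hgg : ∀ g, AdjoinRoot.mk (ff v) (gg T U Γ g) ∈ 𝔡 ^ (p - 1) ∧
      (W.cf (AdjoinRoot.mk (ff v) (gg T U Γ g))).natDegree ≤ p * r + N * n + N + n := by
    have hdγ : ∀ m, (W.cf (γ m)).natDegree ≤ p * r + N * n := fun m => by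
      rw [hW]
      exact (deg_mo hpol hN hn hc v (Γ m)).trans (hwt m)
    have key : ∀ (A : BB v) (m : Fin ((p - 1) * r)) (E : ℕ), (W.cf A).natDegree ≤ E →
        E ≤ N + n →
        A * γ m - ∑ m', Φ A m' m • γ m' ∈ 𝔡 ^ (p - 1) ∧
        (W.cf (A * γ m - ∑ m', Φ A m' m • γ m')).natDegree ≤ p * r + N * n + N + n := by
      intro A m E hA hE
      refine ⟨?_, ?_⟩
      · have h1 := hco (A * γ m)
        have h2 : ∀ m', Φ A m' m = co (A * γ m) m' := fun m' => hΦ A m' m
        simp only [h2]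
        exact h1
      · rw [map_sub]
        refine (natDegree_sub_le _ _).trans (max_le ?_ ?_)
        · have h1 := W.mul_le A (γ m) E (p * r + N * n) hA (hdγ m)
          omega
        · rw [map_sum]
          refine natDegree_sum_le_of_forall_le _ _ fun m' _ => ?_
          rw [map_smul]
          refine (natDegree_smul_le _ _).trans ((hdγ m').trans ?_)
          omega
    intro g
    rcases g with m | m
    · have h1 : AdjoinRoot.mk (ff v) (gg T U Γ (Sum.inl m)) = t * γ m - ∑ m', T m' m • γ m' := by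
        rw [gg, map_sub, sum_mk, map_mul]
      rw [h1]
      exact key t m N (by rw [hW]; exact deg_t hpol hN hn hc v) (by omega)
    · have h1 : AdjoinRoot.mk (ff v) (gg T U Γ (Sum.inr m)) = x * γ m - ∑ m', U m' m • γ m' := by
        rw [gg, map_sub, sum_mk, map_mul]
      rw [h1]
      exact key x m n (by rw [hW]; exact deg_x hpol hN hn hc v W hW) (by omega)
  have hss : ∀ I : Fin p → Fin ((p - 1) * r) ⊕ Fin ((p - 1) * r), ∃ c : Bx N D → K,
      ff v ∣ ∏ k, gg T U Γ (I k) - pol a ^ (p - 1) * pol c := by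
    intro I
    have h1 : ∏ k, AdjoinRoot.mk (ff v) (gg T U Γ (I k)) ∈ (𝔡 ^ (p - 1)) ^ p := by
      have h2 : ∏ k : Fin p, AdjoinRoot.mk (ff v) (gg T U Γ (I k)) ∈
          ∏ k : Fin p, (𝔡 ^ (p - 1)) := Ideal.prod_mem_prod fun k _ => (hgg (I k)).1
      rwa [Finset.prod_const, Finset.card_univ, Fintype.card_fin] at h2
    rw [← pow_mul, mul_comm (p - 1) p, pow_mul, hmin.pow, Ideal.span_singleton_pow,
      Ideal.mem_span_singleton'] at h1
    obtain ⟨s, hs⟩ := h1
    have hds : (W.cf s).natDegree ≤ D := by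
      by_cases hs0 : s = 0
      · rw [hs0, map_zero, natDegree_zero]
        exact Nat.zero_le _
      · have h3 := hdeg s (α ^ (p - 1)) hs0 (pow_ne_zero _ hα0)
        have h4 := deg_prod v W Finset.univ
          (fun k : Fin p => AdjoinRoot.mk (ff v) (gg T U Γ (I k))) _ fun k => (hgg (I k)).2
        rw [Finset.card_univ, Fintype.card_fin, ← hs] at h4
        omega
    obtain ⟨c, hcs⟩ := (hpol N n D hN hn hc K v).2 s (by rw [← hW]; exact hds)
    refine ⟨c, ?_⟩
    rw [← AdjoinRoot.mk_eq_zero, map_sub, map_prod, ← hs, map_mul, map_pow, ← ha, ← hcs,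
      mul_comm, sub_self]
  choose s hs using hss
  let y : Tau N p ((p - 1) * r) D → K := fun i => match i with
    | Sum.inl (m, m') => T m m'
    | Sum.inr (Sum.inl (m, m')) => U m m'
    | Sum.inr (Sum.inr (Sum.inl q)) => a q
    | Sum.inr (Sum.inr (Sum.inr (I, q))) => s I q
  have htt : tt y = T := rfl
  have huu : uu y = U := rfl
  have haa : aa y = a := rfl
  have hsy : ∀ I, ss y I = s I := fun _ => rfl
  have hUT : ∀ i j : ℕ, U ^ i * T ^ j = Φ (x ^ i * t ^ j) := by
    intro i j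
    rw [map_mul, map_pow, map_pow]
  refine ⟨y, ⟨?_, ?_, ?_, ?_, ?_, ?_, ?_⟩⟩
  · rw [htt, huu]
    change Φ t * Φ x = Φ x * Φ t
    rw [← map_mul Φ, ← map_mul Φ, mul_comm t x]
  · rw [htt, huu]
    have h3 : AdjoinRoot.mk (ff v)
        (X ^ N + ∑ q : Ix N n, C (C (v q) * X ^ (q.1.2 : ℕ)) * X ^ (q.1.1 : ℕ)) = 0 :=
      AdjoinRoot.mk_self
    have h4 : x ^ N + ∑ q : Ix N n, v q • (x ^ (q.1.1 : ℕ) * t ^ (q.1.2 : ℕ)) = 0 := by
      rw [← h3, map_add, map_pow, map_sum]
      congr 1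
      refine Finset.sum_congr rfl fun q _ => ?_
      rw [map_mul C, mul_assoc, mk_smul, map_mul, map_pow C, map_pow, map_pow, mul_comm]
    have h5 : U ^ N = Φ (x ^ N) := by rw [map_pow]
    rw [h5]
    simp only [hUT, ← map_smul]
    rw [← map_sum, ← map_add, h4, map_zero]
  · intro m
    rw [htt, huu, hUT, ← hone, hmv, mul_one, ← hγ m]
    congr 1
    exact (mk_mo v (Γ m)).symm
  · intro q hq
    rw [haa, ← hcoef]
    exact coeff_eq_zero_of_natDegree_lt (by rw [hmin.deg]; exact hq)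
  · intro q hq
    rw [haa, ← hcoef, hq]
    have := hmin.monic.coeff_natDegree
    rwa [hmin.deg] at this
  · rw [htt, huu, haa]
    simp only [hUT, ← map_smul]
    rw [← map_sum, ← hone, hmv, mul_one]
    have h6 : ∑ q : Bx N D, a q • (x ^ (q.1 : ℕ) * t ^ (q.2 : ℕ)) = α := by
      rw [ha, pol, sum_mk]
      exact Finset.sum_congr rfl fun q _ => by rw [mk_mo]
    rw [h6]
    exact hker α hα𝔡
  · intro I
    rw [htt, huu, haa, hsy]
    exact hs I
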