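import Pool.Agent.NH7.AC.Stms

/-! Project AC, G1: step A (helper70). -/

set_option autoImplicit false
set_option linter.unusedSectionVars false

namespace Pool.Agent.NH7.AC.StAP

section
variable {B : Type} [CommRing B] [IsDedekindDomain B]

theorem ne_bot_of_pow {I : Ideal B} {p : ℕ} (hI : I ≠ ⊥) : I ^ p ≠ ⊥ := by
  rw [← Ideal.zero_eq_bot] at hI ⊢
  exact pow_ne_zero p hI

/-- cancellation of a principal ideal -/
theorem prin_cancel {x a : B} {J : Ideal B} (hx : x ≠ 0)
    (h : Ideal.span {x} * J = Ideal.span {a}) : J.IsPrincipal := by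
  have h1 : a ∈ Ideal.span {x} := by
    have h2 : a ∈ Ideal.span {x} * J := by
      rw [h]
      exact Ideal.mem_span_singleton_self a
    exact Ideal.mul_le_left h2
  obtain ⟨b, hb⟩ := Ideal.mem_span_singleton'.1 h1
  have h2 : Ideal.span {x} * J = Ideal.span {x} * Ideal.span {b} := by
    rw [h, Ideal.span_singleton_mul_span_singleton, ← hb, mul_comm]
  have h3 : Ideal.span {x} ≠ 0 := by
    rw [Ideal.zero_eq_bot, Ne, Ideal.span_singleton_eq_bot]
    exact hx
  have h4 : J = Ideal.span {b} := mul_left_cancel₀ h3 h2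
  exact ⟨⟨b, h4⟩⟩

theorem prin_gen {J : Ideal B} (h : J.IsPrincipal) : ∃ b, J = Ideal.span {b} := by
  obtain ⟨⟨b, hb⟩⟩ := h
  exact ⟨b, hb⟩

theorem prin_pow {I J : Ideal B} {g : B} {p : ℕ} (hI : I ≠ ⊥)
    (h : I * J = Ideal.span {g}) (hp : (I ^ p).IsPrincipal) : (J ^ p).IsPrincipal := by
  obtain ⟨b, hb⟩ := prin_gen hp
  have hb0 : b ≠ 0 := by
    rintro rfl
    apply ne_bot_of_pow (p := p) hI
    rw [hb]
    simp
  refine prin_cancel (x := b) (a := g ^ p) hb0 ?_
  rw [← hb, ← mul_pow, h, Ideal.span_singleton_pow]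

end

end Pool.Agent.NH7.AC.StAP

namespace Pool.Agent.NH7.AC

open StAP

theorem s_stA : S_stA := by
  intro O B _ _ _ _ _ ι hι hmap t hgen hmax p hp 𝔡 h𝔡 hprin
  by_cases hτ : ι t = 0
  · rw [hτ, Ideal.span_singleton_eq_bot.2 rfl] at hmax
    have h1 : 𝔡 = ⊤ := by
      by_contra h2
      exact h𝔡 (hmax.eq_of_le h2 bot_le).symm
    refine ⟨𝔡, h𝔡, hprin, fun h => h, 0, ?_⟩
    rw [h1]
    exact Submodule.mem_top
  · set P : Ideal B := Ideal.span {ι t} with hP
    have hPtop : P ≠ ⊤ := hmax.ne_top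
    have hfin : FiniteMultiplicity P 𝔡 := by
      refine FiniteMultiplicity.of_not_isUnit ?_ h𝔡
      rw [Ideal.isUnit_iff]
      exact hPtop
    obtain ⟨𝔠0, h𝔠0, hnd⟩ := hfin.exists_eq_pow_mul_and_not_dvd
    set m := multiplicity P 𝔡 with hm
    have hc0 : 𝔠0 ≠ ⊥ := by
      rintro rfl
      apply h𝔡
      rw [h𝔠0, Ideal.mul_bot]
    have hPm : P ^ m = Ideal.span {ι t ^ m} := by
      rw [hP, Ideal.span_singleton_pow]
    have hprin0 : (𝔠0 ^ p).IsPrincipal := by
      obtain ⟨a, ha⟩ := prin_gen hprin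
      refine prin_cancel (x := (ι t ^ m) ^ p) (a := a) (pow_ne_zero _ (pow_ne_zero _ hτ)) ?_
      rw [← ha, h𝔠0, mul_pow, hPm, Ideal.span_singleton_pow]
    have hback : 𝔠0.IsPrincipal → 𝔡.IsPrincipal := by
      intro h
      obtain ⟨u, hu⟩ := prin_gen h
      refine ⟨⟨ι t ^ m * u, ?_⟩⟩
      have h1 : 𝔡 = Ideal.span {ι t ^ m * u} := by
        rw [h𝔠0, hPm, hu, Ideal.span_singleton_mul_span_singleton]
      exact h1
    -- division by `t`
    have hle : ¬ 𝔠0 ≤ P := fun h => hnd (Ideal.dvd_iff_le.2 h)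
    have hsup : 𝔠0 ⊔ P = ⊤ := by
      by_contra h
      exact hle ((hmax.eq_of_le h le_sup_right).symm ▸ le_sup_left)
    have hdiv : ∀ x : B, ι t * x ∈ 𝔠0 → x ∈ 𝔠0 := by
      intro x hx
      have h1 : (1 : B) ∈ 𝔠0 ⊔ P := by
        rw [hsup]
        exact Submodule.mem_top
      obtain ⟨c, hc, y, hy, hcy⟩ := Submodule.mem_sup.1 h1
      obtain ⟨z, hz⟩ := Ideal.mem_span_singleton'.1 hy
      have h2 : x = x * c + z * (ι t * x) := by
        linear_combination (-x) * hcy - x * hz
      rw [h2]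
      exact Ideal.add_mem _ (Ideal.mul_mem_left _ _ hc) (Ideal.mul_mem_left _ _ hx)
    set I : Ideal O := 𝔠0.comap ι with hI
    have hmI : I.map ι = 𝔠0 := hmap 𝔠0
    obtain ⟨g, hg, hIg⟩ := hgen I
    have hdec : ∀ a ∈ I, ∃ c e : O, e ∈ I ∧ a = c * g + t * e := by
      intro a ha
      obtain ⟨y, hy, z, hz, hyz⟩ := Submodule.mem_sup.1 (hIg ha)
      obtain ⟨c, hc⟩ := Ideal.mem_span_singleton'.1 hy
      obtain ⟨e, he⟩ := Ideal.mem_span_singleton'.1 hz
      refine ⟨c, e, ?_, ?_⟩
      · rw [hI, Ideal.mem_comap]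
        apply hdiv
        have h1 : t * e = a - c * g := by
          linear_combination hyz + he + hc
        have h2 : t * e ∈ I := by
          rw [h1]
          exact Ideal.sub_mem _ ha (Ideal.mul_mem_left _ _ hg)
        rw [← map_mul]
        exact h2
      · linear_combination (-1 : O) * hyz - he - hc
    -- Nakayama
    have hnak : ∃ w : O, ∀ a ∈ I, (1 + t * w) * a ∈ Ideal.span {g} := by
      have h1 := Submodule.exists_sub_one_mem_and_smul_eq_zero_of_fg_of_le_smul
        (Ideal.span {t}) (Submodule.map (Submodule.mkQ (Ideal.span {g})) I)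
        (Submodule.FG.map _ (IsNoetherian.noetherian I)) (by
          rintro _ ⟨a, ha, rfl⟩
          obtain ⟨c, e, he, hae⟩ := hdec a ha
          have h2 : Submodule.mkQ (Ideal.span {g}) a =
              t • Submodule.mkQ (Ideal.span {g}) e := by
            rw [← map_smul, ← sub_eq_zero, ← map_sub, Submodule.mkQ_apply,
              Submodule.Quotient.mk_eq_zero, hae]
            rw [smul_eq_mul, add_sub_cancel_right]
            exact Ideal.mul_mem_left _ _ (Ideal.mem_span_singleton_self g)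
          rw [h2]
          exact Submodule.smul_mem_smul (Ideal.mem_span_singleton_self t)
            (Submodule.mem_map_of_mem he))
      obtain ⟨r, hr, hr2⟩ := h1
      obtain ⟨w, hw⟩ := Ideal.mem_span_singleton'.1 hr
      refine ⟨w, fun a ha => ?_⟩
      have h3 := hr2 _ (Submodule.mem_map_of_mem ha)
      rw [← map_smul, Submodule.mkQ_apply, Submodule.Quotient.mk_eq_zero, smul_eq_mul] at h3
      have h4 : 1 + t * w = r := by linear_combination hw
      rw [h4]
      exact h3
    obtain ⟨w, hw⟩ := hnak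
    have hg0 : g ≠ 0 := by
      intro h0
      have h1 : ∃ a ∈ I, a ≠ 0 := by
        by_contra h2
        push Not at h2
        apply hc0
        rw [← hmI, Ideal.map_eq_bot_iff_le_ker]
        intro a ha
        rw [h2 a ha]
        exact Ideal.zero_mem _
      obtain ⟨a, ha, ha0⟩ := h1
      have h2 := hw a ha
      rw [h0, Ideal.mem_span_singleton, zero_dvd_iff, mul_eq_zero] at h2
      rcases h2 with h2 | h2
      · have h3 : IsUnit (ι t) := by
          have h4 : t * (-w) = 1 := by linear_combination (-1 : O) * h2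
          exact (IsUnit.of_mul_eq_one _ h4).map ι
        exact hPtop (Ideal.span_singleton_eq_top.2 h3)
      · exact ha0 h2
    have hιg : ι g ≠ 0 := fun h => hg0 (hι (by rw [h, map_zero]))
    have hιg' : 𝔠0 ∣ Ideal.span {ι g} := by
      rw [Ideal.dvd_iff_le, Ideal.span_singleton_le_iff_mem]
      exact hg
    obtain ⟨𝔠, h𝔠⟩ := hιg'
    have hcne : 𝔠 ≠ ⊥ := by
      rintro rfl
      rw [Ideal.mul_bot, Ideal.span_singleton_eq_bot] at h𝔠
      exact hιg h𝔠
    refine ⟨𝔠, hcne, prin_pow hc0 h𝔠.symm hprin0, ?_, w, ?_⟩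
    · intro h
      apply hback
      obtain ⟨u, hu⟩ := prin_gen h
      have hu0 : u ≠ 0 := by
        rintro rfl
        apply hcne
        rw [hu]
        simp
      refine prin_cancel (x := u) (a := ι g) hu0 ?_
      rw [← hu, h𝔠, mul_comm]
    · have h1 : Ideal.span {ι (1 + t * w)} * 𝔠0 ≤ 𝔠 * 𝔠0 := by
        rw [mul_comm 𝔠 𝔠0, ← h𝔠]
        conv_lhs => rw [← hmI]
        rw [← Set.image_singleton, ← Ideal.map_span, ← Ideal.map_mul]
        have h2 : Ideal.span {1 + t * w} * I ≤ Ideal.span {g} := by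
          rw [Ideal.span_singleton_mul_le_iff]
          exact fun a ha => hw a ha
        refine (Ideal.map_mono h2).trans ?_
        rw [Ideal.map_span, Set.image_singleton]
      have h3 : 𝔠 ∣ Ideal.span {ι (1 + t * w)} := by
        have h4 := Ideal.dvd_iff_le.2 h1
        exact (mul_dvd_mul_iff_right (by rwa [Ideal.zero_eq_bot] : 𝔠0 ≠ 0)).1 h4
      rw [Ideal.dvd_iff_le, Ideal.span_singleton_le_iff_mem] at h3
      exact h3

end Pool.Agent.NH7.AC
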