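import Pool.Agent.NH7.AC.Stms

/-!
# AC-D2 (helper15): the standard monomials of an ideal
-/

set_option autoImplicit false

namespace Pool.Agent.NH7.AC

open Polynomial Module

namespace StdP

theorem exists_bx {N n D : ℕ} (hN : 0 < N) (hn : 0 < n) {s : ℕ} (hs : s ∈ Sg N n) (hD : s ≤ D) :
    ∃ q : Bx N D, wt N n q = s := by
  obtain ⟨i, j, rfl⟩ := hs
  have h1 : n * i + N * j = n * (i % N) + N * (j + n * (i / N)) := by
    conv_lhs => rw [← Nat.mod_add_div i N]
    ring
  have h2 : j + n * (i / N) < D + 1 := by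
    have h3 : j + n * (i / N) ≤ N * (j + n * (i / N)) := Nat.le_mul_of_pos_left _ hN
    omega
  exact ⟨(⟨i % N, Nat.mod_lt _ hN⟩, ⟨j + n * (i / N), h2⟩), h1.symm⟩

theorem wt_mem (N n : ℕ) {D : ℕ} (q : Bx N D) : wt N n q ∈ Sg N n := ⟨q.1, q.2, rfl⟩

theorem wt_inj {N n : ℕ} (hgap : S_gap) (hN : 0 < N) (hn : 0 < n) (hc : N.Coprime n) {D : ℕ}
    {q q' : Bx N D} (h : wt N n q = wt N n q') : q = q' := by
  obtain ⟨h1, h2⟩ := (hgap N n hN hn hc).2 q.1 q.2 q'.1 q'.2 q.1.2 q'.1.2 h
  exact Prod.ext (Fin.ext h1) (Fin.ext h2)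

theorem cf_mo {N n D : ℕ} (hpol : S_pol) (hN : 0 < N) (hn : 0 < n) (hc : N.Coprime n)
    {K : Type} [Field K] (v : Ix N n → K) (q : Bx N D) :
    cfp v (AdjoinRoot.mk (ff v) (mo K q)) = X ^ wt N n q := by
  classical
  have h1 := (hpol N n D hN hn hc K v).1 (Pi.single q 1)
  have h2 : pol (Pi.single q (1 : K)) = mo K q := by
    unfold pol
    rw [Finset.sum_eq_single q]
    · rw [Pi.single_eq_same, C_1, C_1, one_mul]
    · intro b _ hb
      rw [Pi.single_eq_of_ne hb, C_0, C_0, zero_mul]
    · intro h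
      exact absurd (Finset.mem_univ q) h
  rw [h2] at h1
  rw [h1, Finset.sum_eq_single q]
  · rw [Pi.single_eq_same, C_1, one_mul]
  · intro b _ hb
    rw [Pi.single_eq_of_ne hb, C_0, zero_mul]
  · intro h
    exact absurd (Finset.mem_univ q) h

end StdP

theorem s_std (hgap : S_gap) (hdom : S_dom) (hdim : S_dim) (hpol : S_pol) : S_std := by
  classical
  intro N n p r D hN hn hc hp hr hD K _ v hv W hW 𝔡 α hmin
  set 𝔞 : Ideal (BB v) := 𝔡 ^ (p - 1) with h𝔞
  obtain ⟨hdomB, hadd, -, -⟩ := hdom (Sg N n) K (BB v) W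
  have hcf0 : ∀ b : BB v, W.cf b = 0 → b = 0 := fun b hb => W.inj (by rw [hb, map_zero])
  have hp1 : p - 1 + 1 = p := Nat.sub_add_cancel hp.one_lt.le
  have hα𝔞 : α ∈ 𝔞 := by
    have h1 : α ∈ 𝔡 ^ p := by
      rw [hmin.pow]
      exact Ideal.mem_span_singleton_self α
    exact Ideal.pow_le_pow_right (by omega) h1
  have hα0 : α ≠ 0 := by
    rintro rfl
    have := hmin.monic
    rw [map_zero] at this
    exact not_monic_zero this
  -- the set of the degrees which do not occur
  set Q : ℕ → Prop := fun s => s ∈ Sg N n ∧ ∀ β ∈ 𝔞, β ≠ 0 → (W.cf β).natDegree ≠ s with hQ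
  set F : Finset ℕ := (Finset.range (p * r + N * n)).filter Q with hF
  have hQlt : ∀ s, Q s → s < p * r + N * n := by
    intro s hs
    by_contra hcon
    push Not at hcon
    have h1 : s - p * r ∈ Sg N n := (hgap N n hN hn hc).1 _ (by omega)
    obtain ⟨b, hb⟩ := W.surj _ h1
    have hb0 : b ≠ 0 := by
      rintro rfl
      rw [map_zero] at hb
      exact (pow_ne_zero _ X_ne_zero) hb.symm
    refine hs.2 (α * b) (𝔞.mul_mem_right b hα𝔞) (mul_ne_zero hα0 hb0) ?_
    rw [hadd α b hα0 hb0, hmin.deg, hb, natDegree_X_pow]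
    omega
  have hmemF : ∀ s, s ∈ F ↔ Q s := by
    intro s
    rw [hF, Finset.mem_filter, Finset.mem_range]
    exact ⟨fun h => h.2, fun h => ⟨hQlt s h, h⟩⟩
  have hQlow : ∀ s ∈ Sg N n, s < p * r → Q s := by
    intro s hs hlt
    refine ⟨hs, fun β hβ hβ0 heq => ?_⟩
    have := hmin.min β hβ hβ0
    omega
  have hpr : 0 < p * r := Nat.mul_pos hp.pos hr
  -- the monomials
  have hq : ∀ s : F, ∃ q : Bx N D, wt N n q = s := by
    intro s
    have hs := (hmemF s).1 s.2
    exact StdP.exists_bx hN hn hs.1 ((hQlt s hs).le.trans hD)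
  choose q hq using hq
  set bs : F → BB v := fun s => AdjoinRoot.mk (ff v) (mo K (q s)) with hbs
  have hcfb : ∀ s : F, W.cf (bs s) = X ^ (s : ℕ) := by
    intro s
    rw [hW, hbs]
    simp only
    rw [StdP.cf_mo hpol hN hn hc v (q s), hq s]
  have hcomb : ∀ c : F → K, W.cf (∑ s, c s • bs s) = ∑ s : F, C (c s) * X ^ (s : ℕ) := by
    intro c
    rw [map_sum]
    refine Finset.sum_congr rfl fun s _ => ?_
    rw [map_smul, hcfb, smul_eq_C_mul]
  have hcoef : ∀ (c : F → K) (s : F), (W.cf (∑ s, c s • bs s)).coeff s = c s := by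
    intro c s
    rw [hcomb, finsetSum_coeff, Finset.sum_eq_single s]
    · rw [coeff_C_mul, coeff_X_pow, if_pos rfl, mul_one]
    · intro b _ hb
      rw [coeff_C_mul, coeff_X_pow, if_neg, mul_zero]
      exact fun h => hb (Subtype.ext h.symm)
    · intro h
      exact absurd (Finset.mem_univ s) h
  have hcoef' : ∀ (c : F → K) (u : ℕ), (W.cf (∑ s, c s • bs s)).coeff u ≠ 0 → u ∈ F := by
    intro c u hu
    by_contra hcon
    apply hu
    rw [hcomb, finsetSum_coeff]
    refine Finset.sum_eq_zero fun s _ => ?_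
    rw [coeff_C_mul, coeff_X_pow, if_neg, mul_zero]
    rintro rfl
    exact hcon s.2
  -- independence
  have hind : ∀ c : F → K, ∑ s, c s • bs s ∈ 𝔞 → c = 0 := by
    intro c hc𝔞
    by_contra hcon
    have h1 : ∑ s, c s • bs s ≠ 0 := by
      intro h0
      apply hcon
      funext s
      rw [← hcoef c s, h0, map_zero, coeff_zero]
      rfl
    have h2 : W.cf (∑ s, c s • bs s) ≠ 0 := fun h => h1 (hcf0 _ h)
    have h3 : (W.cf (∑ s, c s • bs s)).coeff (W.cf (∑ s, c s • bs s)).natDegree ≠ 0 := by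
      rw [coeff_natDegree]
      exact leadingCoeff_ne_zero.2 h2
    exact ((hmemF _).1 (hcoef' c _ h3)).2 _ hc𝔞 h1 rfl
  -- generation
  have hgen : ∀ d : ℕ, ∀ b : BB v, (W.cf b).degree < (d : ℕ) →
      ∃ c : F → K, b - ∑ s, c s • bs s ∈ 𝔞 := by
    intro d
    induction d with
    | zero =>
      intro b hb
      have h1 : W.cf b = 0 := by
        rw [← degree_eq_bot]
        rwa [Nat.cast_zero, Nat.WithBot.lt_zero_iff] at hb
      refine ⟨0, ?_⟩
      rw [hcf0 b h1]
      simp
    | succ d ih =>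
      intro b hb
      have hlow : ∀ b' : BB v, (W.cf b').degree < ((d + 1 : ℕ) : WithBot ℕ) →
          (W.cf b').coeff d = 0 → (W.cf b').degree < (d : ℕ) := by
        intro b' hb' hcd
        rw [degree_lt_iff_coeff_zero] at hb' ⊢
        intro m hm
        rcases Nat.eq_or_lt_of_le hm with h | h
        · rw [← h]; exact hcd
        · exact hb' m h
      by_cases hcd : (W.cf b).coeff d = 0
      · exact ih b (hlow b hb hcd)
      · have hdS : d ∈ Sg N n := W.supp b d hcd
        by_cases hQd : Q d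
        · have hdF : d ∈ F := (hmemF d).2 hQd
          have h1 : (W.cf (b - (W.cf b).coeff d • bs ⟨d, hdF⟩)).degree <
              ((d + 1 : ℕ) : WithBot ℕ) := by
            rw [map_sub, map_smul, hcfb]
            refine (degree_sub_le _ _).trans_lt (max_lt hb ?_)
            rw [smul_eq_C_mul]
            refine (degree_C_mul_X_pow_le _ _).trans_lt ?_
            exact_mod_cast Nat.lt_succ_self d
          have h2 : (W.cf (b - (W.cf b).coeff d • bs ⟨d, hdF⟩)).coeff d = 0 := by
            rw [map_sub, map_smul, hcfb, coeff_sub, coeff_smul, coeff_X_pow, if_pos rfl,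
              smul_eq_mul, mul_one, sub_self]
          obtain ⟨c, hc2⟩ := ih _ (hlow _ h1 h2)
          refine ⟨c + Pi.single ⟨d, hdF⟩ ((W.cf b).coeff d), ?_⟩
          have h3 : ∑ s : F, (c + Pi.single (⟨d, hdF⟩ : F) ((W.cf b).coeff d) : F → K) s • bs s =
              ∑ s, c s • bs s + (W.cf b).coeff d • bs ⟨d, hdF⟩ := by
            simp only [Pi.add_apply, add_smul, Finset.sum_add_distrib]
            congr 1
            rw [Finset.sum_eq_single (⟨d, hdF⟩ : F)]
            · rw [Pi.single_eq_same]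
            · intro b' _ hb'
              rw [Pi.single_eq_of_ne hb', zero_smul]
            · intro h
              exact absurd (Finset.mem_univ _) h
          rw [h3]
          have h4 : b - (∑ s, c s • bs s + (W.cf b).coeff d • bs ⟨d, hdF⟩) =
              b - (W.cf b).coeff d • bs ⟨d, hdF⟩ - ∑ s, c s • bs s := by abel
          rw [h4]
          exact hc2
        · have hex : ∃ β ∈ 𝔞, β ≠ 0 ∧ (W.cf β).natDegree = d := by
            by_contra hcon
            push Not at hcon
            exact hQd ⟨hdS, hcon⟩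
          obtain ⟨β, hβ, hβ0, hβd⟩ := hex
          have hlc : (W.cf β).coeff d ≠ 0 := by
            rw [← hβd, coeff_natDegree]
            exact leadingCoeff_ne_zero.2 fun h => hβ0 (hcf0 _ h)
          set a : K := (W.cf b).coeff d / (W.cf β).coeff d with ha
          have h1 : (W.cf (b - a • β)).degree < ((d + 1 : ℕ) : WithBot ℕ) := by
            rw [map_sub, map_smul]
            refine (degree_sub_le _ _).trans_lt (max_lt hb ?_)
            refine (degree_smul_le _ _).trans_lt ?_
            refine degree_le_natDegree.trans_lt ?_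
            rw [hβd]
            exact_mod_cast Nat.lt_succ_self d
          have h2 : (W.cf (b - a • β)).coeff d = 0 := by
            rw [map_sub, map_smul, coeff_sub, coeff_smul, smul_eq_mul, ha, div_mul_cancel₀ _ hlc,
              sub_self]
          obtain ⟨c, hc2⟩ := ih _ (hlow _ h1 h2)
          refine ⟨c, ?_⟩
          have h4 : b - ∑ s, c s • bs s = (b - a • β - ∑ s, c s • bs s) + a • β := by abel
          rw [h4]
          refine 𝔞.add_mem hc2 ?_
          rw [Algebra.smul_def]
          exact 𝔞.mul_mem_left _ hβ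
  have hgen' : ∀ b : BB v, ∃ c : F → K, b - ∑ s, c s • bs s ∈ 𝔞 := by
    intro b
    refine hgen ((W.cf b).natDegree + 1) b ?_
    refine degree_le_natDegree.trans_lt ?_
    exact_mod_cast Nat.lt_succ_self _
  -- the dimension
  set Ψ : (F → K) →ₗ[K] (BB v ⧸ 𝔞) :=
    Fintype.linearCombination K (fun s => Ideal.Quotient.mkₐ K 𝔞 (bs s)) with hΨ
  have hΨa : ∀ c : F → K, Ψ c = Ideal.Quotient.mkₐ K 𝔞 (∑ s, c s • bs s) := by
    intro c
    rw [hΨ, Fintype.linearCombination_apply, map_sum]
    exact Finset.sum_congr rfl fun s _ => (map_smul _ _ _).symm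
  have hbij : Function.Bijective Ψ := by
    constructor
    · rw [← LinearMap.ker_eq_bot, LinearMap.ker_eq_bot']
      intro c hc0
      rw [hΨa] at hc0
      exact hind c (Ideal.Quotient.eq_zero_iff_mem.1 hc0)
    · intro x
      obtain ⟨b, rfl⟩ := Ideal.Quotient.mk_surjective x
      obtain ⟨c, hc1⟩ := hgen' b
      refine ⟨c, ?_⟩
      rw [hΨa]
      exact (Ideal.Quotient.eq.2 hc1).symm
  have hcard : Fintype.card F = (p - 1) * r := by
    have h1 := (LinearEquiv.ofBijective Ψ hbij).finrank_eq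
    rw [finrank_fintype_fun_eq_card] at h1
    rw [h1]
    exact hmin.rk'
  set e : Fin ((p - 1) * r) ≃ F := (Fintype.equivFinOfCardEq hcard).symm with he
  have h0F : 0 ∈ F := (hmemF 0).2 (hQlow 0 (Sg N n).zero_mem hpr)
  refine ⟨fun m => q (e m), e.symm ⟨0, h0F⟩, ?_, ?_, ?_⟩
  · refine ⟨?_, ?_, ?_, ?_⟩
    · have h1 : wt N n (q (e (e.symm ⟨0, h0F⟩))) = 0 := by
        rw [hq, Equiv.apply_symm_apply]
      have h2 : n * ((q (e (e.symm ⟨0, h0F⟩))).1 : ℕ) +
        N * ((q (e (e.symm ⟨0, h0F⟩))).2 : ℕ) = 0 := h1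
      rw [Nat.add_eq_zero_iff, Nat.mul_eq_zero, Nat.mul_eq_zero] at h2
      exact ⟨h2.1.resolve_left (by omega), h2.2.resolve_left (by omega)⟩
    · intro q' hq'
      have h1 : wt N n q' ∈ F := (hmemF _).2 (hQlow _ (StdP.wt_mem N n q') hq')
      refine ⟨e.symm ⟨_, h1⟩, StdP.wt_inj hgap hN hn hc ?_⟩
      rw [hq, Equiv.apply_symm_apply]
    · have h1 : p * r ∈ Sg N n := by
        refine W.supp α _ ?_
        rw [← hmin.deg, coeff_natDegree, hmin.monic.leadingCoeff]
        exact one_ne_zero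
      exact StdP.exists_bx hN hn h1 (by omega)
    · omega
  · intro m
    rw [hq]
    exact (hQlt _ ((hmemF _).1 (e m).2)).le
  · intro b
    have hmk : ∀ c : Fin ((p - 1) * r) → K,
        AdjoinRoot.mk (ff v) (∑ m, C (C (c m)) * mo K (q (e m))) =
          ∑ s : F, c (e.symm s) • bs s := by
      intro c
      rw [map_sum, ← Equiv.sum_comp e]
      refine Finset.sum_congr rfl fun m _ => ?_
      rw [Equiv.symm_apply_apply, map_mul, Algebra.smul_def]
      rfl
    obtain ⟨c, hc1⟩ := hgen' b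
    refine ⟨fun m => c (e m), ?_, ?_⟩
    · simp only
      rw [hmk]
      simp only [Equiv.apply_symm_apply]
      exact hc1
    · intro c' hc'
      simp only at hc'
      rw [hmk] at hc'
      have h1 : ∑ s : F, (c - fun s => c' (e.symm s)) s • bs s ∈ 𝔞 := by
        have h2 : ∑ s : F, (c - fun s => c' (e.symm s)) s • bs s =
            (b - ∑ s : F, c' (e.symm s) • bs s) - (b - ∑ s, c s • bs s) := by
          simp only [Pi.sub_apply, sub_smul, Finset.sum_sub_distrib]
          abel
        rw [h2]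
        exact 𝔞.sub_mem hc' hc1
      have h3 := hind _ h1
      funext m
      have h4 := congrFun h3 (e m)
      rw [Pi.sub_apply, Equiv.symm_apply_apply, Pi.zero_apply, sub_eq_zero] at h4
      exact h4.symm

end Pool.Agent.NH7.AC
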