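import Pool.Agent.NH7.AC.StmTr
import Pool.Agent.R939.HI.Trans2

/-!
# Project AC: the transfer for natural systems of equations
-/

set_option autoImplicit false
set_option linter.all false

namespace Pool.Agent.NH7.AC

open MvPolynomial Pool.Agent.W275.UB Pool.Agent.W275.ND Pool.Agent Pool.Agent.H927R2.RD
open Pool.Agent.R939.HI

namespace TrP

/-- an order embeds in the `p`-adic integers for some prime `p` different from `ℓ` -/
theorem splℓ (ℓ : ℕ) (O J : Type) [CommRing O] [IsDomain O] [Fintype J] (ω : Module.Basis J ℤ O) :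
    ∃ (p : ℕ) (_ : Fact p.Prime), p ≠ ℓ ∧ Nonempty (O →+* ℤ_[p]) := by
  classical
  have hfree : Module.Free ℤ O := Module.Free.of_basis ω
  have hfin : Module.Finite ℤ O := Module.Finite.of_basis ω
  have hint : Algebra.IsIntegral ℤ O := Algebra.IsIntegral.of_finite ℤ O
  let σ : O →ₐ[ℤ] ℂ := IsAlgClosed.lift
  set s : Finset ℂ := Finset.univ.image (fun j => σ (ω j)) with hs
  obtain ⟨K, hK, hK', S, h⟩ := exists_padic_embedding s
  obtain ⟨p, hpS', hp⟩ := W930.ND.exists_degOne K (insert ℓ S)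
  have hpS : p ∉ S := fun h => hpS' (Finset.mem_insert_of_mem h)
  have hp2 : p ≠ ℓ := fun h => hpS' (by rw [h]; exact Finset.mem_insert_self _ _)
  have hpp : Fact p.Prime := ⟨hp.1⟩
  obtain ⟨e⟩ := h p hpS hp
  refine ⟨p, hpp, hp2, ?_⟩
  have hmem : ∀ x : O, σ x ∈ Subfield.closure (s : Set ℂ) := by
    intro x
    rw [← ω.sum_repr x, map_sum]
    refine sum_mem fun j _ => ?_
    rw [map_zsmul]
    refine zsmul_mem (Subfield.subset_closure ?_) _
    rw [hs]
    simp
  let τ : O →+* Subfield.closure (s : Set ℂ) := (σ : O →+* ℂ).codRestrict _ hmem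
  let g : O →+* ℚ_[p] := e.comp τ
  have hg : ∀ x : O, g x ∈ PadicInt.subring p := by
    intro x
    have h1 : IsIntegral ℤ (g x) := (hint.isIntegral x).map g.toIntAlgHom
    have h2 : IsIntegral ℤ_[p] (g x) := h1.tower_top
    obtain ⟨y, hy⟩ := IsIntegrallyClosed.isIntegral_iff.1 h2
    rw [← hy]
    exact y.2
  exact ⟨g.codRestrict (PadicInt.subring p) hg⟩

section eqs

variable {ι τ J T : Type} [Fintype J]

/-- the generic parameters -/
noncomputable def v0 (ι τ J : Type) [Fintype J] :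
    ι → MvPolynomial (J ⊕ τ) (MvPolynomial (ι × J) ℤ) :=
  fun i => ∑ j, X (Sum.inl j) * C (X (i, j))

/-- the unknowns -/
noncomputable def y0 (ι τ J : Type) : τ → MvPolynomial (J ⊕ τ) (MvPolynomial (ι × J) ℤ) :=
  fun s => X (Sum.inr s)

theorem eval_z (z : ∀ (R : Type) [CommRing R], (ι → R) → (τ → R) → T → R)
    (hz : ∀ (R R' : Type) [CommRing R] [CommRing R'] (φ : R →+* R') (v : ι → R) (y : τ → R) (t : T),
      φ (z R v y t) = z R' (fun i => φ (v i)) (fun i => φ (y i)) t)
    {R : Type} [CommRing R] (φ : MvPolynomial (ι × J) ℤ →+* R) (y : J ⊕ τ → R) (t : T) :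
    eval₂ φ y (z _ (v0 ι τ J) (y0 ι τ J) t) =
      z R (cv (fun j => y (Sum.inl j)) fun q => φ (X q)) (fun s => y (Sum.inr s)) t := by
  rw [← coe_eval₂Hom, hz]
  congr 1
  · funext i
    simp [v0, cv]
  · funext s
    simp [y0]

end eqs

end TrP

open TrP in
theorem s_tr : S_tr := by
  classical
  intro ι τ _ _ Q ⟨T, z, hz, hQ⟩ halg ℓ M a hloc O J _ _ _ ω
  by_contra hcon
  have hcon' : ¬ (∀ ε : ℝ, 0 < ε → UD ε {x : ι × J → ℤ |
      ∃ (K : Type) (_ : Field K) (_ : NumberField K) (y : J ⊕ τ → K),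
        Module.finrank ℚ K ≤ Fintype.card J ∧
        (∀ g ∈ gTT τ ω ι ∪ Set.range (fun t : T => z _ (v0 ι τ J) (y0 ι τ J) t),
          eval₂ ((Int.castRingHom K).comp (eval x)) y g = 0) ∧
        eval₂ ((Int.castRingHom K).comp (eval x)) y 1 ≠ 0}) := by
    intro h
    apply hcon
    intro ε hε
    refine (h ε hε).mono ?_
    rintro x ⟨K, _, _, σ, y, hK, hy⟩
    have hx : ∀ q : ι × J, ((Int.castRingHom K).comp (eval x)) (X q) = (x q : K) := by
      intro q
      simp
    refine ⟨K, inferInstance, inferInstance, Sum.elim (fun j => σ (ω j)) y, hK, ?_, ?_⟩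
    · rintro f (hf | ⟨t, rfl⟩)
      · exact (eval_gTT _ ω _ _).2 ((tab O J K ω _).2 ⟨σ, fun j => rfl⟩) f hf
      · rw [eval_z z hz]
        simp only [hx, Sum.elim_inl, Sum.elim_inr]
        exact (hQ K _ _).1 hy t
    · rw [eval₂_one]
      exact one_ne_zero
  have hne' : ∀ (Ω : Type) [Field Ω] [Algebra (EE (ι × J)) Ω] (σ : O →+* Ω)
      (c : MvPolynomial ι ℤ), c ≠ 0 →
      av (cv (fun j => σ (ω j)) fun q => gn (ι × J) Ω (X q)) c ≠ 0 := by
    intro Ω _ _ σ c hc
    obtain ⟨cn, hcn, hdiv⟩ := norm O J ι ω c hc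
    have h3 := hdiv Ω σ fun q => gn (ι × J) Ω (X q)
    rw [gn_aeval] at h3
    have h4 := ne_zero_of_dvd_ne_zero (gn_ne_zero cn hcn) h3
    rw [av_aeval]
    exact h4
  obtain ⟨L, _, _, y, hfd, hdeg, hy, -⟩ := genT (ι × J) (J ⊕ τ) (Fintype.card J)
    (gTT τ ω ι ∪ Set.range (fun t : T => z _ (v0 ι τ J) (y0 ι τ J) t)) 1 (by
      intro Ω _ _ _ y hy
      obtain ⟨σ, hσ⟩ := (tab O J Ω ω _).1 ((eval_gTT _ ω _ _).1 fun g hg => hy g (Or.inl hg))
      have h1 : Q Ω (cv (fun j => y (Sum.inl j)) fun q => gn (ι × J) Ω (X q))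
          (fun s => y (Sum.inr s)) := by
        rw [hQ]
        intro t
        rw [← eval_z z hz]
        exact hy _ (Or.inr ⟨t, rfl⟩)
      set v : ι → Ω := cv (fun j => y (Sum.inl j)) fun q => gn (ι × J) Ω (X q) with hv
      have hint : ∀ x : O, IsIntegral ℤ (σ x) := by
        intro x
        haveI : Module.Finite ℤ O := Module.Finite.of_basis ω
        have h1 : IsIntegral ℤ x := Algebra.IsIntegral.isIntegral x
        have h2 := h1.map (σ.toIntAlgHom)
        exact h2
      have hz' : ∀ j, IsAlgebraic (EE (ι × J)) (y (Sum.inl j)) := by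
        intro j
        rw [show y (Sum.inl j) = σ (ω j) from hσ j]
        obtain ⟨p, hp, hpx⟩ := hint (ω j)
        refine IsIntegral.isAlgebraic
          ⟨p.map (Int.castRingHom (EE (ι × J))), hp.map _, ?_⟩
        rw [Polynomial.eval₂_map]
        have h2 : (algebraMap (EE (ι × J)) Ω).comp
            (Int.castRingHom (EE (ι × J))) = algebraMap ℤ Ω := RingHom.ext_int _ _
        rw [h2]
        exact hpx
      have hvalg : ∀ i, IsAlgebraic (EE (ι × J)) (v i) := by
        intro i
        rw [hv]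
        simp only [cv]
        refine Finset.sum_induction _ (IsAlgebraic (EE (ι × J))) (fun _ _ => IsAlgebraic.add)
          isAlgebraic_zero ?_
        intro j _
        exact (hz' j).mul (isAlgebraic_algebraMap _)
      have hne : ∀ c : MvPolynomial ι ℤ, c ≠ 0 → avv v c ≠ 0 := by
        intro c hc
        have h5 : (fun j => y (Sum.inl j)) = fun j => σ (ω j) := funext hσ
        have h6 := hne' Ω σ c hc
        rw [← h5] at h6
        exact h6
      haveI : CharZero (EE (ι × J)) := by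
        have hinj : Function.Injective (algebraMap (MvPolynomial (ι × J) ℤ) (EE (ι × J))) :=
          IsFractionRing.injective _ _
        exact charZero_of_injective_algebraMap hinj
      have h2 := halg (EE (ι × J)) Ω v (fun s => y (Sum.inr s)) hvalg hne h1
      intro t
      rcases t with j | s
      · exact hz' j
      · exact h2 s) hcon'
  haveI := hfd
  obtain ⟨σ, hσ⟩ := (tab O J L ω _).1 ((eval_gTT _ ω _ _).1 fun g hg => hy g (Or.inl hg))
  have hσ' : (fun j => y (Sum.inl j)) = fun j => σ (ω j) := funext hσ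
  obtain ⟨p, hp, hp2, ⟨σ₀⟩⟩ := splℓ ℓ O J ω
  have hJ : 0 < Fintype.card J := by
    rw [Fintype.card_pos_iff]
    by_contra hemp
    rw [not_nonempty_iff] at hemp
    have : Subsingleton O := ω.repr.toEquiv.subsingleton
    exact not_subsingleton O this
  obtain ⟨K', _, φ, A, _, _, _, _, _, π, b, hπ, hπp, hπN, hb, hba⟩ :=
    lmk O J ω p σ₀ ι (a p) 0 M 2 L σ (by omega)
  have hb' : (fun i => algebraMap A K' (b i)) =
      fun i => φ (cv (fun j => σ (ω j)) (fun q => gn (ι × J) L (X q)) i) := by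
    funext i
    rw [hb i, pow_zero, one_mul]
  refine hloc p hp.1 hp2 K' A π hπ hπp hπN b hba ?_ (fun s => φ (y (Sum.inr s))) ?_
  · intro c hc
    rw [hb']
    have h3 := congrArg (fun f => f c) (hom_av φ
      (cv (fun j => σ (ω j)) (fun q => gn (ι × J) L (X q))))
    have h4 : avv (fun i => φ (cv (fun j => σ (ω j)) (fun q => gn (ι × J) L (X q)) i)) c =
        φ (av (cv (fun j => σ (ω j)) (fun q => gn (ι × J) L (X q))) c) := h3.symm
    rw [h4]
    exact (map_ne_zero φ).2 (hne' L σ c hc)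
  · rw [hb', hQ]
    intro t
    rw [← hz]
    have h5 : z L (cv (fun j => y (Sum.inl j)) fun q => gn (ι × J) L (X q))
        (fun s => y (Sum.inr s)) t = 0 := by
      rw [← eval_z z hz]
      exact hy _ (Or.inr ⟨t, rfl⟩)
    rw [hσ'] at h5
    rw [h5, map_zero]

end Pool.Agent.NH7.AC
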