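import Pool.Agent.NH7.AC.Stms

/-!
# Project AC: basic facts on reduction
-/

set_option autoImplicit false

namespace Pool.Agent.NH7.AC.TriP

open Polynomial Module

theorem exists_cf {S : AddSubmonoid ℕ} {R B : Type} [CommRing R] [CommRing B] [Algebra R B]
    (W : Wt S R B) (P : R[X]) (hP : ∀ s, P.coeff s ≠ 0 → s ∈ S) : ∃ a, W.cf a = P := by
  classical
  have h1 : ∀ s : ℕ, ∃ a, W.cf a = C (P.coeff s) * X ^ s := by
    intro s
    by_cases hs : P.coeff s = 0
    · exact ⟨0, by rw [map_zero, hs, C_0, zero_mul]⟩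
    · obtain ⟨a, ha⟩ := W.surj s (hP s hs)
      exact ⟨P.coeff s • a, by rw [map_smul, ha, smul_eq_C_mul]⟩
  choose a ha using h1
  refine ⟨∑ s ∈ P.support, a s, ?_⟩
  rw [map_sum]
  conv_rhs => rw [P.as_sum_support_C_mul_X_pow]
  exact Finset.sum_congr rfl fun s _ => ha s

theorem cf_algebraMap {S : AddSubmonoid ℕ} {R B : Type} [CommRing R] [CommRing B] [Algebra R B]
    (W : Wt S R B) (c : R) : W.cf (algebraMap R B c) = C c := by
  rw [Algebra.algebraMap_eq_smul_one, map_smul, W.one, smul_eq_C_mul, mul_one]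

theorem cf_algebraMap_mul {S : AddSubmonoid ℕ} {R B : Type} [CommRing R] [CommRing B]
    [Algebra R B] (W : Wt S R B) (c : R) (a : B) :
    W.cf (algebraMap R B c * a) = C c * W.cf a := by
  rw [← Algebra.smul_def, map_smul, smul_eq_C_mul]

end Pool.Agent.NH7.AC.TriP

namespace Pool.Agent.NH7.AC

open Polynomial Module TriP

theorem s_tri (hdom : S_dom) : S_tri := by
  intro S V k κ O B Bb _ _ _ _ _ _ _ _ _ _ _ _ _ T
  classical
  haveI := (hdom S k B T.Wk).1
  haveI := (hdom S κ Bb T.Wb).1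
  have hVk := IsFractionRing.injective V k
  have hinj : Function.Injective T.ι := by
    intro a b h
    apply T.W.inj
    apply map_injective _ hVk
    rw [← T.hι, ← T.hι, h]
  have hsurj : Function.Surjective T.ρ := by
    intro b
    choose c hc using T.rsurj
    let P : V[X] := ∑ s ∈ (T.Wb.cf b).support, C (c ((T.Wb.cf b).coeff s)) * X ^ s
    have hP : ∀ s, P.coeff s = if s ∈ (T.Wb.cf b).support then c ((T.Wb.cf b).coeff s) else 0 := by
      intro s
      simp only [P, finset_sum_coeff, coeff_C_mul, coeff_X_pow, mul_ite, mul_one, mul_zero]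
      rw [Finset.sum_ite_eq]
    obtain ⟨a, ha⟩ := exists_cf T.W P (by
      intro s hs
      rw [hP] at hs
      split_ifs at hs with h
      · exact T.Wb.supp b s (mem_support_iff.1 h)
      · exact absurd rfl hs)
    refine ⟨a, T.Wb.inj ?_⟩
    rw [T.hρ, ha]
    ext s
    rw [coeff_map, hP]
    split_ifs with h
    · exact hc _
    · rw [map_zero]
      exact (notMem_support_iff.1 h).symm
  have h4 : ∀ c : V, T.ι (algebraMap V O c) = algebraMap k B (algebraMap V k c) := by
    intro c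
    apply T.Wk.inj
    rw [T.hι, cf_algebraMap, cf_algebraMap, map_C]
  have h5 : ∀ c : V, T.ρ (algebraMap V O c) = algebraMap κ Bb (T.r c) := by
    intro c
    apply T.Wb.inj
    rw [T.hρ, cf_algebraMap, cf_algebraMap, map_C]
  have h6 : ∀ a : O, (T.Wk.cf (T.ι a)).natDegree = (T.W.cf a).natDegree := by
    intro a
    rw [T.hι, natDegree_map_eq_of_injective hVk]
  have h7 : ∀ a : O, (T.Wb.cf (T.ρ a)).natDegree ≤ (T.W.cf a).natDegree := by
    intro a
    rw [T.hρ]
    exact natDegree_map_le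
  have hker : ∀ (ϖ c : V), Irreducible ϖ → T.r c = 0 → ϖ ∣ c := by
    intro ϖ c hϖ hc
    rw [T.rker] at hc
    have h := (IsDiscreteValuationRing.irreducible_iff_uniformizer ϖ).1 hϖ
    rw [← Ideal.mem_span_singleton, ← h, IsLocalRing.mem_maximalIdeal]
    exact hc
  have h8 : ∀ (ϖ : V) (a : O), Irreducible ϖ → T.ρ a = 0 → ∃ b, a = algebraMap V O ϖ * b := by
    intro ϖ a hϖ ha
    have h1 : ∀ s, ϖ ∣ (T.W.cf a).coeff s := by
      intro s
      apply hker ϖ _ hϖ
      rw [← coeff_map, ← T.hρ, ha, map_zero, coeff_zero]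
    obtain ⟨g, hg⟩ := (C_dvd_iff_dvd_coeff ϖ _).2 h1
    obtain ⟨b, hb⟩ := exists_cf T.W g (by
      intro s hs
      refine T.W.supp a s ?_
      rw [hg, coeff_C_mul]
      exact mul_ne_zero hϖ.ne_zero hs)
    exact ⟨b, T.W.inj (by rw [cf_algebraMap_mul, hb, hg])⟩
  obtain ⟨ϖ, hϖ⟩ := IsDiscreteValuationRing.exists_irreducible V
  have hϖk : algebraMap V k ϖ ≠ 0 := by
    intro h0
    exact hϖ.ne_zero (hVk (by rw [h0, map_zero]))
  have hdiv : ∀ α : O, α ≠ 0 → ∃ (m : ℕ) (β : O), α = algebraMap V O ϖ ^ m * β ∧ T.ρ β ≠ 0 := by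
    intro α hα
    by_contra hcon
    push Not at hcon
    have hall : ∀ m : ℕ, ∃ β, α = algebraMap V O ϖ ^ m * β := by
      intro m
      induction m with
      | zero => exact ⟨α, by rw [pow_zero, one_mul]⟩
      | succ m ih =>
        obtain ⟨β, hβ⟩ := ih
        obtain ⟨b, hb⟩ := h8 ϖ β hϖ (hcon m β hβ)
        exact ⟨b, by rw [hβ, hb, pow_succ, mul_assoc]⟩
    have hcf : T.W.cf α ≠ 0 := fun h => hα (T.W.inj (h.trans (map_zero _).symm))
    have hlc := leadingCoeff_ne_zero.2 hcf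
    have hdvd : ∀ m : ℕ, ϖ ^ m ∣ (T.W.cf α).leadingCoeff := by
      intro m
      obtain ⟨β, hβ⟩ := hall m
      refine ⟨(T.W.cf β).coeff (T.W.cf α).natDegree, ?_⟩
      have h1 : T.W.cf α = C (ϖ ^ m) * T.W.cf β := by
        conv_lhs => rw [hβ]
        rw [← map_pow, cf_algebraMap_mul]
      unfold leadingCoeff
      conv_lhs => rw [h1]
      rw [coeff_C_mul, ← h1]
    obtain ⟨m, hm⟩ := IsDiscreteValuationRing.associated_pow_irreducible hlc hϖ
    have h2 := (hdvd (m + 1)).trans hm.dvd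
    have h3 := (pow_dvd_pow_iff hϖ.ne_zero hϖ.not_isUnit).1 h2
    omega
  have h9 : ∀ a : B, a ≠ 0 → ∃ (c : k) (α : O), c ≠ 0 ∧ a = algebraMap k B c * T.ι α ∧
      T.ρ α ≠ 0 := by
    intro a ha
    obtain ⟨d, hd⟩ := IsLocalization.exist_integer_multiples_of_finset (nonZeroDivisors V)
      ((T.Wk.cf a).support.image (T.Wk.cf a).coeff)
    have hd0 : (d : V) ≠ 0 := nonZeroDivisors.ne_zero d.2
    have hdk : algebraMap V k d ≠ 0 := by
      intro h0
      exact hd0 (hVk (by rw [h0, map_zero]))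
    have hint : ∀ s, ∃ c : V, algebraMap V k c = algebraMap V k d * (T.Wk.cf a).coeff s := by
      intro s
      by_cases hs : (T.Wk.cf a).coeff s = 0
      · exact ⟨0, by rw [hs, mul_zero, map_zero]⟩
      · obtain ⟨c, hc⟩ := hd _ (Finset.mem_image_of_mem _ (mem_support_iff.2 hs))
        exact ⟨c, by rw [hc, Algebra.smul_def]⟩
    choose c hc using hint
    let P : V[X] := ∑ s ∈ (T.Wk.cf a).support, C (c s) * X ^ s
    have hP : P.map (algebraMap V k) = C (algebraMap V k d) * T.Wk.cf a := by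
      simp only [P, Polynomial.map_sum, Polynomial.map_mul, map_C, Polynomial.map_pow, map_X]
      conv_rhs => rw [(T.Wk.cf a).as_sum_support_C_mul_X_pow]
      rw [Finset.mul_sum]
      refine Finset.sum_congr rfl fun s _ => ?_
      rw [hc, C_mul, mul_assoc]
    obtain ⟨β, hβ⟩ := exists_cf T.W P (by
      intro s hs
      refine T.Wk.supp a s ?_
      intro h0
      apply hs
      apply hVk
      rw [← coeff_map, hP, coeff_C_mul, h0, mul_zero, map_zero])
    have h1 : T.ι β = algebraMap k B (algebraMap V k d) * a := by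
      apply T.Wk.inj
      rw [T.hι, hβ, hP, cf_algebraMap_mul]
    have hβ0 : β ≠ 0 := by
      rintro rfl
      rw [map_zero] at h1
      have h2 : algebraMap k B (algebraMap V k d) ≠ 0 := by
        rw [Ne, map_eq_zero_iff _ (algebraMap k B).injective]
        exact hdk
      exact (mul_ne_zero h2 ha) h1.symm
    obtain ⟨m, γ, hγ, hγ0⟩ := hdiv β hβ0
    refine ⟨(algebraMap V k d)⁻¹ * algebraMap V k ϖ ^ m, γ,
      mul_ne_zero (inv_ne_zero hdk) (pow_ne_zero _ hϖk), ?_, hγ0⟩
    have h3 : a = algebraMap k B (algebraMap V k d)⁻¹ * T.ι β := by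
      rw [h1, ← mul_assoc, ← map_mul, inv_mul_cancel₀ hdk, map_one, one_mul]
    conv_lhs => rw [h3, hγ]
    rw [map_mul, map_pow, h4, map_mul, map_pow, mul_assoc]
  refine ⟨hinj.isDomain T.ι, hinj, hsurj, h4, h5, h6, h7, h8, h9, ?_⟩
  intro α w x hα hx
  by_cases hx0 : x = 0
  · exact ⟨0, by rw [hx0, map_zero]⟩
  obtain ⟨c, x', hc0, hcx, hx'⟩ := h9 x hx0
  obtain ⟨a, b, hb, hab⟩ := IsFractionRing.div_surjective (A := V) c
  have hb0 : b ≠ 0 := nonZeroDivisors.ne_zero hb
  have hbk : algebraMap V k b ≠ 0 := by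
    intro h0
    exact hb0 (hVk (by rw [h0, map_zero]))
  have ha0 : a ≠ 0 := by
    rintro rfl
    rw [map_zero, zero_div] at hab
    exact hc0 hab.symm
  obtain ⟨m, hm⟩ := IsDiscreteValuationRing.associated_pow_irreducible ha0 hϖ
  obtain ⟨l, hl⟩ := IsDiscreteValuationRing.associated_pow_irreducible hb0 hϖ
  -- `b w = a α x'`
  have h1 : algebraMap V O b * w = algebraMap V O a * (α * x') := by
    apply hinj
    rw [map_mul, map_mul, map_mul, h4, h4, ← hx, hcx, ← hab, div_eq_mul_inv, map_mul]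
    have h2 : algebraMap k B (algebraMap V k b) * algebraMap k B (algebraMap V k b)⁻¹ = 1 := by
      rw [← map_mul, mul_inv_cancel₀ hbk, map_one]
    linear_combination (T.ι α * algebraMap k B (algebraMap V k a) * T.ι x') * h2
  have hlm : l ≤ m := by
    by_contra hlt
    push Not at hlt
    obtain ⟨u, hu⟩ := hm
    obtain ⟨u', hu'⟩ := hl
    -- a = ϖ^m u⁻¹, b = ϖ^l u'⁻¹
    have ha' : a = ϖ ^ m * (↑u⁻¹ : V) := by rw [← hu, mul_assoc, Units.mul_inv, mul_one]
    have hb' : b = ϖ ^ l * (↑u'⁻¹ : V) := by rw [← hu', mul_assoc, Units.mul_inv, mul_one]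
    have hO : IsDomain O := hinj.isDomain T.ι
    have hϖO : algebraMap V O (ϖ ^ m) ≠ 0 := by
      intro h0
      have h3 := congrArg T.ι h0
      rw [h4, map_zero, map_eq_zero_iff _ (algebraMap k B).injective, map_pow] at h3
      exact pow_ne_zero _ hϖk h3
    have h3 : algebraMap V O (↑u⁻¹ : V) * (α * x') =
        algebraMap V O ϖ * (algebraMap V O (ϖ ^ (l - m - 1) * (↑u'⁻¹ : V)) * w) := by
      apply mul_left_cancel₀ hϖO
      rw [← mul_assoc, ← map_mul, ← ha', ← h1, hb']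
      have h5 : ϖ ^ l = ϖ ^ m * (ϖ * ϖ ^ (l - m - 1)) := by
        rw [← pow_succ', ← pow_add]
        congr 1
        omega
      rw [h5]
      simp only [map_mul]
      ring
    have h6 := congrArg T.ρ h3
    rw [map_mul, map_mul, map_mul, map_mul, h5, h5, h5] at h6
    have h7' : T.r ϖ = 0 := (T.rker ϖ).2 hϖ.not_isUnit
    rw [h7', map_zero, zero_mul] at h6
    have h8' : algebraMap κ Bb (T.r (↑u⁻¹ : V)) ≠ 0 := by
      rw [Ne, map_eq_zero_iff _ (algebraMap κ Bb).injective]
      exact (u⁻¹.isUnit.map T.r).ne_zero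
    exact mul_ne_zero h8' (mul_ne_zero hα hx') h6
  have hba : b ∣ a := hl.dvd.trans ((pow_dvd_pow _ hlm).trans hm.symm.dvd)
  obtain ⟨e, rfl⟩ := hba
  refine ⟨algebraMap V O e * x', ?_⟩
  rw [hcx, ← hab, map_mul, map_mul, h4, mul_div_assoc, mul_comm (algebraMap V k b),
    div_mul_cancel₀ _ hbk]

end Pool.Agent.NH7.AC
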