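import Pool.Agent.NH7.AC.Stms

/-!
# Project AC, A1: the weighted algebra of the curve (helper39)
-/

set_option autoImplicit false

namespace Pool.Agent.NH7.AC

open Polynomial Module

namespace WtB

section

variable {R : Type} [CommRing R]

/-- `x = α τ ^ n`, `t = β τ ^ N` -/
noncomputable def Ph (N n : ℕ) (α β : R) : R[X][X] →+* R[X] :=
  eval₂RingHom (eval₂RingHom C (C β * X ^ N)) (C α * X ^ n)

theorem Ph_mono (N n : ℕ) (α β : R) (i j : ℕ) (c : R) :
    Ph N n α β (monomial i (monomial j c)) = C (c * β ^ j * α ^ i) * X ^ (n * i + N * j) := by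
  unfold Ph
  simp only [coe_eval₂RingHom, eval₂_monomial]
  rw [mul_pow, mul_pow, ← C_pow, ← C_pow, ← pow_mul, ← pow_mul, pow_add, C_mul, C_mul]
  ring

theorem coeff_Ph {N n : ℕ} (hN : 0 < N) (hn : 0 < n) (α β : R) (P : R[X][X]) (s : ℕ) :
    (Ph N n α β P).coeff s = ∑ i ∈ Finset.range (s + 1), ∑ j ∈ Finset.range (s + 1),
      if n * i + N * j = s then (P.coeff i).coeff j * β ^ j * α ^ i else 0 := by
  induction P using Polynomial.induction_on' with
  | add p q hp hq =>
    rw [map_add, coeff_add, hp, hq, ← Finset.sum_add_distrib]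
    refine Finset.sum_congr rfl fun i _ => ?_
    rw [← Finset.sum_add_distrib]
    refine Finset.sum_congr rfl fun j _ => ?_
    split_ifs
    · rw [coeff_add, coeff_add]; ring
    · ring
  | monomial i₀ c =>
    induction c using Polynomial.induction_on' with
    | add p q hp hq =>
      rw [map_add, map_add, coeff_add, hp, hq, ← Finset.sum_add_distrib]
      refine Finset.sum_congr rfl fun i _ => ?_
      rw [← Finset.sum_add_distrib]
      refine Finset.sum_congr rfl fun j _ => ?_
      split_ifs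
      · rw [coeff_add, coeff_add]; ring
      · ring
    | monomial j₀ c =>
      rw [Ph_mono, coeff_C_mul, coeff_X_pow]
      have h1 : ∀ i j : ℕ, (((monomial i₀ (monomial j₀ c) : R[X][X]).coeff i).coeff j) =
          if i = i₀ ∧ j = j₀ then c else 0 := by
        intro i j
        rw [coeff_monomial]
        by_cases h : i₀ = i
        · subst h
          rw [if_pos rfl, coeff_monomial]
          by_cases h' : j₀ = j
          · subst h'
            simp
          · rw [if_neg h', if_neg (fun h2 => h' h2.2.symm)]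
        · rw [if_neg h, coeff_zero, if_neg (fun h2 => h h2.1.symm)]
      simp only [h1]
      by_cases hs : n * i₀ + N * j₀ = s
      · rw [if_pos hs.symm, mul_one]
        have hi : i₀ < s + 1 := by
          have : i₀ ≤ n * i₀ := Nat.le_mul_of_pos_left _ hn
          omega
        have hj : j₀ < s + 1 := by
          have : j₀ ≤ N * j₀ := Nat.le_mul_of_pos_left _ hN
          omega
        rw [Finset.sum_eq_single i₀, Finset.sum_eq_single j₀]
        · rw [if_pos hs, if_pos ⟨rfl, rfl⟩]
        · intro j _ hj'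
          rw [if_neg (fun h2 : i₀ = i₀ ∧ j = j₀ => hj' h2.2)]
          simp
        · intro h
          exact absurd (Finset.mem_range.2 hj) h
        · intro i _ hi'
          refine Finset.sum_eq_zero fun j _ => ?_
          rw [if_neg (fun h2 : i = i₀ ∧ j = j₀ => hi' h2.1)]
          simp
        · intro h
          exact absurd (Finset.mem_range.2 hi) h
      · rw [if_neg (fun h => hs h.symm), mul_zero]
        symm
        refine Finset.sum_eq_zero fun i _ => Finset.sum_eq_zero fun j _ => ?_
        by_cases h2 : i = i₀ ∧ j = j₀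
        · rw [h2.1, h2.2, if_neg hs]
        · rw [if_neg h2]
          simp

theorem cu_eq (N n : ℕ) (P : R[X][X]) : cu N n R P = Ph N n 1 1 P := by
  have h : cu N n R = Ph N n (1 : R) 1 := by
    unfold cu Ph
    congr 1
    · ext a
      · simp
      · simp
    · simp
  rw [h]

/-- the weights are at most `s` -/
def wle (N n : ℕ) (P : R[X][X]) (s : ℕ) : Prop :=
  ∀ i j : ℕ, s < n * i + N * j → (P.coeff i).coeff j = 0

theorem wle_mul {N n : ℕ} {P Q : R[X][X]} {s t : ℕ} (hP : wle N n P s) (hQ : wle N n Q t) :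
    wle N n (P * Q) (s + t) := by
  intro i j hij
  rw [coeff_mul, finsetSum_coeff]
  refine Finset.sum_eq_zero fun p hp => ?_
  rw [coeff_mul]
  refine Finset.sum_eq_zero fun q hq => ?_
  rw [Finset.HasAntidiagonal.mem_antidiagonal] at hp hq
  by_cases h : s < n * p.1 + N * q.1
  · rw [hP _ _ h, zero_mul]
  · rw [hQ p.2 q.2 (by
      have e1 : n * i = n * p.1 + n * p.2 := by rw [← hp, Nat.mul_add]
      have e2 : N * j = N * q.1 + N * q.2 := by rw [← hq, Nat.mul_add]
      omega), mul_zero]

theorem wle_sub {N n : ℕ} {P Q : R[X][X]} {s : ℕ} (hP : wle N n P s) (hQ : wle N n Q s) :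
    wle N n (P - Q) s := by
  intro i j hij
  rw [coeff_sub, coeff_sub, hP i j hij, hQ i j hij, sub_zero]

theorem coeff_term (i₀ j₀ : ℕ) (c : R) (i j : ℕ) :
    ((C (C c * X ^ j₀) * X ^ i₀ : R[X][X]).coeff i).coeff j =
      if i = i₀ ∧ j = j₀ then c else 0 := by
  rw [coeff_C_mul_X_pow]
  by_cases h : i = i₀
  · rw [if_pos h, coeff_C_mul_X_pow]
    by_cases h' : j = j₀
    · rw [if_pos h', if_pos ⟨h, h'⟩]
    · rw [if_neg h', if_neg (fun h2 => h' h2.2)]
  · rw [if_neg h, coeff_zero, if_neg (fun h2 => h h2.1)]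

theorem wle_ff {N n : ℕ} (v : Ix N n → R) : wle N n (ff v) (N * n) := by
  intro i j hij
  unfold ff
  rw [coeff_add, coeff_add, finsetSum_coeff, finsetSum_coeff]
  have h1 : ((X ^ N : R[X][X]).coeff i).coeff j = 0 := by
    have h2 := coeff_term N 0 (1 : R) i j
    rw [pow_zero, mul_one, C_1, C_1, one_mul] at h2
    rw [h2, if_neg]
    rintro ⟨rfl, rfl⟩
    rw [Nat.mul_comm n i] at hij
    omega
  rw [h1, zero_add]
  refine Finset.sum_eq_zero fun q _ => ?_
  rw [coeff_term, if_neg]
  rintro ⟨rfl, rfl⟩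
  have := q.2
  omega

theorem natDegree_Ph_le {N n : ℕ} (hN : 0 < N) (hn : 0 < n) (α β : R) {P : R[X][X]} {s : ℕ}
    (hP : wle N n P s) : (Ph N n α β P).natDegree ≤ s := by
  rw [natDegree_le_iff_coeff_eq_zero]
  intro m hm
  rw [coeff_Ph hN hn]
  refine Finset.sum_eq_zero fun i _ => Finset.sum_eq_zero fun j _ => ?_
  split_ifs with h
  · rw [hP i j (by omega)]
    ring
  · rfl

/-- the coefficient for the polynomials of degree less than `N` -/
theorem coeff_red (hgap : S_gap) {N n : ℕ} (hN : 0 < N) (hn : 0 < n) (hc : N.Coprime n) (α β : R)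
    {P : R[X][X]} (hP : ∀ i, N ≤ i → P.coeff i = 0) {i₀ j₀ : ℕ} (hi₀ : i₀ < N) :
    (Ph N n α β P).coeff (n * i₀ + N * j₀) = (P.coeff i₀).coeff j₀ * β ^ j₀ * α ^ i₀ := by
  rw [coeff_Ph hN hn]
  have hi : i₀ < n * i₀ + N * j₀ + 1 := by
    have : i₀ ≤ n * i₀ := Nat.le_mul_of_pos_left _ hn
    omega
  have hj : j₀ < n * i₀ + N * j₀ + 1 := by
    have : j₀ ≤ N * j₀ := Nat.le_mul_of_pos_left _ hN
    omega
  have hz : ∀ i j, ¬ (i = i₀ ∧ j = j₀) → (if n * i + N * j = n * i₀ + N * j₀ then
      (P.coeff i).coeff j * β ^ j * α ^ i else 0) = 0 := by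
    intro i j hij
    split_ifs with h
    · by_cases hiN : i < N
      · exact absurd ((hgap N n hN hn hc).2 i j i₀ j₀ hiN hi₀ h) hij
      · rw [hP i (by omega)]
        simp
    · rfl
  rw [Finset.sum_eq_single i₀, Finset.sum_eq_single j₀, if_pos rfl]
  · intro j _ hj'
    exact hz i₀ j fun h => hj' h.2
  · intro h
    exact absurd (Finset.mem_range.2 hj) h
  · intro i _ hi'
    exact Finset.sum_eq_zero fun j _ => hz i j fun h => hi' h.1
  · intro h
    exact absurd (Finset.mem_range.2 hi) h

theorem coeff_supp {N n : ℕ} (hN : 0 < N) (hn : 0 < n) (α β : R) (P : R[X][X]) (s : ℕ)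
    (h : (Ph N n α β P).coeff s ≠ 0) : s ∈ Sg N n := by
  rw [coeff_Ph hN hn] at h
  obtain ⟨i, _, hi⟩ := Finset.exists_ne_zero_of_sum_ne_zero h
  obtain ⟨j, _, hj⟩ := Finset.exists_ne_zero_of_sum_ne_zero hi
  have : n * i + N * j = s := by
    by_contra h'
    rw [if_neg h'] at hj
    exact hj rfl
  exact ⟨i, j, this.symm⟩

theorem rep {N n : ℕ} (hN : 0 < N) {s : ℕ} (hs : s ∈ Sg N n) :
    ∃ i j : ℕ, i < N ∧ s = n * i + N * j := by
  obtain ⟨i, j, rfl⟩ := hs
  refine ⟨i % N, j + n * (i / N), Nat.mod_lt _ hN, ?_⟩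
  have h := Nat.div_add_mod i N
  calc n * i + N * j = n * (N * (i / N) + i % N) + N * j := by rw [h]
    _ = _ := by ring

theorem bez {N n : ℕ} (hN : 0 < N) (hn : 0 < n) (hc : N.Coprime n) :
    ∃ a b : ℕ, a * N = 1 + b * n := by
  rcases Nat.lt_or_ge 1 n with h | h
  · obtain ⟨m, -, hm⟩ := Nat.exists_mul_mod_eq_one_of_coprime hc h
    refine ⟨m, N * m / n, ?_⟩
    have h1 := Nat.div_add_mod (N * m) n
    rw [hm] at h1
    have h2 : m * N = N * m := Nat.mul_comm _ _
    have h3 : N * m / n * n = n * (N * m / n) := Nat.mul_comm _ _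
    omega
  · have : n = 1 := by omega
    subst this
    exact ⟨1, N - 1, by omega⟩

/-- the top coefficient of `ff` vanishes -/
theorem Ph_ff (hgap : S_gap) {N n : ℕ} (hN : 0 < N) (hn : 0 < n) (hc : N.Coprime n)
    (v : Ix N n → R) (α β : R)
    (q₀ : Ix N n) (h0 : (q₀.1.1 : ℕ) = 0) (hn0 : (q₀.1.2 : ℕ) = n) (hαβ : α ^ N = - v q₀ * β ^ n) :
    (Ph N n α β (ff v)).coeff (N * n) = 0 := by
  unfold ff
  rw [map_add, map_sum, coeff_add, finsetSum_coeff]
  have h1 : (Ph N n α β (X ^ N)).coeff (N * n) = α ^ N := by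
    have h2 := Ph_mono N n α β N 0 (1 : R)
    rw [monomial_zero_left, C_1, ← X_pow_eq_monomial] at h2
    rw [h2, pow_zero, one_mul, one_mul, Nat.mul_zero, Nat.add_zero, Nat.mul_comm n N,
      coeff_C_mul, coeff_X_pow_self, mul_one]
  have h2 : ∀ q : Ix N n, (Ph N n α β (C (C (v q) * X ^ (q.1.2 : ℕ)) * X ^ (q.1.1 : ℕ))).coeff
      (N * n) = if q = q₀ then v q₀ * β ^ n else 0 := by
    intro q
    have h3 : (C (C (v q) * X ^ (q.1.2 : ℕ)) * X ^ (q.1.1 : ℕ) : R[X][X]) =
        monomial (q.1.1 : ℕ) (monomial (q.1.2 : ℕ) (v q)) := by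
      rw [C_mul_X_pow_eq_monomial, C_mul_X_pow_eq_monomial]
    rw [h3, Ph_mono, coeff_C_mul, coeff_X_pow]
    by_cases hq : q = q₀
    · rw [if_pos hq, hq, h0, hn0, Nat.mul_zero, Nat.zero_add, if_pos rfl, pow_zero, mul_one,
        mul_one]
    · rw [if_neg hq, if_neg, mul_zero]
      intro h4
      apply hq
      have h5 := (hgap N n hN hn hc).2 (q.1.1 : ℕ) (q.1.2 : ℕ) 0 n q.1.1.2 hN (by omega)
      apply Subtype.ext
      apply Prod.ext
      · exact Fin.ext (by rw [h5.1, h0])
      · exact Fin.ext (by rw [h5.2, hn0])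
  rw [h1, Finset.sum_congr rfl fun q _ => h2 q, Finset.sum_ite_eq' Finset.univ q₀,
    if_pos (Finset.mem_univ _), hαβ]
  ring

/-- the reduction -/
theorem red [Nontrivial R] {N n : ℕ} (hN : 0 < N) (hn : 0 < n)
    (v : Ix N n → R) (α β : R) (hff : (Ph N n α β (ff v)).coeff (N * n) = 0) (s : ℕ) (d : ℕ) :
    ∀ P : R[X][X], (∀ i, N + d ≤ i → P.coeff i = 0) → wle N n P s →
      wle N n (rp v (AdjoinRoot.mk (ff v) P)) s ∧
      (Ph N n α β (rp v (AdjoinRoot.mk (ff v) P))).coeff s = (Ph N n α β P).coeff s := by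
  induction d with
  | zero =>
    intro P hP hs
    have h1 : rp v (AdjoinRoot.mk (ff v) P) = P := by
      unfold rp
      rw [AdjoinRoot.modByMonicHom_mk, modByMonic_eq_self_iff (ff_monic v)]
      rw [degree_eq_natDegree (ff_monic v).ne_zero, ff_natDegree]
      rw [degree_lt_iff_coeff_zero]
      intro i hi
      exact hP i (by exact_mod_cast hi)
    rw [h1]
    exact ⟨hs, rfl⟩
  | succ d ih =>
    intro P hP hs
    set c := P.coeff (N + d) with hc
    set P' := P - C c * X ^ d * ff v with hP'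
    have hmk : AdjoinRoot.mk (ff v) P' = AdjoinRoot.mk (ff v) P := by
      rw [hP', map_sub, map_mul, AdjoinRoot.mk_self, mul_zero, sub_zero]
    by_cases hcz : c = 0
    · refine ih P (fun i hi => ?_) hs
      rcases Nat.lt_or_ge (N + d) i with h | h
      · exact hP i (by omega)
      · have : i = N + d := by omega
        rw [this]
        exact hcz
    -- the weight of the leading term
    have hNs : N * n ≤ s := by
      obtain ⟨j, hj⟩ : ∃ j, c.coeff j ≠ 0 := by
        by_contra h
        push Not at h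
        exact hcz (Polynomial.ext fun j => by rw [h j, coeff_zero])
      by_contra h
      push Not at h
      apply hj
      refine hs (N + d) j ?_
      have e1 : n * (N + d) = N * n + n * d := by ring
      omega
    have hQ : wle N n (C c * X ^ d : R[X][X]) (s - N * n) := by
      intro i j hij
      rw [coeff_C_mul_X_pow]
      split_ifs with h
      · subst h
        rw [hc]
        refine hs (N + i) j ?_
        have e1 : n * (N + i) = N * n + n * i := by ring
        omega
      · exact coeff_zero _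
    have hQf : wle N n (C c * X ^ d * ff v) s := by
      have := wle_mul hQ (wle_ff v)
      rwa [Nat.sub_add_cancel hNs] at this
    have h1 := ih P' (fun i hi => by
      rw [hP', coeff_sub, mul_assoc, coeff_C_mul, coeff_X_pow_mul', if_pos (by omega)]
      rcases Nat.lt_or_ge (N + d) i with h | h
      · rw [hP i (by omega), coeff_eq_zero_of_natDegree_lt (p := ff v)
          (by rw [ff_natDegree]; omega)]
        ring
      · have : i = N + d := by omega
        rw [this, Nat.add_sub_cancel]
        have h2 : (ff v).coeff N = 1 := by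
          have := (ff_monic v).coeff_natDegree
          rwa [ff_natDegree] at this
        rw [h2, hc]
        ring) (wle_sub hs hQf)
    rw [hmk] at h1
    refine ⟨h1.1, h1.2.trans ?_⟩
    rw [hP', map_sub, coeff_sub, map_mul (Ph N n α β) (C c * X ^ d)]
    have h3 := coeff_mul_add_eq_of_natDegree_le (natDegree_Ph_le hN hn α β hQ)
      (natDegree_Ph_le hN hn α β (wle_ff v))
    rw [Nat.sub_add_cancel hNs, hff, mul_zero] at h3
    rw [h3, sub_zero]

/-- the linear map -/
noncomputable def cfL {N n : ℕ} (v : Ix N n → R) : BB v →ₗ[R] R[X] where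
  toFun := cfp v
  map_add' a b := by
    unfold cfp
    rw [map_add, map_add]
  map_smul' c a := by
    unfold cfp
    have h1 : c • a = (C c : R[X]) • a := by
      rw [← algebraMap_smul R[X] c a]
      rfl
    rw [h1, map_smul]
    rw [RingHom.id_apply, smul_eq_C_mul c, cu_eq, cu_eq, smul_eq_C_mul (C c), map_mul]
    congr 1
    have := Ph_mono N n (1 : R) 1 0 0 c
    rw [monomial_zero_left, monomial_zero_left] at this
    rw [this]
    simp

end

end WtB

open WtB in
theorem s_wt (hgap : S_gap) : S_wt := by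
  intro N n hN hn hc R _ v hv
  rcases subsingleton_or_nontrivial R with hR | hR
  · have hB : Subsingleton (BB v) := Module.subsingleton R _
    refine ⟨{ cf := cfL v
              inj := fun a b _ => Subsingleton.elim a b
              supp := fun a s h => absurd (Subsingleton.elim _ _) h
              surj := fun s _ => ⟨0, Subsingleton.elim _ _⟩
              one := Subsingleton.elim _ _
              mul_le := fun a b s t _ _ => by
                rw [Subsingleton.elim (cfL v (a * b)) 0, natDegree_zero]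
                exact Nat.zero_le _
              lead := fun s _ t _ => ⟨1, isUnit_one, fun a b _ _ => Subsingleton.elim _ _⟩ },
      fun a => rfl⟩
  -- the parameters
  let q₀ : Ix N n := ⟨(⟨0, hN⟩, ⟨n, Nat.lt_succ_self n⟩), by simp⟩
  have hq0 : (q₀.1.1 : ℕ) = 0 := rfl
  have hqn : (q₀.1.2 : ℕ) = n := rfl
  have hu : IsUnit (- v q₀) := (hv q₀ hq0 hqn).neg
  obtain ⟨a, b, hab⟩ := bez hN hn hc
  set α : R := (- v q₀) ^ a with hα
  set β : R := (- v q₀) ^ b with hβ
  have hαu : IsUnit α := hu.pow a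
  have hβu : IsUnit β := hu.pow b
  have hαβ : α ^ N = - v q₀ * β ^ n := by
    rw [hα, hβ, ← pow_mul, ← pow_mul, hab, pow_add, pow_one]
  have hff := Ph_ff hgap hN hn hc v α β q₀ hq0 hqn hαβ
  have hrp : ∀ a : BB v, ∀ i, N ≤ i → (rp v a).coeff i = 0 := by
    intro a i hi
    obtain ⟨P, rfl⟩ := AdjoinRoot.mk_surjective a
    unfold rp
    rw [AdjoinRoot.modByMonicHom_mk]
    apply coeff_eq_zero_of_degree_lt
    refine lt_of_lt_of_le (degree_modByMonic_lt P (ff_monic v)) ?_
    rw [degree_eq_natDegree (ff_monic v).ne_zero, ff_natDegree]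
    exact_mod_cast hi
  have hmk : ∀ a : BB v, AdjoinRoot.mk (ff v) (rp v a) = a := fun a =>
    AdjoinRoot.mk_leftInverse (ff_monic v) a
  have hself : ∀ P : R[X][X], (∀ i, N ≤ i → P.coeff i = 0) → rp v (AdjoinRoot.mk (ff v) P) = P := by
    intro P hP
    unfold rp
    rw [AdjoinRoot.modByMonicHom_mk, modByMonic_eq_self_iff (ff_monic v)]
    rw [degree_eq_natDegree (ff_monic v).ne_zero, ff_natDegree, degree_lt_iff_coeff_zero]
    intro i hi
    exact hP i (by exact_mod_cast hi)
  have hcf : ∀ (a : BB v) (i j : ℕ), i < N →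
      (cfp v a).coeff (n * i + N * j) = ((rp v a).coeff i).coeff j := by
    intro a i j hi
    unfold cfp
    rw [cu_eq, coeff_red hgap hN hn hc 1 1 (hrp a) hi]
    ring
  have hPh : ∀ (a : BB v) (i j : ℕ), i < N →
      (Ph N n α β (rp v a)).coeff (n * i + N * j) =
        (cfp v a).coeff (n * i + N * j) * (β ^ j * α ^ i) := by
    intro a i j hi
    rw [coeff_red hgap hN hn hc α β (hrp a) hi, hcf a i j hi]
    ring
  have hwle : ∀ (a : BB v) (s : ℕ), (cfp v a).natDegree ≤ s → wle N n (rp v a) s := by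
    intro a s hs i j hij
    rcases Nat.lt_or_ge i N with h | h
    · rw [← hcf a i j h]
      exact coeff_eq_zero_of_natDegree_lt (lt_of_le_of_lt hs hij)
    · rw [hrp a i h, coeff_zero]
  have hprod : ∀ (a b : BB v) (s t : ℕ), (cfp v a).natDegree ≤ s → (cfp v b).natDegree ≤ t →
      wle N n (rp v (a * b)) (s + t) ∧
      (Ph N n α β (rp v (a * b))).coeff (s + t) =
        (Ph N n α β (rp v a)).coeff s * (Ph N n α β (rp v b)).coeff t := by
    intro a b s t ha hb
    have h1 := hwle a s ha
    have h2 := hwle b t hb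
    have h3 := red hN hn v α β hff (s + t) (2 * N) (rp v a * rp v b) (by
      intro i hi
      rw [coeff_mul]
      refine Finset.sum_eq_zero fun p hp => ?_
      rw [Finset.HasAntidiagonal.mem_antidiagonal] at hp
      rcases Nat.lt_or_ge p.1 N with h | h
      · rw [hrp b p.2 (by omega), mul_zero]
      · rw [hrp a p.1 h, zero_mul]) (wle_mul h1 h2)
    rw [map_mul, hmk, hmk] at h3
    refine ⟨h3.1, h3.2.trans ?_⟩
    rw [map_mul]
    exact coeff_mul_add_eq_of_natDegree_le (natDegree_Ph_le hN hn α β h1) (natDegree_Ph_le hN hn α β h2)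
  refine ⟨{ cf := cfL v
            inj := ?_
            supp := ?_
            surj := ?_
            one := ?_
            mul_le := ?_
            lead := ?_ }, fun a => rfl⟩
  · rw [injective_iff_map_eq_zero]
    intro a ha
    have ha' : cfp v a = 0 := ha
    have h1 : rp v a = 0 := by
      ext i j
      rw [coeff_zero, coeff_zero]
      rcases Nat.lt_or_ge i N with h | h
      · rw [← hcf a i j h, ha', coeff_zero]
      · rw [hrp a i h, coeff_zero]
    rw [← hmk a, h1, map_zero]
  · intro a s h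
    have h' : (cfp v a).coeff s ≠ 0 := h
    unfold cfp at h'
    rw [cu_eq] at h'
    exact coeff_supp hN hn 1 1 _ s h'
  · intro s hs
    obtain ⟨i, j, hi, rfl⟩ := rep hN hs
    refine ⟨AdjoinRoot.mk (ff v) (monomial i (monomial j (1 : R))), ?_⟩
    show cfp v _ = _
    unfold cfp
    rw [hself _ (fun i' hi' => by rw [coeff_monomial, if_neg (by omega)]), cu_eq, Ph_mono]
    simp
  · show cfp v 1 = 1
    unfold cfp
    rw [← map_one (AdjoinRoot.mk (ff v)), hself _ (fun i' hi' => by
      rw [coeff_one, if_neg (by omega)]), map_one]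
  · intro a b s t ha hb
    have h1 := (hprod a b s t ha hb).1
    show (cfp v (a * b)).natDegree ≤ s + t
    unfold cfp
    rw [cu_eq]
    exact natDegree_Ph_le hN hn 1 1 h1
  · intro s hs t ht
    obtain ⟨i, j, hi, hs'⟩ := rep hN hs
    obtain ⟨i', j', hi', ht'⟩ := rep hN ht
    obtain ⟨i₂, j₂, hi₂, hst⟩ := rep hN ((Sg N n).add_mem hs ht)
    obtain ⟨w, hw⟩ := (hβu.pow j₂).mul (hαu.pow i₂)
    refine ⟨(β ^ j * α ^ i) * (β ^ j' * α ^ i') * ((w⁻¹ : Rˣ) : R), ?_, ?_⟩
    · exact (((hβu.pow j).mul (hαu.pow i)).mul ((hβu.pow j').mul (hαu.pow i'))).mul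
        (Units.isUnit w⁻¹)
    · intro a b ha hb
      show (cfp v (a * b)).coeff (s + t) = _ * ((cfp v a).coeff s * (cfp v b).coeff t)
      have h1 := (hprod a b s t ha hb).2
      have h2 : (Ph N n α β (rp v (a * b))).coeff (s + t) =
          (cfp v (a * b)).coeff (s + t) * (w : R) := by
        rw [hw, hst]
        exact hPh (a * b) i₂ j₂ hi₂
      have h3 : (Ph N n α β (rp v a)).coeff s = (cfp v a).coeff s * (β ^ j * α ^ i) := by
        rw [hs']
        exact hPh a i j hi
      have h4 : (Ph N n α β (rp v b)).coeff t = (cfp v b).coeff t * (β ^ j' * α ^ i') := by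
        rw [ht']
        exact hPh b i' j' hi'
      rw [h2, h3, h4] at h1
      calc (cfp v (a * b)).coeff (s + t) = (cfp v (a * b)).coeff (s + t) * (w : R) *
            ((w⁻¹ : Rˣ) : R) := by rw [mul_assoc, Units.mul_inv, mul_one]
        _ = _ := by rw [h1]; ring

end Pool.Agent.NH7.AC
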