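import Pool.Agent.NH7.AC.AlgP
import Pool.Agent.NH7.AC.BcP
import Pool.Agent.NH7.AC.CmP
import Pool.Agent.NH7.AC.CstP
import Pool.Agent.NH7.AC.Cu1P
import Pool.Agent.NH7.AC.Cu2P
import Pool.Agent.NH7.AC.DTP
import Pool.Agent.NH7.AC.DedP
import Pool.Agent.NH7.AC.Dens
import Pool.Agent.NH7.AC.DerP
import Pool.Agent.NH7.AC.DimP
import Pool.Agent.NH7.AC.DomP
import Pool.Agent.NH7.AC.EisP
import Pool.Agent.NH7.AC.FinP
import Pool.Agent.NH7.AC.Gap
import Pool.Agent.NH7.AC.KerP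
import Pool.Agent.NH7.AC.LLP
import Pool.Agent.NH7.AC.Loc
import Pool.Agent.NH7.AC.MinP
import Pool.Agent.NH7.AC.MpP
import Pool.Agent.NH7.AC.MulP
import Pool.Agent.NH7.AC.NatP
import Pool.Agent.NH7.AC.NwP
import Pool.Agent.NH7.AC.OutP
import Pool.Agent.NH7.AC.PolP
import Pool.Agent.NH7.AC.RecP
import Pool.Agent.NH7.AC.RigP
import Pool.Agent.NH7.AC.SmP
import Pool.Agent.NH7.AC.SmoP
import Pool.Agent.NH7.AC.SolP
import Pool.Agent.NH7.AC.StAP
import Pool.Agent.NH7.AC.StBP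
import Pool.Agent.NH7.AC.StdP
import Pool.Agent.NH7.AC.TrP
import Pool.Agent.NH7.AC.TriP
import Pool.Agent.NH7.AC.WtB

/-!
# Project AC: 100 percent of the curves are good
-/

set_option autoImplicit false

namespace Pool.Agent.NH7.AC

open Polynomial Module Pool.Agent.W275.UB NumberField

theorem dom' : S_dom := s_dom
theorem dim' : S_dim := s_dim dom'
theorem tri' : S_tri := s_tri dom'
theorem dt' : S_DT := s_dt dom' dim' s_mul tri'
theorem wt' : S_wt := s_wt s_gap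
theorem pol' : S_pol := s_pol s_gap
theorem out' : S_out := s_out s_gap pol' dom' dim' s_ker (s_rec dom' dim' s_mul)
theorem cst' : S_cst := s_cst s_gap wt' pol' dom' dim' out' s_der s_rig
theorem nw' : S_nw := s_nw dom' tri'
theorem sm' : S_sm := s_sm dom' dim' tri'
theorem LL' : S_LL := s_LL dom' dim' s_mul tri' dt' nw' sm'
theorem stB' : S_stB := s_stB dom' dim' s_mul tri' dt' (s_cu1 dom' dim') s_cu2
theorem loc' : S_loc := s_loc s_gap wt' s_bc (s_cm s_gap) tri' s_stA stB' LL' (s_eis s_gap)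
theorem min' : S_min := s_min dom' dim' s_mul
theorem mp' : S_mp := s_mp dom' dim'
theorem std' : S_std := s_std s_gap dom' dim' pol'
theorem sol' : S_sol := s_sol s_gap dom' pol'
theorem smo' : S_smo := s_smo (s_fin s_gap)

/-- **100% of the curves are good.** -/
theorem good {N n p : ℕ} (hN : 0 < N) (hn : 0 < n) (hc : N.Coprime n) (hp : p.Prime)
    {k J : Type} [Field k] [NumberField k] [Fintype J] (ω : Module.Basis J ℤ (𝓞 k)) :
    D0 {x : Ix N n × J → ℤ | ¬ Good p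
      (ff (cv (fun j => algebraMap (𝓞 k) k (ω j)) fun q => (x q : k)))} :=
  good_D0 s_gap wt' dom' smo' s_ded min' mp' s_nat std' sol' out' cst' s_alg loc' s_tr hN hn hc hp ω

/-- the same for tuples of integers of `k` -/
theorem good_dens {N n p : ℕ} (hN : 0 < N) (hn : 0 < n) (hc : N.Coprime n) (hp : p.Prime)
    {k I : Type} [Field k] [NumberField k] [Fintype I] (B : Module.Basis I ℤ (𝓞 k)) {η : ℝ}
    (hη : 0 < η) (P : (Ix N n → 𝓞 k) → Prop)
    (hP : ∀ c, Good p (ff fun q => algebraMap (𝓞 k) k (c q)) → P c) :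
    ∃ H₀ : ℕ, ∀ H : ℕ, H₀ ≤ H →
      ({c : Ix N n → 𝓞 k | (∀ q j, |B.repr (c q) j| ≤ (H : ℤ)) ∧ ¬ P c}.ncard : ℝ) ≤
        η * ((2 * (H : ℝ) + 1) ^ Fintype.card (Ix N n)) ^ Fintype.card I := by
  refine dens B (good hN hn hc hp B) hη fun c hc' => ?_
  intro hg
  apply hc'
  apply hP
  rw [cv_repr] at hg
  exact hg

end Pool.Agent.NH7.AC
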