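import Pool.Agent.NH7.AC.TriP

/-!
# Project AC: step B
-/

set_option autoImplicit false

namespace Pool.Agent.NH7.AC

open Polynomial Module TriP

theorem s_stB (hdom : S_dom) (hdim : S_dim) (hmul : S_mul) (htri : S_tri) (hDT : S_DT)
    (hcu1 : S_cu1) (hcu2 : S_cu2) : S_stB := by
  intro S F hF V k κ O B Bb _ _ _ _ _ _ _ _ _ _ _ _ _ _ T p hp hpV hmulc 𝔠 hc0 hcp δ hδ hδ1
  obtain ⟨hO, hinj, hsurj, h4, h5, h6, h7, h8, h9, h10⟩ := htri S V k κ O B Bb T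
  have hdk := hdom S k B T.Wk
  have hdκ := hdom S κ Bb T.Wb
  have := hdk.1
  have := hdκ.1
  set J : Ideal Bb := (𝔠.comap T.ι).map T.ρ with hJ
  have hJmem : ∀ b : Bb, b ∈ J ↔ ∃ h, T.ι h ∈ 𝔠 ∧ T.ρ h = b := by
    intro b
    rw [hJ, Ideal.mem_map_iff_of_surjective _ hsurj]
    rfl
  have hδJ : T.ρ δ ∈ J := Ideal.mem_map_of_mem _ hδ
  obtain ⟨b, hb0, hbJ, ⟨Y, hY⟩, hbpow⟩ := hcu1 S F hF κ Bb T.Wb hmulc J (T.ρ δ) hδJ hδ1
  -- the generator of `𝔠 ^ p`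
  obtain ⟨a, ha⟩ := hcp
  have ha' : 𝔠 ^ p = Ideal.span {a} := ha
  have ha0 : a ≠ 0 := by
    rintro rfl
    rw [Ideal.span_singleton_eq_bot.2 rfl] at ha'
    exact pow_ne_zero p hc0 ha'
  obtain ⟨c, α, hc, haα, hα⟩ := h9 a ha0
  have hcα : 𝔠 ^ p = Ideal.span {T.ι α} := by
    rw [ha', haα]
    refine le_antisymm ?_ ?_
    · rw [Ideal.span_singleton_le_iff_mem]
      exact Ideal.mul_mem_left _ _ (Ideal.mem_span_singleton_self _)
    · rw [Ideal.span_singleton_le_iff_mem, Ideal.mem_span_singleton]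
      refine ⟨algebraMap k B c⁻¹, ?_⟩
      rw [mul_comm, ← mul_assoc, ← map_mul, inv_mul_cancel₀ hc, map_one, one_mul]
  have hJp : J ^ p ≤ Ideal.span {T.ρ α} := by
    rw [hJ, ← Ideal.map_pow, Ideal.map_le_iff_le_comap]
    intro h hh
    have e1 : T.ι h ∈ 𝔠 ^ p := by
      have e2 : T.ι h ∈ ((𝔠.comap T.ι) ^ p).map T.ι := Ideal.mem_map_of_mem _ hh
      rw [Ideal.map_pow] at e2
      exact Ideal.pow_right_mono Ideal.map_comap_le p e2
    rw [hcα, Ideal.mem_span_singleton] at e1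
    obtain ⟨x, hx⟩ := e1
    obtain ⟨x', rfl⟩ := h10 α h x hα hx.symm
    rw [Ideal.mem_comap, Ideal.mem_span_singleton]
    refine ⟨T.ρ x', ?_⟩
    rw [← map_mul]
    congr 1
    apply hinj
    rw [map_mul]
    exact hx
  have hdvd := hbpow (T.ρ α) p hJp
  have hbne : b ≠ 0 := by
    rintro rfl
    rw [coeff_zero] at hb0
    exact zero_ne_one hb0
  have hcfα : T.Wb.cf (T.ρ α) ≠ 0 := fun h => hα (T.Wb.inj (h.trans (map_zero _).symm))
  have hdeg : (T.Wb.cf (T.ρ α)).natDegree ≤ p * b.natDegree := by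
    rw [← natDegree_pow]
    exact natDegree_le_of_dvd hdvd (pow_ne_zero _ hbne)
  obtain ⟨hdeg', -⟩ := hDT S F hF V k κ O B Bb T p hp 𝔠 α b.natDegree hc0 hcα hα
    ⟨Y, fun y hy => (hY y hy).le⟩ hdeg
  obtain ⟨e, he⟩ := hdvd
  have he0 : e ≠ 0 := by
    rintro rfl
    rw [mul_zero] at he
    exact pow_ne_zero _ hbne he
  have hedeg : e.natDegree = 0 := by
    have h1 := congrArg natDegree he
    rw [natDegree_pow, natDegree_mul hcfα he0, hdeg'] at h1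
    omega
  have heC := eq_C_of_natDegree_eq_zero hedeg
  have hbpS : ∀ s, (b ^ p).coeff s ≠ 0 → s ∈ S := by
    intro s hs
    rw [he, heC, coeff_mul_C] at hs
    exact T.Wb.supp _ s (left_ne_zero_of_mul hs)
  have hpκ : (p : κ) ≠ 0 := by
    have h1 : IsUnit (T.r (p : V)) := hpV.map T.r
    rw [map_natCast] at h1
    exact h1.ne_zero
  obtain ⟨hc1, hc2⟩ := hcu2 S κ p hp hpκ b hb0
  have hbS := hc1 hbpS
  obtain ⟨β, hβ⟩ := exists_cf T.Wb b hbS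
  refine ⟨⟨β, ?_⟩⟩
  change J = Ideal.span {β}
  refine le_antisymm ?_ ?_
  · intro a' ha'J
    obtain ⟨u, hu⟩ := (hbJ a').1 ha'J
    obtain ⟨x, hx⟩ := exists_cf T.Wb u (hc2 u hbS (by
      intro s hs
      rw [← hu] at hs
      exact T.Wb.supp _ s hs))
    rw [Ideal.mem_span_singleton]
    refine ⟨x, T.Wb.inj ?_⟩
    rw [hmulc, hβ, hx, hu]
  · rw [Ideal.span_singleton_le_iff_mem, hbJ, hβ]

end Pool.Agent.NH7.AC
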